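import Mathlib
import Pool.Agent.Lib.MP_90787a_nt.Places

/-!
Restriction of a finite place to a subfield.
-/
set_option autoImplicit false

namespace Pool.Agent.MP90787a.G

open Polynomial NumberField Height Pool.Agent.UBC90787a

namespace Places

variable {K L : Type} [Field K] [NumberField K] [Field L] [NumberField L]

/-- The prime below. -/
noncomputable def below (φ : K →+* L) (w : FinitePlace L) :
    IsDedekindDomain.HeightOneSpectrum (𝓞 K) where
  asIdeal := Ideal.comap (RingOfIntegers.mapRingHom φ) w.maximalIdeal.asIdeal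
  isPrime := Ideal.IsPrime.comap _
  ne_bot := by
    intro h
    have h1 : ((Ideal.absNorm w.maximalIdeal.asIdeal : ℕ) : 𝓞 K) ∈
        Ideal.comap (RingOfIntegers.mapRingHom φ) w.maximalIdeal.asIdeal := by
      rw [Ideal.mem_comap, map_natCast]
      exact Ideal.absNorm_mem _
    rw [h, Ideal.mem_bot] at h1
    have h2 : Ideal.absNorm w.maximalIdeal.asIdeal = 0 := by exact_mod_cast h1
    have h3 := two_le_qv w
    unfold qv at h3
    omega

lemma mem_below (φ : K →+* L) (w : FinitePlace L) (x : 𝓞 K) :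
    x ∈ (below φ w).asIdeal ↔ RingOfIntegers.mapRingHom φ x ∈ w.maximalIdeal.asIdeal := Iff.rfl

lemma val_lt_one (w : FinitePlace L) (x : 𝓞 L) :
    w (x : L) < 1 ↔ x ∈ w.maximalIdeal.asIdeal := by
  rw [← FinitePlace.norm_embedding_eq]
  exact FinitePlace.norm_lt_one_iff_mem L w.maximalIdeal x

lemma val_le_one (w : FinitePlace L) (x : 𝓞 L) : w (x : L) ≤ 1 := by
  rw [← FinitePlace.norm_embedding_eq]
  exact FinitePlace.norm_le_one L w.maximalIdeal x

end Places

open Places

theorem exists_restrict {K L : Type} [Field K] [NumberField K] [Field L] [NumberField L]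
    (φ : K →+* L) (w : FinitePlace L) :
    ∃ (v : FinitePlace K) (s : ℝ), 0 < s ∧ ∀ x : K, w (φ x) = v x ^ s := by
  set v : FinitePlace K := FinitePlace.mk (below φ w) with hv
  have hmax : v.maximalIdeal = below φ w := FinitePlace.maximalIdeal_mk _
  have hlt : ∀ x : 𝓞 K, v (x : K) < 1 ↔ w (φ (x : K)) < 1 := by
    intro x
    rw [val_lt_one v x, hmax, mem_below, ← val_lt_one w]
    rfl
  have hle : ∀ x : 𝓞 K, v (x : K) ≤ 1 := fun x => val_le_one v x
  have hle' : ∀ x : 𝓞 K, w (φ (x : K)) ≤ 1 := fun x =>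
    val_le_one w (RingOfIntegers.mapRingHom φ x)
  have hnt : (v.val).IsNontrivial := by
    refine ⟨((Ideal.absNorm w.maximalIdeal.asIdeal : ℕ) : K), ?_, ?_⟩
    · have h3 := two_le_qv w
      unfold qv at h3
      exact_mod_cast (by omega : Ideal.absNorm w.maximalIdeal.asIdeal ≠ 0)
    · have h1 : ((Ideal.absNorm w.maximalIdeal.asIdeal : ℕ) : 𝓞 K) ∈ v.maximalIdeal.asIdeal := by
        rw [hmax, mem_below, map_natCast]
        exact Ideal.absNorm_mem _
      have h2 := (val_lt_one v _).2 h1
      rw [FinitePlace.coe_apply] at h2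
      have h4 : (((Ideal.absNorm w.maximalIdeal.asIdeal : ℕ) : 𝓞 K) : K) =
          ((Ideal.absNorm w.maximalIdeal.asIdeal : ℕ) : K) := by simp
      rw [h4] at h2
      exact h2.ne
  have hequiv : (v.val).IsEquiv (w.val.comp φ.injective) := by
    refine AbsoluteValue.isEquiv_of_lt_one_imp hnt (fun x hx => ?_)
    change w (φ x) < 1
    have hx' : v x < 1 := hx
    obtain ⟨n, d, hnd | hnd⟩ :=
      IsDedekindDomain.HeightOneSpectrum.exists_primeCompl_mul_eq_or_mul_eq (below φ w) x
    · have hd : ¬ v ((d : 𝓞 K) : K) < 1 := by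
        rw [val_lt_one, hmax]; exact d.2
      have hd1 : v ((d : 𝓞 K) : K) = 1 := le_antisymm (hle _) (not_lt.1 hd)
      have hwd : w (φ ((d : 𝓞 K) : K)) = 1 :=
        le_antisymm (hle' _) (not_lt.1 (fun h => hd ((hlt _).2 h)))
      have hn : v ((n : 𝓞 K) : K) < 1 := by
        have : v (x * ((d : 𝓞 K) : K)) = v ((n : 𝓞 K) : K) := congrArg v hnd
        rw [map_mul, hd1, mul_one] at this
        rw [← this]; exact hx'
      have hwn := (hlt n).1 hn
      have h6 : w (φ (x * ((d : 𝓞 K) : K))) = w (φ ((n : 𝓞 K) : K)) :=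
        congrArg (fun y => w (φ y)) hnd
      rw [map_mul, map_mul, hwd, mul_one] at h6
      rw [h6]; exact hwn
    · exfalso
      have hd : ¬ v ((d : 𝓞 K) : K) < 1 := by
        rw [val_lt_one, hmax]; exact d.2
      have h6 : v (x * ((n : 𝓞 K) : K)) = v ((d : 𝓞 K) : K) := congrArg v hnd
      rw [map_mul] at h6
      apply hd
      rw [← h6]
      calc v x * v ((n : 𝓞 K) : K) ≤ v x * 1 :=
            mul_le_mul_of_nonneg_left (hle n) (apply_nonneg v x)
        _ < 1 := by rw [mul_one]; exact hx'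
  obtain ⟨s, hs, h⟩ := AbsoluteValue.isEquiv_iff_exists_rpow_eq.1 hequiv
  refine ⟨v, s, hs, fun x => ?_⟩
  have := congrFun h x
  exact this.symm

end Pool.Agent.MP90787a.G
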