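import Pool.Agent.Lib.MP_90787a_nt.G.Ell
import Pool.Agent.Lib.MP_90787a_nt.T.PackEven

set_option autoImplicit false

/-!
The kissing theorem for `T = A ^ n` with a square value of the product of four linear forms.
-/

namespace Pool.Agent.MP90787a.G

open Polynomial NumberField Height Pool.Agent.UBC90787a

namespace KissEven

open Pool.Agent.MP90787a.T

section val

variable {L : Type} [Field L] [NumberField L]

/-- Exactly one factor of `x ^ n - y ^ n` carries the valuation. -/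
lemma one_factor (v : FinitePlace L) {n : ℕ} (hn : 0 < n) {ω : L} (hω : IsPrimitiveRoot ω n)
    (hu : ∀ i j : Fin n, i ≠ j → v (ω ^ (i : ℕ) - ω ^ (j : ℕ)) = 1) {x y : L} (hy : v y = 1)
    {θ : ℝ} (hθ : θ < 1) (h : v (x ^ n - y ^ n) ≤ θ) :
    ∃ j : Fin n, v (x - ω ^ (j : ℕ) * y) ≤ θ := by
  have hprod := pow_sub_pow_prod hn hω x y
  have h1 : v (∏ j : Fin n, (x - ω ^ (j : ℕ) * y)) < 1 := by
    rw [← hprod]
    exact lt_of_le_of_lt h hθ
  obtain ⟨j, -, hj⟩ := exists_lt_of_prod_lt v Finset.univ _ h1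
  refine ⟨j, ?_⟩
  have h2 : v (∏ j : Fin n, (x - ω ^ (j : ℕ) * y)) = v (x - ω ^ (j : ℕ) * y) := by
    rw [map_prod, ← Finset.mul_prod_erase _ _ (Finset.mem_univ j), Finset.prod_eq_one, mul_one]
    intro i hi
    have hij : j ≠ i := (Finset.ne_of_mem_erase hi).symm
    have h3 : x - ω ^ (i : ℕ) * y = (ω ^ (j : ℕ) - ω ^ (i : ℕ)) * y + (x - ω ^ (j : ℕ) * y) := by
      ring
    have h4 : v ((ω ^ (j : ℕ) - ω ^ (i : ℕ)) * y) = 1 := by rw [map_mul, hu j i hij, hy, one_mul]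
    rw [h3, v_add_eq v (by rw [h4]; exact hj), h4]
  rw [← h2, ← hprod]
  exact h

/-- Close points have the same type. -/
lemma close_types (v : FinitePlace L) {θ : ℝ} (hθ0 : 0 < θ) (hθ1 : θ < 1) {T₀ : L} {s : Set L}
    (h : ∀ T ∈ s, Close v θ T₀ T) :
    (∀ T ∈ s, v T ≤ θ) ∨ (∀ T ∈ s, v (1 - T) ≤ θ) ∨ (∀ T ∈ s, θ⁻¹ ≤ v T) ∨
      (∀ T ∈ s, v T = 1 ∧ v (1 - T) = 1 ∧ v (T₀ - T) ≤ θ) := by
  have hinv : 1 < θ⁻¹ := (one_lt_inv₀ hθ0).mpr hθ1
  have h01 : v T₀ ≤ θ → v (1 - T₀) ≤ θ → False := by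
    intro h1 h2
    have h3 : v (1 : L) ≤ θ := by
      have h4 : (1 : L) = (1 - T₀) + T₀ := by ring
      rw [h4]
      exact (v_add_le v _ _).trans (max_le h2 h1)
    rw [map_one] at h3
    linarith
  have h1i : v (1 - T₀) ≤ θ → θ⁻¹ ≤ v T₀ → False := by
    intro h1 h2
    have h3 : v T₀ ≤ 1 := by
      have h4 : T₀ = 1 - (1 - T₀) := by ring
      rw [h4]
      exact (v_sub_le v _ _).trans (max_le (by rw [map_one]) (h1.trans hθ1.le))
    linarith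
  by_cases c0 : v T₀ ≤ θ
  · left
    intro T hT
    rcases h T hT with h' | h' | h' | h'
    · exact h'.2
    · exact (h01 c0 h'.1).elim
    · linarith [h'.1]
    · linarith [h'.1]
  by_cases c1 : v (1 - T₀) ≤ θ
  · right; left
    intro T hT
    rcases h T hT with h' | h' | h' | h'
    · exact absurd h'.1 c0
    · exact h'.2
    · exact (h1i c1 h'.1).elim
    · linarith [h'.2.1]
  by_cases c2 : θ⁻¹ ≤ v T₀
  · right; right; left
    intro T hT
    rcases h T hT with h' | h' | h' | h'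
    · exact absurd h'.1 c0
    · exact absurd h'.1 c1
    · exact h'.2
    · linarith [h'.1]
  · right; right; right
    intro T hT
    rcases h T hT with h' | h' | h' | h'
    · exact absurd h'.1 c0
    · exact absurd h'.1 c1
    · exact absurd h'.1 c2
    · exact ⟨h'.2.2.1, h'.2.2.2.1, h'.2.2.2.2⟩

/-- Among three points with close `x`-coordinates and units as `y`-coordinates two are close. -/
lemma three_step [DecidableEq L] (v : FinitePlace L) {e₁ e₂ e₃ : L} (h2 : v (2 : L) = 1)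
    (he₁ : v e₁ ≤ 1) (he₂ : v e₂ ≤ 1) (he₃ : v e₃ ≤ 1) {τ : ℝ} (hτ0 : 0 < τ) (hτ1 : τ < 1)
    {C : Finset (WE e₁ e₂ e₃).toAffine.Point} (hC : 2 < C.card)
    (x y : (WE e₁ e₂ e₃).toAffine.Point → L)
    (hP : ∀ P ∈ C, ∃ h : (WE e₁ e₂ e₃).toAffine.Nonsingular (x P) (y P),
      P = WeierstrassCurve.Affine.Point.some (x P) (y P) h)
    (hcur : ∀ P ∈ C, y P ^ 2 = (x P - e₁) * (x P - e₂) * (x P - e₃))
    (hxne : ∀ P ∈ C, ∀ Q ∈ C, P ≠ Q → x P ≠ x Q)
    (hx : ∀ P ∈ C, v (x P) ≤ 1) (hy : ∀ P ∈ C, v (y P) = 1)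
    (hxx : ∀ P ∈ C, ∀ Q ∈ C, v (x P - x Q) ≤ τ) :
    ∃ P ∈ C, ∃ Q ∈ C, -Real.log τ ≤ psi v (P - Q) := by
  obtain ⟨P₁, P₂, P₃, m1, m2, m3, h12, h13, h23⟩ := Finset.two_lt_card_iff.mp hC
  have hpair : ∀ P ∈ C, ∀ Q ∈ C, v (y P - y Q) < 1 ∨ v (y P + y Q) < 1 := fun P mP Q mQ =>
    sq_pair v (hcur P mP) (hcur Q mQ) he₁ he₂ he₃ (hx P mP) (hx Q mQ)
      (lt_of_le_of_lt (hxx P mP Q mQ) hτ1)
  have hfin : ∀ P ∈ C, ∀ Q ∈ C, P ≠ Q → v (y P - y Q) < 1 → -Real.log τ ≤ psi v (P - Q) := by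
    intro P mP Q mQ hPQ hY
    obtain ⟨nP, eP⟩ := hP P mP
    obtain ⟨nQ, eQ⟩ := hP Q mQ
    rw [eP, eQ]
    refine psi_ge v nP nQ (hxne P mP Q mQ hPQ) ?_ hτ1 (v_sum_eq_one v h2 (hy P mP) hY)
      (le1_add v (le1_add v he₁ he₂) he₃) (hx P mP) (hx Q mQ)
    have h3 := hxx P mP Q mQ
    have h4 : v (x P - x Q) ^ 2 ≤ τ ^ 2 := pow_le_pow_left₀ (v_nonneg v _) h3 2
    nlinarith
  rcases sq_three v (hpair P₁ m1 P₂ m2) (hpair P₁ m1 P₃ m3) with h | h | h
  · exact ⟨P₁, m1, P₂, m2, hfin P₁ m1 P₂ m2 h12 h⟩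
  · exact ⟨P₁, m1, P₃, m3, hfin P₁ m1 P₃ m3 h13 h⟩
  · exact ⟨P₂, m2, P₃, m3, hfin P₂ m2 P₃ m3 h23 h⟩

/-- The local estimate. -/
lemma even_local [DecidableEq L] (v : FinitePlace L) {n : ℕ} (hn : 4 ≤ n) {ω : L}
    (hω : IsPrimitiveRoot ω n) (h2 : v (2 : L) = 1)
    (hu : ∀ i j : Fin n, i ≠ j → v (ω ^ (i : ℕ) - ω ^ (j : ℕ)) = 1)
    {b₀ b₁ b₂ b₃ : L} (hb₀ : b₀ = ω ^ 0) (hb₁ : b₁ = ω ^ 1) (hb₂ : b₂ = ω ^ 2)
    (hb₃ : b₃ = ω ^ 3) {θ : ℝ} (hθ0 : 0 < θ) (hθ1 : θ < 1)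
    {B : Finset (WE (-((b₃ - b₁) * (b₃ - b₂))) (-((b₃ - b₀) * (b₃ - b₂)))
      (-((b₃ - b₀) * (b₃ - b₁)))).toAffine.Point} (hB : 2 * n < B.card)
    (a : (WE (-((b₃ - b₁) * (b₃ - b₂))) (-((b₃ - b₀) * (b₃ - b₂)))
      (-((b₃ - b₀) * (b₃ - b₁)))).toAffine.Point → L)
    (ha : ∀ P ∈ B, ∀ Q ∈ B, P ≠ Q → a P ≠ a Q)
    (hP : ∀ P ∈ B, Rel b₀ b₁ b₂ b₃ (a P) P)
    (hcl : ∀ P ∈ B, ∀ Q ∈ B, Close v θ (a P ^ n) (a Q ^ n)) :
    ∃ P ∈ B, ∃ Q ∈ B, -Real.log θ / n ≤ psi v (P - Q) := by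
  classical
  have hn0 : n ≠ 0 := by omega
  -- the root of `θ`
  obtain ⟨τ, hτdef⟩ : ∃ τ : ℝ, τ = θ ^ ((n : ℝ)⁻¹) := ⟨_, rfl⟩
  have hτ0 : 0 < τ := by rw [hτdef]; exact Real.rpow_pos_of_pos hθ0 _
  have hτn : τ ^ n = θ := by rw [hτdef]; exact Real.rpow_inv_natCast_pow hθ0.le hn0
  have hτ1 : τ < 1 := by
    by_contra hcon
    push Not at hcon
    have := one_le_pow₀ hcon (n := n)
    linarith
  have hlog : -Real.log θ / n = -Real.log τ := by
    rw [← hτn, Real.log_pow]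
    have : (n : ℝ) ≠ 0 := by exact_mod_cast hn0
    field_simp
  have hθτ2 : θ ≤ τ ^ 2 := by
    rw [← hτn]
    exact pow_le_pow_of_le_one hτ0.le hτ1.le (by omega)
  have hθτ : θ ≤ τ := by nlinarith
  have hlogle : -Real.log τ ≤ -Real.log θ := by
    have := Real.log_le_log hθ0 hθτ
    linarith
  rw [hlog]
  -- units
  have hωv : v ω = 1 := v_root_one v hn0 hω.pow_eq_one
  have hωk : ∀ k : ℕ, v (ω ^ k) = 1 := fun k => by rw [map_pow, hωv, one_pow]
  have vb : ∀ i j : ℕ, i < n → j < n → i ≠ j → v (ω ^ i - ω ^ j) = 1 := fun i j hi hj hij =>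
    hu ⟨i, hi⟩ ⟨j, hj⟩ (by simpa [Fin.ext_iff] using hij)
  have h30 : v (b₃ - b₀) = 1 := by rw [hb₃, hb₀]; exact vb 3 0 (by omega) (by omega) (by omega)
  have h31 : v (b₃ - b₁) = 1 := by rw [hb₃, hb₁]; exact vb 3 1 (by omega) (by omega) (by omega)
  have h32 : v (b₃ - b₂) = 1 := by rw [hb₃, hb₂]; exact vb 3 2 (by omega) (by omega) (by omega)
  have h10 : v (b₁ - b₀) = 1 := by rw [hb₁, hb₀]; exact vb 1 0 (by omega) (by omega) (by omega)
  have h20 : v (b₂ - b₀) = 1 := by rw [hb₂, hb₀]; exact vb 2 0 (by omega) (by omega) (by omega)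
  have h21 : v (b₂ - b₁) = 1 := by rw [hb₂, hb₁]; exact vb 2 1 (by omega) (by omega) (by omega)
  have v₀ : v b₀ = 1 := by rw [hb₀]; exact hωk 0
  have v₁ : v b₁ = 1 := by rw [hb₁]; exact hωk 1
  have v₂ : v b₂ = 1 := by rw [hb₂]; exact hωk 2
  have v₃ : v b₃ = 1 := by rw [hb₃]; exact hωk 3
  have hA : v ((b₃ - b₀) * (b₃ - b₁) * (b₃ - b₂)) = 1 := by
    rw [map_mul, map_mul, h30, h31, h32, one_mul, one_mul]
  have hA0 : (b₃ - b₀) * (b₃ - b₁) * (b₃ - b₂) ≠ 0 := by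
    intro h
    rw [h, map_zero] at hA
    exact zero_ne_one hA
  have he₁ : v (-((b₃ - b₁) * (b₃ - b₂))) ≤ 1 := by rw [v_neg, map_mul, h31, h32, one_mul]
  have he₂ : v (-((b₃ - b₀) * (b₃ - b₂))) ≤ 1 := by rw [v_neg, map_mul, h30, h32, one_mul]
  have he₃ : v (-((b₃ - b₀) * (b₃ - b₁))) ≤ 1 := by rw [v_neg, map_mul, h30, h31, one_mul]
  choose! h3 w hw hw2 hns hPe using hP
  obtain ⟨x, hx⟩ : ∃ x : (WE (-((b₃ - b₁) * (b₃ - b₂))) (-((b₃ - b₀) * (b₃ - b₂)))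
      (-((b₃ - b₀) * (b₃ - b₁)))).toAffine.Point → L, x = fun P =>
      (b₃ - b₀) * (b₃ - b₁) * (b₃ - b₂) / (a P - b₃) := ⟨_, rfl⟩
  obtain ⟨y, hy⟩ : ∃ y : (WE (-((b₃ - b₁) * (b₃ - b₂))) (-((b₃ - b₀) * (b₃ - b₂)))
      (-((b₃ - b₀) * (b₃ - b₁)))).toAffine.Point → L, y = fun P =>
      (b₃ - b₀) * (b₃ - b₁) * (b₃ - b₂) * w P / (a P - b₃) ^ 2 := ⟨_, rfl⟩
  have hxy : ∀ P ∈ B, ∃ h : (WE (-((b₃ - b₁) * (b₃ - b₂))) (-((b₃ - b₀) * (b₃ - b₂)))
      (-((b₃ - b₀) * (b₃ - b₁)))).toAffine.Nonsingular (x P) (y P),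
      P = WeierstrassCurve.Affine.Point.some (x P) (y P) h := by
    intro P mP
    rw [hx, hy]
    exact ⟨hns P mP, hPe P mP⟩
  have hcur : ∀ P ∈ B, y P ^ 2 = (x P - -((b₃ - b₁) * (b₃ - b₂))) *
      (x P - -((b₃ - b₀) * (b₃ - b₂))) * (x P - -((b₃ - b₀) * (b₃ - b₁))) := by
    intro P mP
    rw [hx, hy]
    exact sq_curve b₀ b₁ b₂ b₃ (a P) (w P) (h3 P mP) (hw2 P mP)
  have hvx : ∀ P, v (x P) = (v (a P - b₃))⁻¹ := by
    intro P
    rw [hx]
    simp only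
    rw [map_div₀, hA, one_div]
  have hvy : ∀ P, v (y P) = v (w P) / v (a P - b₃) ^ 2 := by
    intro P
    rw [hy]
    simp only
    rw [map_div₀, map_mul, hA, map_pow, one_mul]
  have hsub : ∀ P ∈ B, ∀ Q ∈ B, x P - x Q = (b₃ - b₀) * (b₃ - b₁) * (b₃ - b₂) * (a Q - a P) /
      ((a P - b₃) * (a Q - b₃)) := by
    intro P mP Q mQ
    rw [hx]
    simp only
    have := h3 P mP
    have := h3 Q mQ
    field_simp
    ring
  have hxne : ∀ P ∈ B, ∀ Q ∈ B, P ≠ Q → x P ≠ x Q := by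
    intro P mP Q mQ hPQ hX
    apply ha P mP Q mQ hPQ
    rw [hx] at hX
    simp only at hX
    rw [div_eq_div_iff (h3 P mP) (h3 Q mQ)] at hX
    have := mul_left_cancel₀ hA0 hX
    linear_combination -this
  have hvw : ∀ P ∈ B, v (w P) ^ 2 = v (a P - b₀) * v (a P - b₁) * v (a P - b₂) *
      v (a P - b₃) := by
    intro P mP
    have h4 := congrArg v (hw2 P mP)
    rw [map_mul, map_mul, map_mul, map_pow] at h4
    exact h4.symm
  -- the general case of units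
  have unit_case : ∀ C ⊆ B, 2 < C.card → (∀ P ∈ C, v (a P - b₀) = 1 ∧ v (a P - b₁) = 1 ∧
      v (a P - b₂) = 1 ∧ v (a P - b₃) = 1) → (∀ P ∈ C, ∀ Q ∈ C, v (a P - a Q) ≤ τ) →
      ∃ P ∈ B, ∃ Q ∈ B, -Real.log τ ≤ psi v (P - Q) := by
    intro C hCB hC hunit hclose
    have hw1 : ∀ P ∈ C, v (w P) = 1 := by
      intro P mP
      have h4 := hvw P (hCB mP)
      obtain ⟨u0, u1, u2, u3⟩ := hunit P mP
      rw [u0, u1, u2, u3] at h4
      exact (pow_eq_one_iff_of_nonneg (v_nonneg v _) two_ne_zero).mp (by rw [h4]; norm_num)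
    obtain ⟨P, mP, Q, mQ, h⟩ := three_step v h2 he₁ he₂ he₃ hτ0 hτ1 hC x y
      (fun P mP => hxy P (hCB mP)) (fun P mP => hcur P (hCB mP))
      (fun P mP Q mQ => hxne P (hCB mP) Q (hCB mQ))
      (fun P mP => by rw [hvx, (hunit P mP).2.2.2, inv_one])
      (fun P mP => by rw [hvy, (hunit P mP).2.2.2, hw1 P mP]; norm_num)
      (fun P mP Q mQ => by
        rw [hsub P (hCB mP) Q (hCB mQ), map_div₀, map_mul, hA, map_mul, (hunit P mP).2.2.2,
          (hunit Q mQ).2.2.2, v_sub_comm]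
        simpa using hclose P mP Q mQ)
    exact ⟨P, hCB mP, Q, hCB mQ, h⟩
  obtain ⟨P₀, hP₀⟩ : B.Nonempty := by
    rw [← Finset.card_pos]
    omega
  have htypes := close_types v hθ0 hθ1 (T₀ := a P₀ ^ n) (s := {T | ∃ P ∈ B, T = a P ^ n})
    (by rintro T ⟨P, mP, rfl⟩; exact hcl P₀ hP₀ P mP)
  rcases htypes with hty | hty | hty | hty
  · -- all `T` are small
    have hsm : ∀ P ∈ B, v (a P) ≤ τ := by
      intro P mP
      have h4 := hty _ ⟨P, mP, rfl⟩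
      rw [map_pow, ← hτn] at h4
      exact le_of_pow_le_pow_left₀ hn0 hτ0.le h4
    have hun : ∀ P ∈ B, ∀ b : L, v b = 1 → v (a P - b) = 1 := by
      intro P mP b hb
      rw [v_sub_comm, v_sub_eq v (by rw [hb]; exact lt_of_le_of_lt (hsm P mP) hτ1), hb]
    refine unit_case B (Finset.Subset.refl _) (by omega) (fun P mP => ⟨hun P mP _ v₀,
      hun P mP _ v₁, hun P mP _ v₂, hun P mP _ v₃⟩) fun P mP Q mQ => ?_
    exact (v_sub_le v _ _).trans (max_le (hsm P mP) (hsm Q mQ))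
  · -- all `T` are close to one
    have hcls : ∀ P ∈ B, ∃ j : Fin n, v (a P - ω ^ (j : ℕ)) ≤ θ := by
      intro P mP
      have h4 := hty _ ⟨P, mP, rfl⟩
      have h5 : v (a P ^ n - 1 ^ n) ≤ θ := by
        rw [one_pow, v_sub_comm]
        exact h4
      obtain ⟨j, hj⟩ := one_factor v (by omega) hω hu (map_one v) hθ1 h5
      rw [mul_one] at hj
      exact ⟨j, hj⟩
    have : NeZero n := ⟨hn0⟩
    choose! cl hclass using hcls
    obtain ⟨j, -, hj⟩ := Finset.exists_lt_card_fiber_of_mul_lt_card_of_maps_to (s := B)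
      (t := (Finset.univ : Finset (Fin n))) (f := cl) (n := 2) (fun P _ => Finset.mem_univ _)
      (by rw [Finset.card_univ, Fintype.card_fin]; omega)
    set C := B.filter (fun P => cl P = j) with hCdef
    have hCB : C ⊆ B := Finset.filter_subset _ _
    have hCj : ∀ P ∈ C, v (a P - ω ^ (j : ℕ)) ≤ θ := by
      intro P mP
      rw [hCdef, Finset.mem_filter] at mP
      have := hclass P mP.1
      rwa [mP.2] at this
    have hother : ∀ P ∈ C, ∀ i : ℕ, i < n → i ≠ j → v (a P - ω ^ i) = 1 := by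
      intro P mP i hi hij
      have h4 : a P - ω ^ i = (ω ^ (j : ℕ) - ω ^ i) + (a P - ω ^ (j : ℕ)) := by ring
      have h5 := vb j i j.2 hi (Ne.symm hij)
      rw [h4, v_add_eq v (by rw [h5]; exact lt_of_le_of_lt (hCj P mP) hθ1), h5]
    have hCC : ∀ P ∈ C, ∀ Q ∈ C, v (a P - a Q) ≤ τ := by
      intro P mP Q mQ
      have h4 : a P - a Q = (a P - ω ^ (j : ℕ)) - (a Q - ω ^ (j : ℕ)) := by ring
      rw [h4]
      exact (v_sub_le v _ _).trans (max_le ((hCj P mP).trans hθτ) ((hCj Q mQ).trans hθτ))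
    by_cases hj4 : 4 ≤ (j : ℕ)
    · refine unit_case C hCB hj (fun P mP => ?_) hCC
      rw [hb₀, hb₁, hb₂, hb₃]
      exact ⟨hother P mP 0 (by omega) (by omega), hother P mP 1 (by omega) (by omega),
        hother P mP 2 (by omega) (by omega), hother P mP 3 (by omega) (by omega)⟩
    push Not at hj4
    obtain ⟨P, Q, mP, mQ, hPQ⟩ := Finset.one_lt_card_iff.mp (lt_trans one_lt_two hj)
    obtain ⟨nP, eP⟩ := hxy P (hCB mP)
    obtain ⟨nQ, eQ⟩ := hxy Q (hCB mQ)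
    have hXne := hxne P (hCB mP) Q (hCB mQ) hPQ
    by_cases hj3 : (j : ℕ) = 3
    · -- close to the point at infinity
      refine ⟨P, hCB mP, Q, hCB mQ, hlogle.trans ?_⟩
      have hbig : ∀ R ∈ C, θ⁻¹ ≤ v (x R) := by
        intro R mR
        rw [hvx]
        have h4 := hCj R mR
        rw [hj3, ← hb₃] at h4
        exact inv_anti₀ (v_pos v (h3 R (hCB mR))) h4
      rw [eP, eQ]
      exact psi_inf v nP nQ h2 he₁ he₂ he₃ hXne hθ0 hθ1 (hbig P mP) (hbig Q mQ)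
    · -- close to a point of order two
      have h3u : ∀ R ∈ C, v (a R - b₃) = 1 := by
        intro R mR
        rw [hb₃]
        exact hother R mR 3 (by omega) (by omega)
      have hyR : ∀ R ∈ C, v (y R) ≤ τ := by
        intro R mR
        rw [hvy, h3u R mR, one_pow, div_one]
        have h4 := hvw R (hCB mR)
        have h5 : v (w R) ^ 2 ≤ θ := by
          rw [h4, h3u R mR, mul_one]
          have k0 : (j : ℕ) ≠ 0 → v (a R - b₀) = 1 := fun h => by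
            rw [hb₀]; exact hother R mR 0 (by omega) (by omega)
          have k1 : (j : ℕ) ≠ 1 → v (a R - b₁) = 1 := fun h => by
            rw [hb₁]; exact hother R mR 1 (by omega) (by omega)
          have k2 : (j : ℕ) ≠ 2 → v (a R - b₂) = 1 := fun h => by
            rw [hb₂]; exact hother R mR 2 (by omega) (by omega)
          have k := hCj R mR
          have hj' : (j : ℕ) = 0 ∨ (j : ℕ) = 1 ∨ (j : ℕ) = 2 := by omega
          rcases hj' with hj' | hj' | hj'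
          · rw [k1 (by omega), k2 (by omega), mul_one, mul_one, hb₀, ← hj']
            exact k
          · rw [k0 (by omega), k2 (by omega), mul_one, one_mul, hb₁]
            rw [hj'] at k
            exact k
          · rw [k0 (by omega), k1 (by omega), one_mul, one_mul, hb₂]
            rw [hj'] at k
            exact k
        exact le_of_pow_le_pow_left₀ two_ne_zero hτ0.le (h5.trans hθτ2)
      refine ⟨P, hCB mP, Q, hCB mQ, ?_⟩
      have d12 : v (-((b₃ - b₁) * (b₃ - b₂)) - -((b₃ - b₀) * (b₃ - b₂))) = 1 := by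
        rw [show -((b₃ - b₁) * (b₃ - b₂)) - -((b₃ - b₀) * (b₃ - b₂)) =
          (b₃ - b₂) * (b₁ - b₀) by ring, map_mul, h32, h10, one_mul]
      have d13 : v (-((b₃ - b₁) * (b₃ - b₂)) - -((b₃ - b₀) * (b₃ - b₁))) = 1 := by
        rw [show -((b₃ - b₁) * (b₃ - b₂)) - -((b₃ - b₀) * (b₃ - b₁)) =
          (b₃ - b₁) * (b₂ - b₀) by ring, map_mul, h31, h20, one_mul]
      have d23 : v (-((b₃ - b₀) * (b₃ - b₂)) - -((b₃ - b₀) * (b₃ - b₁))) = 1 := by
        rw [show -((b₃ - b₀) * (b₃ - b₂)) - -((b₃ - b₀) * (b₃ - b₁)) =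
          (b₃ - b₀) * (b₂ - b₁) by ring, map_mul, h30, h21, one_mul]
      have hxP : v (x P) ≤ 1 := by rw [hvx, h3u P mP, inv_one]
      have hxQ : v (x Q) ≤ 1 := by rw [hvx, h3u Q mQ, inv_one]
      have hXX : v (x P - x Q) ≤ τ := by
        rw [hsub P (hCB mP) Q (hCB mQ), map_div₀, map_mul, hA, map_mul, h3u P mP, h3u Q mQ,
          v_sub_comm]
        simpa using hCC P mP Q mQ
      have hYY : v (y P - y Q) ≤ τ := (v_sub_le v _ _).trans (max_le (hyR P mP) (hyR Q mQ))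
      rw [eP, eQ]
      exact psi_int v nP nQ h2 he₁ he₂ he₃ d12 d13 d23 hXne hxP hxQ hτ0 hτ1 hXX hYY
  · -- all `T` are large
    have hlg : ∀ P ∈ B, τ⁻¹ ≤ v (a P) := by
      intro P mP
      have h4 := hty _ ⟨P, mP, rfl⟩
      rw [map_pow, ← hτn, ← inv_pow] at h4
      exact le_of_pow_le_pow_left₀ hn0 (v_nonneg v _) h4
    have hinv : 1 < τ⁻¹ := (one_lt_inv₀ hτ0).mpr hτ1
    have hun : ∀ P ∈ B, ∀ b : L, v b = 1 → v (a P - b) = v (a P) := by
      intro P mP b hb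
      exact v_sub_eq v (by rw [hb]; exact lt_of_lt_of_le hinv (hlg P mP))
    have hpos : ∀ P ∈ B, 0 < v (a P) := fun P mP =>
      lt_of_lt_of_le (by positivity) (hlg P mP)
    have hxs : ∀ P ∈ B, v (x P) ≤ τ := by
      intro P mP
      rw [hvx, hun P mP b₃ v₃]
      exact inv_le_of_inv_le₀ hτ0 (hlg P mP)
    have hys : ∀ P ∈ B, v (y P) = 1 := by
      intro P mP
      have h4 := hvw P mP
      rw [hun P mP b₀ v₀, hun P mP b₁ v₁, hun P mP b₂ v₂, hun P mP b₃ v₃] at h4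
      have h5 : v (w P) = v (a P) ^ 2 := by
        have h6 : v (w P) ^ 2 = (v (a P) ^ 2) ^ 2 := by rw [h4]; ring
        exact (pow_left_inj₀ (v_nonneg v _) (by positivity) two_ne_zero).mp h6
      rw [hvy, hun P mP b₃ v₃, h5]
      exact div_self (pow_ne_zero 2 (hpos P mP).ne')
    exact three_step v h2 he₁ he₂ he₃ hτ0 hτ1 (by omega : 2 < B.card) x y hxy hcur hxne
      (fun P mP => (hxs P mP).trans hτ1.le) hys
      (fun P mP Q mQ => (v_sub_le v _ _).trans (max_le (hxs P mP) (hxs Q mQ)))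
  · -- all `T` are units away from one
    have hap : ∀ P ∈ B, v (a P) = 1 := by
      intro P mP
      have h4 := (hty _ ⟨P, mP, rfl⟩).1
      rw [map_pow] at h4
      exact (pow_eq_one_iff_of_nonneg (v_nonneg v _) hn0).mp h4
    have hfac : ∀ P ∈ B, ∀ j : Fin n, v (a P - ω ^ (j : ℕ)) = 1 := by
      intro P mP j
      have h4 := (hty _ ⟨P, mP, rfl⟩).2.1
      have h5 : v (∏ j : Fin n, (a P - ω ^ (j : ℕ) * 1)) = 1 := by
        rw [← pow_sub_pow_prod (by omega) hω (a P) 1, one_pow, v_sub_comm]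
        exact h4
      have h6 := v_prod_unit v Finset.univ (fun j : Fin n => a P - ω ^ (j : ℕ) * 1)
        (fun i _ => le1_sub v (hap P mP).le (by rw [mul_one]; exact (hωk _).le)) h5
        (Finset.mem_univ j)
      simpa using h6
    have hcls : ∀ P ∈ B, ∃ j : Fin n, v (a P - ω ^ (j : ℕ) * a P₀) ≤ θ := by
      intro P mP
      have h4 := (hty _ ⟨P, mP, rfl⟩).2.2
      rw [v_sub_comm] at h4
      exact one_factor v (by omega) hω hu (hap P₀ hP₀) hθ1 h4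
    have : NeZero n := ⟨hn0⟩
    choose! cl hclass using hcls
    obtain ⟨j, -, hj⟩ := Finset.exists_lt_card_fiber_of_mul_lt_card_of_maps_to (s := B)
      (t := (Finset.univ : Finset (Fin n))) (f := cl) (n := 2) (fun P _ => Finset.mem_univ _)
      (by rw [Finset.card_univ, Fintype.card_fin]; omega)
    set C := B.filter (fun P => cl P = j) with hCdef
    have hCB : C ⊆ B := Finset.filter_subset _ _
    have hCj : ∀ P ∈ C, v (a P - ω ^ (j : ℕ) * a P₀) ≤ θ := by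
      intro P mP
      rw [hCdef, Finset.mem_filter] at mP
      have := hclass P mP.1
      rwa [mP.2] at this
    refine unit_case C hCB hj (fun P mP => ?_) fun P mP Q mQ => ?_
    · rw [hb₀, hb₁, hb₂, hb₃]
      exact ⟨hfac P (hCB mP) ⟨0, by omega⟩, hfac P (hCB mP) ⟨1, by omega⟩,
        hfac P (hCB mP) ⟨2, by omega⟩, hfac P (hCB mP) ⟨3, by omega⟩⟩
    · have h4 : a P - a Q = (a P - ω ^ (j : ℕ) * a P₀) - (a Q - ω ^ (j : ℕ) * a P₀) := by ring
      rw [h4]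
      exact (v_sub_le v _ _).trans (max_le ((hCj P mP).trans hθτ) ((hCj Q mQ).trans hθτ))

end val

end KissEven

open Pool.Agent.MP90787a.T KissEven in
theorem kissT_even (L : Type) [Field L] [NumberField L] (n : ℕ) (hn : 4 ≤ n)
    (ω : L) (hω : IsPrimitiveRoot ω n) :
    KissT L {T | T ≠ 0 ∧ T ≠ 1 ∧ ∃ A w : L, w ≠ 0 ∧ T = A ^ n ∧
      (A - 1) * (A - ω) * (A - ω ^ 2) * (A - ω ^ 3) = w ^ 2} := by
  classical
  have hn0 : n ≠ 0 := by omega
  obtain ⟨b₀, hb₀⟩ : ∃ b, b = ω ^ 0 := ⟨_, rfl⟩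
  obtain ⟨b₁, hb₁⟩ : ∃ b, b = ω ^ 1 := ⟨_, rfl⟩
  obtain ⟨b₂, hb₂⟩ : ∃ b, b = ω ^ 2 := ⟨_, rfl⟩
  obtain ⟨b₃, hb₃⟩ : ∃ b, b = ω ^ 3 := ⟨_, rfl⟩
  have hne : ∀ i j : ℕ, i < n → j < n → i ≠ j → ω ^ i - ω ^ j ≠ 0 := fun i j hi hj hij h =>
    hij (hω.pow_inj hi hj (sub_eq_zero.mp h))
  have n30 : b₃ - b₀ ≠ 0 := by rw [hb₃, hb₀]; exact hne 3 0 (by omega) (by omega) (by omega)
  have n31 : b₃ - b₁ ≠ 0 := by rw [hb₃, hb₁]; exact hne 3 1 (by omega) (by omega) (by omega)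
  have n32 : b₃ - b₂ ≠ 0 := by rw [hb₃, hb₂]; exact hne 3 2 (by omega) (by omega) (by omega)
  have n10 : b₁ - b₀ ≠ 0 := by rw [hb₁, hb₀]; exact hne 1 0 (by omega) (by omega) (by omega)
  have n20 : b₂ - b₀ ≠ 0 := by rw [hb₂, hb₀]; exact hne 2 0 (by omega) (by omega) (by omega)
  have n21 : b₂ - b₁ ≠ 0 := by rw [hb₂, hb₁]; exact hne 2 1 (by omega) (by omega) (by omega)
  obtain ⟨Z, hZ⟩ : ∃ Z : Finset L, Z = insert 2 ((Finset.univ : Finset (Fin n × Fin n)).image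
    fun p => ω ^ (p.1 : ℕ) - ω ^ (p.2 : ℕ)) := ⟨_, rfl⟩
  obtain ⟨S, hS⟩ := UBC90787a.exists_finset_places Z
  refine ⟨S, fun κ C₁ m hκ => ?_⟩
  set c : ℝ := logHeight₁ ((b₃ - b₀) * (b₃ - b₁) * (b₃ - b₂)) + totalWeight L * Real.log 2 +
    logHeight₁ b₃ with hc
  have hc0 : 0 ≤ c := by
    have h1 := zero_le_logHeight₁ ((b₃ - b₀) * (b₃ - b₁) * (b₃ - b₂))
    have h2 := zero_le_logHeight₁ b₃
    have h3 : 0 ≤ totalWeight L * Real.log 2 :=
      mul_nonneg (Nat.cast_nonneg _) (Real.log_nonneg (by norm_num))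
    rw [hc]
    linarith
  have hC : 0 < |C₁| + c + 1 := by positivity
  obtain ⟨k, hk⟩ : ∃ k : ℕ, k = 2 * n * m + 1 := ⟨_, rfl⟩
  obtain ⟨q, hq⟩ : ∃ q : ℝ, q = (k : ℝ) ^ 2 := ⟨_, rfl⟩
  have hq0 : 0 < q := by
    rw [hq, hk]
    positivity
  have hnR : (0 : ℝ) < n := by exact_mod_cast Nat.pos_of_ne_zero hn0
  have hδ : 0 < κ / (2 * n * q * (|C₁| + c + 1)) := by positivity
  obtain ⟨N, M₀, hN⟩ := coverProp (-((b₃ - b₁) * (b₃ - b₂))) (-((b₃ - b₀) * (b₃ - b₂)))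
    (-((b₃ - b₀) * (b₃ - b₁)))
    (fun h => (mul_ne_zero n32 n10) (by linear_combination h))
    (fun h => (mul_ne_zero n31 n20) (by linear_combination h))
    (fun h => (mul_ne_zero n30 n21) (by linear_combination h)) _ k hδ
  refine ⟨N, max 1 M₀, fun H hH A F θ hA hF hsum => ?_⟩
  by_contra hcard
  push Not at hcard
  have hH1 : 1 ≤ H := (le_max_left _ _).trans hH
  have hHM : M₀ ≤ H := (le_max_right _ _).trans hH
  have hex : ∀ T ∈ A, ∃ P, ∃ a : L, T = a ^ n ∧ Rel b₀ b₁ b₂ b₃ a P := by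
    intro T hT
    obtain ⟨⟨_, _, a, w, hw, ha, hw2⟩, _⟩ := hA T hT
    obtain ⟨P, hP⟩ := exists_rel (b₀ := b₀) (b₁ := b₁) (b₂ := b₂) (b₃ := b₃) (t := a) n30 n31
      n32 hw (by rw [hb₀, hb₁, hb₂, hb₃, pow_zero, pow_one]; exact hw2)
    exact ⟨P, a, ha, hP⟩
  choose! φ α hα hφ using hex
  have hA0 : (b₃ - b₀) * (b₃ - b₁) * (b₃ - b₂) ≠ 0 := mul_ne_zero (mul_ne_zero n30 n31) n32
  have hinj : Set.InjOn φ A := by
    intro t ht t' ht' heq
    obtain ⟨h1, w, _, _, _, h2⟩ := hφ t ht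
    obtain ⟨h1', w', _, _, _, h2'⟩ := hφ t' ht'
    rw [h2, h2', WeierstrassCurve.Affine.Point.some.injEq] at heq
    have h3 := heq.1
    rw [div_eq_div_iff h1 h1'] at h3
    have h4 := mul_left_cancel₀ hA0 h3
    have h5 : α t = α t' := by linear_combination -h4
    rw [hα t ht, hα t' ht', h5]
  have hM : M₀ ≤ (|C₁| + c + 1) * H := by
    have : 1 * H ≤ (|C₁| + c + 1) * H := by
      apply mul_le_mul_of_nonneg_right _ (by linarith)
      have := abs_nonneg C₁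
      linarith
    linarith
  have hht : ∀ P ∈ A.image φ, nh P ≤ (|C₁| + c + 1) * H := by
    intro P hP
    obtain ⟨t, ht, rfl⟩ := Finset.mem_image.mp hP
    obtain ⟨h1, w, _, _, _, h2⟩ := hφ t ht
    rw [h2, nh_some, div_eq_mul_inv]
    have h3 := logHeight₁_mul_le ((b₃ - b₀) * (b₃ - b₁) * (b₃ - b₂)) (α t - b₃)⁻¹
    rw [logHeight₁_inv] at h3
    have h4 := logHeight₁_sub_le (α t) b₃
    have h5 : logHeight₁ (α t) ≤ C₁ * H := by
      refine le_trans ?_ (hA t ht).2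
      conv_rhs => rw [hα t ht]
      rw [logHeight₁_pow]
      have h6 := zero_le_logHeight₁ (α t)
      have h7 : (1 : ℝ) ≤ (n : ℝ) := by exact_mod_cast (by omega : 1 ≤ n)
      nlinarith
    have h6 : C₁ * H ≤ |C₁| * H := mul_le_mul_of_nonneg_right (le_abs_self _) (by linarith)
    have h7 : c * 1 ≤ c * H := mul_le_mul_of_nonneg_left hH1 hc0
    nlinarith
  obtain ⟨B, hBA, hBk, hB⟩ := hN _ hM (A.image φ) hht
    (by rwa [Finset.card_image_of_injOn hinj])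
  have hmem : ∀ P ∈ B, ∃ t ∈ A, φ t = P := fun P hP => Finset.mem_image.mp (hBA hP)
  choose! ψ hψA hψ using hmem
  have hkc := kiss_count B F (fun v => -Real.log (θ v) / n)
    (κ / (2 * n * q * (|C₁| + c + 1)) * ((|C₁| + c + 1) * H)) (fun v hv => ?_) hB
  · rw [hBk, ← hq, ← Finset.sum_div] at hkc
    have h8 : q * (κ / (2 * n * q * (|C₁| + c + 1)) * ((|C₁| + c + 1) * H)) =
        κ / 2 * H / n := by
      field_simp
    rw [h8, div_le_div_iff_of_pos_right hnR] at hkc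
    have h9 : 0 < κ * H := by positivity
    nlinarith
  · obtain ⟨hvS, hθ0, hθ1, cl, hcl⟩ := hF v hv
    have hg := hS v hvS
    obtain ⟨j, -, hj⟩ := Finset.exists_lt_card_fiber_of_mul_lt_card_of_maps_to (s := B)
      (t := (Finset.univ : Finset (Fin m))) (f := fun P => cl (ψ P)) (n := 2 * n)
      (fun P _ => Finset.mem_univ _)
      (by
        rw [Finset.card_univ, Fintype.card_fin, hBk, hk]
        have : m * (2 * n) = 2 * n * m := by ring
        omega)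
    have hsubB : B.filter (fun P => cl (ψ P) = j) ⊆ B := Finset.filter_subset _ _
    have hloc := even_local v hn hω (hg 2 (by rw [hZ]; simp) two_ne_zero)
      (fun i j hij => hg _ (by
        rw [hZ, Finset.mem_insert, Finset.mem_image]
        exact Or.inr ⟨(i, j), Finset.mem_univ _, rfl⟩) (hne i j i.2 j.2 (by
          intro h
          exact hij (Fin.ext h)))) hb₀ hb₁ hb₂ hb₃ hθ0 hθ1
      (B := B.filter (fun P => cl (ψ P) = j)) hj (fun P => α (ψ P)) ?_ ?_ ?_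
    · obtain ⟨P, mP, Q, mQ, h⟩ := hloc
      exact ⟨P, hsubB mP, Q, hsubB mQ, h⟩
    · intro P mP Q mQ hPQ h
      apply hPQ
      have h1 : ψ P = ψ Q := by
        rw [hα _ (hψA P (hsubB mP)), hα _ (hψA Q (hsubB mQ)), h]
      rw [← hψ P (hsubB mP), ← hψ Q (hsubB mQ), h1]
    · intro P mP
      have h1 := hφ _ (hψA P (hsubB mP))
      rwa [hψ P (hsubB mP)] at h1
    · intro P mP Q mQ
      rw [← hα _ (hψA P (hsubB mP)), ← hα _ (hψA Q (hsubB mQ))]
      refine hcl _ (hψA P (hsubB mP)) _ (hψA Q (hsubB mQ)) ?_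
      rw [(Finset.mem_filter.mp mP).2, (Finset.mem_filter.mp mQ).2]

end Pool.Agent.MP90787a.G
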