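import Pool.Agent.Lib.MP_90787a_nt.G.Ell
import Pool.Agent.Lib.MP_90787a_nt.T.PackEven

set_option autoImplicit false

/-!
The kissing theorem for `T (1 - T) = V ^ n`, `(V - ρ) (V - ω ρ) (V - ω ^ 2 ρ)` a square.
-/

namespace Pool.Agent.MP90787a.G

open Polynomial NumberField Height Pool.Agent.UBC90787a
open Pool.Agent.MP90787a.T (WE psi CoverProp)

namespace KissOdd

open Pool.Agent.MP90787a.T

section local_

variable {L : Type} [Field L] [NumberField L]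

/-- Products of integral linear factors are Lipschitz. -/
lemma prod_lip (v : FinitePlace L) {x y : L} (hx : v x ≤ 1) (hy : v y ≤ 1) (c : ℕ → L)
    (hc : ∀ i, v (c i) ≤ 1) (k : ℕ) :
    v (∏ i ∈ Finset.range k, (x - c i)) ≤ 1 ∧
      v (∏ i ∈ Finset.range k, (x - c i) - ∏ i ∈ Finset.range k, (y - c i)) ≤ v (x - y) := by
  induction k with
  | zero => simp
  | succ k ih =>
    obtain ⟨ih1, ih2⟩ := ih
    rw [Finset.prod_range_succ, Finset.prod_range_succ]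
    refine ⟨le1_mul v ih1 (le1_sub v hx (hc k)), ?_⟩
    have h1 : (∏ i ∈ Finset.range k, (x - c i)) * (x - c k) -
        (∏ i ∈ Finset.range k, (y - c i)) * (y - c k) =
        (∏ i ∈ Finset.range k, (x - c i)) * (x - y) +
          (∏ i ∈ Finset.range k, (x - c i) - ∏ i ∈ Finset.range k, (y - c i)) * (y - c k) := by
      ring
    rw [h1]
    refine (v_add_le v _ _).trans (max_le ?_ ?_)
    · rw [map_mul]
      exact mul_le_of_le_one_left (v_nonneg v _) ih1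
    · rw [map_mul]
      exact (mul_le_of_le_one_right (v_nonneg v _) (le1_sub v hy (hc k))).trans ih2

/-- Two units with close squares are close up to sign. -/
lemma unit_pair (v : FinitePlace L) (h2 : v (2 : L) = 1) {a b : L} (ha : v a = 1)
    {τ : ℝ} (h : v (a ^ 2 - b ^ 2) ≤ τ) : v (a - b) ≤ τ ∨ v (a + b) ≤ τ := by
  have h1 : v (a - b) * v (a + b) ≤ τ := by
    rw [← map_mul]
    have : (a - b) * (a + b) = a ^ 2 - b ^ 2 := by ring
    rwa [this]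
  have h3 : 1 ≤ max (v (a - b)) (v (a + b)) := by
    have h4 : v (2 * a) = 1 := by rw [map_mul, h2, ha, one_mul]
    have h5 : 2 * a = (a - b) + (a + b) := by ring
    rw [← h4, h5]
    exact v_add_le v _ _
  rcases le_max_iff.mp h3 with h4 | h4
  · right
    exact (le_mul_of_one_le_left (v_nonneg v _) h4).trans h1
  · left
    exact (le_mul_of_one_le_right (v_nonneg v _) h4).trans h1

lemma three_sign (v : FinitePlace L) {a b c : L} {τ : ℝ} (h1 : v (a - b) ≤ τ ∨ v (a + b) ≤ τ)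
    (h2 : v (a - c) ≤ τ ∨ v (a + c) ≤ τ) :
    v (a - b) ≤ τ ∨ v (a - c) ≤ τ ∨ v (b - c) ≤ τ := by
  rcases h1 with h1 | h1
  · exact Or.inl h1
  rcases h2 with h2 | h2
  · exact Or.inr (Or.inl h2)
  refine Or.inr (Or.inr ?_)
  have : b - c = (a + b) - (a + c) := by ring
  rw [this]
  exact (v_sub_le v _ _).trans (max_le h1 h2)

/-- The local situation at a finite place. -/
structure Loc (v : FinitePlace L) (n : ℕ) (ω ρ : L) (θ τ : ℝ) : Prop where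
  hn : 3 ≤ n
  hω : IsPrimitiveRoot ω n
  hρ : 4 * ρ ^ n = 1
  h2 : v (2 : L) = 1
  hρv : v ρ = 1
  hd : ∀ i j : ℕ, i < n → j < n → i ≠ j → v (ω ^ i - ω ^ j) = 1
  hτ0 : 0 < τ
  hτ1 : τ < 1
  hθ : τ ^ n = θ

/-- The data of a point. -/
structure Dat (n : ℕ) (ω ρ T V w : L) : Prop where
  hw : w ≠ 0
  hV : T * (1 - T) = V ^ n
  hc : (V - ρ) * (V - ω * ρ) * (V - ω ^ 2 * ρ) = w ^ 2
  hns : (WE ρ (ω * ρ) (ω ^ 2 * ρ)).toAffine.Nonsingular V w

/-- The conclusion for two points. -/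
def Good2 [DecidableEq L] (v : FinitePlace L) (ω ρ V w V' w' : L) (τ : ℝ) : Prop :=
  ∀ (h : (WE ρ (ω * ρ) (ω ^ 2 * ρ)).toAffine.Nonsingular V w)
    (h' : (WE ρ (ω * ρ) (ω ^ 2 * ρ)).toAffine.Nonsingular V' w'),
    -Real.log τ ≤ psi v (WeierstrassCurve.Affine.Point.some V w h -
      WeierstrassCurve.Affine.Point.some V' w' h')

section loc

variable {v : FinitePlace L} {n : ℕ} {ω ρ : L} {θ τ : ℝ}

lemma Loc.θ0 (l : Loc v n ω ρ θ τ) : 0 < θ := by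
  rw [← l.hθ]
  exact pow_pos l.hτ0 n

lemma Loc.θτ (l : Loc v n ω ρ θ τ) : θ ≤ τ := by
  rw [← l.hθ]
  have := pow_le_pow_of_le_one l.hτ0.le l.hτ1.le (show 1 ≤ n by have := l.hn; omega)
  rwa [pow_one] at this

lemma Loc.θ1 (l : Loc v n ω ρ θ τ) : θ < 1 := lt_of_le_of_lt l.θτ l.hτ1

lemma Loc.vω (l : Loc v n ω ρ θ τ) : v ω = 1 :=
  v_root_one v (by have := l.hn; omega) l.hω.pow_eq_one

lemma Loc.vωρ (l : Loc v n ω ρ θ τ) (j : ℕ) : v (ω ^ j * ρ) = 1 := by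
  rw [map_mul, map_pow, l.vω, one_pow, l.hρv, one_mul]

lemma Loc.dωρ (l : Loc v n ω ρ θ τ) {i j : ℕ} (hi : i < n) (hj : j < n) (hij : i ≠ j) :
    v (ω ^ i * ρ - ω ^ j * ρ) = 1 := by
  rw [← sub_mul, map_mul, l.hd i j hi hj hij, l.hρv, one_mul]

/-- Application of `psi_int`. -/
lemma Loc.int2 [DecidableEq L] (l : Loc v n ω ρ θ τ) {V w V' w' : L} (hne : V ≠ V')
    (hV : v V ≤ 1) (hV' : v V' ≤ 1) (hX : v (V - V') ≤ τ) (hY : v (w - w') ≤ τ) :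
    Good2 v ω ρ V w V' w' τ := by
  intro h h'
  have hn := l.hn
  have e0 := (l.vωρ 0).le
  have e1 := (l.vωρ 1).le
  have e2 := (l.vωρ 2).le
  have e01 := l.dωρ (i := 0) (j := 1) (by omega) (by omega) (by omega)
  have e02 := l.dωρ (i := 0) (j := 2) (by omega) (by omega) (by omega)
  have e12 := l.dωρ (i := 1) (j := 2) (by omega) (by omega) (by omega)
  simp only [pow_zero, one_mul, pow_one] at e0 e1 e2 e01 e02 e12
  exact psi_int v h h' l.h2 e0 e1 e2 e01 e02 e12 hne hV hV' l.hτ0 l.hτ1 hX hY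

lemma Loc.inf2 [DecidableEq L] (l : Loc v n ω ρ θ τ) {V w V' w' : L} (hne : V ≠ V')
    (hV : τ⁻¹ ≤ v V) (hV' : τ⁻¹ ≤ v V') : Good2 v ω ρ V w V' w' τ := by
  intro h h'
  have e0 := (l.vωρ 0).le
  have e1 := (l.vωρ 1).le
  have e2 := (l.vωρ 2).le
  simp only [pow_zero, one_mul, pow_one] at e0 e1 e2
  exact psi_inf v h h' l.h2 e0 e1 e2 hne l.hτ0 l.hτ1 hV hV'

/-- The cubic is Lipschitz. -/
lemma Loc.cubic (l : Loc v n ω ρ θ τ) {V V' : L} (hV : v V ≤ 1) (hV' : v V' ≤ 1) :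
    v ((V - ρ) * (V - ω * ρ) * (V - ω ^ 2 * ρ)) ≤ 1 ∧
    v ((V - ρ) * (V - ω * ρ) * (V - ω ^ 2 * ρ) -
      (V' - ρ) * (V' - ω * ρ) * (V' - ω ^ 2 * ρ)) ≤ v (V - V') := by
  have h := prod_lip v hV hV' (fun i => ω ^ i * ρ) (fun i => (l.vωρ i).le) 3
  simp only [Finset.prod_range_succ, Finset.prod_range_zero, one_mul, pow_zero, pow_one] at h
  exact h

/-- Three points with close `x`-coordinates and unit `y`-coordinates. -/
lemma Loc.three_unit [DecidableEq L] (l : Loc v n ω ρ θ τ) {T₁ V₁ w₁ T₂ V₂ w₂ T₃ V₃ w₃ : L}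
    (d₁ : Dat n ω ρ T₁ V₁ w₁) (d₂ : Dat n ω ρ T₂ V₂ w₂) (d₃ : Dat n ω ρ T₃ V₃ w₃)
    (n12 : V₁ ≠ V₂) (n13 : V₁ ≠ V₃) (n23 : V₂ ≠ V₃)
    (h₁ : v V₁ ≤ 1) (h₂ : v V₂ ≤ 1) (h₃ : v V₃ ≤ 1)
    (h12 : v (V₁ - V₂) ≤ τ) (h13 : v (V₁ - V₃) ≤ τ) (h23 : v (V₂ - V₃) ≤ τ)
    (hw₁ : v w₁ = 1) :
    Good2 v ω ρ V₁ w₁ V₂ w₂ τ ∨ Good2 v ω ρ V₁ w₁ V₃ w₃ τ ∨ Good2 v ω ρ V₂ w₂ V₃ w₃ τ := by
  have p12 : v (w₁ - w₂) ≤ τ ∨ v (w₁ + w₂) ≤ τ := by
    refine unit_pair v l.h2 hw₁ ?_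
    rw [← d₁.hc, ← d₂.hc]
    exact (l.cubic h₁ h₂).2.trans h12
  have p13 : v (w₁ - w₃) ≤ τ ∨ v (w₁ + w₃) ≤ τ := by
    refine unit_pair v l.h2 hw₁ ?_
    rw [← d₁.hc, ← d₃.hc]
    exact (l.cubic h₁ h₃).2.trans h13
  rcases three_sign v p12 p13 with h | h | h
  · exact Or.inl (l.int2 n12 h₁ h₂ h12 h)
  · exact Or.inr (Or.inl (l.int2 n13 h₁ h₃ h13 h))
  · exact Or.inr (Or.inr (l.int2 n23 h₂ h₃ h23 h))

/-- The product of the remaining factors. -/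
def rem (n : ℕ) (ω ρ V : L) : L := ∏ i ∈ Finset.range (n - 3), (V - ω ^ (3 + i) * ρ)

lemma Loc.split (l : Loc v n ω ρ θ τ) (V : L) :
    V ^ n - ρ ^ n = (V - ρ) * (V - ω * ρ) * (V - ω ^ 2 * ρ) * rem n ω ρ V := by
  have hn := l.hn
  rw [pow_sub_pow_prod (by omega) l.hω, ← Finset.prod_range fun i => V - ω ^ i * ρ]
  obtain ⟨k, rfl⟩ : ∃ k, n = 3 + k := ⟨n - 3, by omega⟩
  rw [rem, Finset.prod_range_add]
  simp only [Finset.prod_range_succ, Finset.prod_range_zero, one_mul, pow_zero, pow_one,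
    Nat.add_sub_cancel_left]

lemma Loc.sq (l : Loc v n ω ρ θ τ) {T V w : L} (d : Dat n ω ρ T V w) :
    (1 - 2 * T) ^ 2 = -4 * w ^ 2 * rem n ω ρ V := by
  have h1 := l.split V
  rw [d.hc] at h1
  linear_combination (-4 : L) * d.hV - 4 * h1 - l.hρ

/-- Three points with close `T` and `V` and non-unit `y`-coordinates. -/
lemma Loc.three_non [DecidableEq L] (l : Loc v n ω ρ θ τ) {T₁ V₁ w₁ T₂ V₂ w₂ T₃ V₃ w₃ : L}
    (d₁ : Dat n ω ρ T₁ V₁ w₁) (d₂ : Dat n ω ρ T₂ V₂ w₂) (d₃ : Dat n ω ρ T₃ V₃ w₃)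
    (n12 : V₁ ≠ V₂) (n13 : V₁ ≠ V₃) (n23 : V₂ ≠ V₃)
    (h₁ : v V₁ ≤ 1) (h₂ : v V₂ ≤ 1) (h₃ : v V₃ ≤ 1)
    (t₁ : v T₁ ≤ 1) (t₂ : v T₂ ≤ 1)
    (h12 : v (V₁ - V₂) ≤ θ) (h13 : v (V₁ - V₃) ≤ θ) (h23 : v (V₂ - V₃) ≤ θ)
    (t12 : v (T₁ - T₂) ≤ θ) (t13 : v (T₁ - T₃) ≤ θ) (t23 : v (T₂ - T₃) ≤ θ)
    (hw₁ : v w₁ < 1) :
    Good2 v ω ρ V₁ w₁ V₂ w₂ τ ∨ Good2 v ω ρ V₁ w₁ V₃ w₃ τ ∨ Good2 v ω ρ V₂ w₂ V₃ w₃ τ := by
  have hn := l.hn
  -- one of the three factors is not a unit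
  obtain ⟨i, hi, hVi⟩ : ∃ i : ℕ, i < 3 ∧ v (V₁ - ω ^ i * ρ) < 1 := by
    have h1 : v (∏ i ∈ Finset.range 3, (V₁ - ω ^ i * ρ)) < 1 := by
      simp only [Finset.prod_range_succ, Finset.prod_range_zero, one_mul, pow_zero, pow_one]
      rw [d₁.hc, map_pow]
      exact pow_lt_one₀ (v_nonneg v _) hw₁ two_ne_zero
    obtain ⟨i, hi, h⟩ := exists_lt_of_prod_lt v _ _ h1
    exact ⟨i, Finset.mem_range.mp hi, h⟩
  -- hence the product of the remaining factors is a unit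
  have hrem : ∀ {V : L}, v (V₁ - V) ≤ θ → v (rem n ω ρ V) = 1 := by
    intro V hV
    have h1 : v (V - ω ^ i * ρ) < 1 := by
      have : V - ω ^ i * ρ = (V₁ - ω ^ i * ρ) - (V₁ - V) := by ring
      rw [this]
      exact lt1_sub v hVi (lt_of_le_of_lt hV l.θ1)
    rw [rem, map_prod]
    refine Finset.prod_eq_one fun j hj => ?_
    have hj' := Finset.mem_range.mp hj
    have h2 : V - ω ^ (3 + j) * ρ = (ω ^ i * ρ - ω ^ (3 + j) * ρ) + (V - ω ^ i * ρ) := by ring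
    have h3 := l.dωρ (i := i) (j := 3 + j) (by omega) (by omega) (by omega)
    rw [h2, v_add_eq v (by rw [h3]; exact h1), h3]
  have hr1 := hrem (V := V₁) (by rw [sub_self, map_zero]; exact l.θ0.le)
  have hr2 := hrem h12
  have hr3 := hrem h13
  -- the quotient
  have hq : ∀ {T V w : L}, Dat n ω ρ T V w → v (rem n ω ρ V) = 1 →
      1 - 2 * T ≠ 0 ∧ v (w / (1 - 2 * T)) = 1 ∧
        (w / (1 - 2 * T)) ^ 2 = -(1 / 4) * (rem n ω ρ V)⁻¹ := by
    intro T V w d hr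
    have hr0 : rem n ω ρ V ≠ 0 := by
      intro h
      rw [h, map_zero] at hr
      exact zero_ne_one hr
    have h1 := l.sq d
    have h2 : (1 - 2 * T) ^ 2 ≠ 0 := by
      rw [h1]
      exact mul_ne_zero (mul_ne_zero (by norm_num) (pow_ne_zero 2 d.hw)) hr0
    have h3 : 1 - 2 * T ≠ 0 := fun h => h2 (by rw [h]; simp)
    have h4 : (w / (1 - 2 * T)) ^ 2 = -(1 / 4) * (rem n ω ρ V)⁻¹ := by
      rw [div_pow, h1]
      have := d.hw
      field_simp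
    refine ⟨h3, ?_, h4⟩
    have h5 : v (w / (1 - 2 * T)) ^ 2 = 1 := by
      rw [← map_pow, h4, map_mul, v_neg, map_inv₀, hr, map_div₀, map_one,
        show (4 : L) = 2 * 2 by norm_num, map_mul, l.h2]
      norm_num
    exact (pow_eq_one_iff_of_nonneg (v_nonneg v _) two_ne_zero).mp h5
  obtain ⟨z1, u1, s1⟩ := hq d₁ hr1
  obtain ⟨z2, u2, s2⟩ := hq d₂ hr2
  obtain ⟨z3, u3, s3⟩ := hq d₃ hr3
  -- squares of the quotients are close
  have hsq : ∀ {V V' : L}, v V ≤ 1 → v V' ≤ 1 → v (V - V') ≤ θ → v (rem n ω ρ V) = 1 →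
      v (rem n ω ρ V') = 1 →
      v (-(1 / 4) * (rem n ω ρ V)⁻¹ - -(1 / 4) * (rem n ω ρ V')⁻¹) ≤ θ := by
    intro V V' hV hV' hVV hr hr'
    have hr0 : rem n ω ρ V ≠ 0 := by
      intro h
      rw [h, map_zero] at hr
      exact zero_ne_one hr
    have hr0' : rem n ω ρ V' ≠ 0 := by
      intro h
      rw [h, map_zero] at hr'
      exact zero_ne_one hr'
    have h1 : -(1 / 4) * (rem n ω ρ V)⁻¹ - -(1 / 4) * (rem n ω ρ V')⁻¹ =
        (rem n ω ρ V - rem n ω ρ V') * ((2 * 2) * (rem n ω ρ V * rem n ω ρ V'))⁻¹ := by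
      field_simp
      ring
    rw [h1, map_mul, map_inv₀, map_mul, map_mul, map_mul, l.h2, hr, hr']
    norm_num
    exact (prod_lip v hV hV' (fun i => ω ^ (3 + i) * ρ) (fun i => (l.vωρ _).le)
      (n - 3)).2.trans hVV
  have p12 := unit_pair v l.h2 u1 (τ := θ) (b := w₂ / (1 - 2 * T₂)) (by
    rw [s1, s2]
    exact hsq h₁ h₂ h12 hr1 hr2)
  have p13 := unit_pair v l.h2 u1 (τ := θ) (b := w₃ / (1 - 2 * T₃)) (by
    rw [s1, s3]
    exact hsq h₁ h₃ h13 hr1 hr3)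
  have hfin : ∀ {T w T' w' : L}, 1 - 2 * T ≠ 0 → 1 - 2 * T' ≠ 0 → v T ≤ 1 →
      v (w' / (1 - 2 * T')) = 1 → v (T - T') ≤ θ →
      v (w / (1 - 2 * T) - w' / (1 - 2 * T')) ≤ θ → v (w - w') ≤ τ := by
    intro T w T' w' hz hz' hT hu hTT hqq
    have h1 : w - w' = (w / (1 - 2 * T) - w' / (1 - 2 * T')) * (1 - 2 * T) +
        w' / (1 - 2 * T') * (-2 * (T - T')) := by
      field_simp
      ring
    rw [h1]
    refine (v_add_le v _ _).trans (max_le ?_ ?_)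
    · rw [map_mul]
      refine (mul_le_of_le_one_right (v_nonneg v _) ?_).trans (hqq.trans l.θτ)
      exact le1_sub v (by simp) (le1_mul v l.h2.le hT)
    · rw [map_mul, hu, one_mul, map_mul, v_neg, l.h2, one_mul]
      exact hTT.trans l.θτ
  rcases three_sign v p12 p13 with h | h | h
  · exact Or.inl (l.int2 n12 h₁ h₂ (h12.trans l.θτ) (hfin z1 z2 t₁ u2 t12 h))
  · exact Or.inr (Or.inl (l.int2 n13 h₁ h₃ (h13.trans l.θτ) (hfin z1 z3 t₁ u3 t13 h)))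
  · exact Or.inr (Or.inr (l.int2 n23 h₂ h₃ (h23.trans l.θτ) (hfin z2 z3 t₂ u3 t23 h)))

omit [Field L] [NumberField L] in
/-- Three elements of a set. -/
lemma three_of_card {B : Finset L} (h : 2 < B.card) : ∃ V₁ ∈ B, ∃ V₂ ∈ B, ∃ V₃ ∈ B,
    V₁ ≠ V₂ ∧ V₁ ≠ V₃ ∧ V₂ ≠ V₃ := by
  obtain ⟨a, b, c, ha, hb, hc, h1, h2, h3⟩ := Finset.two_lt_card_iff.mp h
  exact ⟨a, ha, b, hb, c, hc, h1, h2, h3⟩

/-- The case of small `V`. -/
lemma Loc.small [DecidableEq L] (l : Loc v n ω ρ θ τ) {B : Finset L} (hB : 2 < B.card)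
    {T w : L → L} (hd : ∀ V ∈ B, Dat n ω ρ (T V) V (w V))
    (h : ∀ V ∈ B, v V ^ n ≤ θ) : ∃ V ∈ B, ∃ V' ∈ B, Good2 v ω ρ V (w V) V' (w V') τ := by
  have hn := l.hn
  obtain ⟨V₁, m₁, V₂, m₂, V₃, m₃, n12, n13, n23⟩ := three_of_card hB
  have hv : ∀ V ∈ B, v V ≤ τ := by
    intro V hV
    have h1 := h V hV
    rw [← l.hθ] at h1
    exact (pow_le_pow_iff_left₀ (v_nonneg v V) l.hτ0.le (by omega)).mp h1
  have hle : ∀ V ∈ B, v V ≤ 1 := fun V hV => (hv V hV).trans l.hτ1.le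
  have hdist : ∀ V ∈ B, ∀ V' ∈ B, v (V - V') ≤ τ := fun V hV V' hV' =>
    (v_sub_le v V V').trans (max_le (hv V hV) (hv V' hV'))
  have hw : v (w V₁) = 1 := by
    have h1 : ∀ j : ℕ, v (V₁ - ω ^ j * ρ) = 1 := by
      intro j
      rw [v_sub_comm, v_sub_eq v, l.vωρ]
      rw [l.vωρ]
      exact lt_of_le_of_lt (hv V₁ m₁) l.hτ1
    have h2 := congrArg v (hd V₁ m₁).hc
    have e0 := h1 0
    have e1 := h1 1
    have e2 := h1 2
    simp only [pow_zero, one_mul, pow_one] at e0 e1 e2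
    rw [map_mul, map_mul, e0, e1, e2, one_mul, one_mul, map_pow] at h2
    exact (pow_eq_one_iff_of_nonneg (v_nonneg v _) two_ne_zero).mp h2.symm
  rcases l.three_unit (hd V₁ m₁) (hd V₂ m₂) (hd V₃ m₃) n12 n13 n23 (hle _ m₁) (hle _ m₂)
    (hle _ m₃) (hdist _ m₁ _ m₂) (hdist _ m₁ _ m₃) (hdist _ m₂ _ m₃) hw with h | h | h
  · exact ⟨V₁, m₁, V₂, m₂, h⟩
  · exact ⟨V₁, m₁, V₃, m₃, h⟩
  · exact ⟨V₂, m₂, V₃, m₃, h⟩

/-- The case of large `V`. -/
lemma Loc.large [DecidableEq L] (l : Loc v n ω ρ θ τ) {B : Finset L} (hB : 2 < B.card)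
    {w : L → L} (h : ∀ V ∈ B, θ⁻¹ ≤ v V ^ n) :
    ∃ V ∈ B, ∃ V' ∈ B, Good2 v ω ρ V (w V) V' (w V') τ := by
  have hn := l.hn
  obtain ⟨V₁, m₁, V₂, m₂, V₃, m₃, n12, n13, n23⟩ := three_of_card hB
  have hv : ∀ V ∈ B, τ⁻¹ ≤ v V := by
    intro V hV
    have h1 := h V hV
    rw [← l.hθ, ← inv_pow] at h1
    exact (pow_le_pow_iff_left₀ (inv_nonneg.mpr l.hτ0.le) (v_nonneg v V) (by omega)).mp h1
  exact ⟨V₁, m₁, V₂, m₂, l.inf2 n12 (hv _ m₁) (hv _ m₂)⟩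

/-- The case of units. -/
lemma Loc.unit [DecidableEq L] (l : Loc v n ω ρ θ τ) {B : Finset L} (hB : 2 * n < B.card)
    {T w : L → L} (hd : ∀ V ∈ B, Dat n ω ρ (T V) V (w V))
    (h0 : ∀ V ∈ B, v (T V) = 1) (h1 : ∀ V ∈ B, v (1 - T V) = 1)
    (hT : ∀ V ∈ B, ∀ V' ∈ B, v (T V - T V') ≤ θ) :
    ∃ V ∈ B, ∃ V' ∈ B, Good2 v ω ρ V (w V) V' (w V') τ := by
  have hn := l.hn
  have hV1 : ∀ V ∈ B, v V = 1 := by
    intro V hV
    have h2 := congrArg v (hd V hV).hV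
    rw [map_mul, h0 V hV, h1 V hV, map_pow, one_mul] at h2
    exact (pow_eq_one_iff_of_nonneg (v_nonneg v _) (by omega)).mp h2.symm
  have hpow : ∀ V ∈ B, ∀ V' ∈ B, v (V ^ n - V' ^ n) ≤ θ := by
    intro V hV V' hV'
    have h2 : V ^ n - V' ^ n = (T V - T V') * ((1 - T V) - T V') := by
      linear_combination (hd V' hV').hV - (hd V hV).hV
    rw [h2, map_mul]
    exact (mul_le_of_le_one_right (v_nonneg v _)
      (le1_sub v (h1 V hV).le (h0 V' hV').le)).trans (hT V hV V' hV')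
  obtain ⟨V₀, m₀⟩ : B.Nonempty := Finset.card_pos.mp (by omega)
  have hcl : ∀ V ∈ B, ∃ j : Fin n, v (V - ω ^ (j : ℕ) * V₀) ≤ θ := by
    intro V hV
    obtain ⟨j, hj⟩ := exists_class v (by omega) l.hω
      (lt_of_le_of_lt (hpow V hV V₀ m₀) l.θ1)
    refine ⟨j, ?_⟩
    have h2 := hpow V hV V₀ m₀
    rw [pow_sub_pow_prod (by omega) l.hω, map_prod,
      ← Finset.mul_prod_erase _ _ (Finset.mem_univ j), Finset.prod_eq_one, mul_one] at h2
    · exact h2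
    · intro i hi
      have hij : (j : ℕ) ≠ i := fun h => Finset.ne_of_mem_erase hi (Fin.ext h.symm)
      have h3 : v (ω ^ (j : ℕ) * V₀ - ω ^ (i : ℕ) * V₀) = 1 := by
        rw [← sub_mul, map_mul, l.hd _ _ j.2 i.2 hij, hV1 V₀ m₀, one_mul]
      have h4 : V - ω ^ (i : ℕ) * V₀ = (ω ^ (j : ℕ) * V₀ - ω ^ (i : ℕ) * V₀) +
          (V - ω ^ (j : ℕ) * V₀) := by ring
      rw [h4, v_add_eq v (by rw [h3]; exact hj), h3]
  have : NeZero n := ⟨by omega⟩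
  choose! cl hclass using hcl
  obtain ⟨j, -, hj⟩ := Finset.exists_lt_card_fiber_of_mul_lt_card_of_maps_to (s := B)
    (t := (Finset.univ : Finset (Fin n))) (f := cl) (n := 2) (fun P _ => Finset.mem_univ _)
    (by rw [Finset.card_univ, Fintype.card_fin]; omega)
  obtain ⟨V₁, m₁, V₂, m₂, V₃, m₃, n12, n13, n23⟩ := three_of_card hj
  rw [Finset.mem_filter] at m₁ m₂ m₃
  have hdist : ∀ V ∈ B, ∀ V' ∈ B, cl V = j → cl V' = j → v (V - V') ≤ θ := by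
    intro V hV V' hV' e1 e2
    have e3 := hclass V hV
    have e4 := hclass V' hV'
    rw [e1] at e3
    rw [e2] at e4
    have : V - V' = (V - ω ^ (j : ℕ) * V₀) - (V' - ω ^ (j : ℕ) * V₀) := by ring
    rw [this]
    exact (v_sub_le v _ _).trans (max_le e3 e4)
  have a12 := hdist V₁ m₁.1 V₂ m₂.1 m₁.2 m₂.2
  have a13 := hdist V₁ m₁.1 V₃ m₃.1 m₁.2 m₃.2
  have a23 := hdist V₂ m₂.1 V₃ m₃.1 m₂.2 m₃.2
  have d₁ := hd V₁ m₁.1
  have d₂ := hd V₂ m₂.1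
  have d₃ := hd V₃ m₃.1
  have hwle : v (w V₁) ≤ 1 := by
    have h2 := (l.cubic (hV1 V₁ m₁.1).le (hV1 V₁ m₁.1).le).1
    rw [d₁.hc, map_pow] at h2
    exact (pow_le_one_iff_of_nonneg (v_nonneg v _) two_ne_zero).mp h2
  have key : Good2 v ω ρ V₁ (w V₁) V₂ (w V₂) τ ∨ Good2 v ω ρ V₁ (w V₁) V₃ (w V₃) τ ∨
      Good2 v ω ρ V₂ (w V₂) V₃ (w V₃) τ := by
    rcases eq_or_lt_of_le hwle with hw | hw
    · exact l.three_unit d₁ d₂ d₃ n12 n13 n23 (hV1 _ m₁.1).le (hV1 _ m₂.1).le (hV1 _ m₃.1).le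
        (a12.trans l.θτ) (a13.trans l.θτ) (a23.trans l.θτ) hw
    · exact l.three_non d₁ d₂ d₃ n12 n13 n23 (hV1 _ m₁.1).le (hV1 _ m₂.1).le (hV1 _ m₃.1).le
        (h0 _ m₁.1).le (h0 _ m₂.1).le a12 a13 a23 (hT _ m₁.1 _ m₂.1) (hT _ m₁.1 _ m₃.1)
        (hT _ m₂.1 _ m₃.1) hw
  rcases key with h | h | h
  · exact ⟨V₁, m₁.1, V₂, m₂.1, h⟩
  · exact ⟨V₁, m₁.1, V₃, m₃.1, h⟩
  · exact ⟨V₂, m₂.1, V₃, m₃.1, h⟩

/-- The local theorem. -/
theorem Loc.close [DecidableEq L] (l : Loc v n ω ρ θ τ) {B : Finset L} (hB : 2 * n < B.card)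
    {T w : L → L} (hd : ∀ V ∈ B, Dat n ω ρ (T V) V (w V))
    (hcl : ∀ V ∈ B, ∀ V' ∈ B, Close v θ (T V) (T V')) :
    ∃ V ∈ B, ∃ V' ∈ B, Good2 v ω ρ V (w V) V' (w V') τ := by
  have hn := l.hn
  have hB2 : 2 < B.card := by omega
  have hθ0 := l.θ0
  have hθ1 := l.θ1
  have hinv : 1 < θ⁻¹ := (one_lt_inv₀ hθ0).mpr hθ1
  obtain ⟨V₀, m₀⟩ : B.Nonempty := Finset.card_pos.mp (by omega)
  have hone : ∀ x : L, v x < 1 → v (1 - x) = 1 := by
    intro x hx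
    rw [v_sub_eq v (by rw [map_one]; exact hx), map_one]
  have hone' : ∀ x : L, v (1 - x) < 1 → v x = 1 := by
    intro x hx
    have := hone (1 - x) hx
    rwa [sub_sub_cancel] at this
  have hbig : ∀ x : L, 1 < v x → v (1 - x) = v x := by
    intro x hx
    rw [v_sub_comm, v_sub_eq v (by rw [map_one]; exact hx)]
  have hpow : ∀ V ∈ B, v V ^ n = v (T V) * v (1 - T V) := by
    intro V hV
    rw [← map_mul, (hd V hV).hV, map_pow]
  rcases hcl V₀ m₀ V₀ m₀ with h | h | h | h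
  · -- `T` is small
    refine l.small hB2 hd fun V hV => ?_
    have hsm : v (T V) ≤ θ := by
      rcases hcl V₀ m₀ V hV with h' | h' | h' | h'
      · exact h'.2
      · have := hone' _ (lt_of_le_of_lt h'.1 hθ1)
        linarith [h.1]
      · linarith [h.1, h'.1]
      · linarith [h.1, h'.1]
    rw [hpow V hV, hone _ (lt_of_le_of_lt hsm hθ1), mul_one]
    exact hsm
  · -- `1 - T` is small
    refine l.small hB2 hd fun V hV => ?_
    have hT0 := hone' _ (lt_of_le_of_lt h.1 hθ1)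
    have hsm : v (1 - T V) ≤ θ := by
      rcases hcl V₀ m₀ V hV with h' | h' | h' | h'
      · linarith [h'.1]
      · exact h'.2
      · linarith [h'.1]
      · linarith [h.1, h'.2.1]
    rw [hpow V hV, hone' _ (lt_of_le_of_lt hsm hθ1), one_mul]
    exact hsm
  · -- `T` is large
    refine l.large hB2 fun V hV => ?_
    have hlt : 1 < v (T V₀) := lt_of_lt_of_le hinv h.1
    have hla : θ⁻¹ ≤ v (T V) := by
      rcases hcl V₀ m₀ V hV with h' | h' | h' | h'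
      · linarith [h'.1]
      · have := hone' _ (lt_of_le_of_lt h'.1 hθ1)
        linarith
      · exact h'.2
      · linarith [h'.1]
    have h1 : 1 < v (T V) := lt_of_lt_of_le hinv hla
    rw [hpow V hV, hbig _ h1]
    nlinarith
  · -- units
    have hun : ∀ V ∈ B, ∀ V' ∈ B, v (T V) = 1 → v (1 - T V) = 1 →
        v (T V') = 1 ∧ v (1 - T V') = 1 ∧ v (T V - T V') ≤ θ := by
      intro V hV V' hV' e1 e2
      rcases hcl V hV V' hV' with h' | h' | h' | h'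
      · linarith [h'.1]
      · linarith [h'.1]
      · linarith [h'.1]
      · exact ⟨h'.2.2.1, h'.2.2.2.1, h'.2.2.2.2⟩
    have hu0 : ∀ V ∈ B, v (T V) = 1 ∧ v (1 - T V) = 1 := fun V hV =>
      ⟨(hun V₀ m₀ V hV h.1 h.2.1).1, (hun V₀ m₀ V hV h.1 h.2.1).2.1⟩
    exact l.unit hB hd (fun V hV => (hu0 V hV).1) (fun V hV => (hu0 V hV).2)
      fun V hV V' hV' => (hun V hV V' hV' (hu0 V hV).1 (hu0 V hV).2).2.2

end loc

end local_

end KissOdd

open Pool.Agent.MP90787a.T in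
theorem kissT_odd (L : Type) [Field L] [NumberField L] (n : ℕ) (hn : 3 ≤ n)
    (ω : L) (hω : IsPrimitiveRoot ω n) (ρ : L) (hρ : 4 * ρ ^ n = 1) :
    KissT L {T | T ≠ 0 ∧ T ≠ 1 ∧ ∃ V w : L, w ≠ 0 ∧ T * (1 - T) = V ^ n ∧
      (V - ρ) * (V - ω * ρ) * (V - ω ^ 2 * ρ) = w ^ 2} := by
  classical
  have hn0 : n ≠ 0 := by omega
  have hnpos : (0 : ℝ) < n := by exact_mod_cast (by omega : 0 < n)
  have nρ : ρ ≠ 0 := by
    rintro rfl
    rw [zero_pow hn0, mul_zero] at hρ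
    exact zero_ne_one hρ
  have hωne : ∀ i j : ℕ, i < n → j < n → i ≠ j → ω ^ i * ρ ≠ ω ^ j * ρ := by
    intro i j hi hj hij h
    exact hij (hω.pow_inj hi hj (mul_right_cancel₀ nρ h))
  have n01 : ρ ≠ ω * ρ := by simpa using hωne 0 1 (by omega) (by omega) (by omega)
  have n02 : ρ ≠ ω ^ 2 * ρ := by simpa using hωne 0 2 (by omega) (by omega) (by omega)
  have n12 : ω * ρ ≠ ω ^ 2 * ρ := by simpa using hωne 1 2 (by omega) (by omega) (by omega)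
  obtain ⟨S, hS⟩ := UBC90787a.exists_finset_places
    (insert (2 : L) (insert ρ ((Finset.range n ×ˢ Finset.range n).image
      fun p => ω ^ p.1 - ω ^ p.2)))
  refine ⟨S, fun κ C₁ m hκ => ?_⟩
  obtain ⟨c, hc⟩ : ∃ c : ℝ, c = totalWeight L * Real.log 2 := ⟨_, rfl⟩
  have hc0 : 0 ≤ c := by
    rw [hc]
    exact mul_nonneg (Nat.cast_nonneg _) (Real.log_nonneg (by norm_num))
  obtain ⟨C, hC⟩ : ∃ C : ℝ, C = 2 * |C₁| + c + 1 := ⟨_, rfl⟩
  have hC0 : 1 ≤ C := by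
    have := abs_nonneg C₁
    rw [hC]
    linarith
  obtain ⟨k, hk⟩ : ∃ k : ℕ, k = m * (2 * n) + 1 := ⟨_, rfl⟩
  have hk0 : (0 : ℝ) < (k : ℝ) ^ 2 := by
    have : (0 : ℝ) < k := by rw [hk]; positivity
    positivity
  have hδ : 0 < κ / (2 * n * (k : ℝ) ^ 2 * C) := by positivity
  obtain ⟨N, M₀, hN⟩ := coverProp ρ (ω * ρ) (ω ^ 2 * ρ) n01 n02 n12 _ k hδ
  refine ⟨2 * N, max 1 M₀, fun H hH A F θ hA hF hsum => ?_⟩
  by_contra hcard
  push Not at hcard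
  have hH1 : 1 ≤ H := (le_max_left _ _).trans hH
  have hHM : M₀ ≤ H := (le_max_right _ _).trans hH
  -- the coordinates
  have hex : ∀ T ∈ A, ∃ V w : L, w ≠ 0 ∧ T * (1 - T) = V ^ n ∧
      (V - ρ) * (V - ω * ρ) * (V - ω ^ 2 * ρ) = w ^ 2 := fun T hT => (hA T hT).1.2.2
  choose! Vf wf hwf hVf hcf using hex
  have hVs : A.card ≤ 2 * (A.image Vf).card := by
    refine Finset.card_le_mul_card_image A 2 fun V hV => ?_
    obtain ⟨T₀, hT₀, rfl⟩ := Finset.mem_image.mp hV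
    refine (Finset.card_le_card (t := ({T₀, 1 - T₀} : Finset L)) ?_).trans Finset.card_le_two
    intro T hT
    rw [Finset.mem_filter] at hT
    have h1 := hVf T hT.1
    rw [hT.2, ← hVf T₀ hT₀] at h1
    have h2 : (T - T₀) * (1 - T₀ - T) = 0 := by linear_combination h1
    rw [Finset.mem_insert, Finset.mem_singleton]
    rcases mul_eq_zero.mp h2 with h3 | h3
    · exact Or.inl (sub_eq_zero.mp h3)
    · exact Or.inr (sub_eq_zero.mp h3).symm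
  have hex2 : ∀ V ∈ A.image Vf, ∃ T ∈ A, Vf T = V := fun V hV => Finset.mem_image.mp hV
  choose! Tf hTfA hTfV using hex2
  have hdat : ∀ V ∈ A.image Vf, KissOdd.Dat n ω ρ (Tf V) V (wf (Tf V)) := by
    intro V hV
    have h1 := hVf _ (hTfA V hV)
    have h2 := hcf _ (hTfA V hV)
    rw [hTfV V hV] at h1 h2
    exact ⟨hwf _ (hTfA V hV), h1, h2, WE_nonsing h2.symm (hwf _ (hTfA V hV))⟩
  have hex3 : ∀ V ∈ A.image Vf, ∃ P : (WE ρ (ω * ρ) (ω ^ 2 * ρ)).toAffine.Point,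
      ∃ h, P = WeierstrassCurve.Affine.Point.some V (wf (Tf V)) h := fun V hV =>
    ⟨_, (hdat V hV).hns, rfl⟩
  choose! Φ hΦns hΦ using hex3
  have hΦinj : Set.InjOn Φ (A.image Vf) := by
    intro V hV V' hV' h
    rw [hΦ V hV, hΦ V' hV', WeierstrassCurve.Affine.Point.some.injEq] at h
    exact h.1
  have hcardim : N < ((A.image Vf).image Φ).card := by
    rw [Finset.card_image_of_injOn hΦinj]
    omega
  have hM : M₀ ≤ C * H := by
    have : 1 * H ≤ C * H := mul_le_mul_of_nonneg_right hC0 (by linarith)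
    linarith
  have hht : ∀ P ∈ (A.image Vf).image Φ, nh P ≤ C * H := by
    intro P hP
    obtain ⟨V, hV, rfl⟩ := Finset.mem_image.mp hP
    rw [hΦ V hV, nh_some]
    have h3 : logHeight₁ V ≤ logHeight₁ (V ^ n) := by
      rw [logHeight₁_pow]
      have h4 := zero_le_logHeight₁ V
      have h5 : (1 : ℝ) ≤ (n : ℝ) := by exact_mod_cast (by omega : 1 ≤ n)
      nlinarith
    rw [← (hdat V hV).hV] at h3
    have h4 := logHeight₁_mul_le (Tf V) (1 - Tf V)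
    have h5 := logHeight₁_sub_le (1 : L) (Tf V)
    rw [logHeight₁_one] at h5
    have h6 := (hA _ (hTfA V hV)).2
    have h9 : C₁ * H ≤ |C₁| * H := mul_le_mul_of_nonneg_right (le_abs_self _) (by linarith)
    have h10 : c * 1 ≤ c * H := mul_le_mul_of_nonneg_left hH1 hc0
    rw [hC]
    nlinarith
  obtain ⟨B, hBA, hBk, hB⟩ := hN _ hM ((A.image Vf).image Φ) hht hcardim
  have hkc := kiss_count B F (fun v => -Real.log (θ v) / n)
    (κ / (2 * n * (k : ℝ) ^ 2 * C) * (C * H)) (fun v hv => ?_) hB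
  · rw [hBk, ← Finset.sum_div] at hkc
    have h8 : (k : ℝ) ^ 2 * (κ / (2 * n * (k : ℝ) ^ 2 * C) * (C * H)) = κ / 2 * H / n := by
      have hkne : (k : ℝ) ≠ 0 := fun h => by
        rw [h] at hk0
        norm_num at hk0
      field_simp
    rw [h8, div_le_div_iff_of_pos_right hnpos] at hkc
    have h9 : 0 < κ * H := by positivity
    nlinarith
  · obtain ⟨hvS, hθ0, hθ1, cl, hcl⟩ := hF v hv
    have hg := hS v hvS
    have hτn : (θ v ^ ((n : ℝ)⁻¹)) ^ n = θ v := Real.rpow_inv_natCast_pow hθ0.le hn0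
    have hloc : KissOdd.Loc v n ω ρ (θ v) (θ v ^ ((n : ℝ)⁻¹)) :=
      { hn := hn
        hω := hω
        hρ := hρ
        h2 := hg 2 (by simp) two_ne_zero
        hρv := hg ρ (by simp) nρ
        hd := by
          intro i j hi hj hij
          refine hg _ ?_ fun h => hij (hω.pow_inj hi hj (sub_eq_zero.mp h))
          rw [Finset.mem_insert, Finset.mem_insert, Finset.mem_image]
          exact Or.inr (Or.inr ⟨(i, j), Finset.mem_product.mpr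
            ⟨Finset.mem_range.mpr hi, Finset.mem_range.mpr hj⟩, rfl⟩)
        hτ0 := Real.rpow_pos_of_pos hθ0 _
        hτ1 := Real.rpow_lt_one hθ0.le hθ1 (inv_pos.mpr hnpos)
        hθ := hτn }
    obtain ⟨BV, hBV⟩ : ∃ BV : Finset L, BV = (A.image Vf).filter fun V => Φ V ∈ B := ⟨_, rfl⟩
    have hBVk : k ≤ BV.card := by
      rw [← hBk]
      refine (Finset.card_le_card ?_).trans (Finset.card_image_le (s := BV) (f := Φ))
      intro P hP
      obtain ⟨V, hV, rfl⟩ := Finset.mem_image.mp (hBA hP)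
      exact Finset.mem_image_of_mem _ (by rw [hBV, Finset.mem_filter]; exact ⟨hV, hP⟩)
    obtain ⟨i, -, hi⟩ := Finset.exists_lt_card_fiber_of_mul_lt_card_of_maps_to (s := BV)
      (t := (Finset.univ : Finset (Fin m))) (f := fun V => cl (Tf V)) (n := 2 * n)
      (fun P _ => Finset.mem_univ _)
      (by rw [Finset.card_univ, Fintype.card_fin]; omega)
    have hmem : ∀ V ∈ BV.filter (fun V => cl (Tf V) = i), V ∈ A.image Vf ∧ Φ V ∈ B ∧
        cl (Tf V) = i := by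
      intro V hV
      rw [Finset.mem_filter, hBV, Finset.mem_filter] at hV
      exact ⟨hV.1.1, hV.1.2, hV.2⟩
    obtain ⟨V, hV, V', hV', hgood⟩ := hloc.close hi (T := Tf) (w := fun V => wf (Tf V))
      (fun V hV => hdat V (hmem V hV).1) fun V hV V' hV' =>
        hcl _ (hTfA V (hmem V hV).1) _ (hTfA V' (hmem V' hV').1)
          ((hmem V hV).2.2.trans (hmem V' hV').2.2.symm)
    refine ⟨Φ V, (hmem V hV).2.1, Φ V', (hmem V' hV').2.1, ?_⟩
    have h1 := hgood (hΦns V (hmem V hV).1) (hΦns V' (hmem V' hV').1)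
    rw [Real.log_rpow hθ0] at h1
    rw [hΦ V (hmem V hV).1, hΦ V' (hmem V' hV').1]
    have h2 : -Real.log (θ v) / n = -((n : ℝ)⁻¹ * Real.log (θ v)) := by ring
    rw [h2]
    exact h1

end Pool.Agent.MP90787a.G
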