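import Pool.Agent.Lib.MP_90787a_nt.G.PackCore
import Pool.Agent.Lib.MP_90787a_nt.G.KissEven
import Pool.Agent.Lib.MP_90787a_nt.G.KissOdd

set_option autoImplicit false

/-!
From the valuations of `T` and `1 - T` to one number field.
-/

namespace Pool.Agent.MP90787a.G

open Polynomial NumberField Height Pool.Agent.UBC90787a

theorem packT_even (K : Type) [Field K] [NumberField K] (n : ℕ) (hn : 4 ≤ n) (_hev : Even n)
    (S₀ : Finset (FinitePlace K)) :
    ∃ (L : Type) (_ : Field L) (_ : NumberField L) (f : K →+* L) (D : Set L) (E : Finset K),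
      KissT L D ∧ ∀ T : K, T ≠ 0 → T ≠ 1 → T ∉ E →
        (∀ v : FinitePlace K, v ∉ S₀ → ∃ b : K, b ≠ 0 ∧ v T = v b ^ n) →
        (∀ v : FinitePlace K, v ∉ S₀ → ∃ b : K, b ≠ 0 ∧ v (1 - T) = v b ^ 2) →
        f T ∈ D :=
  Pack.packT_even_of K n hn (fun L _ _ ω hω => kissT_even L n hn ω hω) S₀

theorem packT_odd (K : Type) [Field K] [NumberField K] (n : ℕ) (hn : 3 ≤ n) (hodd : Odd n)
    (S₀ : Finset (FinitePlace K)) :
    ∃ (L : Type) (_ : Field L) (_ : NumberField L) (f : K →+* L) (D : Set L) (E : Finset K),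
      KissT L D ∧ ∀ T : K, T ≠ 0 → T ≠ 1 → T ∉ E →
        (∀ v : FinitePlace K, v ∉ S₀ → ∃ b : K, b ≠ 0 ∧ v T = v b ^ n) →
        (∀ v : FinitePlace K, v ∉ S₀ → ∃ b : K, b ≠ 0 ∧ v (1 - T) = v b ^ n) →
        f T ∈ D :=
  Pack.packT_odd_of K n hn hodd (fun L _ _ ω hω ρ hρ => kissT_odd L n hn ω hω ρ hρ) S₀

end Pool.Agent.MP90787a.G
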