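import Pool.Agent.Lib.MP_90787a_nt.G.Defs
import Pool.Agent.Lib.MP_90787a_nt.LocalWeight

set_option autoImplicit false

/-!
Local dynamics at the places of potentially good reduction.
-/

namespace Pool.Agent.MP90787a.G

open Polynomial NumberField Height Pool.Agent.UBC90787a

namespace LocGood

section ultra

variable {L : Type*} [NormedField L] [IsUltrametricDist L]

/-- The difference quotient of `g`. -/
noncomputable def quot (g : L[X]) (x y : L) : L :=
  ∑ i ∈ Finset.range (g.natDegree + 1), g.coeff i *
    ∑ k ∈ Finset.range i, x ^ k * y ^ (i - 1 - k)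

omit [IsUltrametricDist L] in
lemma quot_mul (g : L[X]) (x y : L) : quot g x y * (x - y) = g.eval x - g.eval y := by
  rw [eval_eq_sum_range, eval_eq_sum_range, ← Finset.sum_sub_distrib, quot, Finset.sum_mul]
  refine Finset.sum_congr rfl fun i _ => ?_
  rw [mul_assoc, geom_sum₂_mul, mul_sub]

lemma quot_sub_le {g : L[X]} {r : ℝ} (h : IsRadius g r) (hd : 2 ≤ g.natDegree)
    (h1 : ‖g.leadingCoeff‖ * r ^ (g.natDegree - 1) = 1) {x y z : L} (hx : ‖x‖ ≤ r) (hy : ‖y‖ ≤ r)
    (hz : ‖z‖ ≤ r) : ‖quot g x z - quot g y z‖ * r ≤ ‖x - y‖ := by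
  have hr := h.pos
  have hlc := h.lc_pos
  have h2 : ‖g.leadingCoeff‖ * r ^ (g.natDegree - 2) * r = 1 := by
    rw [mul_assoc, ← pow_succ, ← h1]
    congr 2
    omega
  have key : ‖quot g x z - quot g y z‖ ≤ ‖g.leadingCoeff‖ * r ^ (g.natDegree - 2) * ‖x - y‖ := by
    unfold quot
    rw [← Finset.sum_sub_distrib]
    refine IsUltrametricDist.norm_sum_le_of_forall_le_of_nonneg (by positivity) ?_
    intro i hi
    rw [Finset.mem_range] at hi
    rw [← mul_sub, ← Finset.sum_sub_distrib, norm_mul]
    have hc : ‖g.coeff i‖ ≤ ‖g.leadingCoeff‖ * r ^ (g.natDegree - i) := by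
      rcases Nat.lt_or_ge i g.natDegree with h3 | h3
      · exact h.coeff_le i h3
      · have : i = g.natDegree := by omega
        rw [this, Nat.sub_self, pow_zero, mul_one]
        rfl
    rcases Nat.lt_or_ge i 2 with h3 | h3
    · have h4 : ∑ k ∈ Finset.range i, (x ^ k * z ^ (i - 1 - k) - y ^ k * z ^ (i - 1 - k)) = 0 := by
        apply Finset.sum_eq_zero
        intro k hk
        rw [Finset.mem_range] at hk
        have : k = 0 := by omega
        rw [this]
        simp
      rw [h4, norm_zero, mul_zero]
      positivity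
    · have h4 : ‖∑ k ∈ Finset.range i, (x ^ k * z ^ (i - 1 - k) - y ^ k * z ^ (i - 1 - k))‖ ≤
          ‖x - y‖ * r ^ (i - 2) := by
        refine IsUltrametricDist.norm_sum_le_of_forall_le_of_nonneg (by positivity) ?_
        intro k hk
        rw [Finset.mem_range] at hk
        rw [← sub_mul, norm_mul, norm_pow]
        rcases Nat.eq_zero_or_pos k with rfl | hk0
        · simp only [pow_zero, sub_self, norm_zero, zero_mul]
          positivity
        calc ‖x ^ k - y ^ k‖ * ‖z‖ ^ (i - 1 - k)
            ≤ (‖x - y‖ * r ^ (k - 1)) * r ^ (i - 1 - k) := by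
              gcongr
              exact norm_pow_sub_pow_le hx hy k
          _ = ‖x - y‖ * r ^ (i - 2) := by
              rw [mul_assoc, ← pow_add]
              congr 2
              omega
      calc ‖g.coeff i‖ * ‖∑ k ∈ Finset.range i,
            (x ^ k * z ^ (i - 1 - k) - y ^ k * z ^ (i - 1 - k))‖
          ≤ (‖g.leadingCoeff‖ * r ^ (g.natDegree - i)) * (‖x - y‖ * r ^ (i - 2)) := by gcongr
        _ = ‖g.leadingCoeff‖ * (r ^ (g.natDegree - i) * r ^ (i - 2)) * ‖x - y‖ := by ring
        _ = ‖g.leadingCoeff‖ * r ^ (g.natDegree - 2) * ‖x - y‖ := by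
            rw [← pow_add]
            congr 3
            omega
  calc ‖quot g x z - quot g y z‖ * r
      ≤ (‖g.leadingCoeff‖ * r ^ (g.natDegree - 2) * ‖x - y‖) * r := by gcongr
    _ = (‖g.leadingCoeff‖ * r ^ (g.natDegree - 2) * r) * ‖x - y‖ := by ring
    _ = ‖x - y‖ := by rw [h2, one_mul]

/-- A point with the same image as a periodic point is far away from the other periodic points. -/
lemma le_of_eval_eq {g : L[X]} {r : ℝ} (h : IsRadius g r) (hd : 2 ≤ g.natDegree)
    (h1 : ‖g.leadingCoeff‖ * r ^ (g.natDegree - 1) = 1) {w w' b : L} (hw : ‖w‖ ≤ r)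
    (hw' : ‖w'‖ ≤ r) (hb : ‖b‖ ≤ r) (hne : w ≠ w') (hbw : b ≠ w') (he : g.eval b = g.eval w')
    (hiso : ‖g.eval w - g.eval w'‖ = ‖w - w'‖) : r ≤ ‖w - b‖ := by
  have hb0 : quot g b w' = 0 := by
    have h2 := quot_mul g b w'
    rw [he, sub_self] at h2
    exact (mul_eq_zero.mp h2).resolve_right (sub_ne_zero.mpr hbw)
  have hw1 : ‖quot g w w'‖ = 1 := by
    have h2 := quot_mul g w w'
    have h3 : 0 < ‖w - w'‖ := norm_pos_iff.mpr (sub_ne_zero.mpr hne)
    have h4 : ‖quot g w w'‖ * ‖w - w'‖ = 1 * ‖w - w'‖ := by
      rw [← norm_mul, h2, hiso, one_mul]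
    exact mul_right_cancel₀ h3.ne' h4
  have h2 := quot_sub_le h hd h1 hw hb hw'
  rw [hb0, sub_zero, hw1, one_mul] at h2
  exact h2

end ultra

section place

variable {K : Type} [Field K] [NumberField K] (u : FinitePlace K) {f : K[X]}

lemma preper_of_periodic {α : Type*} {φ : α → α} {x : α} (hx : x ∈ Function.periodicPts φ) :
    Preper φ x := by
  obtain ⟨n, hn, hx⟩ := hx
  exact ⟨n, 0, hn, hx⟩

lemma preper_of_iterate {α : Type*} {φ : α → α} {x : α} (m : ℕ) (hx : Preper φ (φ^[m] x)) :
    Preper φ x := by
  obtain ⟨i, j, hij, he⟩ := hx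
  refine ⟨i + m, j + m, by omega, ?_⟩
  rw [Function.iterate_add_apply, Function.iterate_add_apply]
  exact he

lemma lip (hd : 2 ≤ f.natDegree) (h : Good u f) {x y : K}
    (hx : Preper (fun z => f.eval z) x) (hy : Preper (fun z => f.eval z) y) :
    u (f.eval x - f.eval y) ≤ u (x - y) := by
  obtain ⟨t, r, hE, h1⟩ := h
  obtain ⟨L, _, _, _, ι, hι⟩ := exists_ultra_field u
  have hr := (escapeDisc_iff hι (by omega) t r).mp hE
  have hgd : ((conjPoly f 1 t).map ι).natDegree = f.natDegree := map_natDegree one_ne_zero t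
  have hglc : ‖((conjPoly f 1 t).map ι).leadingCoeff‖ = u f.leadingCoeff := by
    rw [map_leadingCoeff_norm hι (by omega) one_ne_zero]
    simp
  have hx' := hr.preper_le (by omega) (hx.transport (ι := ι) one_ne_zero t)
  have hy' := hr.preper_le (by omega) (hy.transport (ι := ι) one_ne_zero t)
  have h2 := hr.lipschitz (by omega) hx' hy'
  rw [hgd, hglc, h1, eval_map_apply, eval_map_apply, eval_conjPoly one_ne_zero,
    eval_conjPoly one_ne_zero, one_mul ‖_‖] at h2
  rw [← hι, ← hι, map_sub, map_sub]
  have e1 : ι (f.eval x) - ι (f.eval y) = ι (1 * (f.eval x - t)) - ι (1 * (f.eval y - t)) := by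
    rw [← map_sub, ← map_sub]
    congr 1
    ring
  have e2 : ι x - ι y = ι (1 * (x - t)) - ι (1 * (y - t)) := by
    rw [← map_sub, ← map_sub]
    congr 1
    ring
  rw [e1, e2]
  exact h2

lemma lip_iterate (hd : 2 ≤ f.natDegree) (h : Good u f) {x y : K}
    (hx : Preper (fun z => f.eval z) x) (hy : Preper (fun z => f.eval z) y) (n : ℕ) :
    u ((fun z => f.eval z)^[n] x - (fun z => f.eval z)^[n] y) ≤ u (x - y) := by
  induction n with
  | zero => exact le_rfl
  | succ n ih =>
    rw [Function.iterate_succ_apply', Function.iterate_succ_apply']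
    exact (lip u hd h (hx.iterate n) (hy.iterate n)).trans ih

end place

end LocGood

open LocGood

section good

variable {K : Type} [Field K] [NumberField K] (u : FinitePlace K) {f : K[X]}

theorem good_isom (hd : 2 ≤ f.natDegree) (h : Good u f) {x y : K}
    (hx : x ∈ Function.periodicPts (fun z => f.eval z))
    (hy : y ∈ Function.periodicPts (fun z => f.eval z)) :
    u (f.eval x - f.eval y) = u (x - y) := by
  have hx' := preper_of_periodic hx
  have hy' := preper_of_periodic hy
  refine le_antisymm (lip u hd h hx' hy') ?_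
  obtain ⟨a, ha, hxa⟩ := hx
  obtain ⟨b, hb, hyb⟩ := hy
  have h1 : (fun z => f.eval z)^[a * b] x = x := (hxa.mul_const b)
  have h2 : (fun z => f.eval z)^[a * b] y = y := (hyb.const_mul a)
  have hab : a * b = (a * b - 1) + 1 := by
    have := Nat.mul_pos ha hb
    omega
  have h3 := lip_iterate u hd h hx'.apply hy'.apply (a * b - 1)
  rw [← Function.iterate_succ_apply, ← Function.iterate_succ_apply, Nat.succ_eq_add_one, ← hab,
    h1, h2] at h3
  exact h3

namespace LocGood

lemma isom_iterate (hd : 2 ≤ f.natDegree) (h : Good u f) {x y : K}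
    (hx : x ∈ Function.periodicPts (fun z => f.eval z))
    (hy : y ∈ Function.periodicPts (fun z => f.eval z)) (n : ℕ) :
    u ((fun z => f.eval z)^[n] x - (fun z => f.eval z)^[n] y) = u (x - y) := by
  induction n generalizing x y with
  | zero => rfl
  | succ n ih =>
    rw [Function.iterate_succ_apply, Function.iterate_succ_apply, ih, good_isom u hd h hx hy]
    · exact (Function.bijOn_periodicPts (fun z => f.eval z)).mapsTo hx
    · exact (Function.bijOn_periodicPts (fun z => f.eval z)).mapsTo hy

/-- The distance of `x` and `f^k x` depends only on the greatest common divisor of `k` and the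
period. -/
lemma dist_gcd (hd : 2 ≤ f.natDegree) (h : Good u f) {x : K} {N : ℕ} (hN : 0 < N)
    (hx : (fun z => f.eval z)^[N] x = x) (k : ℕ) :
    u (x - (fun z => f.eval z)^[k] x) = u (x - (fun z => f.eval z)^[Nat.gcd k N] x) := by
  have hxp : x ∈ Function.periodicPts (fun z => f.eval z) := ⟨N, hN, hx⟩
  have hper : ∀ n, (fun z => f.eval z)^[n] x ∈ Function.periodicPts (fun z => f.eval z) := by
    intro n
    induction n with
    | zero => exact hxp
    | succ n ih =>
      rw [Function.iterate_succ_apply']
      exact (Function.bijOn_periodicPts (fun z => f.eval z)).mapsTo ih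
  have hmul : ∀ a n : ℕ, u (x - (fun z => f.eval z)^[a * n] x) ≤
      u (x - (fun z => f.eval z)^[n] x) := by
    intro a n
    induction a with
    | zero => simp
    | succ a ih =>
      have h1 : u ((fun z => f.eval z)^[a * n] x - (fun z => f.eval z)^[(a + 1) * n] x) =
          u (x - (fun z => f.eval z)^[n] x) := by
        rw [show (a + 1) * n = a * n + n by ring, Function.iterate_add_apply]
        exact isom_iterate u hd h hxp (hper n) (a * n)
      have h2 : x - (fun z => f.eval z)^[(a + 1) * n] x =
          (x - (fun z => f.eval z)^[a * n] x) +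
          ((fun z => f.eval z)^[a * n] x - (fun z => f.eval z)^[(a + 1) * n] x) := by ring
      rw [h2]
      exact (u.add_le _ _).trans (max_le ih h1.le)
  apply le_antisymm
  · obtain ⟨c, hc⟩ := Nat.gcd_dvd_left k N
    calc u (x - (fun z => f.eval z)^[k] x)
        = u (x - (fun z => f.eval z)^[c * Nat.gcd k N] x) := by
          rw [mul_comm c, ← hc]
      _ ≤ _ := hmul c _
  · rcases Nat.lt_or_ge (Nat.gcd k N) N with hlt | hge
    · obtain ⟨q, -, hq⟩ := Nat.exists_mul_mod_eq_gcd hlt
      have h1 : (fun z => f.eval z)^[Nat.gcd k N] x = (fun z => f.eval z)^[q * k] x := by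
        rw [← hq, mul_comm q]
        exact Function.IsPeriodicPt.iterate_mod_apply (f := fun z => f.eval z) hx _
      rw [h1]
      exact hmul q k
    · have h1 : Nat.gcd k N = N := le_antisymm (Nat.gcd_le_right k hN) hge
      rw [h1, hx, sub_self, map_zero]
      exact apply_nonneg u _

end LocGood

/-- The distances in a cycle depend only on the greatest common divisor of the index difference
and the length. -/
theorem good_gcd (hd : 2 ≤ f.natDegree) (h : Good u f) {x : K} {N : ℕ} (hN : 0 < N)
    (hx : (fun z => f.eval z)^[N] x = x) (i j i' j' : ℕ) (hij : i ≤ j) (hij' : i' ≤ j')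
    (hg : Nat.gcd (j - i) N = Nat.gcd (j' - i') N) :
    u ((fun z => f.eval z)^[i] x - (fun z => f.eval z)^[j] x) =
      u ((fun z => f.eval z)^[i'] x - (fun z => f.eval z)^[j'] x) := by
  have hxp : x ∈ Function.periodicPts (fun z => f.eval z) := ⟨N, hN, hx⟩
  have hper : ∀ n, (fun z => f.eval z)^[n] x ∈ Function.periodicPts (fun z => f.eval z) := by
    intro n
    induction n with
    | zero => exact hxp
    | succ n ih =>
      rw [Function.iterate_succ_apply']
      exact (Function.bijOn_periodicPts (fun z => f.eval z)).mapsTo ih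
  have key : ∀ a b : ℕ, a ≤ b → u ((fun z => f.eval z)^[a] x - (fun z => f.eval z)^[b] x) =
      u (x - (fun z => f.eval z)^[Nat.gcd (b - a) N] x) := by
    intro a b hab
    rw [← dist_gcd u hd h hN hx, ← isom_iterate u hd h hxp (hper (b - a)) a,
      ← Function.iterate_add_apply, Nat.add_sub_cancel' hab]
  rw [key i j hij, key i' j' hij', hg]

/-- The distances between tail points with different shadows are maximal. -/
theorem good_tail (hd : 2 ≤ f.natDegree) (h : Good u f) : ∃ R : ℝ, 0 < R ∧
    ∀ (x y w w' b : K) (m : ℕ), w ∈ Function.periodicPts (fun z => f.eval z) →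
      w' ∈ Function.periodicPts (fun z => f.eval z) → w ≠ w' → b ≠ w' →
      f.eval b = f.eval w' → (fun z => f.eval z)^[m] x = w → (fun z => f.eval z)^[m] y = b →
      u (x - y) = R := by
  have hG := h
  obtain ⟨t, r, hE, h1⟩ := h
  obtain ⟨L, _, _, _, ι, hι⟩ := exists_ultra_field u
  have hr := (escapeDisc_iff hι (by omega) t r).mp hE
  have hgd : ((conjPoly f 1 t).map ι).natDegree = f.natDegree := map_natDegree one_ne_zero t
  have hglc : ‖((conjPoly f 1 t).map ι).leadingCoeff‖ = u f.leadingCoeff := by
    rw [map_leadingCoeff_norm hι (by omega) one_ne_zero]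
    simp
  refine ⟨r, hr.pos, ?_⟩
  intro x y w w' b m hw hw' hne hbw he hx hy
  have hwp := preper_of_periodic hw
  have hwp' := preper_of_periodic hw'
  have hbp : Preper (fun z => f.eval z) b := by
    apply preper_of_iterate 1
    show Preper (fun z => f.eval z) (f.eval b)
    rw [he]
    exact hwp'.apply
  have hxp : Preper (fun z => f.eval z) x := by
    apply preper_of_iterate m
    rw [hx]
    exact hwp
  have hyp : Preper (fun z => f.eval z) y := by
    apply preper_of_iterate m
    rw [hy]
    exact hbp
  apply le_antisymm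
  · have := pair_bound hι hd one_ne_zero t hr hxp hyp
    rwa [map_one, one_mul] at this
  · refine le_trans ?_ (lip_iterate u hd hG hxp hyp m)
    rw [hx, hy]
    have h2 := le_of_eval_eq hr (by omega) (by rw [hgd, hglc, h1])
      (w := ι (1 * (w - t))) (w' := ι (1 * (w' - t))) (b := ι (1 * (b - t)))
      (hr.preper_le (by omega) (hwp.transport (ι := ι) one_ne_zero t))
      (hr.preper_le (by omega) (hwp'.transport (ι := ι) one_ne_zero t))
      (hr.preper_le (by omega) (hbp.transport (ι := ι) one_ne_zero t))
      (fun h3 => hne (sigma_injective one_ne_zero t h3))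
      (fun h3 => hbw (sigma_injective one_ne_zero t h3))
      (by rw [eval_map_apply, eval_map_apply, eval_conjPoly one_ne_zero,
            eval_conjPoly one_ne_zero, he])
      (by rw [eval_map_apply, eval_map_apply, eval_conjPoly one_ne_zero,
            eval_conjPoly one_ne_zero, sigma_sub (v := u) hι, sigma_sub (v := u) hι,
            good_isom u hd hG hw hw'])
    rwa [sigma_sub (v := u) hι, map_one, one_mul] at h2

end good

end Pool.Agent.MP90787a.G
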