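import Pool.Agent.Lib.MP_90787a_nt.G.Defs
import Pool.Agent.Lib.MP_90787a_nt.LocalWeight

set_option autoImplicit false

/-!
Local dynamics at the places of simple bad reduction.
-/

namespace Pool.Agent.MP90787a.G

open Polynomial NumberField Height Pool.Agent.UBC90787a

namespace LocSimple

section place

variable {K : Type} [Field K] [NumberField K] {u : FinitePlace K}

lemma pl_neg (x : K) : u (-x) = u x := by
  rw [neg_eq_neg_one_mul, map_mul]
  have h1 : u (-1 : K) = 1 := by
    have h2 : u (-1 : K) ^ 2 = 1 := by rw [← map_pow]; simp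
    have h3 : 0 ≤ u (-1 : K) := apply_nonneg u _
    nlinarith
  rw [h1, one_mul]

lemma pl_sub_comm (x y : K) : u (x - y) = u (y - x) := by
  rw [← pl_neg, neg_sub]

lemma pl_sub_le_max (x y : K) : u (x - y) ≤ max (u x) (u y) := by
  rw [sub_eq_add_neg]
  refine (FinitePlace.add_le u x (-y)).trans ?_
  rw [pl_neg]

lemma pl_tri (x y z : K) : u (x - z) ≤ max (u (x - y)) (u (y - z)) := by
  have h := FinitePlace.add_le u (x - y) (y - z)
  rwa [sub_add_sub_cancel] at h

lemma pl_add_eq {x y : K} (h : u y < u x) : u (x + y) = u x := by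
  apply le_antisymm
  · exact (FinitePlace.add_le u x y).trans (max_le le_rfl h.le)
  · by_contra hlt
    push Not at hlt
    have h1 : u x ≤ max (u (x + y)) (u y) := by
      have := pl_sub_le_max (u := u) (x + y) y
      rwa [add_sub_cancel_right] at this
    exact absurd h1 (not_le.mpr (max_lt hlt h))

lemma pl_sum_le {ι : Type*} (s : Finset ι) (F : ι → K) {C : ℝ} (hC : 0 ≤ C)
    (h : ∀ i ∈ s, u (F i) ≤ C) : u (∑ i ∈ s, F i) ≤ C := by
  classical
  induction s using Finset.induction_on with
  | empty => simpa using hC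
  | insert a s ha ih =>
    rw [Finset.sum_insert ha]
    refine (FinitePlace.add_le u _ _).trans (max_le (h a (Finset.mem_insert_self a s)) ?_)
    exact ih (fun i hi => h i (Finset.mem_insert_of_mem hi))

lemma pl_sum_lt {ι : Type*} (s : Finset ι) (F : ι → K) {C : ℝ} (hC : 0 < C)
    (h : ∀ i ∈ s, u (F i) < C) : u (∑ i ∈ s, F i) < C := by
  classical
  induction s using Finset.induction_on with
  | empty => simpa using hC
  | insert a s ha ih =>
    rw [Finset.sum_insert ha]
    refine (FinitePlace.add_le u _ _).trans_lt (max_lt (h a (Finset.mem_insert_self a s)) ?_)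
    exact ih (fun i hi => h i (Finset.mem_insert_of_mem hi))

/-- Expansion: the key estimate. -/
lemma expand {f : K[X]} (hd : 2 ≤ f.natDegree) {r : ℝ} {x y : K}
    (hE : EscapeDisc u f y r)
    (hder : u (f.derivative.eval y) = u f.leadingCoeff * r ^ (f.natDegree - 1))
    (hxy : u (x - y) < r) :
    u (f.eval x - f.eval y) = u f.leadingCoeff * r ^ (f.natDegree - 1) * u (x - y) := by
  obtain ⟨hr, h1, hc⟩ := hE
  set a := f.leadingCoeff with ha
  set d := f.natDegree with hdd
  have hρ : 0 < u a * r ^ (d - 1) := by linarith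
  rcases eq_or_ne x y with rfl | hne
  · simp
  have hz : 0 < u (x - y) := FinitePlace.pos_iff.mpr (sub_ne_zero.mpr hne)
  have hapos : 0 < u a := by
    by_contra hcon
    have h0 : u a = 0 := le_antisymm (not_lt.mp hcon) (apply_nonneg u _)
    rw [h0, zero_mul] at hρ
    exact lt_irrefl _ hρ
  have hnat : (taylor y f).natDegree = d := by rw [natDegree_taylor]
  have hev : f.eval x = ∑ i ∈ Finset.range (d + 1), (taylor y f).coeff i * (x - y) ^ i := by
    have h2 : (taylor y f).eval (x - y) = f.eval x := by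
      rw [taylor_eval, sub_add_cancel]
    rw [← h2, eval_eq_sum_range, hnat]
  have h0 : (taylor y f).coeff 0 = f.eval y := by rw [taylor_coeff_zero]
  have h1' : (taylor y f).coeff 1 = f.derivative.eval y := by rw [taylor_coeff_one]
  obtain ⟨e, he⟩ : ∃ e, d + 1 = e + 1 + 1 := ⟨d - 1, by omega⟩
  have hsplit : f.eval x - f.eval y = f.derivative.eval y * (x - y) +
      ∑ i ∈ Finset.range e, (taylor y f).coeff (i + 1 + 1) * (x - y) ^ (i + 1 + 1) := by
    rw [hev, he, Finset.sum_range_succ', Finset.sum_range_succ', h0, h1']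
    ring
  rw [hsplit]
  have hmain : u (f.derivative.eval y * (x - y)) = u a * r ^ (d - 1) * u (x - y) := by
    rw [map_mul, hder]
  have hrest : u (∑ i ∈ Finset.range e, (taylor y f).coeff (i + 1 + 1) * (x - y) ^ (i + 1 + 1)) <
      u (f.derivative.eval y * (x - y)) := by
    rw [hmain]
    apply pl_sum_lt _ _ (by positivity)
    intro i hi
    rw [Finset.mem_range] at hi
    have hci : u ((taylor y f).coeff (i + 1 + 1)) ≤ u a * r ^ (d - (i + 1 + 1)) := by
      rcases Nat.lt_or_ge (i + 1 + 1) d with h | h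
      · have := hc (i + 1 + 1) h
        rw [conjPoly_one, coeff_sub, coeff_C, if_neg (by omega), sub_zero] at this
        exact this
      · have hid : i + 1 + 1 = d := by omega
        rw [hid, Nat.sub_self, pow_zero, mul_one]
        have : (taylor y f).coeff d = a := by
          rw [← hnat, coeff_natDegree, leadingCoeff_taylor]
        rw [this]
    rw [map_mul, map_pow]
    have hpow : u (x - y) ^ (i + 1) < r ^ (i + 1) := pow_lt_pow_left₀ hxy hz.le (by omega)
    calc u ((taylor y f).coeff (i + 1 + 1)) * u (x - y) ^ (i + 1 + 1)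
        ≤ u a * r ^ (d - (i + 1 + 1)) * u (x - y) ^ (i + 1 + 1) := by gcongr
      _ = u a * r ^ (d - (i + 1 + 1)) * u (x - y) ^ (i + 1) * u (x - y) := by ring
      _ < u a * r ^ (d - (i + 1 + 1)) * r ^ (i + 1) * u (x - y) := by gcongr
      _ = u a * r ^ (d - 1) * u (x - y) := by
          rw [mul_assoc (u a), ← pow_add]
          congr 3
          omega
  rw [pl_add_eq hrest, hmain]

/-- Lagrange: `d + 1` points with pairwise distances at least `r`, and with the distances of the
values at most `r`, cannot exist. -/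
lemma lagrange {f : K[X]} (hd : 2 ≤ f.natDegree) {r : ℝ} (hr : 0 < r)
    (hρ : 1 < u f.leadingCoeff * r ^ (f.natDegree - 1)) (Y : Finset K)
    (hcard : Y.card = f.natDegree + 1)
    (hY : ∀ x ∈ Y, ∀ y ∈ Y, x ≠ y → r ≤ u (x - y))
    (hf : ∀ x ∈ Y, ∀ y ∈ Y, u (f.eval x - f.eval y) ≤ r) : False := by
  classical
  obtain ⟨y0, hy0⟩ : Y.Nonempty := by
    rw [← Finset.card_pos]; omega
  set g : K[X] := f - C (f.eval y0) with hg
  have hgd : g.natDegree = f.natDegree := by rw [hg, natDegree_sub_C]
  have hf0 : g ≠ 0 := by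
    intro h
    rw [h, natDegree_zero] at hgd
    omega
  have hlc : g.leadingCoeff = f.leadingCoeff := by
    rw [leadingCoeff, hgd, hg, coeff_sub, coeff_C, if_neg (by omega), sub_zero]
    rfl
  have hdeg : (Y.card : WithBot ℕ) = g.degree + 1 := by
    rw [degree_eq_natDegree hf0, hgd, hcard]
    push_cast
    rfl
  have hL := Lagrange.leadingCoeff_eq_sum (s := Y) (v := fun x : K => x)
    (Set.injOn_id _) hdeg
  have hbound : u g.leadingCoeff ≤ r / r ^ f.natDegree := by
    rw [hL]
    apply pl_sum_le _ _ (by positivity)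
    intro i hi
    rw [map_div₀, map_prod]
    have h1 : u (g.eval i) ≤ r := by
      rw [hg, eval_sub, eval_C]
      exact hf i hi y0 hy0
    have h2 : r ^ f.natDegree ≤ ∏ j ∈ Y.erase i, u (i - j) := by
      have h3 : (Y.erase i).card = f.natDegree := by
        rw [Finset.card_erase_of_mem hi, hcard]; rfl
      rw [← h3, ← Finset.prod_const]
      apply Finset.prod_le_prod
      · intro j _
        exact hr.le
      · intro j hj
        rw [Finset.mem_erase] at hj
        exact hY i hi j hj.2 (Ne.symm hj.1)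
    have h4 : 0 ≤ u (g.eval i) := apply_nonneg u _
    gcongr
  rw [hlc] at hbound
  have h5 : r / r ^ f.natDegree * r ^ (f.natDegree - 1) = 1 := by
    have h6 : r ^ f.natDegree = r ^ (f.natDegree - 1) * r := by
      rw [← pow_succ]
      congr 1
      omega
    rw [h6]
    field_simp
  have h7 : u f.leadingCoeff * r ^ (f.natDegree - 1) ≤ 1 := by
    rw [← h5]
    gcongr
  linarith

end place

/-- A class function from a bound on the cardinality of separated sets. -/
lemma exists_class {K : Type} (P : Set K) (D : K → K → ℝ) {r : ℝ} {d : ℕ} (hd : 0 < d)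
    (hsymm : ∀ x y, D x y = D y x) (htri : ∀ x y z, D x z ≤ max (D x y) (D y z))
    (hself : ∀ x, D x x < r)
    (hsep : ∀ Y : Finset K, (∀ x ∈ Y, x ∈ P) → (∀ x ∈ Y, ∀ y ∈ Y, x ≠ y → r ≤ D x y) →
      Y.card ≤ d) :
    ∃ c : K → Fin d, ∀ x ∈ P, ∀ y ∈ P, c x = c y → D x y < r := by
  classical
  let A : Set ℕ := {n | ∃ Y : Finset K, (∀ x ∈ Y, x ∈ P) ∧
    (∀ x ∈ Y, ∀ y ∈ Y, x ≠ y → r ≤ D x y) ∧ Y.card = n}
  have hAne : A.Nonempty := ⟨0, ∅, by simp, by simp, by simp⟩
  have hAb : BddAbove A := by
    refine ⟨d, ?_⟩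
    rintro n ⟨Y, h1, h2, rfl⟩
    exact hsep Y h1 h2
  obtain ⟨Y, hYP, hYs, hYc⟩ := Nat.sSup_mem hAne hAb
  have hcov : ∀ x ∈ P, ∃ y ∈ Y, D x y < r := by
    intro x hx
    by_contra hcon
    push Not at hcon
    have hxY : x ∉ Y := fun h => absurd (hcon x h) (not_le.mpr (hself x))
    have hmem : (insert x Y).card ∈ A := by
      refine ⟨insert x Y, ?_, ?_, rfl⟩
      · intro z hz
        rw [Finset.mem_insert] at hz
        rcases hz with rfl | hz
        · exact hx
        · exact hYP z hz
      · intro z hz w hw hzw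
        rw [Finset.mem_insert] at hz hw
        rcases hz with rfl | hz
        · rcases hw with rfl | hw
          · exact absurd rfl hzw
          · exact hcon w hw
        · rcases hw with rfl | hw
          · rw [hsymm]
            exact hcon z hz
          · exact hYs z hz w hw hzw
    have hle := le_csSup hAb hmem
    rw [Finset.card_insert_of_notMem hxY, ← hYc] at hle
    omega
  have hYd : Y.card ≤ d := hsep Y hYP hYs
  let e : Y ↪ Fin d := (Finset.equivFin Y).toEmbedding.trans (Fin.castLEEmb hYd)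
  choose! g hgY hgr using hcov
  refine ⟨fun x => if h : g x ∈ Y then e ⟨g x, h⟩ else ⟨0, hd⟩, ?_⟩
  intro x hx y hy hxy
  simp only [dif_pos (hgY x hx), dif_pos (hgY y hy)] at hxy
  have h1 : g x = g y := by
    have := e.injective hxy
    exact congrArg Subtype.val this
  refine (htri x (g x) y).trans_lt (max_lt (hgr x hx) ?_)
  rw [hsymm, h1]
  exact hgr y hy

end LocSimple

open LocSimple

section simple

variable {K : Type} [Field K] [NumberField K] (u : FinitePlace K) {f : K[X]}

theorem simple_tree {m : ℕ} (hd : 2 ≤ f.natDegree) (hm : m ≠ 0)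
    (h : Simple u m f) : ∃ (t : K) (r ρ : ℝ), EscapeDisc u f t r ∧
      ρ = u f.leadingCoeff * r ^ (f.natDegree - 1) ∧
      Tree u {x : K | Preper (fun z => f.eval z) x} r ρ f.natDegree ∧
      ((∃ x y : K, x ≠ y ∧ Preper (fun z => f.eval z) x ∧ Preper (fun z => f.eval z) y) →
        ∃ e : K, e ≠ 0 ∧ ρ = u e ^ m) := by
  obtain ⟨t, r, hE, hρ1, hder, hval⟩ := h
  have hr : 0 < r := hE.1
  refine ⟨t, r, u f.leadingCoeff * r ^ (f.natDegree - 1), hE, rfl, ?_⟩
  set ρ : ℝ := u f.leadingCoeff * r ^ (f.natDegree - 1) with hρ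
  have hρ0 : 0 < ρ := by linarith
  set φ : K → K := fun z => f.eval z with hφ
  -- the preperiodic points lie in the disc
  obtain ⟨L, _, _, _, ι, hι⟩ := exists_ultra_field u
  have hrad : IsRadius ((conjPoly f 1 t).map ι) r := (escapeDisc_iff hι (by omega) t r).mp hE
  have hnd : ((conjPoly f 1 t).map ι).natDegree = f.natDegree := map_natDegree one_ne_zero t
  have hin : ∀ x : K, Preper φ x → u (x - t) ≤ r := by
    intro x hx
    have h1 := hrad.preper_le (by omega) (hx.transport (ι := ι) one_ne_zero t)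
    rw [one_mul, hι] at h1
    exact h1
  have hdist : ∀ x y : K, Preper φ x → Preper φ y → u (x - y) ≤ r := by
    intro x y hx hy
    refine (pl_tri x t y).trans (max_le (hin x hx) ?_)
    rw [pl_sub_comm]
    exact hin y hy
  have hexp : ∀ x y : K, Preper φ x → Preper φ y → u (x - y) < r →
      u (φ x - φ y) = ρ * u (x - y) := by
    intro x y _ hy hxy
    exact expand hd (hE.recentre hd hy)
      (hder y (hin y hy) (hin _ hy.apply)) hxy
  -- iterates
  have hiter : ∀ x y : K, Preper φ x → Preper φ y → ∀ k : ℕ, u (x - y) * ρ ^ k ≤ r →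
      u (φ^[k] x - φ^[k] y) = u (x - y) * ρ ^ k := by
    intro x y hx hy k
    induction k with
    | zero => intro _; simp
    | succ k ih =>
      intro hk
      rcases eq_or_ne x y with rfl | hne
      · simp
      have hpos : 0 < u (x - y) := FinitePlace.pos_iff.mpr (sub_ne_zero.mpr hne)
      have h1 : u (x - y) * ρ ^ k < u (x - y) * ρ ^ (k + 1) := by
        have : ρ ^ k < ρ ^ (k + 1) := pow_lt_pow_right₀ hρ1 (by omega)
        gcongr
      have h2 := ih (h1.le.trans hk)
      have h3 : u (φ^[k] x - φ^[k] y) < r := by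
        rw [h2]
        exact h1.trans_le hk
      rw [Function.iterate_succ_apply', Function.iterate_succ_apply',
        hexp _ _ (hx.iterate k) (hy.iterate k) h3, h2]
      ring
  -- exact distances
  have hexact : ∀ x y : K, Preper φ x → Preper φ y → x ≠ y → ∃ k : ℕ, u (x - y) * ρ ^ k = r := by
    intro x y hx hy hne
    have hpos : 0 < u (x - y) := FinitePlace.pos_iff.mpr (sub_ne_zero.mpr hne)
    obtain ⟨n, hn⟩ := pow_unbounded_of_one_lt (r / u (x - y)) hρ1
    have hn' : r < u (x - y) * ρ ^ n := by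
      rw [div_lt_iff₀ hpos] at hn
      linarith [mul_comm (ρ ^ n) (u (x - y))]
    classical
    have hex : ∃ n : ℕ, r < u (x - y) * ρ ^ n := ⟨n, hn'⟩
    have hspec := Nat.find_spec hex
    have hmin := fun k hk => Nat.find_min (m := k) hex hk
    set N := Nat.find hex with hN
    have hN0 : N ≠ 0 := by
      intro h0
      rw [h0, pow_zero, mul_one] at hspec
      exact absurd (hdist x y hx hy) (not_le.mpr hspec)
    obtain ⟨k, hk⟩ : ∃ k, N = k + 1 := ⟨N - 1, by omega⟩
    have hk1 : u (x - y) * ρ ^ k ≤ r := not_lt.mp (hmin k (by omega))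
    refine ⟨k, le_antisymm hk1 ?_⟩
    by_contra hlt
    push Not at hlt
    have h2 := hiter x y hx hy k hk1
    have h3 : u (φ^[k] x - φ^[k] y) < r := by rw [h2]; exact hlt
    have h4 := hexp _ _ (hx.iterate k) (hy.iterate k) h3
    have h5 := hdist _ _ (hx.iterate k).apply (hy.iterate k).apply
    rw [h4, h2] at h5
    rw [hk] at hspec
    have h6 : ρ * (u (x - y) * ρ ^ k) = u (x - y) * ρ ^ (k + 1) := by ring
    linarith
  -- classes
  obtain ⟨c0, hc0⟩ := exists_class {x : K | Preper φ x} (fun x y => u (x - y)) (r := r)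
    (d := f.natDegree) (by omega) (fun x y => pl_sub_comm x y) (fun x y z => pl_tri x y z)
    (fun x => by simpa using hr) (by
      intro Y hYP hYs
      by_contra hcon
      push Not at hcon
      obtain ⟨Z, hZY, hZc⟩ := Finset.exists_subset_card_eq (s := Y) (n := f.natDegree + 1)
        (by omega)
      refine lagrange hd hr hρ1 Z hZc (fun x hx y hy hxy => hYs x (hZY hx) y (hZY hy) hxy) ?_
      intro x hx y hy
      exact hdist _ _ (Preper.apply (hYP x (hZY hx))) (Preper.apply (hYP y (hZY hy))))
  refine ⟨⟨hr, hρ1, fun x hx y hy hxy => hexact x y hx hy hxy, ?_⟩, ?_⟩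
  · intro p hp k
    refine ⟨fun z => c0 (φ^[k] z), ?_⟩
    intro z hz z' hz' h1 h2 hcc
    have hρk : 0 < ρ ^ k := pow_pos hρ0 k
    have h3 : u (z - z') * ρ ^ k ≤ r := by
      have h4 := pl_tri (u := u) z p z'
      rw [pl_sub_comm (u := u) p z'] at h4
      rcases le_max_iff.mp h4 with h5 | h5
      · exact (mul_le_mul_of_nonneg_right h5 hρk.le).trans h1
      · exact (mul_le_mul_of_nonneg_right h5 hρk.le).trans h2
    have h6 := hiter z z' hz hz' k h3
    have h7 := hc0 _ (Preper.iterate hz k) _ (Preper.iterate hz' k) hcc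
    rw [← h6]
    exact h7
  · rintro ⟨x, y, hne, hx, hy⟩
    obtain ⟨k, hk⟩ := hexact x y hx hy hne
    have h1 := hiter x y hx hy k hk.le
    rw [hk] at h1
    obtain ⟨e, he⟩ := hval _ h1
    refine ⟨e, ?_, he⟩
    rintro rfl
    rw [map_zero, zero_pow hm] at he
    exact hρ0.ne' he

end simple

end Pool.Agent.MP90787a.G
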