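import Pool.Agent.Lib.MP_90787a_nt.G.Defs
import Pool.Agent.Lib.MP_90787a_nt.T.KissSq

set_option autoImplicit false

/-!
Closeness of cross ratios from the tree structure of a set of points.
-/

namespace Pool.Agent.MP90787a.G

open Polynomial NumberField Height Pool.Agent.UBC90787a

namespace Tree

section aux

variable {K : Type} [Field K] [NumberField K] (u : FinitePlace K)
  {P : Set K} {r ρ : ℝ} {d : ℕ}

lemma tri (x y z : K) : u (x - z) ≤ max (u (x - y)) (u (y - z)) := by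
  have h : x - z = (x - y) + (y - z) := by ring
  rw [h]
  exact T.v_add_le u _ _

lemma tri_eq {x y z : K} (h : u (x - y) < u (y - z)) : u (x - z) = u (y - z) := by
  have h1 : x - z = (y - z) + (x - y) := by ring
  rw [h1]
  exact T.v_add_eq u h

lemma gap (h : Tree u P r ρ d) {x y x' y' : K} (hx : x ∈ P) (hy : y ∈ P) (hx' : x' ∈ P)
    (hy' : y' ∈ P) (hne' : x' ≠ y') (hlt : u (x - y) < u (x' - y')) :
    u (x - y) * ρ ≤ u (x' - y') := by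
  obtain ⟨hr, hρ, hd, -⟩ := h
  have hρ0 : 0 < ρ := by linarith
  by_cases hne : x = y
  · subst hne
    rw [sub_self, map_zero, zero_mul]
    exact T.v_nonneg u _
  obtain ⟨k, hk⟩ := hd x hx y hy hne
  obtain ⟨k', hk'⟩ := hd x' hx' y' hy' hne'
  have hpos : 0 < u (x - y) := T.v_pos u (sub_ne_zero.mpr hne)
  have hkk : k' < k := by
    by_contra hcon
    push Not at hcon
    have h1 : ρ ^ k ≤ ρ ^ k' := pow_le_pow_right₀ hρ.le hcon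
    have h2 : u (x - y) * ρ ^ k < u (x' - y') * ρ ^ k' :=
      calc u (x - y) * ρ ^ k < u (x' - y') * ρ ^ k :=
            mul_lt_mul_of_pos_right hlt (pow_pos hρ0 k)
        _ ≤ u (x' - y') * ρ ^ k' := mul_le_mul_of_nonneg_left h1 (T.v_nonneg u _)
    rw [hk, hk'] at h2
    exact lt_irrefl _ h2
  have h3 : (u (x - y) * ρ) * ρ ^ k' ≤ u (x' - y') * ρ ^ k' := by
    calc (u (x - y) * ρ) * ρ ^ k' = u (x - y) * ρ ^ (k' + 1) := by ring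
      _ ≤ u (x - y) * ρ ^ k :=
          mul_le_mul_of_nonneg_left (pow_le_pow_right₀ hρ.le hkk) hpos.le
      _ = u (x' - y') * ρ ^ k' := by rw [hk, hk']
  exact le_of_mul_le_mul_right h3 (pow_pos hρ0 k')

/-- The cross ratio coordinate. -/
noncomputable def X (p₀ p₁ p₂ t : K) : K := (t - p₀) * (p₁ - p₂) / ((t - p₂) * (p₁ - p₀))

lemma one_sub_X {p₀ p₁ p₂ t : K} (h01 : p₀ ≠ p₁) (ht : t ≠ p₂) :
    1 - X p₀ p₁ p₂ t = X p₁ p₀ p₂ t := by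
  unfold X
  have h1 : p₁ - p₀ ≠ 0 := sub_ne_zero.mpr h01.symm
  have h2 : p₀ - p₁ ≠ 0 := sub_ne_zero.mpr h01
  have h3 : t - p₂ ≠ 0 := sub_ne_zero.mpr ht
  field_simp
  ring

lemma inv_X (p₀ p₁ p₂ t : K) : (X p₀ p₁ p₂ t)⁻¹ = X p₂ p₁ p₀ t := by
  unfold X
  rw [inv_div]

lemma uX (p₀ p₁ p₂ t : K) : u (X p₀ p₁ p₂ t) =
    u (t - p₀) * u (p₁ - p₂) / (u (t - p₂) * u (p₀ - p₁)) := by
  unfold X
  rw [map_div₀, map_mul, map_mul, T.v_sub_comm u p₁ p₀]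

lemma X_sub {p₀ p₁ p₂ t t' : K} (h01 : p₀ ≠ p₁) (ht : t ≠ p₂) (ht' : t' ≠ p₂) :
    X p₀ p₁ p₂ t - X p₀ p₁ p₂ t' =
      (p₁ - p₂) * (p₀ - p₂) * (t - t') / ((p₁ - p₀) * (t - p₂) * (t' - p₂)) := by
  unfold X
  have h1 : p₁ - p₀ ≠ 0 := sub_ne_zero.mpr h01.symm
  have h3 : t - p₂ ≠ 0 := sub_ne_zero.mpr ht
  have h4 : t' - p₂ ≠ 0 := sub_ne_zero.mpr ht'
  field_simp
  ring

lemma uX_sub {p₀ p₁ p₂ t t' : K} (h01 : p₀ ≠ p₁) (ht : t ≠ p₂) (ht' : t' ≠ p₂) :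
    u (X p₀ p₁ p₂ t - X p₀ p₁ p₂ t') =
      u (p₁ - p₂) * u (p₀ - p₂) * u (t - t') / (u (p₀ - p₁) * u (t - p₂) * u (t' - p₂)) := by
  rw [X_sub h01 ht ht', map_div₀, map_mul, map_mul, map_mul, map_mul, T.v_sub_comm u p₁ p₀]

lemma close_one_sub {θ : ℝ} (h0 : 0 < θ) (h1 : θ < 1) {A A' : K} (h : Close u θ A A') :
    Close u θ (1 - A) (1 - A') := by
  have hθ : 1 < θ⁻¹ := (one_lt_inv₀ h0).mpr h1
  unfold Close at *
  have e1 : 1 - (1 - A) = A := by ring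
  have e2 : 1 - (1 - A') = A' := by ring
  have hp : ∀ {z : K}, θ⁻¹ ≤ u z → θ⁻¹ ≤ u (1 - z) := by
    intro z hz
    have : u (1 : K) < u z := by
      rw [map_one]
      linarith
    rw [T.v_sub_comm, T.v_sub_eq u this]
    exact hz
  rcases h with h | h | h | h
  · right; left
    rw [e1, e2]
    exact h
  · left
    exact h
  · right; right; left
    exact ⟨hp h.1, hp h.2⟩
  · right; right; right
    rw [e1, e2]
    refine ⟨h.2.1, h.1, h.2.2.2.1, h.2.2.1, ?_⟩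
    have : 1 - A - (1 - A') = A' - A := by ring
    rw [this, T.v_sub_comm]
    exact h.2.2.2.2

lemma close_inv {θ : ℝ} (h0 : 0 < θ) (h1 : θ < 1) {A A' : K} (hA : A ≠ 0) (hA' : A' ≠ 0)
    (h : Close u θ A A') : Close u θ A⁻¹ A'⁻¹ := by
  unfold Close at *
  have hp : ∀ {z : K}, u (1 - z) ≤ θ → u z = 1 := by
    intro z hz
    have h2 : u (1 - z) < u (1 : K) := by
      rw [map_one]
      linarith
    have h3 : u (1 - (1 - z)) = u (1 : K) := T.v_sub_eq u h2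
    rw [map_one] at h3
    have e1 : 1 - (1 - z) = z := by ring
    rw [e1] at h3
    exact h3
  have hq : ∀ {z : K}, z ≠ 0 → u z = 1 → u (1 - z⁻¹) = u (1 - z) := by
    intro z hz hz1
    have e1 : 1 - z⁻¹ = (z - 1) / z := by
      field_simp
    rw [e1, map_div₀, hz1, div_one, T.v_sub_comm]
  rcases h with h | h | h | h
  · right; right; left
    rw [map_inv₀, map_inv₀]
    exact ⟨inv_anti₀ (T.v_pos u hA) h.1, inv_anti₀ (T.v_pos u hA') h.2⟩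
  · right; left
    rw [hq hA (hp h.1), hq hA' (hp h.2)]
    exact h
  · left
    rw [map_inv₀, map_inv₀]
    exact ⟨inv_le_of_inv_le₀ h0 h.1, inv_le_of_inv_le₀ h0 h.2⟩
  · right; right; right
    rw [map_inv₀, map_inv₀, hq hA h.1, hq hA' h.2.2.1, h.1, h.2.2.1, inv_one]
    refine ⟨rfl, h.2.1, rfl, h.2.2.2.1, ?_⟩
    have e1 : A⁻¹ - A'⁻¹ = (A' - A) / (A * A') := by
      field_simp
    rw [e1, map_div₀, map_mul, h.1, h.2.2.1, mul_one, div_one, T.v_sub_comm]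
    exact h.2.2.2.2

lemma le_inv_of {a b ρ : ℝ} (hb : 0 < b) (hρ : 0 < ρ) (h : a * ρ ≤ b) : a / b ≤ ρ⁻¹ := by
  rw [div_le_iff₀ hb]
  calc a = (a * ρ) * ρ⁻¹ := by field_simp
    _ ≤ b * ρ⁻¹ := mul_le_mul_of_nonneg_right h (inv_pos.mpr hρ).le
    _ = ρ⁻¹ * b := mul_comm _ _

lemma ge_of {a b ρ : ℝ} (hb : 0 < b) (h : b * ρ ≤ a) : ρ⁻¹⁻¹ ≤ a / b := by
  rw [inv_inv, le_div_iff₀ hb]
  linarith

/-- Distances of points in the same class of the splitting. -/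
lemma split_gap (h : Tree u P r ρ d) {p p' : K} (hp : p ∈ P) (hp' : p' ∈ P) (hpp : p ≠ p')
    {k : ℕ} (hk : u (p - p') * ρ ^ k = r) {c : K → Fin d}
    (hc : ∀ t ∈ P, ∀ t' ∈ P, u (t - p) * ρ ^ k ≤ r →
      u (t' - p) * ρ ^ k ≤ r → c t = c t' → u (t - t') * ρ ^ k < r) {t t' : K} (ht : t ∈ P)
    (ht' : t' ∈ P) (h1 : u (t - p) ≤ u (p - p')) (h2 : u (t' - p) ≤ u (p - p'))
    (h3 : c t = c t') : u (t - t') * ρ ≤ u (p - p') := by
  have hρ0 : 0 < ρ := by linarith [h.2.1]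
  have hρk : 0 < ρ ^ k := pow_pos hρ0 k
  refine gap u h ht ht' hp hp' hpp ?_
  have h4 := hc t ht t' ht' (by rw [← hk]; exact mul_le_mul_of_nonneg_right h1 hρk.le)
    (by rw [← hk]; exact mul_le_mul_of_nonneg_right h2 hρk.le) h3
  rw [← hk] at h4
  exact lt_of_mul_lt_mul_right h4 hρk.le

end aux

end Tree

section tree

variable {K : Type} [Field K] [NumberField K] (u : FinitePlace K)
  {P : Set K} {r ρ : ℝ} {d : ℕ}

theorem tree_affine (h : Tree u P r ρ d) {p₀ p₁ : K} (h₀ : p₀ ∈ P) (h₁ : p₁ ∈ P)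
    (h01 : p₀ ≠ p₁) : ∃ cl : K → Fin (d + 4), ∀ t ∈ P, ∀ t' ∈ P, t ≠ p₀ → t ≠ p₁ → t' ≠ p₀ →
      t' ≠ p₁ → cl t = cl t' → Close u ρ⁻¹ ((t - p₀) / (p₁ - p₀)) ((t' - p₀) / (p₁ - p₀)) := by
  classical
  have hρ := h.2.1
  have hρ0 : 0 < ρ := by linarith
  obtain ⟨k0, hk0⟩ := h.2.2.1 p₀ h₀ p₁ h₁ h01
  obtain ⟨c, hc⟩ := h.2.2.2 p₀ h₀ k0
  have hα0 : 0 < u (p₀ - p₁) := T.v_pos u (sub_ne_zero.mpr h01)
  have h10 : p₁ - p₀ ≠ 0 := sub_ne_zero.mpr h01.symm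
  let cn : K → ℕ := fun t => if u (t - p₀) < u (p₀ - p₁) then 0 else
    if u (t - p₁) < u (p₀ - p₁) then 1 else
    if u (p₀ - p₁) < u (t - p₀) then 2 else (c t : ℕ) + 4
  have hcn : ∀ t, cn t < d + 4 := by
    intro t
    have := (c t).2
    simp only [cn]
    split_ifs <;> omega
  have e1 : ∀ t : K, u ((t - p₀) / (p₁ - p₀)) = u (t - p₀) / u (p₀ - p₁) := by
    intro t
    rw [map_div₀, T.v_sub_comm u p₁ p₀]
  have e2 : ∀ t : K, u (1 - (t - p₀) / (p₁ - p₀)) = u (t - p₁) / u (p₀ - p₁) := by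
    intro t
    have : 1 - (t - p₀) / (p₁ - p₀) = (p₁ - t) / (p₁ - p₀) := by
      field_simp
      ring
    rw [this, map_div₀, T.v_sub_comm u p₁ p₀, T.v_sub_comm u p₁ t]
  have e3 : ∀ t t' : K, u ((t - p₀) / (p₁ - p₀) - (t' - p₀) / (p₁ - p₀)) =
      u (t - t') / u (p₀ - p₁) := by
    intro t t'
    have : (t - p₀) / (p₁ - p₀) - (t' - p₀) / (p₁ - p₀) = (t - t') / (p₁ - p₀) := by
      field_simp
      ring
    rw [this, map_div₀, T.v_sub_comm u p₁ p₀]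
  have key : ∀ t ∈ P, t ≠ p₀ → t ≠ p₁ →
      (cn t = 0 ∧ u ((t - p₀) / (p₁ - p₀)) ≤ ρ⁻¹) ∨
      (cn t = 1 ∧ u (1 - (t - p₀) / (p₁ - p₀)) ≤ ρ⁻¹) ∨
      (cn t = 2 ∧ ρ⁻¹⁻¹ ≤ u ((t - p₀) / (p₁ - p₀))) ∨
      (cn t = (c t : ℕ) + 4 ∧ u ((t - p₀) / (p₁ - p₀)) = 1 ∧
        u (1 - (t - p₀) / (p₁ - p₀)) = 1 ∧ u (t - p₀) ≤ u (p₀ - p₁)) := by
    intro t ht ht0 ht1
    by_cases hA : u (t - p₀) < u (p₀ - p₁)
    · left
      refine ⟨by simp only [cn]; rw [if_pos hA], ?_⟩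
      rw [e1]
      exact Tree.le_inv_of hα0 hρ0 (Tree.gap u h ht h₀ h₀ h₁ h01 hA)
    by_cases hB : u (t - p₁) < u (p₀ - p₁)
    · right; left
      refine ⟨by simp only [cn]; rw [if_neg hA, if_pos hB], ?_⟩
      rw [e2]
      exact Tree.le_inv_of hα0 hρ0 (Tree.gap u h ht h₁ h₀ h₁ h01 hB)
    by_cases hC : u (p₀ - p₁) < u (t - p₀)
    · right; right; left
      refine ⟨by simp only [cn]; rw [if_neg hA, if_neg hB, if_pos hC], ?_⟩
      rw [e1]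
      exact Tree.ge_of hα0 (Tree.gap u h h₀ h₁ ht h₀ ht0 hC)
    · right; right; right
      push Not at hA hB hC
      have h2 : u (t - p₀) = u (p₀ - p₁) := le_antisymm hC hA
      have h3 : u (t - p₁) = u (p₀ - p₁) := by
        refine le_antisymm ?_ hB
        refine (Tree.tri u t p₀ p₁).trans ?_
        rw [h2, max_self]
      refine ⟨by simp only [cn]; rw [if_neg (not_lt.mpr hA), if_neg (not_lt.mpr hB),
        if_neg (not_lt.mpr hC)], ?_, ?_, hC⟩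
      · rw [e1, h2, div_self hα0.ne']
      · rw [e2, h3, div_self hα0.ne']
  refine ⟨fun t => ⟨cn t, hcn t⟩, ?_⟩
  intro t ht t' ht' ht0 ht1 ht0' ht1' hcl
  have hcl' : cn t = cn t' := congrArg Fin.val hcl
  unfold Close
  rcases key t ht ht0 ht1 with ⟨a1, a2⟩ | ⟨a1, a2⟩ | ⟨a1, a2⟩ | ⟨a1, a2, a3, a4⟩ <;>
    rcases key t' ht' ht0' ht1' with ⟨b1, b2⟩ | ⟨b1, b2⟩ | ⟨b1, b2⟩ | ⟨b1, b2, b3, b4⟩ <;>
    first
    | (exfalso; omega)
    | exact Or.inl ⟨a2, b2⟩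
    | exact Or.inr (Or.inl ⟨a2, b2⟩)
    | exact Or.inr (Or.inr (Or.inl ⟨a2, b2⟩))
    | skip
  refine Or.inr (Or.inr (Or.inr ⟨a2, a3, b2, b3, ?_⟩))
  rw [e3]
  refine Tree.le_inv_of hα0 hρ0 (Tree.split_gap u h h₀ h₁ h01 hk0 hc ht ht' a4 b4 ?_)
  apply Fin.ext
  omega

/-- The case of a closest pair `p₀, p₁`. -/
theorem Tree.cross_special (h : Tree u P r ρ d) {p₀ p₁ p₂ : K} (h₀ : p₀ ∈ P) (h₁ : p₁ ∈ P)
    (h₂ : p₂ ∈ P) (h01 : p₀ ≠ p₁) (h02 : p₀ ≠ p₂) (h12 : p₁ ≠ p₂)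
    (hle : u (p₀ - p₁) ≤ u (p₀ - p₂)) (heq : u (p₁ - p₂) = u (p₀ - p₂)) :
    ∃ cl : K → Fin (d + 4), ∀ t ∈ P, ∀ t' ∈ P, t ≠ p₀ → t ≠ p₁ → t ≠ p₂ → t' ≠ p₀ →
      t' ≠ p₁ → t' ≠ p₂ → cl t = cl t' →
      Close u ρ⁻¹ (Tree.X p₀ p₁ p₂ t) (Tree.X p₀ p₁ p₂ t') := by
  classical
  have hρ := h.2.1
  have hρ0 : 0 < ρ := by linarith
  obtain ⟨k0, hk0⟩ := h.2.2.1 p₀ h₀ p₁ h₁ h01
  obtain ⟨c, hc⟩ := h.2.2.2 p₀ h₀ k0
  have hα0 : 0 < u (p₀ - p₁) := T.v_pos u (sub_ne_zero.mpr h01)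
  have hγ0 : 0 < u (p₀ - p₂) := T.v_pos u (sub_ne_zero.mpr h02)
  let cn : K → ℕ := fun t => if u (t - p₀) < u (p₀ - p₁) then 0 else
    if u (t - p₁) < u (p₀ - p₁) then 1 else
    if u (p₀ - p₁) < u (t - p₀) then 3 else
    if u (t - p₂) < u (p₀ - p₁) then 2 else (c t : ℕ) + 4
  have hcn : ∀ t, cn t < d + 4 := by
    intro t
    have := (c t).2
    simp only [cn]
    split_ifs <;> omega
  have e1 : ∀ t : K, u (Tree.X p₀ p₁ p₂ t) =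
      u (t - p₀) * u (p₀ - p₂) / (u (t - p₂) * u (p₀ - p₁)) := by
    intro t
    rw [Tree.uX, heq]
  have e2 : ∀ t : K, t ≠ p₂ → u (1 - Tree.X p₀ p₁ p₂ t) =
      u (t - p₁) * u (p₀ - p₂) / (u (t - p₂) * u (p₀ - p₁)) := by
    intro t ht
    rw [Tree.one_sub_X h01 ht, Tree.uX, T.v_sub_comm u p₁ p₀]
  have e3 : ∀ t t' : K, t ≠ p₂ → t' ≠ p₂ → u (Tree.X p₀ p₁ p₂ t - Tree.X p₀ p₁ p₂ t') =
      u (p₀ - p₂) * u (p₀ - p₂) * u (t - t') /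
        (u (p₀ - p₁) * u (t - p₂) * u (t' - p₂)) := by
    intro t t' ht ht'
    rw [Tree.uX_sub u h01 ht ht', heq]
  -- distances from `p₂`
  have f1 : ∀ t : K, u (t - p₀) < u (p₀ - p₂) → u (t - p₂) = u (p₀ - p₂) := by
    intro t ht
    exact Tree.tri_eq u ht
  have f2 : ∀ t : K, u (p₀ - p₂) < u (t - p₀) → u (t - p₂) = u (t - p₀) := by
    intro t ht
    have h1 : u (p₂ - p₀) < u (p₀ - t) := by
      rwa [T.v_sub_comm u p₂ p₀, T.v_sub_comm u p₀ t]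
    have := Tree.tri_eq u h1
    rw [T.v_sub_comm u t p₂, this, T.v_sub_comm]
  have f3 : ∀ t : K, u (t - p₀) = u (p₀ - p₂) → u (t - p₂) ≤ u (p₀ - p₂) := by
    intro t ht
    refine (Tree.tri u t p₀ p₂).trans ?_
    rw [ht, max_self]
  have f4 : ∀ t : K, u (p₀ - p₁) < u (t - p₀) → u (t - p₁) = u (t - p₀) := by
    intro t ht
    have h1 : u (p₁ - p₀) < u (p₀ - t) := by
      rwa [T.v_sub_comm u p₁ p₀, T.v_sub_comm u p₀ t]
    have := Tree.tri_eq u h1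
    rw [T.v_sub_comm u t p₁, this, T.v_sub_comm]
  have key : ∀ t ∈ P, t ≠ p₀ → t ≠ p₁ → t ≠ p₂ →
      (cn t = 0 ∧ u (Tree.X p₀ p₁ p₂ t) ≤ ρ⁻¹) ∨
      (cn t = 1 ∧ u (1 - Tree.X p₀ p₁ p₂ t) ≤ ρ⁻¹) ∨
      (cn t = 2 ∧ ρ⁻¹⁻¹ ≤ u (Tree.X p₀ p₁ p₂ t)) ∨
      (cn t = 3 ∧ u (p₀ - p₁) < u (p₀ - p₂) ∧ ρ⁻¹⁻¹ ≤ u (Tree.X p₀ p₁ p₂ t)) ∨
      (cn t = 3 ∧ u (p₀ - p₁) = u (p₀ - p₂) ∧ u (Tree.X p₀ p₁ p₂ t) = 1 ∧
        u (1 - Tree.X p₀ p₁ p₂ t) = 1 ∧ u (p₀ - p₁) * ρ ≤ u (t - p₂)) ∨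
      (cn t = (c t : ℕ) + 4 ∧ u (Tree.X p₀ p₁ p₂ t) = 1 ∧
        u (1 - Tree.X p₀ p₁ p₂ t) = 1 ∧ u (t - p₂) = u (p₀ - p₂) ∧
        u (t - p₀) ≤ u (p₀ - p₁)) := by
    intro t ht ht0 ht1 ht2
    have ha0 : 0 < u (t - p₀) := T.v_pos u (sub_ne_zero.mpr ht0)
    have hg0 : 0 < u (t - p₂) := T.v_pos u (sub_ne_zero.mpr ht2)
    by_cases hA : u (t - p₀) < u (p₀ - p₁)
    · left
      refine ⟨by simp only [cn]; rw [if_pos hA], ?_⟩
      rw [e1, f1 t (lt_of_lt_of_le hA hle), mul_comm (u (t - p₀)), mul_div_mul_left _ _ hγ0.ne']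
      exact Tree.le_inv_of hα0 hρ0 (Tree.gap u h ht h₀ h₀ h₁ h01 hA)
    by_cases hB : u (t - p₁) < u (p₀ - p₁)
    · right; left
      refine ⟨by simp only [cn]; rw [if_neg hA, if_pos hB], ?_⟩
      have h5 : u (t - p₂) = u (p₀ - p₂) := by
        rw [← heq]
        refine Tree.tri_eq u ?_
        rw [heq]
        exact lt_of_lt_of_le hB hle
      rw [e2 t ht2, h5, mul_comm (u (t - p₁)), mul_div_mul_left _ _ hγ0.ne']
      exact Tree.le_inv_of hα0 hρ0 (Tree.gap u h ht h₁ h₀ h₁ h01 hB)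
    by_cases hC : u (p₀ - p₁) < u (t - p₀)
    · right; right; right
      have hcn3 : cn t = 3 := by simp only [cn]; rw [if_neg hA, if_neg hB, if_pos hC]
      rcases hle.lt_or_eq with hlt | hee
      · left
        refine ⟨hcn3, hlt, ?_⟩
        rw [e1]
        rcases lt_trichotomy (u (t - p₀)) (u (p₀ - p₂)) with h6 | h6 | h6
        · rw [f1 t h6, mul_comm (u (t - p₀)), mul_div_mul_left _ _ hγ0.ne']
          exact Tree.ge_of hα0 (Tree.gap u h h₀ h₁ ht h₀ ht0 hC)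
        · have h7 := f3 t h6
          have h8 := Tree.gap u h h₀ h₁ ht h₀ ht0 hC
          refine Tree.ge_of (mul_pos hg0 hα0) ?_
          calc u (t - p₂) * u (p₀ - p₁) * ρ = (u (p₀ - p₁) * ρ) * u (t - p₂) := by ring
            _ ≤ u (t - p₀) * u (p₀ - p₂) := mul_le_mul h8 h7 hg0.le ha0.le
        · rw [f2 t h6, mul_div_mul_left _ _ ha0.ne']
          exact Tree.ge_of hα0 (Tree.gap u h h₀ h₁ h₀ h₂ h02 hlt)
      · right; left
        have h6 : u (t - p₂) = u (t - p₀) := f2 t (by rwa [← hee])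
        refine ⟨hcn3, hee, ?_, ?_, ?_⟩
        · rw [e1, h6, ← hee, div_self (mul_pos ha0 hα0).ne']
        · rw [e2 t ht2, h6, f4 t hC, ← hee, div_self (mul_pos ha0 hα0).ne']
        · rw [h6]
          exact Tree.gap u h h₀ h₁ ht h₀ ht0 hC
    have hA' : u (t - p₀) = u (p₀ - p₁) := le_antisymm (not_lt.mp hC) (not_lt.mp hA)
    have hB' : u (t - p₁) = u (p₀ - p₁) := by
      refine le_antisymm ?_ (not_lt.mp hB)
      refine (Tree.tri u t p₀ p₁).trans ?_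
      rw [hA', max_self]
    by_cases hD : u (t - p₂) < u (p₀ - p₁)
    · right; right; left
      refine ⟨by simp only [cn]; rw [if_neg hA, if_neg hB, if_neg hC, if_pos hD], ?_⟩
      rw [e1, hA', mul_comm (u (t - p₂)), mul_div_mul_left _ _ hα0.ne']
      have h9 : u (t - p₂) < u (p₀ - p₂) := lt_of_lt_of_le hD hle
      exact Tree.ge_of hg0 (Tree.gap u h ht h₂ h₀ h₂ h02 h9)
    · right; right; right; right; right
      have h5 : u (t - p₂) = u (p₀ - p₂) := by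
        rcases hle.lt_or_eq with hlt | hee
        · exact f1 t (by rwa [hA'])
        · refine le_antisymm (f3 t (by rw [hA', hee])) ?_
          rw [← hee]
          exact not_lt.mp hD
      refine ⟨by simp only [cn]; rw [if_neg hA, if_neg hB, if_neg hC, if_neg hD], ?_, ?_, h5,
        hA'.le⟩
      · rw [e1, hA', h5, mul_comm, div_self (mul_pos hγ0 hα0).ne']
      · rw [e2 t ht2, hB', h5, mul_comm, div_self (mul_pos hγ0 hα0).ne']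
  refine ⟨fun t => ⟨cn t, hcn t⟩, ?_⟩
  intro t ht t' ht' ht0 ht1 ht2 ht0' ht1' ht2' hcl
  have hcl' : cn t = cn t' := congrArg Fin.val hcl
  have hg0 : 0 < u (t - p₂) := T.v_pos u (sub_ne_zero.mpr ht2)
  have hg0' : 0 < u (t' - p₂) := T.v_pos u (sub_ne_zero.mpr ht2')
  unfold Close
  rcases key t ht ht0 ht1 ht2 with ⟨a1, a2⟩ | ⟨a1, a2⟩ | ⟨a1, a2⟩ | ⟨a1, a2, a3⟩ |
      ⟨a1, a2, a3, a4, a5⟩ | ⟨a1, a2, a3, a4, a5⟩ <;>
    rcases key t' ht' ht0' ht1' ht2' with ⟨b1, b2⟩ | ⟨b1, b2⟩ | ⟨b1, b2⟩ | ⟨b1, b2, b3⟩ |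
      ⟨b1, b2, b3, b4, b5⟩ | ⟨b1, b2, b3, b4, b5⟩ <;>
    first
    | (exfalso; omega)
    | exact Or.inl ⟨a2, b2⟩
    | exact Or.inr (Or.inl ⟨a2, b2⟩)
    | exact Or.inr (Or.inr (Or.inl ⟨a2, b2⟩))
    | exact Or.inr (Or.inr (Or.inl ⟨a3, b3⟩))
    | exact absurd a2 (by rw [b2]; exact lt_irrefl _)
    | exact absurd b2 (by rw [a2]; exact lt_irrefl _)
    | skip
  · refine Or.inr (Or.inr (Or.inr ⟨a3, a4, b3, b4, ?_⟩))
    rw [e3 t t' ht2 ht2', ← a2]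
    have e4 : u (p₀ - p₁) * u (p₀ - p₁) * u (t - t') /
        (u (p₀ - p₁) * u (t - p₂) * u (t' - p₂)) =
        (u (p₀ - p₁) * u (t - t')) / (u (t - p₂) * u (t' - p₂)) := by
      field_simp
    rw [e4]
    refine Tree.le_inv_of (mul_pos hg0 hg0') hρ0 ?_
    have h6 : u (t - t') ≤ max (u (t - p₂)) (u (t' - p₂)) := by
      rw [T.v_sub_comm u t' p₂]
      exact Tree.tri u t p₂ t'
    rcases le_max_iff.mp h6 with h7 | h7
    · calc u (p₀ - p₁) * u (t - t') * ρ = u (t - t') * (u (p₀ - p₁) * ρ) := by ring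
        _ ≤ u (t - p₂) * u (t' - p₂) := mul_le_mul h7 b5 (mul_pos hα0 hρ0).le hg0.le
    · calc u (p₀ - p₁) * u (t - t') * ρ = (u (p₀ - p₁) * ρ) * u (t - t') := by ring
        _ ≤ u (t - p₂) * u (t' - p₂) := mul_le_mul a5 h7 (T.v_nonneg u _) hg0.le
  · refine Or.inr (Or.inr (Or.inr ⟨a2, a3, b2, b3, ?_⟩))
    rw [e3 t t' ht2 ht2', a4, b4]
    have e4 : u (p₀ - p₂) * u (p₀ - p₂) * u (t - t') /
        (u (p₀ - p₁) * u (p₀ - p₂) * u (p₀ - p₂)) = u (t - t') / u (p₀ - p₁) := by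
      field_simp
    rw [e4]
    refine Tree.le_inv_of hα0 hρ0 (Tree.split_gap u h h₀ h₁ h01 hk0 hc ht ht' a5 b5 ?_)
    apply Fin.ext
    omega

theorem tree_cross (h : Tree u P r ρ d) {p₀ p₁ p₂ : K} (h₀ : p₀ ∈ P) (h₁ : p₁ ∈ P)
    (h₂ : p₂ ∈ P) (h01 : p₀ ≠ p₁) (h02 : p₀ ≠ p₂) (h12 : p₁ ≠ p₂) :
    ∃ cl : K → Fin (d + 4), ∀ t ∈ P, ∀ t' ∈ P, t ≠ p₀ → t ≠ p₁ → t ≠ p₂ → t' ≠ p₀ →
      t' ≠ p₁ → t' ≠ p₂ → cl t = cl t' →
      Close u ρ⁻¹ ((t - p₀) * (p₁ - p₂) / ((t - p₂) * (p₁ - p₀)))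
        ((t' - p₀) * (p₁ - p₂) / ((t' - p₂) * (p₁ - p₀))) := by
  have hρ := h.2.1
  have hρ0 : 0 < ρ := by linarith
  have h0 : 0 < ρ⁻¹ := inv_pos.mpr hρ0
  have h1 : ρ⁻¹ < 1 := inv_lt_one_of_one_lt₀ hρ
  have hX : ∀ {q₀ q₁ q₂ t : K}, q₀ ≠ q₁ → q₁ ≠ q₂ → t ≠ q₀ → t ≠ q₂ →
      Tree.X q₀ q₁ q₂ t ≠ 0 := by
    intro q₀ q₁ q₂ t a1 a2 a3 a4
    unfold Tree.X
    exact div_ne_zero (mul_ne_zero (sub_ne_zero.mpr a3) (sub_ne_zero.mpr a2))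
      (mul_ne_zero (sub_ne_zero.mpr a4) (sub_ne_zero.mpr a1.symm))
  have t1 := Tree.tri u p₀ p₂ p₁
  have t2 := Tree.tri u p₀ p₁ p₂
  have t3 := Tree.tri u p₁ p₀ p₂
  rw [T.v_sub_comm u p₂ p₁] at t1
  rw [T.v_sub_comm u p₁ p₀] at t3
  rcases le_total (u (p₀ - p₁)) (u (p₀ - p₂)) with ha | ha
  · rcases le_total (u (p₀ - p₁)) (u (p₁ - p₂)) with hb | hb
    · -- closest pair `p₀, p₁`
      have heq : u (p₁ - p₂) = u (p₀ - p₂) := by
        rw [max_eq_right hb] at t2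
        rw [max_eq_right ha] at t3
        exact le_antisymm t3 t2
      exact Tree.cross_special u h h₀ h₁ h₂ h01 h02 h12 ha heq
    · -- closest pair `p₁, p₂`
      have heq : u (p₁ - p₀) = u (p₂ - p₀) := by
        rw [T.v_sub_comm u p₁ p₀, T.v_sub_comm u p₂ p₀]
        rw [max_eq_left hb] at t2
        exact le_antisymm ha t2
      obtain ⟨cl, hcl⟩ := Tree.cross_special u h h₂ h₁ h₀ h12.symm h02.symm h01.symm
        (by rw [T.v_sub_comm u p₂ p₁, ← heq, T.v_sub_comm u p₁ p₀]; exact hb) heq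
      refine ⟨cl, ?_⟩
      intro t ht t' ht' a0 a1 a2 b0 b1 b2 hh
      have := Tree.close_inv u h0 h1 (hX h12.symm h01.symm a2 a0) (hX h12.symm h01.symm b2 b0)
        (hcl t ht t' ht' a2 a1 a0 b2 b1 b0 hh)
      rw [Tree.inv_X, Tree.inv_X] at this
      exact this
  · rcases le_total (u (p₀ - p₂)) (u (p₁ - p₂)) with hb | hb
    · -- closest pair `p₀, p₂`
      have heq : u (p₀ - p₁) = u (p₂ - p₁) := by
        rw [T.v_sub_comm u p₂ p₁]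
        rw [max_eq_right hb] at t1
        rw [max_eq_left ha] at t3
        exact le_antisymm t1 t3
      obtain ⟨cl, hcl⟩ := Tree.cross_special u h h₂ h₀ h₁ h02.symm h12.symm h01
        (by rw [T.v_sub_comm u p₂ p₀, T.v_sub_comm u p₂ p₁]; exact hb) heq
      refine ⟨cl, ?_⟩
      intro t ht t' ht' a0 a1 a2 b0 b1 b2 hh
      have := Tree.close_inv u h0 h1 (hX h02.symm h01 a2 a1) (hX h02.symm h01 b2 b1)
        (hcl t ht t' ht' a2 a0 a1 b2 b0 b1 hh)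
      rw [Tree.inv_X, Tree.inv_X] at this
      have h5 := Tree.close_one_sub u h0 h1 this
      rw [Tree.one_sub_X h01.symm a2, Tree.one_sub_X h01.symm b2] at h5
      exact h5
    · -- closest pair `p₁, p₂`
      have hc : u (p₁ - p₂) ≤ u (p₀ - p₁) := hb.trans ha
      have heq : u (p₁ - p₀) = u (p₂ - p₀) := by
        rw [T.v_sub_comm u p₁ p₀, T.v_sub_comm u p₂ p₀]
        rw [max_eq_left hb] at t1
        exact le_antisymm t1 ha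
      obtain ⟨cl, hcl⟩ := Tree.cross_special u h h₂ h₁ h₀ h12.symm h02.symm h01.symm
        (by rw [T.v_sub_comm u p₂ p₁, T.v_sub_comm u p₂ p₀]; exact hb) heq
      refine ⟨cl, ?_⟩
      intro t ht t' ht' a0 a1 a2 b0 b1 b2 hh
      have := Tree.close_inv u h0 h1 (hX h12.symm h01.symm a2 a0) (hX h12.symm h01.symm b2 b0)
        (hcl t ht t' ht' a2 a1 a0 b2 b1 b0 hh)
      rw [Tree.inv_X, Tree.inv_X] at this
      exact this

end tree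

end Pool.Agent.MP90787a.G
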