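import Pool.Agent.Lib.MP_90787a_nt.G.CoreGen
import Pool.Agent.Lib.MP_90787a_nt.G.LocSimple
import Pool.Agent.Lib.MP_90787a_nt.G.LocGood
import Pool.Agent.Lib.MP_90787a_nt.G.Tree

set_option autoImplicit false

/-!
The two core theorems.
-/

namespace Pool.Agent.MP90787a.G

open Polynomial NumberField Height Pool.Agent.UBC90787a

namespace Core

section powers

variable {K : Type} [Field K] [NumberField K] (v : FinitePlace K) {P : Set K} {r ρ : ℝ} {d m : ℕ}

lemma tree_pos {x y : K} (hxy : x ≠ y) : 0 < v (x - y) :=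
  Pool.Agent.MP90787a.T.v_pos v (sub_ne_zero.mpr hxy)

/-- Quotients of distances are integral powers of `ρ`. -/
lemma tree_zpow (h : Tree v P r ρ d) {x y : K} (hx : x ∈ P) (hy : y ∈ P) (hxy : x ≠ y) :
    ∃ k : ℤ, v (x - y) = r * ρ ^ k := by
  obtain ⟨k, hk⟩ := h.2.2.1 x hx y hy hxy
  have hρ : 0 < ρ := by linarith [h.2.1]
  refine ⟨-k, ?_⟩
  rw [zpow_neg, zpow_natCast, ← hk, mul_assoc, mul_inv_cancel₀ (pow_pos hρ k).ne', mul_one]

/-- The value of a quotient of differences. -/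
lemma ratio_pow (h : Tree v P r ρ d) (hV : ∀ (z w : K) (i j : ℤ), v z = r * ρ ^ i →
    v w = r * ρ ^ j → ∃ e : K, v z = v w * v e ^ m) {x y z w : K} (hx : x ∈ P) (hy : y ∈ P)
    (hxy : x ≠ y) (hz : z ∈ P) (hw : w ∈ P) (hzw : z ≠ w) (hm : m ≠ 0) :
    ∃ e : K, e ≠ 0 ∧ v ((x - y) / (z - w)) = v e ^ m := by
  obtain ⟨a, ha⟩ := tree_zpow v h hx hy hxy
  obtain ⟨b, hb⟩ := tree_zpow v h hz hw hzw
  obtain ⟨e, he⟩ := hV _ _ a b ha hb
  have h1 := tree_pos v hxy
  have h2 := tree_pos v hzw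
  refine ⟨e, ?_, ?_⟩
  · rintro rfl
    rw [map_zero, zero_pow hm, mul_zero] at he
    linarith
  · rw [map_div₀, he, mul_div_cancel_left₀ _ h2.ne']

end powers

/-- Reduction to the values outside a finite set. -/
lemma card_le_filter {K : Type} [DecidableEq K] (J E : Finset K) (T : K → K)
    (hT : Set.InjOn T J) : J.card ≤ (J.filter fun t => T t ∉ E).card + E.card := by
  have h1 : (J.filter fun t => ¬ (T t ∉ E)).card ≤ E.card := by
    refine Finset.card_le_card_of_injOn T ?_ ?_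
    · intro t ht
      have ht' := (Finset.mem_filter.mp ht).2
      push Not at ht'
      exact ht'
    · intro t ht t' ht' h
      exact hT (Finset.mem_filter.mp ht).1 (Finset.mem_filter.mp ht').1 h
  have h2 := Finset.card_filter_add_card_filter_not (s := J) (fun t => T t ∉ E)
  omega

end Core

open Pool.Agent.MP90787a.G.Core in
open Classical in
theorem core_affine (K : Type) [Field K] [NumberField K] (d m q : ℕ) (b : ℝ) (hd : 2 ≤ d)
    (hm : 3 ≤ m) (S : Finset (FinitePlace K)) : ∃ C : ℕ, ∀ f : K[X], f.natDegree = d →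
      NiceG S m q b f → ∀ (p₀ p₁ : K) (J : Finset K), p₀ ≠ p₁ →
      Preper (fun z => f.eval z) p₀ → Preper (fun z => f.eval z) p₁ →
      (∀ t ∈ J, Preper (fun z => f.eval z) t ∧ t ≠ p₀ ∧ t ≠ p₁ ∧
        ∀ v : FinitePlace K, v ∉ S → Good v f → v (t - p₀) = v (p₁ - p₀) ∧
          v (t - p₁) = v (p₁ - p₀)) → J.card ≤ C := by
  -- the package
  obtain ⟨L, _, _, φ, D, E, hD, hE⟩ : ∃ (L : Type) (_ : Field L) (_ : NumberField L)
      (φ : K →+* L) (D : Set L) (E : Finset K), KissT L D ∧ ∀ T : K, T ≠ 0 → T ≠ 1 → T ∉ E →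
        (∀ v : FinitePlace K, v ∉ S → ∃ b : K, b ≠ 0 ∧ v T = v b ^ m) →
        (∀ v : FinitePlace K, v ∉ S → ∃ b : K, b ≠ 0 ∧ v (1 - T) = v b ^ m) →
        φ T ∈ D := by
    rcases Nat.even_or_odd m with hev | hod
    · obtain ⟨L, i1, i2, φ, D, E, hD, hE⟩ := packT_even K m (by
        obtain ⟨k, hk⟩ := hev
        omega) hev S
      refine ⟨L, i1, i2, φ, D, E, hD, fun T h0 h1 hTE h2 h3 => hE T h0 h1 hTE h2 ?_⟩
      intro v hv
      obtain ⟨b, hb, hb'⟩ := h3 v hv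
      obtain ⟨k, hk⟩ := hev
      refine ⟨b ^ k, pow_ne_zero _ hb, ?_⟩
      rw [hb', map_pow, ← pow_mul]
      congr 1
      omega
    · exact packT_odd K m hm hod S
  obtain ⟨C, hC⟩ := core_gen φ hD S d hd (q + 3) (b := max b 1) (by positivity)
  refine ⟨C + E.card, ?_⟩
  intro f hfd hnice p₀ p₁ J h01 hp₀ hp₁ hJ
  set T : K → K := fun t => (t - p₀) / (p₁ - p₀) with hT
  have n01 : p₁ - p₀ ≠ 0 := sub_ne_zero.mpr h01.symm
  have hinj : Set.InjOn T J := by
    intro t _ t' _ h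
    have h1 : (t - p₀) / (p₁ - p₀) = (t' - p₀) / (p₁ - p₀) := h
    rw [div_left_inj' n01] at h1
    exact sub_left_injective h1
  refine (card_le_filter J E T hinj).trans (Nat.add_le_add_right ?_ _)
  set J' := J.filter fun t => T t ∉ E with hJ'
  have hJJ' : ∀ t ∈ J', t ∈ J := fun t ht => (Finset.mem_filter.mp ht).1
  have h1T : ∀ t, 1 - T t = (p₁ - t) / (p₁ - p₀) := by
    intro t
    rw [hT]
    field_simp
    ring
  have h2f : 2 ≤ f.natDegree := by omega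
  refine hC f hfd J' {p₀, p₁} T ?_ (hinj.mono (by exact_mod_cast Finset.filter_subset _ _))
    ?_ ?_ ?_
  · intro x hx
    rw [Finset.mem_union, Finset.mem_insert, Finset.mem_singleton] at hx
    rcases hx with hx | rfl | rfl
    · exact (hJ x (hJJ' x hx)).1
    · exact hp₀
    · exact hp₁
  · intro t ht
    have htJ := hJ t (hJJ' t ht)
    have nt0 : t - p₀ ≠ 0 := sub_ne_zero.mpr htJ.2.1
    have nt1 : p₁ - t ≠ 0 := sub_ne_zero.mpr htJ.2.2.1.symm
    refine hE (T t) (div_ne_zero nt0 n01) ?_ (Finset.mem_filter.mp ht).2 ?_ ?_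
    · intro h
      have := h1T t
      rw [h, sub_self] at this
      exact div_ne_zero nt1 n01 this.symm
    · intro v hv
      rcases hnice v hv with hg | hs
      · refine ⟨1, one_ne_zero, ?_⟩
        rw [hT]
        simp only
        rw [map_div₀, (htJ.2.2.2 v hv hg).1, map_one, one_pow, div_self (tree_pos v h01.symm).ne']
      · obtain ⟨r, ρ, htree, hlw, hpow⟩ := hs
        exact ratio_pow v htree (hpow ⟨p₀, p₁, h01, hp₀, hp₁⟩) htJ.1 hp₀ htJ.2.1 hp₁ hp₀ h01.symm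
          (by omega)
    · intro v hv
      rw [h1T]
      rcases hnice v hv with hg | hs
      · refine ⟨1, one_ne_zero, ?_⟩
        rw [map_div₀, Pool.Agent.MP90787a.T.v_sub_comm, (htJ.2.2.2 v hv hg).2, map_one, one_pow,
          div_self (tree_pos v h01.symm).ne']
      · obtain ⟨r, ρ, htree, hlw, hpow⟩ := hs
        exact ratio_pow v htree (hpow ⟨p₀, p₁, h01, hp₀, hp₁⟩) hp₁ htJ.1 htJ.2.2.1.symm hp₁ hp₀
          h01.symm (by omega)
  · intro t ht
    have m0 : p₀ ∈ J' ∪ {p₀, p₁} := by simp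
    have m1 : p₁ ∈ J' ∪ {p₀, p₁} := by simp
    have mt : t ∈ J' ∪ {p₀, p₁} := Finset.mem_union_left _ ht
    refine ⟨t, mt, p₀, m0, p₁, m1, p₀, m0, p₁, m1, p₀, m0, p₁, m1, p₀, m0, h01.symm, h01.symm, ?_⟩
    rw [div_self n01, mul_one]
  · intro v hv
    rcases hnice v hv with hg | hs
    · exact Or.inl hg
    · right
      obtain ⟨r, ρ, htree, hlw, hpow⟩ := hs
      refine ⟨ρ, htree.2.1, hlw.trans ?_, ?_⟩
      · have := Real.log_nonneg htree.2.1.le
        gcongr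
        exact le_max_left _ _
      obtain ⟨cl, hcl⟩ := tree_affine v htree hp₀ hp₁ h01
      refine ⟨cl, fun t ht t' ht' h => ?_⟩
      have h1 := hJ t (hJJ' t ht)
      have h2 := hJ t' (hJJ' t' ht')
      exact hcl t h1.1 t' h2.1 h1.2.1 h1.2.2.1 h2.2.1 h2.2.2.1 h

open Pool.Agent.MP90787a.G.Core in
open Classical in
theorem core_cross (K : Type) [Field K] [NumberField K] (d m q : ℕ) (b : ℝ) (hd : 2 ≤ d)
    (hm : 4 ≤ m) (hev : Even m) (S : Finset (FinitePlace K)) :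
    ∃ C : ℕ, ∀ f : K[X], f.natDegree = d →
      NiceG S m q b f → ∀ (p₀ p₁ p₂ : K) (J : Finset K), p₀ ≠ p₁ → p₀ ≠ p₂ → p₁ ≠ p₂ →
      Preper (fun z => f.eval z) p₀ → Preper (fun z => f.eval z) p₁ →
      Preper (fun z => f.eval z) p₂ →
      (∀ t ∈ J, Preper (fun z => f.eval z) t ∧ t ≠ p₀ ∧ t ≠ p₁ ∧ t ≠ p₂ ∧
        ∀ v : FinitePlace K, v ∉ S → Good v f → v (t - p₀) = v (p₁ - p₀) ∧
          v (t - p₂) = v (p₁ - p₀) ∧ v (p₁ - p₂) = v (p₁ - p₀) ∧
          v (t - p₁) = v (p₀ - p₂)) → J.card ≤ C := by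
  obtain ⟨L, _, _, φ, D, E, hD, hE⟩ := packT_even K m hm hev S
  obtain ⟨C, hC⟩ := core_gen φ hD S d hd (q + 3) (b := max b 1) (by positivity)
  refine ⟨C + E.card, ?_⟩
  intro f hfd hnice p₀ p₁ p₂ J h01 h02 h12 hp₀ hp₁ hp₂ hJ
  set T : K → K := fun t => (t - p₀) * (p₁ - p₂) / ((t - p₂) * (p₁ - p₀)) with hT
  have n01 : p₁ - p₀ ≠ 0 := sub_ne_zero.mpr h01.symm
  have n12 : p₁ - p₂ ≠ 0 := sub_ne_zero.mpr h12
  have n02 : p₀ - p₂ ≠ 0 := sub_ne_zero.mpr h02
  have hinj : Set.InjOn T J := by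
    intro t ht t' ht' h
    have h1 : (t - p₀) * (p₁ - p₂) / ((t - p₂) * (p₁ - p₀)) =
      (t' - p₀) * (p₁ - p₂) / ((t' - p₂) * (p₁ - p₀)) := h
    have a1 : t - p₂ ≠ 0 := sub_ne_zero.mpr (hJ t ht).2.2.2.1
    have a2 : t' - p₂ ≠ 0 := sub_ne_zero.mpr (hJ t' ht').2.2.2.1
    rw [div_eq_div_iff (mul_ne_zero a1 n01) (mul_ne_zero a2 n01)] at h1
    have h2 : (t - t') * ((p₀ - p₂) * ((p₁ - p₂) * (p₁ - p₀))) = 0 := by
      linear_combination h1
    rcases mul_eq_zero.mp h2 with h3 | h3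
    · exact sub_eq_zero.mp h3
    · exact absurd h3 (mul_ne_zero n02 (mul_ne_zero n12 n01))
  refine (card_le_filter J E T hinj).trans (Nat.add_le_add_right ?_ _)
  set J' := J.filter fun t => T t ∉ E with hJ'
  have hJJ' : ∀ t ∈ J', t ∈ J := fun t ht => (Finset.mem_filter.mp ht).1
  have h1T : ∀ t, t ≠ p₂ → 1 - T t = (p₁ - t) * (p₀ - p₂) / ((t - p₂) * (p₁ - p₀)) := by
    intro t ht
    have a1 : t - p₂ ≠ 0 := sub_ne_zero.mpr ht
    rw [hT]
    field_simp
    ring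
  have h2f : 2 ≤ f.natDegree := by omega
  refine hC f hfd J' {p₀, p₁, p₂} T ?_ (hinj.mono (by exact_mod_cast Finset.filter_subset _ _))
    ?_ ?_ ?_
  · intro x hx
    rw [Finset.mem_union, Finset.mem_insert, Finset.mem_insert, Finset.mem_singleton] at hx
    rcases hx with hx | rfl | rfl | rfl
    · exact (hJ x (hJJ' x hx)).1
    · exact hp₀
    · exact hp₁
    · exact hp₂
  · intro t ht
    have htJ := hJ t (hJJ' t ht)
    have nt0 : t - p₀ ≠ 0 := sub_ne_zero.mpr htJ.2.1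
    have nt1 : p₁ - t ≠ 0 := sub_ne_zero.mpr htJ.2.2.1.symm
    have nt2 : t - p₂ ≠ 0 := sub_ne_zero.mpr htJ.2.2.2.1
    refine hE (T t) (div_ne_zero (mul_ne_zero nt0 n12) (mul_ne_zero nt2 n01)) ?_
      (Finset.mem_filter.mp ht).2 ?_ ?_
    · intro h
      have := h1T t htJ.2.2.2.1
      rw [h, sub_self] at this
      exact div_ne_zero (mul_ne_zero nt1 n02) (mul_ne_zero nt2 n01) this.symm
    · intro v hv
      rcases hnice v hv with hg | hs
      · refine ⟨1, one_ne_zero, ?_⟩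
        obtain ⟨g1, g2, g3, g4⟩ := htJ.2.2.2.2 v hv hg
        have := (tree_pos v h01.symm).ne'
        rw [hT]
        simp only
        rw [map_div₀, map_mul, map_mul, g1, g2, g3, map_one, one_pow,
          div_self (mul_ne_zero this this)]
      · obtain ⟨r, ρ, htree, hlw, hpow⟩ := hs
        obtain ⟨e, he0, he1⟩ := ratio_pow v htree (hpow ⟨p₀, p₁, h01, hp₀, hp₁⟩) htJ.1 hp₀
          htJ.2.1 htJ.1 hp₂ htJ.2.2.2.1 (by omega)
        obtain ⟨e', he0', he1'⟩ := ratio_pow v htree (hpow ⟨p₀, p₁, h01, hp₀, hp₁⟩) hp₁ hp₂ h12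
          hp₁ hp₀ h01.symm (by omega)
        refine ⟨e * e', mul_ne_zero he0 he0', ?_⟩
        rw [hT]
        simp only
        rw [← div_mul_div_comm, map_mul, he1, he1', map_mul, mul_pow]
    · intro v hv
      rw [h1T t htJ.2.2.2.1]
      rcases hnice v hv with hg | hs
      · obtain ⟨g1, g2, g3, g4⟩ := htJ.2.2.2.2 v hv hg
        refine ⟨(p₀ - p₂) / (p₁ - p₀), div_ne_zero n02 n01, ?_⟩
        rw [map_div₀, map_mul, map_mul, Pool.Agent.MP90787a.T.v_sub_comm v p₁ t, g4, g2, map_div₀,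
          div_pow, pow_two, pow_two]
      · obtain ⟨r, ρ, htree, hlw, hpow⟩ := hs
        obtain ⟨e, he0, he1⟩ := ratio_pow v htree (hpow ⟨p₀, p₁, h01, hp₀, hp₁⟩) hp₁ htJ.1
          htJ.2.2.1.symm htJ.1 hp₂ htJ.2.2.2.1 (by omega)
        obtain ⟨e', he0', he1'⟩ := ratio_pow v htree (hpow ⟨p₀, p₁, h01, hp₀, hp₁⟩) hp₀ hp₂ h02
          hp₁ hp₀ h01.symm (by omega)
        obtain ⟨s, hs⟩ := hev
        refine ⟨(e * e') ^ s, pow_ne_zero _ (mul_ne_zero he0 he0'), ?_⟩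
        rw [← div_mul_div_comm, map_mul, he1, he1', map_pow, ← pow_mul, map_mul, mul_pow,
          show s * 2 = m by omega]
  · intro t ht
    have m0 : p₀ ∈ J' ∪ {p₀, p₁, p₂} := by simp
    have m1 : p₁ ∈ J' ∪ {p₀, p₁, p₂} := by simp
    have m2 : p₂ ∈ J' ∪ {p₀, p₁, p₂} := by simp
    have mt : t ∈ J' ∪ {p₀, p₁, p₂} := Finset.mem_union_left _ ht
    have htJ := hJ t (hJJ' t ht)
    refine ⟨t, mt, p₀, m0, t, mt, p₂, m2, p₁, m1, p₂, m2, p₁, m1, p₀, m0, htJ.2.2.2.1,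
      h01.symm, ?_⟩
    rw [hT]
    simp only
    rw [div_mul_div_comm]
  · intro v hv
    rcases hnice v hv with hg | hs
    · exact Or.inl hg
    · right
      obtain ⟨r, ρ, htree, hlw, hpow⟩ := hs
      refine ⟨ρ, htree.2.1, hlw.trans ?_, ?_⟩
      · have := Real.log_nonneg htree.2.1.le
        gcongr
        exact le_max_left _ _
      obtain ⟨cl, hcl⟩ := tree_cross v htree hp₀ hp₁ hp₂ h01 h02 h12
      refine ⟨cl, fun t ht t' ht' h => ?_⟩
      have h1 := hJ t (hJJ' t ht)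
      have h2 := hJ t' (hJJ' t' ht')
      exact hcl t h1.1 t' h2.1 h1.2.1 h1.2.2.1 h1.2.2.2.1 h2.2.1 h2.2.2.1 h2.2.2.2.1 h

end Pool.Agent.MP90787a.G
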