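import Mathlib
import Pool.Agent.Lib.MP_90787a_nt.Defs
import Pool.Agent.Lib.MP_90787a_nt.Radius

set_option autoImplicit false

/-!
Definitions for the uniform bound for polynomials with good or simple reduction.
-/

namespace Pool.Agent.MP90787a.G

open Polynomial NumberField Height Pool.Agent.UBC90787a

/-- Potentially good reduction: there is an escape disc with `|a| r ^ (d - 1) = 1`. -/
def Good {K : Type} [Field K] (u : K → ℝ) (f : K[X]) : Prop :=
  ∃ (t : K) (r : ℝ), EscapeDisc u f t r ∧ u f.leadingCoeff * r ^ (f.natDegree - 1) = 1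

/-- Simple bad reduction: there is an escape disc (centre `t`, radius `r`) with
`ρ = |a| r ^ (d - 1) > 1` such that `|f' x| = ρ` at all points `x` of `K` in the disc which are
mapped into the disc, and if `r` is the absolute value of an element of `K` then `ρ` is the `m`-th
power of the absolute value of an element of `K`. -/
def Simple {K : Type} [Field K] (u : K → ℝ) (m : ℕ) (f : K[X]) : Prop :=
  ∃ (t : K) (r : ℝ), EscapeDisc u f t r ∧ 1 < u f.leadingCoeff * r ^ (f.natDegree - 1) ∧
    (∀ x : K, u (x - t) ≤ r → u (f.eval x - t) ≤ r →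
      u (f.derivative.eval x) = u f.leadingCoeff * r ^ (f.natDegree - 1)) ∧
    ∀ z : K, u z = r → ∃ e : K, u f.leadingCoeff * r ^ (f.natDegree - 1) = u e ^ m

/-- `f` has potentially good or simple bad reduction at all finite places outside `S`. -/
def Nice {K : Type} [Field K] [NumberField K] (S : Finset (FinitePlace K)) (m : ℕ)
    (f : K[X]) : Prop :=
  ∀ v : FinitePlace K, v ∉ S → Good v f ∨ Simple v m f

/-- The distances between the points of `P` are `r ρ ^ (-k)`, and every ball splits into at most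
`d` smaller balls. -/
def Tree {K : Type} [Field K] (u : K → ℝ) (P : Set K) (r ρ : ℝ) (d : ℕ) : Prop :=
  0 < r ∧ 1 < ρ ∧ (∀ x ∈ P, ∀ y ∈ P, x ≠ y → ∃ k : ℕ, u (x - y) * ρ ^ k = r) ∧
    ∀ p ∈ P, ∀ k : ℕ, ∃ c : K → Fin d, ∀ t ∈ P, ∀ t' ∈ P, u (t - p) * ρ ^ k ≤ r →
      u (t' - p) * ρ ^ k ≤ r → c t = c t' → u (t - t') * ρ ^ k < r

/-- Expanding reduction: the preperiodic points of `f` in `K` have the structure `Tree` with a
ratio `ρ`, the local weight is at most `b log ρ`, and quotients of elements of `K` with absolute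
values in `r ρ ^ ℤ` have the absolute value of an `m`-th power (if there are two different
preperiodic points). -/
def Expanding {K : Type} [Field K] (u : K → ℝ) (m q : ℕ) (b : ℝ) (f : K[X]) : Prop :=
  ∃ r ρ : ℝ, Tree u {x : K | Preper (fun z => f.eval z) x} r ρ q ∧
    localWeight u f ≤ b * Real.log ρ ∧
    ((∃ x y : K, x ≠ y ∧ Preper (fun z => f.eval z) x ∧ Preper (fun z => f.eval z) y) →
      ∀ (z w : K) (i j : ℤ), u z = r * ρ ^ i → u w = r * ρ ^ j → ∃ e : K, u z = u w * u e ^ m)

/-- `f` has potentially good or expanding reduction at all finite places outside `S`. -/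
def NiceG {K : Type} [Field K] [NumberField K] (S : Finset (FinitePlace K)) (m q : ℕ) (b : ℝ)
    (f : K[X]) : Prop :=
  ∀ v : FinitePlace K, v ∉ S → Good v f ∨ Expanding v m q b f

/-- Closeness of two points of the projective line minus `{0, 1, ∞}`. -/
def Close {L : Type} [Field L] (u : L → ℝ) (θ : ℝ) (T T' : L) : Prop :=
  (u T ≤ θ ∧ u T' ≤ θ) ∨ (u (1 - T) ≤ θ ∧ u (1 - T') ≤ θ) ∨ (θ⁻¹ ≤ u T ∧ θ⁻¹ ≤ u T') ∨
    (u T = 1 ∧ u (1 - T) = 1 ∧ u T' = 1 ∧ u (1 - T') = 1 ∧ u (T - T') ≤ θ)

/-- Uniform bound for the number of elements of `D` of height `O(H)` which fall into at most `m`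
classes, with close elements in each class, at many finite places. -/
def KissT (L : Type) [Field L] [NumberField L] (D : Set L) : Prop :=
  ∃ S : Finset (FinitePlace L), ∀ (κ C₁ : ℝ) (m : ℕ), 0 < κ → ∃ (N : ℕ) (H₀ : ℝ),
    ∀ H : ℝ, H₀ ≤ H → ∀ (A : Finset L) (F : Finset (FinitePlace L)) (θ : FinitePlace L → ℝ),
      (∀ T ∈ A, T ∈ D ∧ logHeight₁ T ≤ C₁ * H) →
      (∀ v ∈ F, v ∉ S ∧ 0 < θ v ∧ θ v < 1 ∧ ∃ cl : L → Fin m, ∀ T ∈ A, ∀ T' ∈ A,
        cl T = cl T' → Close v (θ v) T T') →
      κ * H ≤ ∑ v ∈ F, -Real.log (θ v) → A.card ≤ N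

end Pool.Agent.MP90787a.G
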