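import Mathlib
import Pool.Agent.Lib.MP_90787a_nt.T.Heights

set_option autoImplicit false

/-!
The height of a ratio from local bounds for numerator and denominator.
-/

namespace Pool.Agent.MP90787a.G

open Polynomial NumberField Height Pool.Agent.UBC90787a

open scoped Real

namespace HeightRatio

/-- The elementary local estimate. -/
theorem posLog_div_add_log {s t B : ℝ} (hs : 0 ≤ s) (ht : 0 < t) (hsB : s ≤ Real.exp B)
    (htB : t ≤ Real.exp B) : log⁺ (s / t) + Real.log t ≤ B := by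
  have h1 : Real.log t ≤ B := by
    rw [← Real.log_exp B]
    exact Real.log_le_log ht htB
  rcases eq_or_lt_of_le hs with h0 | h0
  · rw [← h0, zero_div, Real.posLog_zero, zero_add]
    exact h1
  · have h2 : Real.log s ≤ B := by
      rw [← Real.log_exp B]
      exact Real.log_le_log h0 hsB
    have h3 : log⁺ (s / t) = max 0 (Real.log (s / t)) := rfl
    rw [h3, Real.log_div h0.ne' ht.ne']
    rcases max_choice (0 : ℝ) (Real.log s - Real.log t) with h | h
    · rw [h]; linarith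
    · rw [h]; linarith

end HeightRatio

open HeightRatio in
theorem height_ratio {L : Type} [Field L] [NumberField L] {X Y a : L} (hY : Y ≠ 0)
    (ha : a ≠ 0) {k : ℕ} (hk : 0 < k) (F : Finset (FinitePlace L)) (B : FinitePlace L → ℝ)
    (Bw : InfinitePlace L → ℝ) (hB : ∀ v ∈ F, 0 ≤ B v) (hBw : ∀ w, 0 ≤ Bw w)
    (h1 : ∀ v ∈ F, v X ^ k * v a ≤ Real.exp (B v) ∧ v Y ^ k * v a ≤ Real.exp (B v))
    (h2 : ∀ v, v ∉ F → v X ^ k * v a ≤ 1 ∧ v Y ^ k * v a ≤ 1)
    (h3 : ∀ w : InfinitePlace L, w X ^ k * w a ≤ Real.exp (Bw w) ∧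
      w Y ^ k * w a ≤ Real.exp (Bw w)) :
    (k : ℝ) * logHeight₁ (X / Y) ≤ ∑ v ∈ F, B v + ∑ w : InfinitePlace L, (w.mult : ℝ) * Bw w := by
  classical
  obtain ⟨F₀, hF₀⟩ := exists_finset_places ({X, Y, a} : Finset L)
  set F' : Finset (FinitePlace L) := F ∪ F₀ with hF'
  set b : L := a * Y ^ k with hb
  have hb0 : b ≠ 0 := mul_ne_zero ha (pow_ne_zero k hY)
  have hX1 : ∀ v, v ∉ F' → v X ≤ 1 := by
    intro v hv
    have hv' : v ∉ F₀ := fun h => hv (Finset.mem_union_right _ h)
    by_cases h0 : X = 0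
    · rw [h0, map_zero]; exact zero_le_one
    · exact (hF₀ v hv' X (by simp) h0).le
  have hY1 : ∀ v, v ∉ F' → v Y = 1 := by
    intro v hv
    exact hF₀ v (fun h => hv (Finset.mem_union_right _ h)) Y (by simp) hY
  have ha1 : ∀ v, v ∉ F' → v a = 1 := by
    intro v hv
    exact hF₀ v (fun h => hv (Finset.mem_union_right _ h)) a (by simp) ha
  have hz : ∀ v, v ∉ F' → v ((X / Y) ^ k) ≤ 1 := by
    intro v hv
    rw [map_pow, map_div₀, hY1 v hv, div_one]
    exact pow_le_one₀ (apply_nonneg v X) (hX1 v hv)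
  have hb1 : ∀ v, v ∉ F' → v b = 1 := by
    intro v hv
    rw [hb, map_mul, map_pow, ha1 v hv, hY1 v hv]
    simp
  have hsum := sum_log_eq_zero hb0 F' hb1
  have hh : (k : ℝ) * logHeight₁ (X / Y) = ∑ w : InfinitePlace L,
      (w.mult : ℝ) * (log⁺ (w ((X / Y) ^ k)) + Real.log (w b)) +
      ∑ v ∈ F', (log⁺ (v ((X / Y) ^ k)) + Real.log (v b)) := by
    rw [← logHeight₁_pow, T.logHeight₁_eq_sum _ F' hz]
    simp only [mul_add, Finset.sum_add_distrib]
    linarith
  have hloc_inf : ∀ w : InfinitePlace L, log⁺ (w ((X / Y) ^ k)) + Real.log (w b) ≤ Bw w := by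
    intro w
    have ha0 : 0 < w a := InfinitePlace.pos_iff.mpr ha
    have hY0 : 0 < w Y := InfinitePlace.pos_iff.mpr hY
    have e1 : w ((X / Y) ^ k) = (w X ^ k * w a) / (w Y ^ k * w a) := by
      rw [map_pow, map_div₀, div_pow]
      field_simp
    have e2 : w b = w Y ^ k * w a := by
      rw [hb, map_mul, map_pow, mul_comm]
    rw [e1, e2]
    refine posLog_div_add_log ?_ (by positivity) (h3 w).1 (h3 w).2
    have := apply_nonneg w X
    positivity
  have hloc_fin : ∀ (v : FinitePlace L) (β : ℝ), v X ^ k * v a ≤ Real.exp β →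
      v Y ^ k * v a ≤ Real.exp β → log⁺ (v ((X / Y) ^ k)) + Real.log (v b) ≤ β := by
    intro v β h4 h5
    have ha0 : 0 < v a := FinitePlace.pos_iff.mpr ha
    have hY0 : 0 < v Y := FinitePlace.pos_iff.mpr hY
    have e1 : v ((X / Y) ^ k) = (v X ^ k * v a) / (v Y ^ k * v a) := by
      rw [map_pow, map_div₀, div_pow]
      field_simp
    have e2 : v b = v Y ^ k * v a := by
      rw [hb, map_mul, map_pow, mul_comm]
    rw [e1, e2]
    refine posLog_div_add_log ?_ (by positivity) h4 h5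
    have := apply_nonneg v X
    positivity
  rw [hh, add_comm (∑ v ∈ F, B v)]
  refine add_le_add ?_ ?_
  · refine Finset.sum_le_sum fun w _ => ?_
    exact mul_le_mul_of_nonneg_left (hloc_inf w) (by positivity)
  · rw [← Finset.sum_sdiff (Finset.subset_union_left : F ⊆ F')]
    have e1 : ∑ v ∈ F' \ F, (log⁺ (v ((X / Y) ^ k)) + Real.log (v b)) ≤ 0 := by
      refine Finset.sum_nonpos fun v hv => ?_
      have hv' := (Finset.mem_sdiff.mp hv).2
      exact hloc_fin v 0 (by rw [Real.exp_zero]; exact (h2 v hv').1)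
        (by rw [Real.exp_zero]; exact (h2 v hv').2)
    have e2 : ∑ v ∈ F, (log⁺ (v ((X / Y) ^ k)) + Real.log (v b)) ≤ ∑ v ∈ F, B v :=
      Finset.sum_le_sum fun v hv => hloc_fin v (B v) (h1 v hv).1 (h1 v hv).2
    linarith

end Pool.Agent.MP90787a.G
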