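import Pool.Agent.Lib.MP_90787a_nt.G.Pack
import Pool.Agent.Lib.MP_90787a_nt.G.Places
import Pool.Agent.Lib.MP_90787a_nt.G.EngineLam
import Pool.Agent.Lib.MP_90787a_nt.G.HeightRatio

set_option autoImplicit false

/-!
The core argument: many preperiodic points give many points of controlled height on one curve
over one number field, which are close at places of large total weight.
-/

namespace Pool.Agent.MP90787a.G

open Polynomial NumberField Height Pool.Agent.UBC90787a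

namespace Core

section transfer

variable {K L : Type} [Field K] [Field L] (φ : K →+* L) {f : K[X]}

lemma iterate_map (n : ℕ) (x : K) : (fun z => (f.map φ).eval z)^[n] (φ x) =
    φ ((fun z => f.eval z)^[n] x) := by
  induction n with
  | zero => rfl
  | succ n ih =>
    rw [Function.iterate_succ_apply', Function.iterate_succ_apply', ih, eval_map_apply]

lemma preper_map {x : K} (h : Preper (fun z => f.eval z) x) :
    Preper (fun z => (f.map φ).eval z) (φ x) := by
  obtain ⟨i, j, hij, he⟩ := h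
  exact ⟨i, j, hij, by rw [iterate_map, iterate_map, he]⟩

lemma map_conjPoly_one (f : K[X]) (t : K) :
    (conjPoly f 1 t).map φ = conjPoly (f.map φ) 1 (φ t) := by
  rw [conjPoly_one, conjPoly_one, Polynomial.map_sub, map_C, map_taylor]

lemma escape_map {u : K → ℝ} {w : L → ℝ} {s : ℝ} (hs : 0 < s) (hu : ∀ x, 0 ≤ u x)
    (h : ∀ x, w (φ x) = u x ^ s) {t : K} {r : ℝ} (he : EscapeDisc u f t r) :
    EscapeDisc w (f.map φ) (φ t) (r ^ s) ∧
      w (f.map φ).leadingCoeff * (r ^ s) ^ ((f.map φ).natDegree - 1) =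
        (u f.leadingCoeff * r ^ (f.natDegree - 1)) ^ s := by
  obtain ⟨h1, h2, h3⟩ := he
  have hpow : ∀ k : ℕ, (r ^ s) ^ k = (r ^ k) ^ s := fun k => by
    rw [← Real.rpow_natCast, ← Real.rpow_natCast, ← Real.rpow_mul h1.le, ← Real.rpow_mul h1.le,
      mul_comm]
  have hmul : ∀ (x : K) (k : ℕ), w (φ x) * (r ^ s) ^ k = (u x * r ^ k) ^ s := fun x k => by
    rw [h, hpow, Real.mul_rpow (hu x) (by positivity)]
  have hlc : (f.map φ).leadingCoeff = φ f.leadingCoeff := leadingCoeff_map φ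
  have hnd : (f.map φ).natDegree = f.natDegree := natDegree_map φ
  have h4 : w (f.map φ).leadingCoeff * (r ^ s) ^ ((f.map φ).natDegree - 1) =
      (u f.leadingCoeff * r ^ (f.natDegree - 1)) ^ s := by rw [hlc, hnd, hmul]
  refine ⟨⟨Real.rpow_pos_of_pos h1 s, ?_, ?_⟩, h4⟩
  · rw [h4]
    exact Real.one_le_rpow h2 hs.le
  · intro i hi
    rw [hnd] at hi ⊢
    rw [← map_conjPoly_one, coeff_map, hlc, hmul, h]
    exact Real.rpow_le_rpow (hu _) (h3 i hi) hs.le

lemma weight_map {u : K → ℝ} {w : L → ℝ} {s : ℝ} (hs : 0 < s) (hu : ∀ x, 0 ≤ u x)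
    (h : ∀ x, w (φ x) = u x ^ s) {t : K} {r : ℝ} (he : EscapeDisc u f t r) :
    localWeight w (f.map φ) ≤ s * Real.log (u f.leadingCoeff * r ^ (f.natDegree - 1)) := by
  obtain ⟨h1, h2⟩ := escape_map φ hs hu h he
  have h3 := localWeight_le h1
  rw [h2, Real.log_rpow (lt_of_lt_of_le one_pos he.2.1)] at h3
  exact h3

/-- The local weight of the extension, in terms of the local weight. -/
lemma lw_map {u : K → ℝ} {w : L → ℝ} {s : ℝ} (hs : 0 < s) (hu : ∀ x, 0 ≤ u x)
    (h : ∀ x, w (φ x) = u x ^ s) (hne : ∃ (t : K) (r : ℝ), EscapeDisc u f t r) :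
    localWeight w (f.map φ) ≤ s * localWeight u f := by
  obtain ⟨t, r, he⟩ := hne
  have hne : {ρ : ℝ | ∃ (t : K) (r : ℝ), EscapeDisc u f t r ∧
      ρ = Real.log (u f.leadingCoeff * r ^ (f.natDegree - 1))}.Nonempty := ⟨_, t, r, he, rfl⟩
  have h1 : localWeight w (f.map φ) / s ≤ localWeight u f := by
    apply le_csInf hne
    rintro ρ ⟨t', r', he', rfl⟩
    rw [div_le_iff₀ hs, mul_comm]
    exact weight_map φ hs hu h he'
  rwa [div_le_iff₀ hs, mul_comm] at h1

lemma close_map {u : K → ℝ} {w : L → ℝ} {s : ℝ} (hs : 0 < s) (hu : ∀ x, 0 ≤ u x)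
    (h : ∀ x, w (φ x) = u x ^ s) {θ : ℝ} (hθ : 0 < θ) {T T' : K} (hc : Close u θ T T') :
    Close w (θ ^ s) (φ T) (φ T') := by
  have h1 : ∀ x, u x ≤ θ → w (φ x) ≤ θ ^ s := fun x hx => by
    rw [h]
    exact Real.rpow_le_rpow (hu x) hx hs.le
  have h2 : ∀ x, θ⁻¹ ≤ u x → (θ ^ s)⁻¹ ≤ w (φ x) := fun x hx => by
    rw [h, ← Real.inv_rpow hθ.le]
    exact Real.rpow_le_rpow (inv_nonneg.mpr hθ.le) hx hs.le
  have h3 : ∀ x, u x = 1 → w (φ x) = 1 := fun x hx => by rw [h, hx, Real.one_rpow]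
  have h4 : ∀ x y, φ x - φ y = φ (x - y) := fun x y => (map_sub φ x y).symm
  have h5 : ∀ x, 1 - φ x = φ (1 - x) := fun x => by rw [map_sub, map_one]
  unfold Close
  rw [h5, h5, h4]
  rcases hc with ⟨a, b⟩ | ⟨a, b⟩ | ⟨a, b⟩ | ⟨a, b, c, d, e⟩
  · exact Or.inl ⟨h1 _ a, h1 _ b⟩
  · exact Or.inr (Or.inl ⟨h1 _ a, h1 _ b⟩)
  · exact Or.inr (Or.inr (Or.inl ⟨h2 _ a, h2 _ b⟩))
  · exact Or.inr (Or.inr (Or.inr ⟨h3 _ a, h3 _ b, h3 _ c, h3 _ d, h1 _ e⟩))

end transfer

/-- Escape discs exist. -/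
lemma exists_escape {K : Type} [Field K] [NumberField K] (v : FinitePlace K) {f : K[X]}
    (hd : 2 ≤ f.natDegree) : ∃ (t : K) (r : ℝ), EscapeDisc v f t r := by
  have hf0 : f ≠ 0 := by
    rintro rfl
    rw [natDegree_zero] at hd
    omega
  have hlc : 0 < v f.leadingCoeff := FinitePlace.pos_iff.mpr (leadingCoeff_ne_zero.mpr hf0)
  set a : ℝ := v f.leadingCoeff with ha
  obtain ⟨M, hM⟩ : ∃ M : ℝ, ∀ i < f.natDegree, v ((conjPoly f 1 0).coeff i) ≤ M := by
    obtain ⟨M, hM⟩ := ((Finset.range f.natDegree).image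
      fun i => v ((conjPoly f 1 0).coeff i)).bddAbove
    exact ⟨M, fun i hi => hM (by
      simp only [Finset.coe_image, Set.mem_image, Finset.coe_range, Set.mem_Iio]
      exact ⟨i, hi, rfl⟩)⟩
  set r : ℝ := max 1 (max (1 / a) (M / a)) with hr
  have hr1 : 1 ≤ r := le_max_left _ _
  have hr2 : 1 ≤ a * r := by
    have h1 : 1 / a ≤ r := (le_max_left _ _).trans (le_max_right _ _)
    rw [div_le_iff₀ hlc] at h1
    linarith
  have hr3 : M ≤ a * r := by
    have h1 : M / a ≤ r := (le_max_right _ _).trans (le_max_right _ _)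
    rw [div_le_iff₀ hlc] at h1
    linarith
  have hk : ∀ k : ℕ, 1 ≤ k → a * r ≤ a * r ^ k := fun k hk => by
    have : r ^ 1 ≤ r ^ k := pow_le_pow_right₀ hr1 hk
    rw [pow_one] at this
    gcongr
  refine ⟨0, r, by linarith, hr2.trans (hk _ (by omega)), fun i hi => ?_⟩
  exact (hM i hi).trans (hr3.trans (hk _ (by omega)))

/-- Places of `L` above the places in `S`. -/
lemma exists_above {K L : Type} [Field K] [NumberField K] [Field L] [NumberField L]
    (φ : K →+* L) (S : Finset (FinitePlace K)) : ∃ SL : Finset (FinitePlace L),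
      ∀ (w : FinitePlace L) (v : FinitePlace K) (s : ℝ), w ∉ SL → 0 < s →
        (∀ x, w (φ x) = v x ^ s) → v ∉ S := by
  classical
  choose x hx using fun v : FinitePlace K => exists_one_lt v
  obtain ⟨F, hF⟩ := exists_finset_places (S.image fun v => φ (x v))
  refine ⟨F, fun w v s hw hs h hv => ?_⟩
  have h1 := hF w hw (φ (x v)) (Finset.mem_image_of_mem _ hv) (by
    rw [Ne, map_eq_zero]
    intro h0
    have := hx v
    rw [h0, map_zero] at this
    linarith)
  rw [h] at h1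
  have h2 := Real.one_lt_rpow (hx v) hs
  linarith

open Classical in
/-- The core argument. -/
theorem core_gen {K L : Type} [Field K] [NumberField K] [Field L] [NumberField L]
    (φ : K →+* L) {D : Set L} (hD : KissT L D) (S : Finset (FinitePlace K)) (d : ℕ)
    (hd : 2 ≤ d) (q : ℕ) {b : ℝ} (hb : 0 < b) : ∃ C : ℕ, ∀ f : K[X], f.natDegree = d → ∀ (J P : Finset K) (T : K → K),
      (∀ x ∈ J ∪ P, Preper (fun z => f.eval z) x) → Set.InjOn T J → (∀ t ∈ J, φ (T t) ∈ D) →
      (∀ t ∈ J, ∃ x ∈ J ∪ P, ∃ y ∈ J ∪ P, ∃ z ∈ J ∪ P, ∃ u ∈ J ∪ P, ∃ x' ∈ J ∪ P,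
        ∃ y' ∈ J ∪ P, ∃ z' ∈ J ∪ P, ∃ u' ∈ J ∪ P, z ≠ u ∧ z' ≠ u' ∧
        T t = ((x - y) / (z - u)) * ((x' - y') / (z' - u'))) →
      (∀ v : FinitePlace K, v ∉ S → Good v f ∨ ∃ ρ : ℝ, 1 < ρ ∧
        localWeight v f ≤ b * Real.log ρ ∧ ∃ cl : K → Fin (q + 1),
          ∀ t ∈ J, ∀ t' ∈ J, cl t = cl t' → Close v ρ⁻¹ (T t) (T t')) →
      J.card ≤ C := by
  obtain ⟨S₁, hS₁⟩ := hD
  obtain ⟨S₂, hS₂⟩ := exists_above φ S
  set SL : Finset (FinitePlace L) := S₁ ∪ S₂ with hSL
  have hn1 : 1 ≤ Module.finrank ℚ L := Module.finrank_pos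
  set n : ℕ := Module.finrank ℚ L with hn
  obtain ⟨Ce, hCe⟩ := engine_lam n d hn1 hd 1 zero_le_one
  have hl8 : 0 ≤ Real.log 8 := Real.log_nonneg (by norm_num)
  obtain ⟨N, H₀, hN⟩ := hS₁ b⁻¹ (4 + 2 * n * Real.log 8) (q + 1) (inv_pos.mpr hb)
  have hfin : {x : L | logHeight₁ x ≤ 4 * max H₀ 1 + 2 * n * Real.log 8}.Finite :=
    finite_setOfPred_logHeight₁_le L _
  refine ⟨N + hfin.toFinset.card + ⌈Ce * (SL.card + 1) * Real.log (SL.card + 2)⌉₊, ?_⟩
  intro f hfd J P T hpre hTinj hTD hTr hloc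
  by_contra hcard
  push Not at hcard
  have hc1 : N < J.card := by omega
  have hc2 : hfin.toFinset.card < J.card := by omega
  have hc3 : ⌈Ce * (SL.card + 1) * Real.log (SL.card + 2)⌉₊ < J.card := by omega
  set fL : L[X] := f.map φ with hfL
  have hfLd : fL.natDegree = d := by rw [hfL, natDegree_map, hfd]
  have hf0 : fL ≠ 0 := by
    rintro h0
    rw [h0, natDegree_zero] at hfLd
    omega
  have ha : fL.leadingCoeff ≠ 0 := leadingCoeff_ne_zero.mpr hf0
  set X : Finset L := (J ∪ P).image φ with hX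
  have hXpre : ∀ x ∈ X, Preper (fun z => fL.eval z) x := by
    intro x hx
    obtain ⟨y, hy, rfl⟩ := Finset.mem_image.mp hx
    exact preper_map φ (hpre y hy)
  have hXcard : Ce * (SL.card + 1) * Real.log (SL.card + 2) < X.card := by
    have h1 : J.card ≤ X.card := by
      rw [hX, Finset.card_image_of_injective _ φ.injective]
      exact Finset.card_le_card Finset.subset_union_left
    calc Ce * (SL.card + 1) * Real.log (SL.card + 2)
        ≤ ⌈Ce * (SL.card + 1) * Real.log (SL.card + 2)⌉₊ := Nat.le_ceil _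
      _ < J.card := by exact_mod_cast hc3
      _ ≤ X.card := by exact_mod_cast h1
  obtain ⟨lamw, U, hlw0, hUS, hlw, hbig⟩ := hCe L rfl fL hfLd SL X hXpre hXcard
  rw [one_mul] at hbig
  obtain ⟨F₁, hF₁⟩ := exists_finset_places (K := L)
    (insert fL.leadingCoeff ((X ×ˢ X).image (fun p => p.1 - p.2)))
  have hF₁a : ∀ v, v ∉ F₁ → v fL.leadingCoeff = 1 := fun v hv =>
    hF₁ v hv _ (Finset.mem_insert_self _ _) ha
  have hF₁X : ∀ v, v ∉ F₁ → ∀ x ∈ X, ∀ y ∈ X, x ≠ y → v (x - y) = 1 := by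
    intro v hv x hx y hy hxy
    refine hF₁ v hv _ (Finset.mem_insert_of_mem ?_) (sub_ne_zero.mpr hxy)
    exact Finset.mem_image.mpr ⟨(x, y), Finset.mem_product.mpr ⟨hx, hy⟩, rfl⟩
  set F : Finset (FinitePlace L) := F₁ ∪ SL ∪ U with hF
  set U₁ : Finset (FinitePlace L) := (F \ SL).filter (fun w => 0 < localWeight w fL) with hU₁
  set Λ : ℝ := ∑ w ∈ U₁, localWeight w fL with hΛ
  have hw0 : ∀ w : FinitePlace L, 0 ≤ localWeight w fL := fun w => localWeight_nonneg
  have hfil : ∑ w ∈ F \ SL, localWeight w fL = Λ := by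
    rw [hΛ, hU₁, Finset.sum_filter]
    refine Finset.sum_congr rfl fun w _ => ?_
    split_ifs with h
    · rfl
    · exact le_antisymm (not_lt.mp h) (hw0 w)
  have hUΛ : ∑ w ∈ U, localWeight w fL ≤ Λ := by
    rw [← hfil]
    refine Finset.sum_le_sum_of_subset_of_nonneg ?_ (fun w _ _ => hw0 w)
    intro w hw
    rw [Finset.mem_sdiff]
    exact ⟨Finset.mem_union_right _ hw, hUS w hw⟩
  have hFΛ : ∑ w ∈ F, localWeight w fL = Λ + ∑ w ∈ SL, localWeight w fL := by
    rw [← hfil]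
    refine (Finset.sum_sdiff ?_).symm
    intro w hw
    exact Finset.mem_union_left _ (Finset.mem_union_right _ hw)
  set sw : ℝ := ∑ w : InfinitePlace L, (w.mult : ℝ) * lamw w with hsw
  have hsw0 : 0 ≤ sw := Finset.sum_nonneg fun w _ =>
    mul_nonneg (Nat.cast_nonneg _) (hlw0 w)
  have hSL0 : 0 ≤ ∑ w ∈ SL, localWeight w fL := Finset.sum_nonneg fun w _ => hw0 w
  have hd1 : (1 : ℝ) ≤ ((d - 1 : ℕ) : ℝ) := by exact_mod_cast (by omega : 1 ≤ d - 1)
  have hΛpos : 1 ≤ Λ := by nlinarith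
  have hmultD : ∑ w : InfinitePlace L, (w.mult : ℝ) = n := by
    rw [hn, ← InfinitePlace.sum_mult_eq (K := L), Nat.cast_sum]
  -- heights of ratios
  have hratio : ∀ x ∈ J ∪ P, ∀ y ∈ J ∪ P, ∀ z ∈ J ∪ P, ∀ u ∈ J ∪ P, z ≠ u →
      logHeight₁ (φ ((x - y) / (z - u))) ≤ 2 * Λ + n * Real.log 8 := by
    intro x hx y hy z hz u hu hzu
    have hmem : ∀ x ∈ J ∪ P, φ x ∈ X := fun x hx => Finset.mem_image_of_mem _ hx
    have hA : ∀ w : InfinitePlace L, (Aof w fL) ^ (d - 1) = w fL.leadingCoeff := by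
      intro w
      rw [← hfLd]
      exact Aof_pow (InfinitePlace.pos_iff.mpr ha) (by omega)
    have hA0 : ∀ w : InfinitePlace L, 0 < Aof w fL := fun w =>
      Aof_pos (InfinitePlace.pos_iff.mpr ha)
    have hfinb : ∀ w : FinitePlace L, ∀ x ∈ J ∪ P, ∀ y ∈ J ∪ P,
        w (φ x - φ y) ^ (d - 1) * w fL.leadingCoeff ≤ Real.exp (localWeight w fL) := by
      intro w x hx y hy
      have := fin_diam w (by omega : 2 ≤ fL.natDegree) (hXpre _ (hmem x hx))
        (hXpre _ (hmem y hy))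
      rwa [hfLd] at this
    have hfin1 : ∀ w : FinitePlace L, w ∉ F → ∀ x ∈ J ∪ P, ∀ y ∈ J ∪ P,
        w (φ x - φ y) ^ (d - 1) * w fL.leadingCoeff ≤ 1 := by
      intro w hw x hx y hy
      have hwF : w ∉ F₁ := fun h =>
        hw (Finset.mem_union_left _ (Finset.mem_union_left _ h))
      rw [hF₁a w hwF, mul_one]
      rcases eq_or_ne (φ x) (φ y) with h | h
      · rw [h, sub_self, map_zero, zero_pow (by omega)]
        exact zero_le_one
      · rw [hF₁X w hwF _ (hmem x hx) _ (hmem y hy) h, one_pow]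
    have harch : ∀ w : InfinitePlace L, ∀ x ∈ J ∪ P, ∀ y ∈ J ∪ P,
        w (φ x - φ y) ^ (d - 1) * w fL.leadingCoeff ≤
          Real.exp (((d - 1 : ℕ) : ℝ) * (lamw w + Real.log 8)) := by
      intro w x hx y hy
      have h1 := hlw w _ (hmem x hx) _ (hmem y hy)
      have h2 : (w (φ x - φ y) * Aof w fL) ^ (d - 1) ≤ (8 * Real.exp (lamw w)) ^ (d - 1) :=
        pow_le_pow_left₀ (mul_nonneg (apply_nonneg _ _) (hA0 w).le) h1 _
      rw [mul_pow, hA w] at h2
      refine h2.trans (le_of_eq ?_)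
      rw [← Real.exp_log (show (0 : ℝ) < 8 by norm_num), ← Real.exp_add, ← Real.exp_nat_mul,
        Real.log_exp]
      congr 1
      ring
    have h1 := height_ratio (X := φ x - φ y) (Y := φ z - φ u) (a := fL.leadingCoeff)
      (sub_ne_zero.mpr (φ.injective.ne hzu)) ha (k := d - 1) (by omega) F
      (fun w => localWeight w fL) (fun w => ((d - 1 : ℕ) : ℝ) * (lamw w + Real.log 8))
      (fun w _ => hw0 w) (fun w => mul_nonneg (Nat.cast_nonneg _) (add_nonneg (hlw0 w) hl8))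
      (fun w _ => ⟨hfinb w x hx y hy, hfinb w z hz u hu⟩)
      (fun w hw => ⟨hfin1 w hw x hx y hy, hfin1 w hw z hz u hu⟩)
      (fun w => ⟨harch w x hx y hy, harch w z hz u hu⟩)
    have h2 : ∑ w : InfinitePlace L, (w.mult : ℝ) * (((d - 1 : ℕ) : ℝ) * (lamw w + Real.log 8)) =
        ((d - 1 : ℕ) : ℝ) * sw + ((d - 1 : ℕ) : ℝ) * (n * Real.log 8) := by
      rw [← hmultD, hsw, Finset.sum_mul, Finset.mul_sum, Finset.mul_sum,
        ← Finset.sum_add_distrib]
      refine Finset.sum_congr rfl fun w _ => ?_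
      ring
    rw [h2, hFΛ] at h1
    have h3 : φ ((x - y) / (z - u)) = (φ x - φ y) / (φ z - φ u) := by
      rw [map_div₀, map_sub, map_sub]
    rw [h3]
    have h4 : ((d - 1 : ℕ) : ℝ) * logHeight₁ ((φ x - φ y) / (φ z - φ u)) ≤
        ((d - 1 : ℕ) : ℝ) * (2 * Λ + n * Real.log 8) := by
      have h5 : Λ ≤ ((d - 1 : ℕ) : ℝ) * Λ := le_mul_of_one_le_left (by linarith) hd1
      have h6 : ((d - 1 : ℕ) : ℝ) * (2 * Λ + n * Real.log 8) =
        2 * (((d - 1 : ℕ) : ℝ) * Λ) + ((d - 1 : ℕ) : ℝ) * (n * Real.log 8) := by ring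
      rw [h6]
      linarith
    exact le_of_mul_le_mul_left h4 (by linarith)
  have hheight : ∀ t ∈ J, logHeight₁ (φ (T t)) ≤ 4 * Λ + 2 * n * Real.log 8 := by
    intro t ht
    obtain ⟨x, hx, y, hy, z, hz, u, hu, x', hx', y', hy', z', hz', u', hu', hzu, hzu', heq⟩ :=
      hTr t ht
    rw [heq, map_mul]
    have h1 := logHeight₁_mul_le (φ ((x - y) / (z - u))) (φ ((x' - y') / (z' - u')))
    have h2 := hratio x hx y hy z hz u hu hzu
    have h3 := hratio x' hx' y' hy' z' hz' u' hu' hzu'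
    linarith
  have hAcard : (J.image fun t => φ (T t)).card = J.card := by
    refine Finset.card_image_of_injOn ?_
    intro t ht t' ht' h
    exact hTinj ht ht' (φ.injective h)
  rcases lt_or_ge Λ (max H₀ 1) with hsmall | hlarge
  · -- bounded height
    have h1 : (J.image fun t => φ (T t)) ⊆ hfin.toFinset := by
      intro y hy
      obtain ⟨t, ht, rfl⟩ := Finset.mem_image.mp hy
      rw [Set.Finite.mem_toFinset, Set.mem_ofPred_eq]
      have := hheight t ht
      linarith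
    have h2 := Finset.card_le_card h1
    rw [hAcard] at h2
    omega
  · -- large height
    have hsup : ∀ w : FinitePlace L, w ∈ U₁ → ∃ θ : ℝ, 0 < θ ∧ θ < 1 ∧
        b⁻¹ * localWeight w fL ≤ -Real.log θ ∧ ∃ cl : K → Fin (q + 1), ∀ t ∈ J, ∀ t' ∈ J,
          cl t = cl t' → Close w θ (φ (T t)) (φ (T t')) := by
      intro w hw
      rw [hU₁, Finset.mem_filter, Finset.mem_sdiff] at hw
      obtain ⟨⟨_, hwS⟩, hwpos⟩ := hw
      obtain ⟨v, s, hs, hvs⟩ := exists_restrict φ w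
      have hv : v ∉ S := hS₂ w v s (fun h => hwS (Finset.mem_union_right _ h)) hs hvs
      have hvn : ∀ x, 0 ≤ v x := fun x => Pool.Agent.MP90787a.T.v_nonneg v x
      rcases hloc v hv with ⟨t₀, r, he, h1⟩ | ⟨ρ, h1, hlw, cl, hcl⟩
      · have h2 := weight_map φ hs hvn hvs he
        rw [h1, Real.log_one, mul_zero] at h2
        exact absurd hwpos (not_lt.mpr h2)
      · have hρ0 : 0 < ρ := by linarith
        refine ⟨(ρ⁻¹) ^ s, Real.rpow_pos_of_pos (inv_pos.mpr hρ0) s, ?_, ?_, cl, ?_⟩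
        · exact Real.rpow_lt_one (inv_nonneg.mpr hρ0.le) (inv_lt_one_of_one_lt₀ h1) hs
        · have h2 := lw_map φ hs hvn hvs (exists_escape v (by omega : 2 ≤ f.natDegree))
          rw [Real.log_rpow (inv_pos.mpr hρ0), Real.log_inv, inv_mul_le_iff₀ hb]
          have h3 : s * localWeight v f ≤ s * (b * Real.log ρ) := by gcongr
          calc localWeight w fL ≤ s * localWeight v f := h2
            _ ≤ s * (b * Real.log ρ) := h3
            _ = b * -(s * -Real.log ρ) := by ring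
        · intro t ht t' ht' h2
          exact close_map φ hs hvn hvs (inv_pos.mpr hρ0) (hcl t ht t' ht' h2)
    choose! θ hθ0 hθ1 hθ2 cl hcl using hsup
    have h1 := hN Λ ((le_max_left _ _).trans hlarge) (J.image fun t => φ (T t)) U₁ θ
      (by
        intro y hy
        obtain ⟨t, ht, rfl⟩ := Finset.mem_image.mp hy
        refine ⟨hTD t ht, (hheight t ht).trans ?_⟩
        have h2 : 2 * (n : ℝ) * Real.log 8 * 1 ≤ 2 * n * Real.log 8 * Λ := by
          have : 0 ≤ 2 * (n : ℝ) * Real.log 8 := by positivity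
          gcongr
        linarith)
      (by
        intro w hw
        refine ⟨?_, hθ0 w hw, hθ1 w hw, ?_⟩
        · intro h
          rw [hU₁, Finset.mem_filter, Finset.mem_sdiff] at hw
          exact hw.1.2 (Finset.mem_union_left _ h)
        · refine ⟨fun y => if h : ∃ t ∈ J, φ (T t) = y then cl w h.choose else 0, ?_⟩
          intro y hy y' hy' h
          have h1 : ∃ t ∈ J, φ (T t) = y := by
            obtain ⟨t, ht, h2⟩ := Finset.mem_image.mp hy
            exact ⟨t, ht, h2⟩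
          have h1' : ∃ t ∈ J, φ (T t) = y' := by
            obtain ⟨t, ht, h2⟩ := Finset.mem_image.mp hy'
            exact ⟨t, ht, h2⟩
          simp only [dif_pos h1, dif_pos h1'] at h
          have h2 := hcl w hw _ h1.choose_spec.1 _ h1'.choose_spec.1 h
          rw [h1.choose_spec.2, h1'.choose_spec.2] at h2
          exact h2)
      (by
        rw [hΛ, Finset.mul_sum]
        exact Finset.sum_le_sum fun w hw => hθ2 w hw)
    rw [hAcard] at h1
    omega

end Core

end Pool.Agent.MP90787a.G
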