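import Mathlib

/-!
# MP_90787a_nt, Theorem G, module Count

Preperiodic points with bounded tail and bounded period of a polynomial of degree at least two are
roots of finitely many polynomials of bounded degree.
-/

set_option autoImplicit false

namespace Pool.Agent.MP90787a.G

open Polynomial

namespace Count

theorem iter_eval {K : Type} [Field K] (f : K[X]) (k : ℕ) (x : K) :
    (fun z : K => f.eval z)^[k] x = (f.comp^[k] X).eval x := by
  rw [Polynomial.iterate_comp_eval]
  simp

theorem iter_natDegree {K : Type} [Field K] (f : K[X]) (k : ℕ) :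
    (f.comp^[k] X).natDegree = f.natDegree ^ k := by
  rw [Polynomial.natDegree_iterate_comp]
  simp

end Count

theorem count (K : Type) [Field K] (d B B' : ℕ) (hd : 2 ≤ d) : ∃ C : ℕ, ∀ f : K[X],
    f.natDegree = d → {x : K | (fun z : K => f.eval z)^[B'] x ∈
      Function.periodicPts (fun z : K => f.eval z) ∧
      Function.minimalPeriod (fun z : K => f.eval z) ((fun z : K => f.eval z)^[B'] x) ≤ B}.encard
      ≤ C := by
  classical
  refine ⟨∑ p ∈ Finset.range (B + 1), d ^ (B' + p), fun f hf => ?_⟩
  let F : ℕ → K[X] := fun p => f.comp^[B' + p] X - f.comp^[B'] X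
  have hdeg : ∀ k, (f.comp^[k] X).natDegree = d ^ k := fun k => by
    rw [Count.iter_natDegree, hf]
  have hF : ∀ p, 1 ≤ p → F p ≠ 0 ∧ (F p).natDegree ≤ d ^ (B' + p) := by
    intro p hp
    have h1 : d ^ B' < d ^ (B' + p) := Nat.pow_lt_pow_right (by omega) (by omega)
    have h2 : (F p).natDegree = d ^ (B' + p) := by
      have h3 := Polynomial.natDegree_sub_eq_left_of_natDegree_lt (p := f.comp^[B' + p] X)
        (q := f.comp^[B'] X) (by rw [hdeg, hdeg]; exact h1)
      rw [hdeg] at h3
      exact h3
    refine ⟨?_, h2.le⟩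
    intro h0
    rw [h0, Polynomial.natDegree_zero] at h2
    have : 0 < d ^ (B' + p) := Nat.pow_pos (by omega)
    omega
  have hsub : {x : K | (fun z : K => f.eval z)^[B'] x ∈
      Function.periodicPts (fun z : K => f.eval z) ∧
      Function.minimalPeriod (fun z : K => f.eval z) ((fun z : K => f.eval z)^[B'] x) ≤ B} ⊆
      (((Finset.Icc 1 B).biUnion fun p => (F p).roots.toFinset : Finset K) : Set K) := by
    rintro x ⟨h1, h2⟩
    have hp := Function.minimalPeriod_pos_of_mem_periodicPts h1
    rw [Finset.mem_coe, Finset.mem_biUnion]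
    refine ⟨_, Finset.mem_Icc.2 ⟨hp, h2⟩, ?_⟩
    rw [Multiset.mem_toFinset, Polynomial.mem_roots (hF _ hp).1, Polynomial.IsRoot.def,
      Polynomial.eval_sub, ← Count.iter_eval, ← Count.iter_eval, sub_eq_zero, add_comm,
      Function.iterate_add_apply]
    exact Function.isPeriodicPt_minimalPeriod _ _
  refine (Set.encard_le_encard hsub).trans ?_
  rw [Set.encard_coe_eq_coe_finsetCard]
  refine Nat.cast_le.2 ?_
  refine Finset.card_biUnion_le.trans ?_
  refine (Finset.sum_le_sum (fun p hp => ?_)).trans
    (Finset.sum_le_sum_of_subset (f := fun p => d ^ (B' + p)) ?_)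
  · rw [Finset.mem_Icc] at hp
    exact (Multiset.toFinset_card_le _).trans ((Polynomial.card_roots' _).trans (hF p hp.1).2)
  · intro p hp
    rw [Finset.mem_Icc] at hp
    rw [Finset.mem_range]
    omega

end Pool.Agent.MP90787a.G
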