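import Pool.Agent.Lib.MP_90787a_nt.G.Defs
import Pool.Agent.Lib.MP_90787a_nt.G.LocGood
import Pool.Agent.Lib.MP_90787a_nt.G.Core

set_option autoImplicit false

/-!
From the core theorems to bounds for the periods and for the lengths of the tails.
-/

namespace Pool.Agent.MP90787a.G

open Polynomial NumberField Height Pool.Agent.UBC90787a

namespace Cycles

open Function

/-- Every prime power dividing `n` being at most `B`, `n` is at most `B!`. -/
lemma le_factorial {n B : ℕ} (h : ∀ p k : ℕ, p.Prime → 1 ≤ k → p ^ k ∣ n → p ^ k ≤ B) :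
    n ≤ B.factorial := by
  refine Nat.le_of_dvd (Nat.factorial_pos B) ?_
  rw [Nat.dvd_iff_prime_pow_dvd_dvd]
  intro p k hp hk
  rcases Nat.eq_zero_or_pos k with rfl | hk0
  · rw [pow_zero]
    exact one_dvd _
  · exact Nat.dvd_factorial (pow_pos hp.pos k) (h p k hp hk0 hk)

/-- Number theoretic facts on the greatest common divisors. -/
lemma gcd_mul_coprime {q M a : ℕ} (h : Nat.Coprime a M) : Nat.gcd (q * a) (q * M) = q := by
  rw [Nat.gcd_mul_left, h, mul_one]

lemma preper_of_periodic {α : Type*} {φ : α → α} {x : α} (h : x ∈ periodicPts φ) :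
    Preper φ x := by
  obtain ⟨p, hp, h⟩ := h
  exact ⟨p, 0, hp, h⟩

lemma preper_of_iter {α : Type*} {φ : α → α} {x : α} {n : ℕ} (h : φ^[n] x ∈ periodicPts φ) :
    Preper φ x := by
  obtain ⟨p, hp, h⟩ := h
  refine ⟨p + n, n, by omega, ?_⟩
  rw [iterate_add_apply]
  exact h

lemma iter_inj {α : Type*} {φ : α → α} {x : α} {i j : ℕ} (hi : i < minimalPeriod φ x)
    (hj : j < minimalPeriod φ x) (h : φ^[i] x = φ^[j] x) : i = j :=
  iterate_injOn_Iio_minimalPeriod (f := φ) (x := x) hi hj h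

section cyc

variable {K : Type} [Field K] [NumberField K]

/-- A bound for the number of indices with prescribed greatest common divisors. -/
lemma affine_count {d m q₀ : ℕ} {b : ℝ} (hd : 2 ≤ d) {S : Finset (FinitePlace K)} {C : ℕ}
    (hC : ∀ f : K[X], f.natDegree = d →
      NiceG S m q₀ b f → ∀ (p₀ p₁ : K) (J : Finset K), p₀ ≠ p₁ →
      Preper (fun z => f.eval z) p₀ → Preper (fun z => f.eval z) p₁ →
      (∀ t ∈ J, Preper (fun z => f.eval z) t ∧ t ≠ p₀ ∧ t ≠ p₁ ∧
        ∀ v : FinitePlace K, v ∉ S → Good v f → v (t - p₀) = v (p₁ - p₀) ∧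
          v (t - p₁) = v (p₁ - p₀)) → J.card ≤ C)
    {f : K[X]} (hf : f.natDegree = d) (hN : NiceG S m q₀ b f) {x : K}
    (hx : x ∈ periodicPts (fun z : K => f.eval z)) {q M : ℕ} (hM : 2 ≤ M)
    (hqM : minimalPeriod (fun z : K => f.eval z) x = q * M) (I : Finset ℕ)
    (hI : ∀ l ∈ I, 2 ≤ l ∧ l < M ∧ Nat.Coprime l M ∧ Nat.Coprime (l - 1) M) : I.card ≤ C := by
  classical
  set φ : K → K := fun z : K => f.eval z with hφ
  set N := minimalPeriod φ x with hNdef
  have hN0 : 0 < N := minimalPeriod_pos_of_mem_periodicPts hx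
  have hq0 : 0 < q := by
    rcases Nat.eq_zero_or_pos q with h | h
    · rw [h, zero_mul] at hqM
      omega
    · exact h
  have hper : φ^[N] x = x := iterate_minimalPeriod
  have hpre : ∀ i, Preper φ (φ^[i] x) := fun i => preper_of_periodic (by
    obtain ⟨p, hp, h⟩ := hx
    exact ⟨p, hp, h.apply_iterate i⟩)
  have hlt : ∀ i, i < M → q * i < N := by
    intro i hi
    rw [hqM]
    exact Nat.mul_lt_mul_of_pos_left hi hq0
  have hinj : ∀ i j, i < M → j < M → φ^[q * i] x = φ^[q * j] x → i = j := by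
    intro i j hi hj h
    exact Nat.eq_of_mul_eq_mul_left hq0 (iter_inj (hlt i hi) (hlt j hj) h)
  have hgcd : ∀ a, Nat.Coprime a M → Nat.gcd (q * a) N = q := by
    intro a ha
    rw [hqM]
    exact gcd_mul_coprime ha
  have key := hC f hf hN (φ^[q * 0] x) (φ^[q * 1] x) (I.image fun l => φ^[q * l] x)
    (fun h => absurd (hinj 0 1 (by omega) (by omega) h) (by omega)) (hpre _) (hpre _) ?_
  · rwa [Finset.card_image_of_injOn] at key
    intro i hi j hj hij
    exact hinj i j (hI i hi).2.1 (hI j hj).2.1 hij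
  · intro t ht
    obtain ⟨l, hl, rfl⟩ := Finset.mem_image.1 ht
    obtain ⟨hl2, hlM, hc1, hc2⟩ := hI l hl
    refine ⟨hpre _, fun h => absurd (hinj l 0 hlM (by omega) h) (by omega),
      fun h => absurd (hinj l 1 hlM (by omega) h) (by omega), fun v _ hg => ?_⟩
    have hd' : 2 ≤ f.natDegree := by omega
    have g1 := good_gcd v hd' hg hN0 hper (q * 0) (q * l) (q * 0) (q * 1)
      (Nat.mul_le_mul_left _ (by omega)) (Nat.mul_le_mul_left _ (by omega)) (by
        rw [← Nat.mul_sub, ← Nat.mul_sub, Nat.sub_zero, Nat.sub_zero, hgcd l hc1,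
          hgcd 1 (Nat.coprime_one_left M)])
    have g2 := good_gcd v hd' hg hN0 hper (q * 1) (q * l) (q * 0) (q * 1)
      (Nat.mul_le_mul_left _ (by omega)) (Nat.mul_le_mul_left _ (by omega)) (by
        rw [← Nat.mul_sub, ← Nat.mul_sub, Nat.sub_zero, hgcd (l - 1) hc2,
          hgcd 1 (Nat.coprime_one_left M)])
    refine ⟨?_, ?_⟩
    · rw [map_sub_rev, map_sub_rev v (φ^[q * 1] x)]
      exact g1
    · rw [map_sub_rev, map_sub_rev v (φ^[q * 1] x) (φ^[q * 0] x)]
      exact g2

/-- Odd prime powers dividing the period. -/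
lemma odd_prime_pow {d m q₀ : ℕ} {b : ℝ} (hd : 2 ≤ d) {S : Finset (FinitePlace K)} {C : ℕ}
    (hC : ∀ f : K[X], f.natDegree = d →
      NiceG S m q₀ b f → ∀ (p₀ p₁ : K) (J : Finset K), p₀ ≠ p₁ →
      Preper (fun z => f.eval z) p₀ → Preper (fun z => f.eval z) p₁ →
      (∀ t ∈ J, Preper (fun z => f.eval z) t ∧ t ≠ p₀ ∧ t ≠ p₁ ∧
        ∀ v : FinitePlace K, v ∉ S → Good v f → v (t - p₀) = v (p₁ - p₀) ∧
          v (t - p₁) = v (p₁ - p₀)) → J.card ≤ C)
    {f : K[X]} (hf : f.natDegree = d) (hN : NiceG S m q₀ b f) {x : K}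
    (hx : x ∈ periodicPts (fun z : K => f.eval z)) {p e : ℕ} (hp : p.Prime) (hp2 : p ≠ 2)
    (he : 1 ≤ e) (hdvd : p ^ e ∣ minimalPeriod (fun z : K => f.eval z) x) :
    p ^ e ≤ C * (C + 2) := by
  classical
  have hp3 : 3 ≤ p := by
    have := hp.two_le
    omega
  obtain ⟨e', rfl⟩ : ∃ e', e = e' + 1 := ⟨e - 1, by omega⟩
  have hpow : 1 ≤ p ^ e' := Nat.one_le_pow _ _ hp.pos
  -- first part
  have h1 : p ^ e' ≤ C := by
    obtain ⟨q, hq⟩ := hdvd
    have hcop : ∀ a, ¬ p ∣ a → Nat.Coprime a (p ^ (e' + 1)) := fun a ha =>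
      Nat.Coprime.pow_right _ ((Nat.Prime.coprime_iff_not_dvd hp).2 ha).symm
    have := affine_count hd hC hf hN hx (q := q) (M := p ^ (e' + 1))
      (by
        rw [pow_succ]
        nlinarith) (by rw [hq, mul_comm]) ((Finset.range (p ^ e')).image fun k => 2 + p * k) (by
        intro l hl
        obtain ⟨k, hk, rfl⟩ := Finset.mem_image.1 hl
        have hk' := Finset.mem_range.1 hk
        refine ⟨by omega, ?_, hcop _ ?_, hcop _ ?_⟩
        · have h2 : p * (k + 1) ≤ p * p ^ e' := Nat.mul_le_mul_left _ hk'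
          rw [pow_succ]
          have h3 : p * (k + 1) = p * k + p := by ring
          rw [mul_comm (p ^ e') p]
          omega
        · intro h
          have := (Nat.dvd_add_left (dvd_mul_right p k)).1 h
          have := Nat.le_of_dvd (by omega) this
          omega
        · intro h
          have e1 : 2 + p * k - 1 = 1 + p * k := by omega
          rw [e1] at h
          have := (Nat.dvd_add_left (dvd_mul_right p k)).1 h
          have := Nat.le_of_dvd (by omega) this
          omega)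
    rwa [Finset.card_image_of_injOn, Finset.card_range] at this
    intro a _ b _ hab
    have hab' : 2 + p * a = 2 + p * b := hab
    exact Nat.eq_of_mul_eq_mul_left hp.pos (by omega)
  -- second part
  have h2 : p - 2 ≤ C := by
    obtain ⟨q, hq⟩ := (dvd_pow_self p (Nat.succ_ne_zero e')).trans hdvd
    have hcop : ∀ a, 1 ≤ a → a < p → Nat.Coprime a p := fun a h1 h2 =>
      ((Nat.Prime.coprime_iff_not_dvd hp).2 fun h => by
        have := Nat.le_of_dvd (by omega) h
        omega).symm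
    have := affine_count hd hC hf hN hx (q := q) (M := p) (by omega) (by rw [hq, mul_comm])
      (Finset.Ico 2 p) (by
        intro l hl
        rw [Finset.mem_Ico] at hl
        exact ⟨hl.1, hl.2, hcop _ (by omega) hl.2, hcop _ (by omega) (by omega)⟩)
    rwa [Nat.card_Ico] at this
  calc p ^ (e' + 1) = p ^ e' * p := pow_succ _ _
    _ ≤ C * (C + 2) := Nat.mul_le_mul h1 (by omega)

/-- Powers of two dividing the period. -/
lemma two_pow {d m q₀ : ℕ} {b : ℝ} (hd : 2 ≤ d) {S : Finset (FinitePlace K)} {C : ℕ}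
    (hC : ∀ f : K[X], f.natDegree = d →
      NiceG S m q₀ b f → ∀ (p₀ p₁ p₂ : K) (J : Finset K), p₀ ≠ p₁ → p₀ ≠ p₂ → p₁ ≠ p₂ →
      Preper (fun z => f.eval z) p₀ → Preper (fun z => f.eval z) p₁ →
      Preper (fun z => f.eval z) p₂ →
      (∀ t ∈ J, Preper (fun z => f.eval z) t ∧ t ≠ p₀ ∧ t ≠ p₁ ∧ t ≠ p₂ ∧
        ∀ v : FinitePlace K, v ∉ S → Good v f → v (t - p₀) = v (p₁ - p₀) ∧
          v (t - p₂) = v (p₁ - p₀) ∧ v (p₁ - p₂) = v (p₁ - p₀) ∧
          v (t - p₁) = v (p₀ - p₂)) → J.card ≤ C)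
    {f : K[X]} (hf : f.natDegree = d) (hN : NiceG S m q₀ b f) {x : K}
    (hx : x ∈ periodicPts (fun z : K => f.eval z)) {e : ℕ}
    (hdvd : 2 ^ e ∣ minimalPeriod (fun z : K => f.eval z) x) :
    2 ^ e ≤ 4 * C + 2 := by
  classical
  rcases Nat.lt_or_ge e 2 with he | he
  · have : 2 ^ e ≤ 2 ^ 1 := Nat.pow_le_pow_right (by norm_num) (by omega)
    omega
  obtain ⟨e', rfl⟩ : ∃ e', e = e' + 2 := ⟨e - 2, by omega⟩
  obtain ⟨q, hq⟩ := hdvd
  set φ : K → K := fun z : K => f.eval z with hφ
  set N := minimalPeriod φ x with hNdef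
  set M : ℕ := 2 ^ (e' + 2) with hMdef
  have hM4 : M = 4 * 2 ^ e' := by
    rw [hMdef, pow_add]
    ring
  have hpow : 1 ≤ 2 ^ e' := Nat.one_le_pow _ _ (by norm_num)
  have hqM : N = q * M := by rw [hq, mul_comm]
  have hN0 : 0 < N := minimalPeriod_pos_of_mem_periodicPts hx
  have hq0 : 0 < q := by
    rcases Nat.eq_zero_or_pos q with h | h
    · rw [h, zero_mul] at hqM
      omega
    · exact h
  have hper : φ^[N] x = x := iterate_minimalPeriod
  have hpre : ∀ i, Preper φ (φ^[i] x) := fun i => preper_of_periodic (by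
    obtain ⟨p, hp, h⟩ := hx
    exact ⟨p, hp, h.apply_iterate i⟩)
  have hlt : ∀ i, i < M → q * i < N := by
    intro i hi
    rw [hqM]
    exact Nat.mul_lt_mul_of_pos_left hi hq0
  have hinj : ∀ i j, i < M → j < M → φ^[q * i] x = φ^[q * j] x → i = j := by
    intro i j hi hj h
    exact Nat.eq_of_mul_eq_mul_left hq0 (iter_inj (hlt i hi) (hlt j hj) h)
  have hodd : ∀ a, Odd a → Nat.gcd (q * a) N = q := by
    intro a ha
    rw [hqM]
    exact gcd_mul_coprime (Nat.Coprime.pow_right _ (Nat.coprime_two_right.2 ha))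
  have htwo : ∀ a, Odd a → Nat.gcd (q * (2 * a)) N = q * 2 := by
    intro a ha
    have e1 : N = (q * 2) * 2 ^ (e' + 1) := by
      rw [hqM, hMdef, pow_succ]
      ring
    rw [e1, ← mul_assoc]
    exact gcd_mul_coprime (Nat.Coprime.pow_right _ (Nat.coprime_two_right.2 ha))
  have hd' : 2 ≤ f.natDegree := by omega
  have key := hC f hf hN (φ^[q * 0] x) (φ^[q * 1] x) (φ^[q * 2] x)
    ((Finset.range (2 ^ e')).image fun k => φ^[q * (3 + 4 * k)] x)
    (fun h => absurd (hinj 0 1 (by omega) (by omega) h) (by omega))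
    (fun h => absurd (hinj 0 2 (by omega) (by omega) h) (by omega))
    (fun h => absurd (hinj 1 2 (by omega) (by omega) h) (by omega)) (hpre _) (hpre _) (hpre _) ?_
  · rw [Finset.card_image_of_injOn, Finset.card_range] at key
    · omega
    intro a ha b hb hab
    rw [Finset.coe_range, Set.mem_Iio] at ha hb
    have := hinj (3 + 4 * a) (3 + 4 * b) (by omega) (by omega) hab
    omega
  · intro t ht
    obtain ⟨k, hk, rfl⟩ := Finset.mem_image.1 ht
    have hk' := Finset.mem_range.1 hk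
    refine ⟨hpre _, fun h => absurd (hinj (3 + 4 * k) 0 (by omega) (by omega) h) (by omega),
      fun h => absurd (hinj (3 + 4 * k) 1 (by omega) (by omega) h) (by omega),
      fun h => absurd (hinj (3 + 4 * k) 2 (by omega) (by omega) h) (by omega), fun v _ hg => ?_⟩
    have g := fun (i j i' j' : ℕ) (hij : i ≤ j) (hij' : i' ≤ j')
      (h : Nat.gcd (q * (j - i)) N = Nat.gcd (q * (j' - i')) N) =>
      good_gcd v hd' hg hN0 hper (q * i) (q * j) (q * i') (q * j')
        (Nat.mul_le_mul_left _ hij) (Nat.mul_le_mul_left _ hij') (by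
          rwa [← Nat.mul_sub, ← Nat.mul_sub])
    have o1 : Nat.gcd (q * (1 - 0)) N = q := hodd 1 odd_one
    have g1 := g 0 (3 + 4 * k) 0 1 (by omega) (by omega) (by
      rw [o1]
      exact hodd _ ⟨1 + 2 * k, by omega⟩)
    have g2 := g 2 (3 + 4 * k) 0 1 (by omega) (by omega) (by
      rw [o1]
      exact hodd _ ⟨2 * k, by omega⟩)
    have g3 := g 1 2 0 1 (by omega) (by omega) rfl
    have g4 := g 1 (3 + 4 * k) 0 2 (by omega) (by omega) (by
      have e1 : 3 + 4 * k - 1 = 2 * (1 + 2 * k) := by omega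
      have e2 : 2 - 0 = 2 * 1 := rfl
      rw [e1, e2, htwo _ ⟨k, by omega⟩, htwo _ odd_one])
    refine ⟨?_, ?_, ?_, ?_⟩
    · rw [map_sub_rev, map_sub_rev v (φ^[q * 1] x)]
      exact g1
    · rw [map_sub_rev, map_sub_rev v (φ^[q * 1] x) (φ^[q * 0] x)]
      exact g2
    · rw [map_sub_rev v (φ^[q * 1] x) (φ^[q * 0] x)]
      exact g3
    · rw [map_sub_rev]
      exact g4

end cyc

end Cycles

open Cycles

theorem period_bound (K : Type) [Field K] [NumberField K] (d m q₀ : ℕ) (b : ℝ) (hd : 2 ≤ d)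
    (hm : 3 ≤ m) (S : Finset (FinitePlace K)) : ∃ B : ℕ, ∀ f : K[X], f.natDegree = d →
      NiceG S m q₀ b f → ∀ x ∈ Function.periodicPts (fun z : K => f.eval z),
      (∀ k : ℕ, Odd k → k ∣ Function.minimalPeriod (fun z : K => f.eval z) x → k ≤ B) ∧
      (Even m → Function.minimalPeriod (fun z : K => f.eval z) x ≤ B) := by
  obtain ⟨C, hC⟩ := core_affine K d m q₀ b hd hm S
  obtain ⟨C', hC'⟩ : ∃ C' : ℕ, Even m → ∀ f : K[X], f.natDegree = d →
      NiceG S m q₀ b f → ∀ (p₀ p₁ p₂ : K) (J : Finset K), p₀ ≠ p₁ → p₀ ≠ p₂ → p₁ ≠ p₂ →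
      Preper (fun z => f.eval z) p₀ → Preper (fun z => f.eval z) p₁ →
      Preper (fun z => f.eval z) p₂ →
      (∀ t ∈ J, Preper (fun z => f.eval z) t ∧ t ≠ p₀ ∧ t ≠ p₁ ∧ t ≠ p₂ ∧
        ∀ v : FinitePlace K, v ∉ S → Good v f → v (t - p₀) = v (p₁ - p₀) ∧
          v (t - p₂) = v (p₁ - p₀) ∧ v (p₁ - p₂) = v (p₁ - p₀) ∧
          v (t - p₁) = v (p₀ - p₂)) → J.card ≤ C' := by
    by_cases hev : Even m
    · have hm4 : 4 ≤ m := by
        obtain ⟨a, ha⟩ := hev
        omega
      obtain ⟨C', hC'⟩ := core_cross K d m q₀ b hd hm4 hev S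
      exact ⟨C', fun _ => hC'⟩
    · exact ⟨0, fun h => absurd h hev⟩
  set B₀ : ℕ := max (C * (C + 2)) (4 * C' + 2) with hB₀
  refine ⟨B₀.factorial, fun f hf hN x hx => ⟨fun k hk hkN => ?_, fun hev => ?_⟩⟩
  · refine le_factorial fun p e hp he hpe => ?_
    have hp2 : p ≠ 2 := by
      rintro rfl
      have h1 : 2 ∣ k := (dvd_pow_self 2 (by omega)).trans hpe
      exact (Nat.not_even_iff_odd.2 hk) (even_iff_two_dvd.2 h1)
    exact (odd_prime_pow hd hC hf hN hx hp hp2 he (hpe.trans hkN)).trans (le_max_left _ _)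
  · refine le_factorial fun p e hp he hpe => ?_
    by_cases hp2 : p = 2
    · subst hp2
      exact (two_pow hd (hC' hev) hf hN hx hpe).trans (le_max_right _ _)
    · exact (odd_prime_pow hd hC hf hN hx hp hp2 he hpe).trans (le_max_left _ _)

theorem tail_bound (K : Type) [Field K] [NumberField K] (d m q₀ : ℕ) (b : ℝ) (hd : 2 ≤ d)
    (hm : 3 ≤ m) (S : Finset (FinitePlace K)) : ∃ B' : ℕ, ∀ f : K[X], f.natDegree = d →
      NiceG S m q₀ b f → ∀ (x : K) (i : ℕ),
      (fun z : K => f.eval z)^[i] x ∈ Function.periodicPts (fun z : K => f.eval z) →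
      3 ≤ Function.minimalPeriod (fun z : K => f.eval z) ((fun z : K => f.eval z)^[i] x) →
      (fun z : K => f.eval z)^[B'] x ∈ Function.periodicPts (fun z : K => f.eval z) := by
  classical
  obtain ⟨C, hC⟩ := core_affine K d m q₀ b hd hm S
  refine ⟨3 * C + 4, fun f hf hN x i₀ hi₀ hL₀ => ?_⟩
  set φ : K → K := fun z : K => f.eval z with hφ
  have hd' : 2 ≤ f.natDegree := by omega
  have hex : ∃ n, φ^[n] x ∈ Function.periodicPts φ := ⟨i₀, hi₀⟩
  set l := Nat.find hex with hl
  have hl1 : φ^[l] x ∈ Function.periodicPts φ := Nat.find_spec hex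
  have hl2 : ∀ n < l, φ^[n] x ∉ Function.periodicPts φ := fun n hn => Nat.find_min hex hn
  have hli₀ : l ≤ i₀ := Nat.find_min' hex hi₀
  -- everything beyond `l` is periodic
  have hbeyond : ∀ n, l ≤ n → φ^[n] x ∈ Function.periodicPts φ := by
    intro n hn
    have : φ^[n] x = φ^[n - l] (φ^[l] x) := by
      rw [← Function.iterate_add_apply, Nat.sub_add_cancel hn]
    rw [this]
    obtain ⟨p, hp, h⟩ := hl1
    exact ⟨p, hp, h.apply_iterate _⟩
  refine hbeyond _ ?_
  by_contra hcon
  push Not at hcon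
  -- the period
  set L := Function.minimalPeriod φ (φ^[l] x) with hLdef
  have hL3 : 3 ≤ L := by
    have : φ^[i₀] x = φ^[i₀ - l] (φ^[l] x) := by
      rw [← Function.iterate_add_apply, Nat.sub_add_cancel hli₀]
    rw [this, Function.minimalPeriod_apply_iterate hl1] at hL₀
    exact hL₀
  have hperL : φ^[L] (φ^[l] x) = φ^[l] x := Function.iterate_minimalPeriod
  have hadd : ∀ a b, φ^[a] (φ^[b] x) = φ^[a + b] x := fun a b =>
    (Function.iterate_add_apply φ a b x).symm
  -- equality of points of the cycle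
  have hcyc : ∀ a b, φ^[a + l] x = φ^[b + l] x → a % L = b % L := by
    intro a b hab
    rw [← hadd, ← hadd] at hab
    have := (Function.iterate_eq_iterate_iff_of_lt_minimalPeriod
      (f := φ) (x := φ^[l] x) (m := a % L) (n := b % L) (Nat.mod_lt _ (by omega))
      (Nat.mod_lt _ (by omega))).1 (by
        rw [Function.iterate_mod_minimalPeriod_eq, Function.iterate_mod_minimalPeriod_eq]
        exact hab)
    exact this
  set w' : K := φ^[L - 1 + l] x with hw'
  set b₁ : K := φ^[l - 1] x with hb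
  have hw'per : w' ∈ Function.periodicPts φ := hbeyond _ (by omega)
  have hbw' : b₁ ≠ w' := fun h => hl2 (l - 1) (by omega) (by rw [← hb, h]; exact hw'per)
  have hfb : f.eval b₁ = f.eval w' := by
    have h1 : f.eval b₁ = φ^[l] x := by
      have : φ^[l] x = φ (φ^[l - 1] x) := by
        rw [← Function.iterate_succ_apply' φ, Nat.succ_eq_add_one, Nat.sub_add_cancel (by omega)]
      rw [this]
    have h2 : f.eval w' = φ^[l] x := by
      have : φ^[L] (φ^[l] x) = φ (φ^[L - 1 + l] x) := by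
        rw [hadd, ← Function.iterate_succ_apply' φ]
        congr 1
        omega
      rw [← hperL, this]
    rw [h1, h2]
  have hcore : ∀ i j, i < j → j < l → ¬ L ∣ j - i → ∀ v : FinitePlace K, ∀ R : ℝ,
      (∀ (x y w w' b : K) (m : ℕ), w ∈ Function.periodicPts (fun z => f.eval z) →
      w' ∈ Function.periodicPts (fun z => f.eval z) → w ≠ w' → b ≠ w' →
      f.eval b = f.eval w' → (fun z => f.eval z)^[m] x = w → (fun z => f.eval z)^[m] y = b →
      v (x - y) = R) → v (φ^[j] x - φ^[i] x) = R := by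
    intro i j hij hjl hdv v R hR
    refine hR (φ^[j] x) (φ^[i] x) (φ^[l - 1 + (j - i)] x) w' b₁ (l - 1 - i) (hbeyond _ (by omega))
      hw'per ?_ hbw' hfb ?_ ?_
    · intro h
      have h1 : φ^[(j - i - 1) + l] x = φ^[(L - 1) + l] x := by
        rw [hw'] at h
        rw [← h]
        congr 1
        omega
      have h2 := hcyc _ _ h1
      apply hdv
      have h3 : (j - i - 1 + 1) % L = (L - 1 + 1) % L := by
        rw [Nat.add_mod, h2, ← Nat.add_mod]
      rw [Nat.sub_add_cancel (by omega), Nat.sub_add_cancel (by omega), Nat.mod_self] at h3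
      exact Nat.dvd_of_mod_eq_zero h3
    · show φ^[l - 1 - i] (φ^[j] x) = _
      rw [hadd]
      congr 1
      omega
    · show φ^[l - 1 - i] (φ^[i] x) = _
      rw [hadd, hb]
      congr 1
      omega
  have hinj : ∀ i j, i < l → j < l → φ^[i] x = φ^[j] x → i = j := by
    have key : ∀ i j, i < j → j < l → φ^[i] x ≠ φ^[j] x := by
      intro i j hij hj h
      refine hl2 i (by omega) ⟨j - i, by omega, ?_⟩
      show φ^[j - i] (φ^[i] x) = φ^[i] x
      rw [hadd, Nat.sub_add_cancel hij.le, h]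
    intro i j hi hj h
    rcases lt_trichotomy i j with h1 | h1 | h1
    · exact absurd h (key i j h1 hj)
    · exact h1
    · exact absurd h.symm (key j i h1 hi)
  have hpre : ∀ i, Preper φ (φ^[i] x) := by
    intro i
    rcases Nat.lt_or_ge i l with h | h
    · exact preper_of_iter (n := l - i) (by rw [hadd, Nat.sub_add_cancel h.le]; exact hl1)
    · exact preper_of_periodic (hbeyond i h)
  -- the choice of one index among three consecutive ones
  set J : Finset ℕ := (Finset.Ico 2 l).filter fun j => ¬ L ∣ j ∧ ¬ L ∣ j - 1 with hJ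
  have hJC : J.card ≤ C := by
    have key := hC f hf hN (φ^[0] x) (φ^[1] x) (J.image fun j => φ^[j] x)
      (fun h => absurd (hinj 0 1 (by omega) (by omega) h) (by omega)) (hpre _) (hpre _) ?_
    · rwa [Finset.card_image_of_injOn] at key
      intro i hi j hj hij
      rw [Finset.mem_coe, hJ, Finset.mem_filter, Finset.mem_Ico] at hi hj
      exact hinj i j hi.1.2 hj.1.2 hij
    · intro t ht
      obtain ⟨j, hj, rfl⟩ := Finset.mem_image.1 ht
      rw [hJ, Finset.mem_filter, Finset.mem_Ico] at hj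
      obtain ⟨⟨hj2, hjl⟩, hjL, hjL'⟩ := hj
      refine ⟨hpre _, fun h => absurd (hinj j 0 (by omega) (by omega) h) (by omega),
        fun h => absurd (hinj j 1 (by omega) (by omega) h) (by omega), fun v _ hg => ?_⟩
      obtain ⟨R, _, hR⟩ := good_tail v hd' hg
      have h1L : ¬ L ∣ 1 := fun h => by
        have := Nat.le_of_dvd one_pos h
        omega
      rw [hcore 0 j (by omega) hjl (by rwa [Nat.sub_zero]) v R hR,
        hcore 1 j (by omega) hjl hjL' v R hR,
        hcore 0 1 (by omega) (by omega) h1L v R hR]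
      exact ⟨rfl, rfl⟩
  have hsel : ∀ a : ℕ, ∃ j, a + 2 ≤ j ∧ j ≤ a + 4 ∧ ¬ L ∣ j ∧ ¬ L ∣ j - 1 := by
    intro a
    have hno : ∀ t c : ℕ, 1 ≤ c → c ≤ 2 → L ∣ t → ¬ L ∣ t + c := by
      intro t c h1 h2 h3 h4
      have := Nat.le_of_dvd (by omega) ((Nat.dvd_add_right h3).1 h4)
      omega
    by_cases h1 : L ∣ a + 1
    · refine ⟨a + 3, by omega, by omega, hno (a + 1) 2 (by omega) (by omega) h1, ?_⟩
      have := hno (a + 1) 1 (by omega) (by omega) h1
      exact this
    · by_cases h2 : L ∣ a + 2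
      · refine ⟨a + 4, by omega, by omega, hno (a + 2) 2 (by omega) (by omega) h2, ?_⟩
        have := hno (a + 2) 1 (by omega) (by omega) h2
        exact this
      · exact ⟨a + 2, by omega, by omega, h2, h1⟩
  choose j hj1 hj2 hj3 hj4 using hsel
  have hcard : C + 1 ≤ J.card := by
    have h1 : ((Finset.range (C + 1)).image fun a => j (3 * a)).card = C + 1 := by
      rw [Finset.card_image_of_injOn, Finset.card_range]
      intro a _ b _ hab
      have h1 := hj1 (3 * a)
      have h2 := hj2 (3 * a)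
      have h3 := hj1 (3 * b)
      have h4 := hj2 (3 * b)
      have hab' : j (3 * a) = j (3 * b) := hab
      omega
    rw [← h1]
    refine Finset.card_le_card fun t ht => ?_
    obtain ⟨a, ha, rfl⟩ := Finset.mem_image.1 ht
    have ha' := Finset.mem_range.1 ha
    have h2 := hj1 (3 * a)
    have h3 := hj2 (3 * a)
    rw [hJ, Finset.mem_filter, Finset.mem_Ico]
    exact ⟨⟨by omega, by omega⟩, hj3 _, hj4 _⟩
  omega

end Pool.Agent.MP90787a.G
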