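import Pool.Agent.Lib.MP_90787a_nt.T.KissSq
import Pool.Agent.Lib.MP_90787a_nt.G.Defs

open Pool.Agent.MP90787a.T (WE psi)

set_option autoImplicit false

/-!
Local estimates on `y² = (x-e₁)(x-e₂)(x-e₃)` for close points.
-/

namespace Pool.Agent.MP90787a.G

open Polynomial NumberField Height Pool.Agent.UBC90787a

namespace Ell

open Pool.Agent.MP90787a.T

variable {L : Type} [Field L] [NumberField L]

omit [NumberField L] in
lemma curve_eq {e₁ e₂ e₃ x y : L} (h : (WE e₁ e₂ e₃).toAffine.Nonsingular x y) :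
    y ^ 2 = (x - e₁) * (x - e₂) * (x - e₃) := by
  have h1 := h.1
  rw [WeierstrassCurve.Affine.equation_iff] at h1
  simp only [WE] at h1
  linear_combination h1

/-- If the difference of the two points has an `x`-coordinate `z` with `|z| ≥ τ⁻¹`, done. -/
lemma psi_ge_of [DecidableEq L] (v : FinitePlace L) {e₁ e₂ e₃ x₁ y₁ x₂ y₂ : L} {τ : ℝ}
    (h₁ : (WE e₁ e₂ e₃).toAffine.Nonsingular x₁ y₁)
    (h₂ : (WE e₁ e₂ e₃).toAffine.Nonsingular x₂ y₂) (hx : x₁ ≠ x₂) (hτ0 : 0 < τ)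
    (hz : τ⁻¹ ≤ v (((y₁ + y₂) / (x₁ - x₂)) ^ 2 + (e₁ + e₂ + e₃) - x₁ - x₂)) :
    -Real.log τ ≤ psi v (WeierstrassCurve.Affine.Point.some x₁ y₁ h₁ -
      WeierstrassCurve.Affine.Point.some x₂ y₂ h₂) := by
  obtain ⟨y, h, heq⟩ := WE_sub h₁ h₂ hx
  rw [heq]
  change -Real.log τ ≤ Real.posLog (v (((y₁ + y₂) / (x₁ - x₂)) ^ 2 + (e₁ + e₂ + e₃) - x₁ - x₂))
  have h5 := Real.log_le_log (inv_pos.mpr hτ0) hz
  rw [Real.log_inv] at h5
  refine h5.trans ?_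
  rw [Real.posLog]
  exact le_max_right _ _

/-- If the slope is large and everything else is integral, done. -/
lemma of_slope (v : FinitePlace L) {s e x₁ x₂ : L} {τ : ℝ} (hτ0 : 0 < τ) (hτ : τ < 1)
    (hs : τ⁻¹ ≤ v s) (he : v e ≤ 1) (hx₁ : v x₁ ≤ 1) (hx₂ : v x₂ ≤ 1) :
    τ⁻¹ ≤ v (s ^ 2 + e - x₁ - x₂) := by
  have h1 : 1 < τ⁻¹ := (one_lt_inv₀ hτ0).mpr hτ
  have h2 : τ⁻¹ ≤ v (s ^ 2) := by
    rw [map_pow]
    nlinarith
  have h3 : v (e - x₁ - x₂) ≤ 1 := le1_sub v (le1_sub v he hx₁) hx₂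
  have h4 : s ^ 2 + e - x₁ - x₂ = s ^ 2 + (e - x₁ - x₂) := by ring
  rw [h4, v_add_eq v (lt_of_le_of_lt h3 (lt_of_lt_of_le h1 h2))]
  exact h2

/-- Near the root `e₁`: the quotient `Q` is a unit. -/
lemma unit_Q (v : FinitePlace L) {e₁ e₂ e₃ x₁ x₂ : L} (h12 : v (e₁ - e₂) = 1)
    (h13 : v (e₁ - e₃) = 1) (hx₁ : v (x₁ - e₁) < 1) (hx₂ : v (x₂ - e₁) < 1) :
    v (x₁ * x₁ + x₁ * x₂ + x₂ * x₂ - (e₁ + e₂ + e₃) * (x₁ + x₂) +
      (e₁ * e₂ + e₁ * e₃ + e₂ * e₃)) = 1 := by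
  have h1 : x₁ * x₁ + x₁ * x₂ + x₂ * x₂ - (e₁ + e₂ + e₃) * (x₁ + x₂) +
      (e₁ * e₂ + e₁ * e₃ + e₂ * e₃) = (e₁ - e₂) * (e₁ - e₃) +
      ((x₁ - e₁) * (x₁ - e₁) + (x₁ - e₁) * (x₂ - e₁) + (x₂ - e₁) * (x₂ - e₁) +
        ((x₁ - e₁) + (x₂ - e₁)) * ((e₁ - e₂) + (e₁ - e₃))) := by ring
  have h2 : v ((e₁ - e₂) * (e₁ - e₃)) = 1 := by rw [map_mul, h12, h13, one_mul]
  rw [h1, v_add_eq v, h2]
  rw [h2]
  refine lt1_add v (lt1_add v (lt1_add v (lt1_mul v hx₁ hx₁.le) (lt1_mul v hx₁ hx₂.le))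
    (lt1_mul v hx₂ hx₂.le)) (lt1_mul v (lt1_add v hx₁ hx₂) (le1_add v ?_ ?_))
  · exact h12.le
  · exact h13.le

end Ell

theorem psi_int {L : Type} [Field L] [NumberField L] [DecidableEq L] (v : FinitePlace L)
    {e₁ e₂ e₃ x₁ y₁ x₂ y₂ : L} {τ : ℝ}
    (h₁ : (WE e₁ e₂ e₃).toAffine.Nonsingular x₁ y₁)
    (h₂ : (WE e₁ e₂ e₃).toAffine.Nonsingular x₂ y₂) (h2 : v (2 : L) = 1)
    (he₁ : v e₁ ≤ 1) (he₂ : v e₂ ≤ 1) (he₃ : v e₃ ≤ 1) (h12 : v (e₁ - e₂) = 1)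
    (h13 : v (e₁ - e₃) = 1) (h23 : v (e₂ - e₃) = 1) (hx : x₁ ≠ x₂) (hx₁ : v x₁ ≤ 1)
    (hx₂ : v x₂ ≤ 1) (hτ0 : 0 < τ) (hτ : τ < 1) (hX : v (x₁ - x₂) ≤ τ) (hY : v (y₁ - y₂) ≤ τ) :
    -Real.log τ ≤ psi v (WeierstrassCurve.Affine.Point.some x₁ y₁ h₁ -
      WeierstrassCurve.Affine.Point.some x₂ y₂ h₂) := by
  have c₁ := Ell.curve_eq h₁
  have c₂ := Ell.curve_eq h₂
  have hX0 : x₁ - x₂ ≠ 0 := sub_ne_zero.mpr hx
  have hXp : 0 < v (x₁ - x₂) := T.v_pos v hX0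
  apply Ell.psi_ge_of v h₁ h₂ hx hτ0
  apply Ell.of_slope v hτ0 hτ _ (T.le1_add v (T.le1_add v he₁ he₂) he₃) hx₁ hx₂
  by_cases hS : v (y₁ + y₂) < 1
  · -- both `y` are small
    have hy2 : v (2 * y₁) < 1 := by
      have : 2 * y₁ = (y₁ + y₂) + (y₁ - y₂) := by ring
      rw [this]
      exact T.lt1_add v hS (lt_of_le_of_lt hY hτ)
    rw [map_mul, h2, one_mul] at hy2
    have hprod : v (x₁ - e₁) * v (x₁ - e₂) * v (x₁ - e₃) < 1 := by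
      rw [← map_mul, ← map_mul, ← c₁, map_pow]
      exact pow_lt_one₀ (T.v_nonneg v _) hy2 two_ne_zero
    have hXl : v (x₂ - x₁) < 1 := by
      rw [T.v_sub_comm]; exact lt_of_le_of_lt hX hτ
    have hQ : v (x₁ * x₁ + x₁ * x₂ + x₂ * x₂ - (e₁ + e₂ + e₃) * (x₁ + x₂) +
        (e₁ * e₂ + e₁ * e₃ + e₂ * e₃)) = 1 := by
      have hclose : ∀ e : L, v (x₁ - e) < 1 → v (x₂ - e) < 1 := by
        intro e he
        have : x₂ - e = (x₂ - x₁) + (x₁ - e) := by ring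
        rw [this]
        exact T.lt1_add v hXl he
      by_cases g1 : v (x₁ - e₁) < 1
      · exact Ell.unit_Q v h12 h13 g1 (hclose _ g1)
      · by_cases g2 : v (x₁ - e₂) < 1
        · have := Ell.unit_Q v (by rw [T.v_sub_comm]; exact h12) h23 g2
            (hclose _ g2)
          rw [← this]
          congr 1
          ring
        · by_cases g3 : v (x₁ - e₃) < 1
          · have := Ell.unit_Q v (by rw [T.v_sub_comm]; exact h13)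
              (by rw [T.v_sub_comm]; exact h23) g3 (hclose _ g3)
            rw [← this]
            congr 1
            ring
          · exfalso
            push Not at g1 g2 g3
            have := one_le_mul_of_one_le_of_one_le (one_le_mul_of_one_le_of_one_le g1 g2) g3
            linarith
    have hfac : (y₁ - y₂) * (y₁ + y₂) = (x₁ - x₂) * (x₁ * x₁ + x₁ * x₂ + x₂ * x₂ -
        (e₁ + e₂ + e₃) * (x₁ + x₂) + (e₁ * e₂ + e₁ * e₃ + e₂ * e₃)) := by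
      linear_combination c₁ - c₂
    have hval := congrArg v hfac
    rw [map_mul, map_mul, hQ, mul_one] at hval
    have hY0 : 0 < v (y₁ - y₂) := by
      rcases (T.v_nonneg v (y₁ - y₂)).lt_or_eq with h | h
      · exact h
      · rw [← h, zero_mul] at hval
        linarith
    rw [map_div₀, ← hval]
    have hS0 : v (y₁ + y₂) ≠ 0 := by
      intro h
      rw [h, mul_zero] at hval
      linarith
    have : v (y₁ + y₂) / (v (y₁ - y₂) * v (y₁ + y₂)) = (v (y₁ - y₂))⁻¹ := by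
      field_simp
    rw [this]
    exact inv_anti₀ hY0 hY
  · -- `y₁ + y₂` is a unit (or large)
    push Not at hS
    rw [map_div₀]
    calc τ⁻¹ ≤ (v (x₁ - x₂))⁻¹ := inv_anti₀ hXp hX
      _ = 1 / v (x₁ - x₂) := (one_div _).symm
      _ ≤ v (y₁ + y₂) / v (x₁ - x₂) := by
          apply div_le_div_of_nonneg_right hS hXp.le

theorem psi_inf {L : Type} [Field L] [NumberField L] [DecidableEq L] (v : FinitePlace L)
    {e₁ e₂ e₃ x₁ y₁ x₂ y₂ : L} {τ : ℝ}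
    (h₁ : (WE e₁ e₂ e₃).toAffine.Nonsingular x₁ y₁)
    (h₂ : (WE e₁ e₂ e₃).toAffine.Nonsingular x₂ y₂) (h2 : v (2 : L) = 1)
    (he₁ : v e₁ ≤ 1) (he₂ : v e₂ ≤ 1) (he₃ : v e₃ ≤ 1) (hx : x₁ ≠ x₂)
    (hτ0 : 0 < τ) (hτ : τ < 1) (hx₁ : τ⁻¹ ≤ v x₁) (hx₂ : τ⁻¹ ≤ v x₂) :
    -Real.log τ ≤ psi v (WeierstrassCurve.Affine.Point.some x₁ y₁ h₁ -
      WeierstrassCurve.Affine.Point.some x₂ y₂ h₂) := by
  have c₁ := Ell.curve_eq h₁
  have c₂ := Ell.curve_eq h₂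
  have hX0 : x₁ - x₂ ≠ 0 := sub_ne_zero.mpr hx
  have hXp : 0 < v (x₁ - x₂) := T.v_pos v hX0
  apply Ell.psi_ge_of v h₁ h₂ hx hτ0
  have hτ1 : 1 < τ⁻¹ := (one_lt_inv₀ hτ0).mpr hτ
  have ha1 : 1 < v x₁ := lt_of_lt_of_le hτ1 hx₁
  have hb1 : 1 < v x₂ := lt_of_lt_of_le hτ1 hx₂
  obtain ⟨s1, hs1⟩ : ∃ s, s = e₁ + e₂ + e₃ := ⟨_, rfl⟩
  obtain ⟨s2, hs2⟩ : ∃ s, s = e₁ * e₂ + e₁ * e₃ + e₂ * e₃ := ⟨_, rfl⟩
  obtain ⟨s3, hs3⟩ : ∃ s, s = e₁ * e₂ * e₃ := ⟨_, rfl⟩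
  have vs1 : v s1 ≤ 1 := by rw [hs1]; exact T.le1_add v (T.le1_add v he₁ he₂) he₃
  have vs2 : v s2 ≤ 1 := by
    rw [hs2]
    exact T.le1_add v (T.le1_add v (T.le1_mul v he₁ he₂) (T.le1_mul v he₁ he₃))
      (T.le1_mul v he₂ he₃)
  have vs3 : v s3 ≤ 1 := by rw [hs3]; exact T.le1_mul v (T.le1_mul v he₁ he₂) he₃
  have d₁ : y₁ ^ 2 = x₁ ^ 3 - s1 * x₁ ^ 2 + s2 * x₁ - s3 := by
    rw [hs1, hs2, hs3]; linear_combination c₁
  have d₂ : y₂ ^ 2 = x₂ ^ 3 - s1 * x₂ ^ 2 + s2 * x₂ - s3 := by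
    rw [hs1, hs2, hs3]; linear_combination c₂
  rw [← hs1]
  obtain ⟨M, hM⟩ : ∃ M, M = x₁ * x₂ * (x₁ + x₂) - 2 * s1 * (x₁ * x₂) + s2 * (x₁ + x₂) -
    2 * s3 := ⟨_, rfl⟩
  have hz : (((y₁ + y₂) / (x₁ - x₂)) ^ 2 + s1 - x₁ - x₂) * (x₁ - x₂) ^ 2 =
      M + 2 * (y₁ * y₂) := by
    have e1 : (((y₁ + y₂) / (x₁ - x₂)) ^ 2 + s1 - x₁ - x₂) * (x₁ - x₂) ^ 2 =
        (y₁ + y₂) ^ 2 + (s1 - x₁ - x₂) * (x₁ - x₂) ^ 2 := by
      field_simp
      ring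
    rw [e1, hM]
    linear_combination d₁ + d₂
  have hfac : (M + 2 * (y₁ * y₂)) * (M - 2 * (y₁ * y₂)) = (x₁ - x₂) ^ 2 *
      ((x₁ * x₂ - s2) ^ 2 + 4 * s3 * (x₁ + x₂ - s1)) := by
    have e1 : (M + 2 * (y₁ * y₂)) * (M - 2 * (y₁ * y₂)) = M ^ 2 - 4 * (y₁ ^ 2 * y₂ ^ 2) := by
      ring
    rw [e1, d₁, d₂, hM]
    ring
  -- absolute values
  obtain ⟨a, ha⟩ : ∃ a, a = v x₁ := ⟨_, rfl⟩
  obtain ⟨b, hb⟩ : ∃ b, b = v x₂ := ⟨_, rfl⟩
  obtain ⟨c, hc⟩ : ∃ c, c = max a b := ⟨_, rfl⟩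
  rw [← ha] at hx₁ ha1
  rw [← hb] at hx₂ hb1
  have hac : a ≤ c := hc ▸ le_max_left _ _
  have hbc : b ≤ c := hc ▸ le_max_right _ _
  have hc1 : 1 < c := lt_of_lt_of_le ha1 hac
  have hab1 : 1 < a * b := one_lt_mul_of_lt_of_le ha1 hb1.le
  have hcab : c ≤ a * b := by
    rw [hc]
    exact max_le (le_mul_of_one_le_right (by linarith) hb1.le)
      (le_mul_of_one_le_left (by linarith) ha1.le)
  have hcτ : τ⁻¹ * c ≤ a * b := by
    rcases le_total a b with h | h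
    · have : c = b := by rw [hc]; exact max_eq_right h
      rw [this]
      exact mul_le_mul_of_nonneg_right hx₁ (by linarith)
    · have : c = a := by rw [hc]; exact max_eq_left h
      rw [this, mul_comm a b]
      exact mul_le_mul_of_nonneg_right hx₂ (by linarith)
  have h4 : v (4 : L) = 1 := by
    have : (4 : L) = 2 * 2 := by norm_num
    rw [this, map_mul, h2, one_mul]
  have vxx : v (x₁ * x₂) = a * b := by rw [map_mul, ← ha, ← hb]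
  have vsum : v (x₁ + x₂) ≤ c := by
    have := T.v_add_le v x₁ x₂
    rwa [← ha, ← hb, ← hc] at this
  have hbig : v ((x₁ * x₂ - s2) ^ 2 + 4 * s3 * (x₁ + x₂ - s1)) = (a * b) ^ 2 := by
    have e1 : v (x₁ * x₂ - s2) = a * b := by
      rw [T.v_sub_eq v (by rw [vxx]; linarith), vxx]
    have e2 : v ((x₁ * x₂ - s2) ^ 2) = (a * b) ^ 2 := by rw [map_pow, e1]
    rw [T.v_add_eq v, e2]
    rw [e2]
    have e3 : v (x₁ + x₂ - s1) ≤ c :=
      (T.v_sub_le v _ _).trans (max_le vsum (by linarith))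
    rw [map_mul, map_mul, h4, one_mul]
    calc v s3 * v (x₁ + x₂ - s1) ≤ 1 * c :=
          mul_le_mul vs3 e3 (T.v_nonneg v _) zero_le_one
      _ = c := one_mul _
      _ ≤ a * b := hcab
      _ < (a * b) ^ 2 := lt_self_pow₀ hab1 (by norm_num)
  have habc : a * b ≤ a * b * c := le_mul_of_one_le_right (by linarith) hc1.le
  have vM : v M ≤ a * b * c := by
    rw [hM]
    refine (T.v_sub_le v _ _).trans (max_le ((T.v_add_le v _ _).trans (max_le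
      ((T.v_sub_le v _ _).trans (max_le ?_ ?_)) ?_)) ?_)
    · rw [map_mul, vxx]
      exact mul_le_mul_of_nonneg_left vsum (by linarith)
    · rw [map_mul, map_mul, h2, one_mul, vxx]
      calc v s1 * (a * b) ≤ 1 * (a * b) := mul_le_mul_of_nonneg_right vs1 (by linarith)
        _ ≤ a * b * c := by rw [one_mul]; exact habc
    · rw [map_mul]
      calc v s2 * v (x₁ + x₂) ≤ 1 * c := mul_le_mul vs2 vsum (T.v_nonneg v _) zero_le_one
        _ ≤ a * b * c := by rw [one_mul]; linarith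
    · rw [map_mul, h2, one_mul]
      linarith
  have vy : ∀ x y : L, 1 < v x → y ^ 2 = x ^ 3 - s1 * x ^ 2 + s2 * x - s3 →
      v y ^ 2 = v x ^ 3 := by
    intro x y hvx hy
    rw [← map_pow, hy]
    have e1 : x ^ 3 - s1 * x ^ 2 + s2 * x - s3 = x ^ 3 + (-(s1 * x ^ 2) + s2 * x - s3) := by
      ring
    have e2 : v x ^ 2 < v x ^ 3 := pow_lt_pow_right₀ hvx (by norm_num)
    have e3 : v (-(s1 * x ^ 2) + s2 * x - s3) ≤ v x ^ 2 := by
      refine (T.v_sub_le v _ _).trans (max_le ((T.v_add_le v _ _).trans (max_le ?_ ?_)) ?_)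
      · rw [T.v_neg, map_mul, map_pow]
        calc v s1 * v x ^ 2 ≤ 1 * v x ^ 2 := mul_le_mul_of_nonneg_right vs1 (by positivity)
          _ = v x ^ 2 := one_mul _
      · rw [map_mul]
        calc v s2 * v x ≤ 1 * v x := mul_le_mul_of_nonneg_right vs2 (by linarith)
          _ ≤ v x ^ 2 := by rw [one_mul]; exact le_self_pow₀ hvx.le two_ne_zero
      · exact vs3.trans (one_le_pow₀ hvx.le)
    rw [e1, T.v_add_eq v, map_pow]
    rw [map_pow]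
    linarith
  have vy1 := vy x₁ y₁ (by rw [← ha]; exact ha1) d₁
  have vy2 := vy x₂ y₂ (by rw [← hb]; exact hb1) d₂
  rw [← ha] at vy1
  rw [← hb] at vy2
  have vyy : v (2 * (y₁ * y₂)) ≤ a * b * c := by
    rw [map_mul, h2, one_mul, map_mul]
    apply le_of_sq_le_sq
    · have e1 : (v y₁ * v y₂) ^ 2 = a ^ 3 * b ^ 3 := by rw [mul_pow, vy1, vy2]
      rw [e1]
      have e2 : a * b ≤ c ^ 2 := by
        rw [pow_two]
        exact mul_le_mul hac hbc (by linarith) (by linarith)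
      calc a ^ 3 * b ^ 3 = (a * b) ^ 2 * (a * b) := by ring
        _ ≤ (a * b) ^ 2 * c ^ 2 := mul_le_mul_of_nonneg_left e2 (by positivity)
        _ = (a * b * c) ^ 2 := by ring
    · exact le_trans (by linarith) habc
  have vminus : v (M - 2 * (y₁ * y₂)) ≤ a * b * c :=
    (T.v_sub_le v _ _).trans (max_le vM vyy)
  have hval := congrArg v hfac
  rw [map_mul, map_mul, map_pow, hbig] at hval
  have h5 : v (x₁ - x₂) ^ 2 * (a * b) ^ 2 ≤ v (M + 2 * (y₁ * y₂)) * (a * b * c) := by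
    rw [← hval]
    exact mul_le_mul_of_nonneg_left vminus (T.v_nonneg v _)
  have hab0 : 0 < a * b := by linarith
  have hc0 : 0 < c := by linarith
  have h6 : v (x₁ - x₂) ^ 2 * (a * b) ≤ v (M + 2 * (y₁ * y₂)) * c := by
    have : (a * b) * (v (x₁ - x₂) ^ 2 * (a * b)) ≤ (a * b) * (v (M + 2 * (y₁ * y₂)) * c) := by
      calc (a * b) * (v (x₁ - x₂) ^ 2 * (a * b)) = v (x₁ - x₂) ^ 2 * (a * b) ^ 2 := by ring
        _ ≤ v (M + 2 * (y₁ * y₂)) * (a * b * c) := h5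
        _ = _ := by ring
    exact le_of_mul_le_mul_left this hab0
  have h7 : τ⁻¹ * v (x₁ - x₂) ^ 2 ≤ v (M + 2 * (y₁ * y₂)) := by
    have : c * (τ⁻¹ * v (x₁ - x₂) ^ 2) ≤ c * v (M + 2 * (y₁ * y₂)) := by
      calc c * (τ⁻¹ * v (x₁ - x₂) ^ 2) = v (x₁ - x₂) ^ 2 * (τ⁻¹ * c) := by ring
        _ ≤ v (x₁ - x₂) ^ 2 * (a * b) := mul_le_mul_of_nonneg_left hcτ (by positivity)
        _ ≤ v (M + 2 * (y₁ * y₂)) * c := h6
        _ = _ := by ring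
    exact le_of_mul_le_mul_left this hc0
  have h8 := congrArg v hz
  rw [map_mul, map_pow] at h8
  rw [← h8] at h7
  exact le_of_mul_le_mul_right h7 (by positivity)

end Pool.Agent.MP90787a.G
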