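import Pool.Agent.Lib.MP_90787a_nt.G.Defs

set_option autoImplicit false

/-!
Expanding reduction, in explicit form.
-/

namespace Pool.Agent.MP90787a.G

open Polynomial NumberField Height Pool.Agent.UBC90787a

/-- Expanding reduction with exponents `m`, `b`: there are an escape disc `D` (centre `t`, radius
`r`) and a real number `σ > 1` with `|a| r ^ (d - 1) ≤ σ ^ b` such that for every `x` of `K` with
`x ∈ D` and `f x ∈ D`
* `|f' x|` is one of `σ, σ ^ 2, …`;
* the Taylor coefficients `c n` of `f` at `x` satisfy `|c n| r ^ (n - 1) < |f' x| ^ n` for `n ≥ 2`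
  (so that `f` maps the disc with centre `x` and radius `r / |f' x|` bijectively onto `D`);
* if `y` is a point of `K` with `y ∈ D`, `f y ∈ D` and `|x - y| > r / |f' x|`, then `|x - y|` is
  one of `r, r σ ^ (-1), r σ ^ (-2), …`;
and such that the quotient of two elements of `K` with absolute values in `r σ ^ ℤ` has the
absolute value of an `m`-th power. -/
def Exp {K : Type} [Field K] (u : K → ℝ) (m b : ℕ) (f : K[X]) : Prop :=
  ∃ (t : K) (r σ : ℝ), EscapeDisc u f t r ∧ 1 < σ ∧
    u f.leadingCoeff * r ^ (f.natDegree - 1) ≤ σ ^ b ∧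
    (∀ x : K, u (x - t) ≤ r → u (f.eval x - t) ≤ r →
      (∃ i : ℕ, 1 ≤ i ∧ u (f.derivative.eval x) = σ ^ i) ∧
      (∀ n : ℕ, 2 ≤ n →
        u ((conjPoly f 1 x).coeff n) * r ^ (n - 1) < u (f.derivative.eval x) ^ n) ∧
      ∀ y : K, u (y - t) ≤ r → u (f.eval y - t) ≤ r → r < u (x - y) * u (f.derivative.eval x) →
        ∃ j : ℕ, u (x - y) * σ ^ j = r) ∧
    ∀ (z w : K) (i j : ℤ), u z = r * σ ^ i → u w = r * σ ^ j → ∃ e : K, u z = u w * u e ^ m

/-- `f` has potentially good or expanding reduction at all finite places outside `S`. -/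
def NiceE {K : Type} [Field K] [NumberField K] (S : Finset (FinitePlace K)) (m b : ℕ)
    (f : K[X]) : Prop :=
  ∀ v : FinitePlace K, v ∉ S → Good v f ∨ Exp v m b f

end Pool.Agent.MP90787a.G
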