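import Pool.Agent.Lib.MP_90787a_nt.G.LocSimple

set_option autoImplicit false

/-!
Tree structure of a set of points with two scaling factors.
-/

namespace Pool.Agent.MP90787a.G

open Polynomial NumberField Height Pool.Agent.UBC90787a

namespace TwoScale

open LocSimple

/-- Distances, from an expanding map. -/
lemma dist_aux {K : Type} {D : K → K → ℝ} {P : Set K} {φ : K → K} {r s : ℝ} (hs : 1 < s)
    (hφ : ∀ x ∈ P, φ x ∈ P) (h0 : ∀ x y, D x y = 0 → x = y) (h00 : ∀ x, D x x = 0)
    (hpos : ∀ x y, 0 ≤ D x y)
    (hle : ∀ x ∈ P, ∀ y ∈ P, D x y ≤ r)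
    (hstep : ∀ x ∈ P, ∀ y ∈ P, D x y < r → (∃ n : ℕ, D x y * s ^ n = r) ∨
      ∃ m : ℕ, D (φ x) (φ y) = s ^ (m + 1) * D x y)
    (x : K) (hx : x ∈ P) (y : K) (hy : y ∈ P) (hne : x ≠ y) :
    ∃ n : ℕ, D x y * s ^ n = r := by
  have hs0 : 0 < s := by linarith
  have key : ∀ N : ℕ, ∀ x ∈ P, ∀ y ∈ P, x ≠ y → r ≤ D x y * s ^ N →
      ∃ n : ℕ, D x y * s ^ n = r := by
    intro N
    induction N with
    | zero =>
      intro x hx y hy _ h
      refine ⟨0, le_antisymm ?_ h⟩
      rw [pow_zero, mul_one]
      exact hle x hx y hy
    | succ N ih =>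
      intro x hx y hy hne h
      rcases (hle x hx y hy).lt_or_eq with hlt | heq
      · rcases hstep x hx y hy hlt with h1 | ⟨m, hm⟩
        · exact h1
        · have hD : 0 < D x y := lt_of_le_of_ne (hpos x y) fun h => hne (h0 x y h.symm)
          have hD' : 0 < D (φ x) (φ y) := by rw [hm]; positivity
          have hne' : φ x ≠ φ y := by
            intro h1
            rw [h1, h00] at hD'
            exact lt_irrefl _ hD'
          obtain ⟨n', hn'⟩ := ih (φ x) (hφ x hx) (φ y) (hφ y hy) hne' (by
            rw [hm]
            have h2 : s ^ (N + 1) ≤ s ^ (m + 1) * s ^ N := by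
              rw [← pow_add]
              exact pow_le_pow_right₀ hs.le (by omega)
            calc r ≤ D x y * s ^ (N + 1) := h
              _ ≤ D x y * (s ^ (m + 1) * s ^ N) := mul_le_mul_of_nonneg_left h2 hD.le
              _ = s ^ (m + 1) * D x y * s ^ N := by ring)
          refine ⟨n' + (m + 1), ?_⟩
          rw [hm] at hn'
          rw [← hn', pow_add]
          ring
      · exact ⟨0, by rw [pow_zero, mul_one, heq]⟩
  have hD : 0 < D x y := lt_of_le_of_ne (hpos x y) fun h => hne (h0 x y h.symm)
  obtain ⟨N, hN⟩ := pow_unbounded_of_one_lt (r / D x y) hs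
  refine key N x hx y hy hne ?_
  rw [div_lt_iff₀ hD] at hN
  linarith

end TwoScale

open TwoScale LocSimple in
theorem two_scale {K : Type} [Field K] [NumberField K] (u : FinitePlace K) {P A B : Set K}
    {φ : K → K} {r : ℝ} {d e : ℕ} (hd : e + 2 ≤ d) (hr : 1 < r) (hP : P = A ∪ B)
    (hφ : ∀ x ∈ P, φ x ∈ P) (hle : ∀ x ∈ P, ∀ y ∈ P, u (x - y) ≤ r)
    (hAB : ∀ x ∈ A, ∀ y ∈ B, u (x - y) = r) (hB : ∀ x ∈ B, ∀ y ∈ B, u (x - y) ≤ 1)
    (hsA : ∀ x ∈ A, ∀ y ∈ A, u (x - y) < r → u (φ x - φ y) = r ^ (d - 1) * u (x - y))
    (hsB : ∀ x ∈ B, ∀ y ∈ B, u (x - y) < 1 → u (φ x - φ y) = r ^ (d - e) * u (x - y))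
    (cA : K → Fin d) (hcA : ∀ x ∈ P, ∀ y ∈ P, cA x = cA y → u (x - y) < r)
    (cB : K → Fin d) (hcB : ∀ x ∈ B, ∀ y ∈ B, cB x = cB y → u (x - y) < 1) :
    Tree u P r r d ∧ (A = ∅ → Tree u P 1 (r ^ (d - e)) d) := by
  have hr0 : 0 < r := by linarith
  have hpos : ∀ x : K, 0 ≤ u x := fun x => apply_nonneg u x
  have hz : ∀ x y : K, u (x - y) = 0 → x = y := fun x y h =>
    sub_eq_zero.mp ((map_eq_zero u).mp h)
  have hzz : ∀ x : K, u (x - x) = 0 := fun x => by rw [sub_self, map_zero]
  obtain ⟨m, hm⟩ : ∃ m, d - 1 = m + 1 := ⟨d - 2, by omega⟩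
  obtain ⟨l, hl⟩ : ∃ l, d - e = l + 1 + 1 := ⟨d - e - 2, by omega⟩
  have hmemA : ∀ x ∈ A, x ∈ P := fun x hx => by rw [hP]; exact Or.inl hx
  have hmemB : ∀ x ∈ B, x ∈ P := fun x hx => by rw [hP]; exact Or.inr hx
  have hor : ∀ x ∈ P, x ∈ A ∨ x ∈ B := fun x hx => by rw [hP] at hx; exact hx
  have hAB' : ∀ x ∈ B, ∀ y ∈ A, u (x - y) = r := fun x hx y hy => by
    rw [pl_sub_comm]; exact hAB y hy x hx
  -- closeness forces the same type
  have hclA : ∀ p ∈ A, ∀ t ∈ P, u (t - p) < r → t ∈ A := by
    intro p hp t ht h
    rcases hor t ht with h1 | h1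
    · exact h1
    · rw [hAB' t h1 p hp] at h
      exact absurd h (lt_irrefl _)
  have hclB : ∀ p ∈ B, ∀ t ∈ P, u (t - p) < r → t ∈ B := by
    intro p hp t ht h
    rcases hor t ht with h1 | h1
    · rw [hAB t h1 p hp] at h
      exact absurd h (lt_irrefl _)
    · exact h1
  have htri : ∀ (t t' p : K) (X : ℝ), u (t - p) ≤ X → u (t' - p) ≤ X → u (t - t') ≤ X := by
    intro t t' p X h h'
    have := pl_tri (u := u) t p t'
    rw [pl_sub_comm p t'] at this
    exact this.trans (max_le h h')
  have htri' : ∀ (t t' p : K) (X Y : ℝ), 0 < Y → u (t - p) * Y ≤ X → u (t' - p) * Y ≤ X →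
      u (t - t') * Y ≤ X := by
    intro t t' p X Y hY h h'
    rw [← le_div_iff₀ hY] at h h' ⊢
    exact htri t t' p _ h h'
  -- the constant class function
  have hconst : ∀ (x X : ℝ) (k n : ℕ), 0 ≤ x → 0 < X → k < n → x * r ^ n ≤ X →
      x * r ^ k < X := by
    intro x X k n hx hX hkn h
    rcases hx.lt_or_eq with h1 | h1
    · have h2 : r ^ k < r ^ n := pow_lt_pow_right₀ hr hkn
      calc x * r ^ k < x * r ^ n := mul_lt_mul_of_pos_left h2 h1
        _ ≤ X := h
    · rw [← h1, zero_mul]
      exact hX
  have h1r : ∀ (x : ℝ) (k : ℕ), x * r ^ (k + 1) ≤ r → x * r ^ k ≤ 1 := by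
    intro x k h
    rw [pow_succ, ← mul_assoc] at h
    by_contra hcon
    push Not at hcon
    nlinarith
  constructor
  · refine ⟨hr0, hr, ?_, ?_⟩
    · refine dist_aux (D := fun x y => u (x - y)) (φ := φ) hr hφ hz hzz (fun x y => hpos _) hle ?_
      intro x hx y hy hlt
      rcases hor x hx with hxA | hxB
      · rcases hor y hy with hyA | hyB
        · right
          refine ⟨m, ?_⟩
          rw [← hm]
          exact hsA x hxA y hyA hlt
        · exact absurd (hAB x hxA y hyB) hlt.ne
      · rcases hor y hy with hyA | hyB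
        · exact absurd (hAB' x hxB y hyA) hlt.ne
        · rcases (hB x hxB y hyB).lt_or_eq with h1 | h1
          · right
            refine ⟨l + 1, ?_⟩
            rw [← hl]
            exact hsB x hxB y hyB h1
          · left
            refine ⟨1, ?_⟩
            rw [h1, one_mul, pow_one]
    · -- branching
      have key : ∀ k : ℕ, ∀ p ∈ P, ∃ c : K → Fin d, ∀ t ∈ P, ∀ t' ∈ P,
          u (t - p) * r ^ k ≤ r → u (t' - p) * r ^ k ≤ r → c t = c t' →
          u (t - t') * r ^ k < r := by
        intro k
        induction k using Nat.strong_induction_on with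
        | _ k ih =>
          intro p hp
          rcases Nat.eq_zero_or_pos k with rfl | hk
          · refine ⟨cA, fun t ht t' ht' _ _ hc => ?_⟩
            rw [pow_zero, mul_one]
            exact hcA t ht t' ht' hc
          · obtain ⟨k, rfl⟩ : ∃ k', k = k' + 1 := ⟨k - 1, by omega⟩
            have hlt1 : ∀ t, u (t - p) * r ^ (k + 1) ≤ r → u (t - p) < r := by
              intro t ht
              have h2 := h1r _ _ ht
              have h3 : u (t - p) ≤ u (t - p) * r ^ k :=
                le_mul_of_one_le_right (hpos _) (one_le_pow₀ hr.le)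
              linarith
            rcases hor p hp with hpA | hpB
            · by_cases hkd : k + 1 < d - 1
              · -- constant
                refine ⟨fun _ => ⟨0, by omega⟩, fun t ht t' ht' h h' _ => ?_⟩
                have htA := hclA p hpA t ht (hlt1 t h)
                have htA' := hclA p hpA t' ht' (hlt1 t' h')
                have h4 : u (t - t') * r ^ (k + 1) ≤ r :=
                  htri' t t' p r _ (by positivity) h h'
                have h5 : u (t - t') < r := by
                  have h2 := h1r _ _ h4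
                  have h3 : u (t - t') ≤ u (t - t') * r ^ k :=
                    le_mul_of_one_le_right (hpos _) (one_le_pow₀ hr.le)
                  linarith
                have h6 := hsA t htA t' htA' h5
                have h7 := hle _ (hφ t ht) _ (hφ t' ht')
                rw [h6, mul_comm] at h7
                exact hconst _ _ _ _ (hpos _) hr0 hkd h7
              · obtain ⟨j, hj⟩ : ∃ j, k + 1 = j + (d - 1) := ⟨k + 1 - (d - 1), by omega⟩
                obtain ⟨c, hc⟩ := ih j (by omega) (φ p) (hφ p hp)
                have htr : ∀ t ∈ P, u (t - p) * r ^ (k + 1) ≤ r →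
                    u (φ t - φ p) * r ^ j ≤ r := by
                  intro t ht h
                  rw [hsA t (hclA p hpA t ht (hlt1 t h)) p hpA (hlt1 t h)]
                  calc r ^ (d - 1) * u (t - p) * r ^ j = u (t - p) * r ^ (j + (d - 1)) := by
                        rw [pow_add]; ring
                    _ = u (t - p) * r ^ (k + 1) := by rw [hj]
                    _ ≤ r := h
                refine ⟨fun t => c (φ t), fun t ht t' ht' h h' hcc => ?_⟩
                have htA := hclA p hpA t ht (hlt1 t h)
                have htA' := hclA p hpA t' ht' (hlt1 t' h')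
                have h4 : u (t - t') * r ^ (k + 1) ≤ r :=
                  htri' t t' p r _ (by positivity) h h'
                have h5 : u (t - t') < r := by
                  have h2 := h1r _ _ h4
                  have h3 : u (t - t') ≤ u (t - t') * r ^ k :=
                    le_mul_of_one_le_right (hpos _) (one_le_pow₀ hr.le)
                  linarith
                have h6 := hc (φ t) (hφ t ht) (φ t') (hφ t' ht') (htr t ht h) (htr t' ht' h') hcc
                rw [hsA t htA t' htA' h5] at h6
                calc u (t - t') * r ^ (k + 1) = u (t - t') * r ^ (j + (d - 1)) := by rw [hj]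
                  _ = r ^ (d - 1) * u (t - t') * r ^ j := by rw [pow_add]; ring
                  _ < r := h6
            · rcases Nat.eq_zero_or_pos k with rfl | hk0
              · refine ⟨cB, fun t ht t' ht' h h' hcc => ?_⟩
                have htB := hclB p hpB t ht (hlt1 t h)
                have htB' := hclB p hpB t' ht' (hlt1 t' h')
                have h6 := hcB t htB t' htB' hcc
                rw [zero_add, pow_one]
                nlinarith
              · have hlt2 : ∀ x : ℝ, 0 ≤ x → x * r ^ (k + 1) ≤ r → x < 1 := by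
                  intro x hx h
                  have h2 := h1r _ _ h
                  have h3 : x * r ^ 0 < 1 := hconst x 1 0 k hx one_pos hk0 h2
                  rwa [pow_zero, mul_one] at h3
                by_cases hkd : k + 1 < d - e
                · refine ⟨fun _ => ⟨0, by omega⟩, fun t ht t' ht' h h' _ => ?_⟩
                  have htB := hclB p hpB t ht (hlt1 t h)
                  have htB' := hclB p hpB t' ht' (hlt1 t' h')
                  have h4 : u (t - t') * r ^ (k + 1) ≤ r :=
                    htri' t t' p r _ (by positivity) h h'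
                  have h6 := hsB t htB t' htB' (hlt2 _ (hpos _) h4)
                  have h7 := hle _ (hφ t ht) _ (hφ t' ht')
                  rw [h6, mul_comm] at h7
                  exact hconst _ _ _ _ (hpos _) hr0 hkd h7
                · obtain ⟨j, hj⟩ : ∃ j, k + 1 = j + (d - e) := ⟨k + 1 - (d - e), by omega⟩
                  obtain ⟨c, hc⟩ := ih j (by omega) (φ p) (hφ p hp)
                  have htr : ∀ t ∈ P, u (t - p) * r ^ (k + 1) ≤ r →
                      u (φ t - φ p) * r ^ j ≤ r := by
                    intro t ht h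
                    rw [hsB t (hclB p hpB t ht (hlt1 t h)) p hpB (hlt2 _ (hpos _) h)]
                    calc r ^ (d - e) * u (t - p) * r ^ j = u (t - p) * r ^ (j + (d - e)) := by
                          rw [pow_add]; ring
                      _ = u (t - p) * r ^ (k + 1) := by rw [hj]
                      _ ≤ r := h
                  refine ⟨fun t => c (φ t), fun t ht t' ht' h h' hcc => ?_⟩
                  have htB := hclB p hpB t ht (hlt1 t h)
                  have htB' := hclB p hpB t' ht' (hlt1 t' h')
                  have h4 : u (t - t') * r ^ (k + 1) ≤ r :=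
                    htri' t t' p r _ (by positivity) h h'
                  have h6 := hc (φ t) (hφ t ht) (φ t') (hφ t' ht') (htr t ht h)
                    (htr t' ht' h') hcc
                  rw [hsB t htB t' htB' (hlt2 _ (hpos _) h4)] at h6
                  calc u (t - t') * r ^ (k + 1) = u (t - t') * r ^ (j + (d - e)) := by rw [hj]
                    _ = r ^ (d - e) * u (t - t') * r ^ j := by rw [pow_add]; ring
                    _ < r := h6
      exact fun p hp k => key k p hp
  · intro hA
    have hPB : P = B := by rw [hP, hA, Set.empty_union]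
    have hρ : 1 < r ^ (d - e) := one_lt_pow₀ hr (by omega)
    have hρ0 : 0 < r ^ (d - e) := by linarith
    refine ⟨one_pos, hρ, ?_, ?_⟩
    · refine dist_aux (D := fun x y => u (x - y)) (φ := φ) hρ hφ hz hzz (fun x y => hpos _) ?_ ?_
      · intro x hx y hy
        rw [hPB] at hx hy
        exact hB x hx y hy
      · intro x hx y hy hlt
        rw [hPB] at hx hy
        right
        refine ⟨0, ?_⟩
        rw [zero_add, pow_one]
        exact hsB x hx y hy hlt
    · have key : ∀ k : ℕ, ∀ p ∈ P, ∃ c : K → Fin d, ∀ t ∈ P, ∀ t' ∈ P,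
          u (t - p) * (r ^ (d - e)) ^ k ≤ 1 → u (t' - p) * (r ^ (d - e)) ^ k ≤ 1 → c t = c t' →
          u (t - t') * (r ^ (d - e)) ^ k < 1 := by
        intro k
        induction k with
        | zero =>
          intro p hp
          refine ⟨cB, fun t ht t' ht' _ _ hcc => ?_⟩
          rw [hPB] at ht ht'
          rw [pow_zero, mul_one]
          exact hcB t ht t' ht' hcc
        | succ k ih =>
          intro p hp
          obtain ⟨c, hc⟩ := ih (φ p) (hφ p hp)
          have hlt : ∀ x : ℝ, 0 ≤ x → x * (r ^ (d - e)) ^ (k + 1) ≤ 1 → x < 1 := by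
            intro x hx h
            have h2 : 1 < (r ^ (d - e)) ^ (k + 1) := one_lt_pow₀ hρ (by omega)
            by_contra hcon
            push Not at hcon
            nlinarith
          refine ⟨fun t => c (φ t), fun t ht t' ht' h h' hcc => ?_⟩
          have h4 : u (t - t') * (r ^ (d - e)) ^ (k + 1) ≤ 1 :=
            htri' t t' p 1 _ (by positivity) h h'
          have htB : t ∈ B := hPB ▸ ht
          have htB' : t' ∈ B := hPB ▸ ht'
          have hpB : p ∈ B := hPB ▸ hp
          have htr : ∀ t ∈ B, u (t - p) * (r ^ (d - e)) ^ (k + 1) ≤ 1 →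
              u (φ t - φ p) * (r ^ (d - e)) ^ k ≤ 1 := by
            intro t ht h
            rw [hsB t ht p hpB (hlt _ (hpos _) h)]
            calc r ^ (d - e) * u (t - p) * (r ^ (d - e)) ^ k
                = u (t - p) * (r ^ (d - e)) ^ (k + 1) := by rw [pow_succ]; ring
              _ ≤ 1 := h
          have h6 := hc (φ t) (hφ t ht) (φ t') (hφ t' ht') (htr t htB h) (htr t' htB' h') hcc
          rw [hsB t htB t' htB' (hlt _ (hpos _) h4)] at h6
          calc u (t - t') * (r ^ (d - e)) ^ (k + 1)
              = r ^ (d - e) * u (t - t') * (r ^ (d - e)) ^ k := by rw [pow_succ]; ring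
            _ < 1 := h6
      exact fun p hp k => key k p hp

end Pool.Agent.MP90787a.G
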