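import Pool.Agent.Lib.MP_90787a_nt.G.Exp
import Pool.Agent.Lib.MP_90787a_nt.G.LocSimple
import Pool.Agent.Lib.MP_90787a_nt.G.TwoScale

set_option autoImplicit false

/-!
Tree structure of the preperiodic points at a place of (explicit) expanding reduction.
-/

namespace Pool.Agent.MP90787a.G

open Polynomial NumberField Height Pool.Agent.UBC90787a

namespace ExpTree

open LocSimple

variable {K : Type} [Field K] [NumberField K] {u : FinitePlace K}

/-- Differences of powers. -/
lemma pow_sub_pow_le {A B : K} {s : ℝ} (hs : 0 ≤ s) (hA : u A ≤ s) (hB : u B ≤ s) (n : ℕ) :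
    u (A ^ (n + 1) - B ^ (n + 1)) ≤ u (A - B) * s ^ n := by
  rw [← (Commute.all A B).mul_geom_sum₂, map_mul]
  refine mul_le_mul_of_nonneg_left ?_ (apply_nonneg u _)
  apply pl_sum_le _ _ (by positivity)
  intro i hi
  rw [Finset.mem_range] at hi
  rw [map_mul, map_pow, map_pow]
  have h1 : u A ^ i ≤ s ^ i := pow_le_pow_left₀ (apply_nonneg u _) hA i
  have h2 : u B ^ (n + 1 - 1 - i) ≤ s ^ (n + 1 - 1 - i) :=
    pow_le_pow_left₀ (apply_nonneg u _) hB _
  calc u A ^ i * u B ^ (n + 1 - 1 - i) ≤ s ^ i * s ^ (n + 1 - 1 - i) :=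
        mul_le_mul h1 h2 (pow_nonneg (apply_nonneg u _) _) (by positivity)
    _ = s ^ n := by
        rw [← pow_add]
        congr 1
        omega

/-- On the disc with centre `p` and radius `r / |f' p|` the map multiplies all distances by
`|f' p|`. -/
lemma expand {f : K[X]} (hd : 2 ≤ f.natDegree) {r : ℝ} (hr : 0 < r) {p : K}
    (hl : 0 < u (f.derivative.eval p))
    (hc : ∀ n : ℕ, 2 ≤ n →
      u ((conjPoly f 1 p).coeff n) * r ^ (n - 1) < u (f.derivative.eval p) ^ n)
    {x y : K} (hx : u (x - p) * u (f.derivative.eval p) ≤ r)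
    (hy : u (y - p) * u (f.derivative.eval p) ≤ r) :
    u (f.eval x - f.eval y) = u (f.derivative.eval p) * u (x - y) := by
  set l : ℝ := u (f.derivative.eval p) with hldef
  set d := f.natDegree with hdd
  rcases eq_or_ne x y with rfl | hne
  · simp
  have hz : 0 < u (x - y) := FinitePlace.pos_iff.mpr (sub_ne_zero.mpr hne)
  have hx' : u (x - p) ≤ r / l := (le_div_iff₀ hl).mpr hx
  have hy' : u (y - p) ≤ r / l := (le_div_iff₀ hl).mpr hy
  have hnat : (taylor p f).natDegree = d := by rw [natDegree_taylor]
  have hev : ∀ z : K, f.eval z = ∑ i ∈ Finset.range (d + 1), (taylor p f).coeff i * (z - p) ^ i := by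
    intro z
    have h2 : (taylor p f).eval (z - p) = f.eval z := by
      rw [taylor_eval, sub_add_cancel]
    rw [← h2, eval_eq_sum_range, hnat]
  have h1' : (taylor p f).coeff 1 = f.derivative.eval p := by rw [taylor_coeff_one]
  obtain ⟨e, he⟩ : ∃ e, d + 1 = e + 1 + 1 := ⟨d - 1, by omega⟩
  have hsplit : f.eval x - f.eval y = f.derivative.eval p * (x - y) +
      ∑ i ∈ Finset.range e, (taylor p f).coeff (i + 1 + 1) *
        ((x - p) ^ (i + 1 + 1) - (y - p) ^ (i + 1 + 1)) := by
    rw [hev x, hev y, he, Finset.sum_range_succ', Finset.sum_range_succ', Finset.sum_range_succ',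
      Finset.sum_range_succ', h1']
    simp only [mul_sub, Finset.sum_sub_distrib]
    ring
  rw [hsplit]
  have hmain : u (f.derivative.eval p * (x - y)) = l * u (x - y) := by
    rw [map_mul]
  have hrest : u (∑ i ∈ Finset.range e, (taylor p f).coeff (i + 1 + 1) *
        ((x - p) ^ (i + 1 + 1) - (y - p) ^ (i + 1 + 1))) <
      u (f.derivative.eval p * (x - y)) := by
    rw [hmain]
    apply pl_sum_lt _ _ (by positivity)
    intro i hi
    have hci : u ((taylor p f).coeff (i + 1 + 1)) * (r / l) ^ (i + 1) < l := by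
      have h3 := hc (i + 1 + 1) (by omega)
      rw [conjPoly_one, coeff_sub, coeff_C, if_neg (by omega), sub_zero] at h3
      have h4 : i + 1 + 1 - 1 = i + 1 := by omega
      rw [h4] at h3
      rw [div_pow, ← mul_div_assoc, div_lt_iff₀ (by positivity)]
      calc _ < l ^ (i + 1 + 1) := h3
        _ = l * l ^ (i + 1) := by ring
    rw [map_mul]
    have h5 := pow_sub_pow_le (u := u) (s := r / l) (by positivity) hx' hy' (i + 1)
    rw [sub_sub_sub_cancel_right] at h5
    calc u ((taylor p f).coeff (i + 1 + 1)) * u ((x - p) ^ (i + 1 + 1) - (y - p) ^ (i + 1 + 1))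
        ≤ u ((taylor p f).coeff (i + 1 + 1)) * (u (x - y) * (r / l) ^ (i + 1)) :=
          mul_le_mul_of_nonneg_left h5 (apply_nonneg u _)
      _ = u ((taylor p f).coeff (i + 1 + 1)) * (r / l) ^ (i + 1) * u (x - y) := by ring
      _ < l * u (x - y) := mul_lt_mul_of_pos_right hci hz
  rw [pl_add_eq hrest, hmain]

/-- The derivative of a product of linear factors. -/
lemma deriv_prod_le (A : Finset K) {s : ℝ} (hs : 0 < s) {p : K} (h : ∀ x ∈ A, u (p - x) ≤ s) :
    u ((derivative (∏ x ∈ A, (X - C x))).eval p) * s ≤ s ^ A.card := by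
  classical
  have hprod : ∀ A : Finset K, (∀ x ∈ A, u (p - x) ≤ s) →
      u ((∏ x ∈ A, (X - C x)).eval p) ≤ s ^ A.card := by
    intro A hA
    rw [eval_prod, map_prod, ← Finset.prod_const]
    refine Finset.prod_le_prod (fun _ _ => apply_nonneg u _) fun x hx => ?_
    simpa using hA x hx
  induction A using Finset.induction_on with
  | empty => simp
  | insert a A ha ih =>
    rw [Finset.prod_insert ha, derivative_mul, eval_add, eval_mul, eval_mul,
      Finset.card_insert_of_notMem ha]
    have hA : ∀ x ∈ A, u (p - x) ≤ s := fun x hx => h x (Finset.mem_insert_of_mem hx)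
    have h1 : u ((derivative (X - C a)).eval p * (∏ x ∈ A, (X - C x)).eval p) * s ≤
        s ^ (A.card + 1) := by
      have e : (derivative (X - C a : K[X])).eval p = 1 := by simp
      rw [e, one_mul, pow_succ]
      exact mul_le_mul_of_nonneg_right (hprod A hA) hs.le
    have h2 : u ((X - C a : K[X]).eval p * (derivative (∏ x ∈ A, (X - C x))).eval p) * s ≤
        s ^ (A.card + 1) := by
      rw [map_mul, pow_succ, mul_comm (s ^ _) s, mul_assoc]
      refine mul_le_mul ?_ (ih hA) (by have := apply_nonneg u; positivity) hs.le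
      simpa using h a (Finset.mem_insert_self a A)
    have h3 := FinitePlace.add_le u ((derivative (X - C a)).eval p * (∏ x ∈ A, (X - C x)).eval p)
      ((X - C a : K[X]).eval p * (derivative (∏ x ∈ A, (X - C x))).eval p)
    rcases le_max_iff.mp h3 with h4 | h4
    · exact (mul_le_mul_of_nonneg_right h4 hs.le).trans h1
    · exact (mul_le_mul_of_nonneg_right h4 hs.le).trans h2

/-- `d + 1` points with all distances equal to `s` in the disc of radius `s` around `p` force
`|f' p| s ≤ r`. -/
lemma lagrange_deriv {f : K[X]} (_hd : 2 ≤ f.natDegree) {r s : ℝ} (hr : 0 < r) (hs : 0 < s)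
    {p : K} (Y : Finset K) (hcard : Y.card = f.natDegree + 1)
    (hp : ∀ x ∈ Y, u (x - p) ≤ s)
    (hY : ∀ x ∈ Y, ∀ y ∈ Y, x ≠ y → s ≤ u (x - y))
    (hf : ∀ x ∈ Y, u (f.eval x - f.eval p) ≤ r) : u (f.derivative.eval p) * s ≤ r := by
  classical
  set g : K[X] := f - C (f.eval p) with hg
  have hgd : g.natDegree = f.natDegree := by rw [hg, natDegree_sub_C]
  have hder : derivative g = derivative f := by rw [hg]; simp
  have hint : g = Lagrange.interpolate Y (fun x : K => x) (fun x => g.eval x) := by
    apply Lagrange.eq_interpolate_of_eval_eq _ (Set.injOn_id _)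
    · rw [hcard]
      refine (degree_le_natDegree).trans_lt ?_
      rw [hgd]
      exact_mod_cast Nat.lt_succ_self _
    · intro i _
      rfl
  have hD : f.derivative.eval p = ∑ x ∈ Y, g.eval x *
      (derivative (Lagrange.basis Y (fun x : K => x) x)).eval p := by
    rw [← hder]
    conv_lhs => rw [hint]
    rw [Lagrange.interpolate_apply, derivative_sum, eval_finsetSum]
    refine Finset.sum_congr rfl fun x _ => ?_
    rw [derivative_C_mul, eval_mul, eval_C]
  have hbasis : ∀ x ∈ Y, u ((derivative (Lagrange.basis Y (fun x : K => x) x)).eval p) * s ≤ 1 := by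
    intro x hx
    have hc : (Y.erase x).card = f.natDegree := by
      rw [Finset.card_erase_of_mem hx, hcard]; rfl
    have e : Lagrange.basis Y (fun x : K => x) x =
        C (∏ y ∈ Y.erase x, (x - y)⁻¹) * ∏ y ∈ Y.erase x, (X - C y) := by
      unfold Lagrange.basis Lagrange.basisDivisor
      rw [Finset.prod_mul_distrib, map_prod]
    rw [e, derivative_C_mul, eval_mul, eval_C, map_mul, map_prod]
    have h1 := deriv_prod_le (u := u) (Y.erase x) hs (p := p) (fun y hy => by
      rw [pl_sub_comm]
      exact hp y (Finset.mem_of_mem_erase hy))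
    have h2 : ∏ y ∈ Y.erase x, u ((x - y)⁻¹) ≤ (s ^ f.natDegree)⁻¹ := by
      rw [← inv_pow, ← hc, ← Finset.prod_const]
      refine Finset.prod_le_prod (fun _ _ => apply_nonneg u _) fun y hy => ?_
      rw [Finset.mem_erase] at hy
      rw [map_inv₀]
      exact inv_anti₀ hs (hY x hx y hy.2 (Ne.symm hy.1))
    rw [hc] at h1
    rw [mul_assoc]
    calc _ ≤ (s ^ f.natDegree)⁻¹ * s ^ f.natDegree :=
          mul_le_mul h2 h1 (by have := apply_nonneg u; positivity) (by positivity)
      _ = 1 := inv_mul_cancel₀ (by positivity)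
  have h3 : u (f.derivative.eval p) ≤ r / s := by
    rw [hD]
    apply pl_sum_le _ _ (by positivity)
    intro x hx
    rw [map_mul]
    have h4 : u (g.eval x) ≤ r := by
      rw [hg, eval_sub, eval_C]
      exact hf x hx
    have h5 : u ((derivative (Lagrange.basis Y (fun x : K => x) x)).eval p) ≤ 1 / s :=
      (le_div_iff₀ hs).mpr (hbasis x hx)
    calc _ ≤ r * (1 / s) := mul_le_mul h4 h5 (apply_nonneg u _) hr.le
      _ = r / s := by ring
  exact (le_div_iff₀ hs).mp h3

end ExpTree

open LocSimple ExpTree in
theorem exp_tree {K : Type} [Field K] [NumberField K] (u : FinitePlace K) {f : K[X]} {m b : ℕ}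
    (hd : 2 ≤ f.natDegree) (h : Exp u m b f) : ∃ r σ : ℝ,
      Tree u {x : K | Preper (fun z => f.eval z) x} r σ f.natDegree ∧
      localWeight u f ≤ b * Real.log σ ∧
      ∀ (z w : K) (i j : ℤ), u z = r * σ ^ i → u w = r * σ ^ j → ∃ e : K, u z = u w * u e ^ m := by
  obtain ⟨t, r, σ, hE, hσ, hb, hloc, hquot⟩ := h
  have hr : 0 < r := hE.1
  have hσ0 : 0 < σ := by linarith
  refine ⟨r, σ, ?_, ?_, hquot⟩
  swap
  · refine (localWeight_le hE).trans ?_
    rw [← Real.log_pow]
    exact Real.log_le_log (by have := hE.2.1; linarith) hb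
  set φ : K → K := fun z => f.eval z with hφ
  -- the preperiodic points lie in the disc
  obtain ⟨L, _, _, _, ι, hι⟩ := exists_ultra_field u
  have hrad : IsRadius ((conjPoly f 1 t).map ι) r := (escapeDisc_iff hι (by omega) t r).mp hE
  have hnd : ((conjPoly f 1 t).map ι).natDegree = f.natDegree := map_natDegree one_ne_zero t
  have hin : ∀ x : K, Preper φ x → u (x - t) ≤ r := by
    intro x hx
    have h1 := hrad.preper_le (by omega) (hx.transport (ι := ι) one_ne_zero t)
    rw [one_mul, hι] at h1
    exact h1
  have hdist : ∀ x y : K, Preper φ x → Preper φ y → u (x - y) ≤ r := by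
    intro x y hx hy
    refine (pl_tri x t y).trans (max_le (hin x hx) ?_)
    rw [pl_sub_comm]
    exact hin y hy
  have hpos : ∀ x : K, 0 ≤ u x := fun x => apply_nonneg u x
  have hself : ∀ x : K, u (x - x) = 0 := fun x => by rw [sub_self, map_zero]
  have hder : ∀ x : K, Preper φ x → ∃ i : ℕ, 1 ≤ i ∧ u (f.derivative.eval x) = σ ^ i :=
    fun x hx => (hloc x (hin x hx) (hin _ hx.apply)).1
  have hexp : ∀ p : K, Preper φ p → ∀ x y : K, u (x - p) * u (f.derivative.eval p) ≤ r →
      u (y - p) * u (f.derivative.eval p) ≤ r →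
      u (φ x - φ y) = u (f.derivative.eval p) * u (x - y) := by
    intro p hp x y hx hy
    obtain ⟨i, _, hi⟩ := hder p hp
    exact expand hd hr (by rw [hi]; positivity) (hloc p (hin p hp) (hin _ hp.apply)).2.1 hx hy
  refine ⟨hr, hσ, ?_, ?_⟩
  · refine TwoScale.dist_aux (D := fun x y => u (x - y)) (φ := φ) hσ (fun x hx => Preper.apply hx)
      (fun x y h => sub_eq_zero.mp ((map_eq_zero u).mp h)) hself (fun x y => hpos _)
      (fun x hx y hy => hdist x y hx hy) ?_
    intro x hx y hy _
    rcases lt_or_ge r (u (x - y) * u (f.derivative.eval x)) with h1 | h1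
    · left
      exact (hloc x (hin x hx) (hin _ (Preper.apply hx))).2.2 y (hin y hy)
        (hin _ (Preper.apply hy)) h1
    · right
      obtain ⟨i, hi1, hi⟩ := hder x hx
      refine ⟨i - 1, ?_⟩
      have e : i - 1 + 1 = i := by omega
      rw [e, ← hi]
      refine hexp x hx x y ?_ ?_
      · rw [hself, zero_mul]; exact hr.le
      · rw [pl_sub_comm]; exact h1
  · -- branching
    have htri' : ∀ (t t' p : K) (X Y : ℝ), 0 < Y → u (t - p) * Y ≤ X → u (t' - p) * Y ≤ X →
        u (t - t') * Y ≤ X := by
      intro t t' p X Y hY h h'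
      rw [← le_div_iff₀ hY] at h h' ⊢
      have := pl_tri (u := u) t p t'
      rw [pl_sub_comm p t'] at this
      exact this.trans (max_le h h')
    have key : ∀ k : ℕ, ∀ p : K, Preper φ p → ∃ c : K → Fin f.natDegree, ∀ t, Preper φ t →
        ∀ t', Preper φ t' → u (t - p) * σ ^ k ≤ r → u (t' - p) * σ ^ k ≤ r → c t = c t' →
        u (t - t') * σ ^ k < r := by
      intro k
      induction k using Nat.strong_induction_on with
      | _ k ih =>
        intro p hp
        obtain ⟨i, hi1, hi⟩ := hder p hp
        rcases Nat.lt_or_ge k i with hki | hki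
        · -- the derivative is large: at most `d` classes
          have hσk : 0 < σ ^ k := by positivity
          set s : ℝ := r / σ ^ k with hsdef
          have hs : 0 < s := by positivity
          have hse : ∀ x : ℝ, x * σ ^ k ≤ r ↔ x ≤ s := fun x => by
            rw [hsdef, le_div_iff₀ hσk]
          have hse' : ∀ x : ℝ, x * σ ^ k < r ↔ x < s := fun x => by
            rw [hsdef, lt_div_iff₀ hσk]
          obtain ⟨c, hc⟩ := exists_class {z : K | Preper φ z ∧ u (z - p) ≤ s}
            (fun x y => u (x - y)) (r := s) (d := f.natDegree) (by omega)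
            (fun x y => pl_sub_comm x y) (fun x y z => pl_tri x y z)
            (fun x => by simpa using hs) (by
              intro Y hYP hYs
              by_contra hcon
              push Not at hcon
              obtain ⟨Z, hZY, hZc⟩ := Finset.exists_subset_card_eq (s := Y) (n := f.natDegree + 1)
                (by omega)
              have h1 := lagrange_deriv (u := u) hd hr hs (p := p) Z hZc
                (fun x hx => (hYP x (hZY hx)).2)
                (fun x hx y hy hxy => hYs x (hZY hx) y (hZY hy) hxy)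
                (fun x hx => hdist _ _ (Preper.apply (hYP x (hZY hx)).1) hp.apply)
              rw [hi, hsdef, ← mul_div_assoc, div_le_iff₀ hσk, mul_comm] at h1
              have h2 := le_of_mul_le_mul_left h1 hr
              exact absurd h2 (not_le.mpr (pow_lt_pow_right₀ hσ hki)))
          refine ⟨c, fun t ht t' ht' h1 h2 hcc => ?_⟩
          rw [hse] at h1 h2
          rw [hse']
          exact hc t ⟨ht, h1⟩ t' ⟨ht', h2⟩ hcc
        · -- the map is injective and expanding on the ball
          obtain ⟨j, rfl⟩ : ∃ j, k = i + j := ⟨k - i, by omega⟩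
          obtain ⟨c, hc⟩ := ih j (by omega) (φ p) hp.apply
          have hle : ∀ x : ℝ, 0 ≤ x → x * σ ^ (i + j) ≤ r → x * u (f.derivative.eval p) ≤ r := by
            intro x hx h1
            refine le_trans ?_ h1
            rw [hi]
            exact mul_le_mul_of_nonneg_left (pow_le_pow_right₀ hσ.le (by omega)) hx
          refine ⟨fun t => c (φ t), fun t ht t' ht' h1 h2 hcc => ?_⟩
          have htr : ∀ t t' : K, u (t - p) * σ ^ (i + j) ≤ r → u (t' - p) * σ ^ (i + j) ≤ r →
              u (φ t - φ t') * σ ^ j = u (t - t') * σ ^ (i + j) := by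
            intro t t' h1 h2
            rw [hexp p hp t t' (hle _ (hpos _) h1) (hle _ (hpos _) h2), hi, pow_add]
            ring
          have hpp : u (p - p) * σ ^ (i + j) ≤ r := by rw [hself, zero_mul]; exact hr.le
          have h3 := hc (φ t) ht.apply (φ t') ht'.apply (by rw [htr t p h1 hpp]; exact h1)
            (by rw [htr t' p h2 hpp]; exact h2) hcc
          rw [htr t t' h1 h2] at h3
          exact h3
    exact fun p hp k => key k p hp

end Pool.Agent.MP90787a.G
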