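import Pool.Agent.Lib.MP_90787a_nt.G.Core

set_option autoImplicit false

/-!
Polynomials in `z ^ e` with `e ≥ 3`: all periodic points.
-/

namespace Pool.Agent.MP90787a.G

open Polynomial NumberField Height Pool.Agent.UBC90787a

namespace Sym

lemma preper_of_periodic {α : Type} {φ : α → α} {x : α} (hx : x ∈ Function.periodicPts φ) :
    Preper φ x := by
  obtain ⟨n, hn, h⟩ := hx
  exact ⟨n, 0, hn, h⟩

lemma preper_of_apply {α : Type} {φ : α → α} {x : α} (hx : Preper φ (φ x)) : Preper φ x := by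
  obtain ⟨i, j, hij, h⟩ := hx
  refine ⟨i + 1, j + 1, by omega, ?_⟩
  rw [Function.iterate_succ_apply, Function.iterate_succ_apply, h]

lemma periodic_inj {α : Type} {φ : α → α} {x y : α} (hx : x ∈ Function.periodicPts φ)
    (hy : y ∈ Function.periodicPts φ) (h : φ x = φ y) : x = y :=
  (Function.bijOn_periodicPts φ).injOn hx hy h

end Sym

open Classical in
open Pool.Agent.MP90787a.G.Sym in
/-- All periodic points of nice polynomials in `z ^ e`, `e ≥ 3`. -/
theorem sym_bound (K : Type) [Field K] [NumberField K] (d m q : ℕ) (b : ℝ) (hd : 2 ≤ d)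
    (hm : 3 ≤ m) (S : Finset (FinitePlace K)) : ∃ B : ℕ, ∀ f : K[X], f.natDegree = d →
      NiceG S m q b f → ∀ (e : ℕ) (ζ : K), 3 ≤ e → IsPrimitiveRoot ζ e →
      (∀ x, f.eval (ζ * x) = f.eval x) →
      (Function.periodicPts fun z : K => f.eval z).encard ≤ B := by
  obtain ⟨C, hC⟩ := core_affine K d m q b hd hm S
  refine ⟨C + 3, fun f hfd hnice e ζ he hζ hsym => ?_⟩
  by_contra hcard
  push Not at hcard
  have h1 : ((C + 4 : ℕ) : ℕ∞) ≤ (Function.periodicPts fun z : K => f.eval z).encard := by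
    have := Order.add_one_le_of_lt hcard
    exact_mod_cast this
  obtain ⟨A₀, hA₀, hA₀c⟩ := Set.exists_subset_encard_eq h1
  have hfin : A₀.Finite := Set.finite_of_encard_eq_coe hA₀c
  set A₁ : Finset K := hfin.toFinset.erase 0 with hA₁
  have hA₁p : ∀ x ∈ A₁, x ∈ Function.periodicPts (fun z : K => f.eval z) := by
    intro x hx
    rw [hA₁, Finset.mem_erase, Set.Finite.mem_toFinset] at hx
    exact hA₀ hx.2
  have hA₁0 : ∀ x ∈ A₁, x ≠ 0 := fun x hx => (Finset.mem_erase.mp hx).1
  have hA₁c : C + 3 ≤ A₁.card := by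
    have h2 : hfin.toFinset.card = C + 4 := by
      have h3 : ((hfin.toFinset.card : ℕ) : ℕ∞) = ((C + 4 : ℕ) : ℕ∞) := by
        rw [← Set.encard_coe_eq_coe_finsetCard, Set.Finite.coe_toFinset, hA₀c]
      exact_mod_cast h3
    have h3 := Finset.pred_card_le_card_erase (s := hfin.toFinset) (a := (0 : K))
    rw [hA₁]
    omega
  obtain ⟨x, hx, y, hy, hxy⟩ := Finset.one_lt_card.mp (by omega : 1 < A₁.card)
  set J : Finset K := (A₁.erase x).erase y with hJ
  have hJc : C < J.card := by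
    have h2 := Finset.pred_card_le_card_erase (s := A₁) (a := x)
    have h3 := Finset.pred_card_le_card_erase (s := A₁.erase x) (a := y)
    rw [hJ]
    omega
  have hJm : ∀ t ∈ J, t ∈ A₁ ∧ t ≠ x ∧ t ≠ y := by
    intro t ht
    rw [hJ, Finset.mem_erase, Finset.mem_erase] at ht
    exact ⟨ht.2.2, ht.2.1, ht.1⟩
  have hζ1 : ζ ≠ 1 := hζ.ne_one (by omega)
  have hζ2 : ζ ^ 2 ≠ 1 := fun h => by
    have := Nat.le_of_dvd (by norm_num) (hζ.dvd_of_pow_eq_one 2 h)
    omega
  have hζ0 : ζ ≠ 0 := hζ.ne_zero (by omega)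
  have hsym2 : ∀ x, f.eval (ζ ^ 2 * x) = f.eval x := fun x => by
    rw [pow_two, mul_assoc, hsym, hsym]
  have hxp := hA₁p x hx
  have hyp := hA₁p y hy
  have hx0 := hA₁0 x hx
  have hy0 := hA₁0 y hy
  have hζx : ζ * x ≠ x := fun h => hζ1 (mul_right_cancel₀ hx0 (by rw [h, one_mul]))
  have hζy : ζ * y ≠ y := fun h => hζ1 (mul_right_cancel₀ hy0 (by rw [h, one_mul]))
  have hζ2y : ζ ^ 2 * y ≠ y := fun h => hζ2 (mul_right_cancel₀ hy0 (by rw [h, one_mul]))
  have hp : ζ ^ 2 * y ≠ ζ * x := by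
    intro h
    have h2 : ζ * y = x := by
      apply mul_left_cancel₀ hζ0
      rw [← h]
      ring
    apply hxy
    refine periodic_inj hxp hyp ?_
    change f.eval x = f.eval y
    rw [← h2, hsym]
  have hcore := hC f hfd hnice (ζ ^ 2 * y) (ζ * x) J hp
    (preper_of_apply (by
      change Preper _ (f.eval (ζ ^ 2 * y))
      rw [hsym2]
      exact (preper_of_periodic hyp).apply))
    (preper_of_apply (by
      change Preper _ (f.eval (ζ * x))
      rw [hsym]
      exact (preper_of_periodic hxp).apply)) ?_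
  · omega
  intro t ht
  obtain ⟨htA, htx, hty⟩ := hJm t ht
  have htp := hA₁p t htA
  refine ⟨preper_of_periodic htp, ?_, ?_, ?_⟩
  · intro h
    apply hty
    refine periodic_inj htp hyp ?_
    change f.eval t = f.eval y
    rw [h, hsym2]
  · intro h
    apply htx
    refine periodic_inj htp hxp ?_
    change f.eval t = f.eval x
    rw [h, hsym]
  · intro v hv hg
    obtain ⟨R, hR, htail⟩ := good_tail v (by omega) hg
    have a1 := htail t (ζ ^ 2 * y) t y (ζ ^ 2 * y) 0 htp hyp hty hζ2y (hsym2 y) rfl rfl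
    have a2 := htail t (ζ * x) t x (ζ * x) 0 htp hxp htx hζx (hsym x) rfl rfl
    have a3 := htail x (ζ * y) x y (ζ * y) 0 hxp hyp hxy hζy (hsym y) rfl rfl
    have a4 : v (ζ * x - ζ ^ 2 * y) = R := by
      have h2 : ζ * x - ζ ^ 2 * y = ζ * (x - ζ * y) := by ring
      have h3 : v ζ = 1 := by
        have h4 := congrArg v hζ.pow_eq_one
        rw [map_pow, map_one] at h4
        exact (pow_eq_one_iff_of_nonneg (Pool.Agent.MP90787a.T.v_nonneg v ζ)
          (by omega : e ≠ 0)).mp h4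
      rw [h2, map_mul, h3, one_mul, a3]
    rw [a1, a2, a4]
    exact ⟨rfl, rfl⟩

end Pool.Agent.MP90787a.G
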