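import Pool.Agent.Lib.MP_90787a_nt.G.Defs
import Pool.Agent.Lib.MP_90787a_nt.Places

set_option autoImplicit false

/-!
MP_90787a_nt, Theorem G, module Translates: the polynomials `g + c h` of a pencil have good or
simple bad reduction outside a fixed finite set of places.
-/

namespace Pool.Agent.MP90787a.G

open Polynomial NumberField Height Pool.Agent.UBC90787a

namespace Translates

section place

variable {K : Type} [Field K] [NumberField K] (v : FinitePlace K)

lemma natCast_le (n : ℕ) : v (n : K) ≤ 1 := by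
  induction n with
  | zero => simp
  | succ n ih =>
    rw [Nat.cast_succ]
    exact (FinitePlace.add_le v _ _).trans (max_le ih (by rw [map_one]))

lemma add_eq_of_lt {x y : K} (h : v x < v y) : v (x + y) = v y := by
  apply le_antisymm ((FinitePlace.add_le v x y).trans (max_le h.le le_rfl))
  by_contra hlt
  push Not at hlt
  have h1 : v y ≤ max (v (x + y)) (v (-x)) := by
    have := FinitePlace.add_le v (x + y) (-x)
    rwa [show x + y + -x = y by ring] at this
  rw [map_neg_eq_map] at h1
  exact absurd h1 (not_le.2 (max_lt hlt h))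

lemma sum_le {ι : Type*} (s : Finset ι) (f : ι → K) {R : ℝ} (hR : 0 ≤ R)
    (h : ∀ i ∈ s, v (f i) ≤ R) : v (∑ i ∈ s, f i) ≤ R := by
  classical
  induction s using Finset.induction_on with
  | empty => simpa using hR
  | insert a s ha ih =>
    rw [Finset.sum_insert ha]
    exact (FinitePlace.add_le v _ _).trans (max_le (h a (Finset.mem_insert_self a s))
      (ih fun i hi => h i (Finset.mem_insert_of_mem hi)))

lemma eval_le {p : K[X]} (hp : ∀ i, v (p.coeff i) ≤ 1) {x : K} {R : ℝ} (hR : 1 ≤ R)
    (hx : v x ≤ R) {n : ℕ} (hn : p.natDegree ≤ n) : v (p.eval x) ≤ R ^ n := by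
  rw [eval_eq_sum_range]
  refine sum_le v _ _ (by positivity) fun i hi => ?_
  rw [Finset.mem_range] at hi
  rw [map_mul, map_pow]
  have h1 : v x ^ i ≤ R ^ i := pow_le_pow_left₀ (apply_nonneg v x) hx i
  have h2 : R ^ i ≤ R ^ n := pow_le_pow_right₀ hR (by omega)
  calc v (p.coeff i) * v x ^ i ≤ 1 * R ^ n :=
        mul_le_mul (hp i) (h1.trans h2) (pow_nonneg (apply_nonneg v x) i) zero_le_one
    _ = R ^ n := one_mul _

lemma eval_lt {p : K[X]} (hp : ∀ i, v (p.coeff i) ≤ 1) {x : K} {R : ℝ} (hR : 1 < R)
    (hx : v x < R) {n : ℕ} (hn0 : n ≠ 0) (hn : p.natDegree ≤ n) : v (p.eval x) < R ^ n := by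
  refine (eval_le v hp (le_max_left 1 (v x)) (le_max_right _ _) hn).trans_lt ?_
  exact pow_lt_pow_left₀ (max_lt hR hx) (by positivity) hn0

/-- the polynomial `X g' - d g` -/
noncomputable def aux (g : K[X]) : K[X] := X * derivative g - C (g.natDegree : K) * g

omit [NumberField K] in
lemma aux_coeff (g : K[X]) (i : ℕ) : (aux g).coeff i = ((i : K) - g.natDegree) * g.coeff i := by
  unfold aux
  rw [coeff_sub, coeff_C_mul]
  cases i with
  | zero => simp
  | succ i =>
    rw [coeff_X_mul, coeff_derivative]
    push_cast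
    ring

omit [NumberField K] in
lemma aux_natDegree (g : K[X]) (hd : 1 ≤ g.natDegree) : (aux g).natDegree ≤ g.natDegree - 1 := by
  rw [natDegree_le_iff_coeff_eq_zero]
  intro i hi
  rw [aux_coeff]
  rcases eq_or_ne i g.natDegree with h | h
  · rw [h, sub_self, zero_mul]
  · rw [coeff_eq_zero_of_natDegree_lt (by omega), mul_zero]

lemma aux_coeff_le {g : K[X]} (hg : ∀ i, v (g.coeff i) ≤ 1) (i : ℕ) : v ((aux g).coeff i) ≤ 1 := by
  rw [aux_coeff, map_mul]
  have h1 : v ((i : K) - g.natDegree) ≤ 1 := by
    rw [sub_eq_add_neg]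
    refine (FinitePlace.add_le v _ _).trans (max_le (natCast_le v i) ?_)
    rw [map_neg_eq_map]
    exact natCast_le v _
  calc v ((i : K) - g.natDegree) * v (g.coeff i) ≤ 1 * 1 :=
        mul_le_mul h1 (hg i) (apply_nonneg v _) zero_le_one
    _ = 1 := one_mul 1

omit [NumberField K] in
lemma aux_eval (g : K[X]) (x : K) :
    x * (derivative g).eval x = (aux g).eval x + g.natDegree * g.eval x := by
  unfold aux
  simp

lemma derivative_coeff_le {g : K[X]} (hg : ∀ i, v (g.coeff i) ≤ 1) (i : ℕ) :
    v ((derivative g).coeff i) ≤ 1 := by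
  rw [coeff_derivative, map_mul]
  have h1 : v ((i : K) + 1) ≤ 1 := by exact_mod_cast natCast_le v (i + 1)
  calc v (g.coeff (i + 1)) * v ((i : K) + 1) ≤ 1 * 1 :=
        mul_le_mul (hg _) h1 (apply_nonneg v _) zero_le_one
    _ = 1 := one_mul 1

omit [NumberField K] in
lemma conjPoly_zero (f : K[X]) : conjPoly f 1 0 = f := by
  unfold conjPoly
  simp

lemma exists_root {y : ℝ} (hy : 1 < y) {n : ℕ} (hn : n ≠ 0) : ∃ r : ℝ, 1 < r ∧ r ^ n = y := by
  refine ⟨y ^ ((n : ℝ)⁻¹), Real.one_lt_rpow hy (by positivity), ?_⟩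
  exact Real.rpow_inv_natCast_pow (by linarith) hn

/-- If `|z| ^ n = |c| ^ k` then `|z|` is the `k / gcd(n, k)`-th power of an absolute value. -/
lemma root_val {z c : K} (hz : z ≠ 0) (hc : c ≠ 0) {n k : ℕ} (hn : 0 < n)
    (h : v z ^ n = v c ^ k) : ∃ y : K, v z = v y ^ (k / Nat.gcd n k) := by
  obtain ⟨g, n', k', hg, hcop, hn', hk'⟩ := Nat.exists_coprime' (m := n) (n := k)
    (Nat.gcd_pos_of_pos_left k hn)
  have hgcd : Nat.gcd n k = g := by
    rw [hn', hk', Nat.gcd_mul_right, hcop.gcd_eq_one, one_mul]
  have hkg : k / Nat.gcd n k = k' := by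
    rw [hgcd, hk', Nat.mul_div_cancel _ hg]
  rw [hkg]
  have hzp : 0 < v z := FinitePlace.pos_iff.mpr hz
  have hcp : 0 < v c := FinitePlace.pos_iff.mpr hc
  have h1 : v z ^ n' = v c ^ k' := by
    rw [hn', hk', pow_mul, pow_mul] at h
    exact (pow_left_inj₀ (by positivity) (by positivity) hg.ne').mp h
  have hbez : (n' : ℤ) * Nat.gcdA n' k' + (k' : ℤ) * Nat.gcdB n' k' = 1 := by
    have := Nat.gcd_eq_gcd_ab n' k'
    rw [hcop.gcd_eq_one] at this
    exact_mod_cast this.symm
  refine ⟨z ^ (Nat.gcdB n' k') * c ^ (Nat.gcdA n' k'), ?_⟩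
  rw [map_mul, map_zpow₀, map_zpow₀, mul_pow]
  have h2 : (v c ^ (Nat.gcdA n' k')) ^ k' = (v z ^ n') ^ (Nat.gcdA n' k') := by
    rw [h1, ← zpow_natCast, ← zpow_natCast, ← zpow_mul, ← zpow_mul, mul_comm]
  rw [h2, ← zpow_natCast, ← zpow_natCast, ← zpow_mul, ← zpow_mul, ← zpow_add₀ hzp.ne']
  rw [show Nat.gcdB n' k' * (k' : ℤ) + (n' : ℤ) * Nat.gcdA n' k' = 1 by rw [← hbez]; ring,
    zpow_one]

end place

end Translates

open Translates in
/-- The pencils `g + c ^ k h`, `deg h ≤ 1`. -/
theorem pencil_nice (K : Type) [Field K] [NumberField K] (g h : K[X]) (hd : 2 ≤ g.natDegree)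
    (hh : h.natDegree ≤ 1) (hh0 : h ≠ 0) (k m : ℕ)
    (hm : m ∣ (g.natDegree - 1) * (k / Nat.gcd (g.natDegree - h.natDegree) k)) :
    ∃ S : Finset (FinitePlace K), ∀ c : K, Nice S m (g + C (c ^ k) * h) := by
  classical
  obtain ⟨S, hS⟩ := exists_finset_places ((Finset.range (g.natDegree + 1)).image g.coeff ∪
    {h.coeff 0, h.coeff 1, (g.natDegree : K), ((g.natDegree - 1 : ℕ) : K)})
  refine ⟨S, fun c₀ v hv => ?_⟩
  have hv' := hS v hv
  set d := g.natDegree with hddef
  obtain ⟨c, hcdef⟩ : ∃ c : K, c = c₀ ^ k := ⟨_, rfl⟩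
  rw [← hcdef]
  have hpow : ∀ (r : ℝ) (z : K), 1 < r → v z = r → r ^ (d - h.natDegree) = v c →
      ∃ e : K, r ^ (d - 1) = v e ^ m := by
    intro r z hr hzr hrc
    have hz0 : z ≠ 0 := by
      rintro rfl
      rw [map_zero] at hzr
      linarith
    have hc0 : c ≠ 0 := by
      rintro h0
      rw [h0, map_zero] at hrc
      have : 0 < r ^ (d - h.natDegree) := by positivity
      linarith
    obtain ⟨s, hs⟩ := hm
    rcases eq_or_ne c₀ 0 with h0 | h0
    · rcases Nat.eq_zero_or_pos k with hk | hk
      · rw [hcdef, hk, pow_zero, map_one] at hrc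
        have : 1 < r ^ (d - h.natDegree) := one_lt_pow₀ hr (by omega)
        linarith
      · rw [hcdef, h0, zero_pow hk.ne'] at hc0
        exact absurd rfl hc0
    · obtain ⟨y, hy⟩ := root_val v hz0 h0 (n := d - h.natDegree) (k := k) (by omega) (by
        rw [hzr, hrc, hcdef, map_pow])
      refine ⟨y ^ s, ?_⟩
      rw [← hzr, hy, ← pow_mul, mul_comm _ (d - 1), hs, map_pow, ← pow_mul, mul_comm s m]
  have hgc : ∀ i, v (g.coeff i) ≤ 1 := by
    intro i
    rcases eq_or_ne (g.coeff i) 0 with h0 | h0
    · rw [h0, map_zero]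
      exact zero_le_one
    · have hi : i ≤ d := by
        by_contra hlt
        exact h0 (coeff_eq_zero_of_natDegree_lt (by omega))
      refine (hv' (g.coeff i) ?_ h0).le
      apply Finset.mem_union_left
      exact Finset.mem_image_of_mem _ (Finset.mem_range.2 (by omega))
  have hg0 : g ≠ 0 := by
    rintro rfl
    simp at hddef
    omega
  have hlc : v (g.coeff d) = 1 := by
    refine hv' _ ?_ ?_
    · apply Finset.mem_union_left
      exact Finset.mem_image_of_mem _ (Finset.mem_range.2 (by omega))
    · exact leadingCoeff_ne_zero.2 hg0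
  have hdd : v (d : K) = 1 := by
    refine hv' _ ?_ ?_
    · apply Finset.mem_union_right
      simp
    · have : d ≠ 0 := by omega
      exact_mod_cast this
  have hd1 : v ((d - 1 : ℕ) : K) = 1 := by
    refine hv' _ ?_ ?_
    · apply Finset.mem_union_right
      simp
    · have : d - 1 ≠ 0 := by omega
      exact_mod_cast this
  have hα : h.coeff 0 ≠ 0 → v (h.coeff 0) = 1 := fun h0 => hv' _ (by
    apply Finset.mem_union_right
    simp) h0
  have hβ : h.coeff 1 ≠ 0 → v (h.coeff 1) = 1 := fun h0 => hv' _ (by
    apply Finset.mem_union_right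
    simp) h0
  have hhc : ∀ i, v (h.coeff i) ≤ 1 := by
    intro i
    rcases eq_or_ne (h.coeff i) 0 with h0 | h0
    · rw [h0, map_zero]
      exact zero_le_one
    · have hi : i ≤ 1 := by
        by_contra hlt
        exact h0 (coeff_eq_zero_of_natDegree_lt (by omega))
      interval_cases i
      · exact (hα h0).le
      · exact (hβ h0).le
  have hh2 : ∀ i, 2 ≤ i → h.coeff i = 0 := fun i hi =>
    coeff_eq_zero_of_natDegree_lt (by omega)
  have hheq : h = C (h.coeff 1) * X + C (h.coeff 0) := eq_X_add_C_of_natDegree_le_one hh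
  set α := h.coeff 0 with hαdef
  set β := h.coeff 1 with hβdef
  set f := g + C c * h with hf
  have hfc : ∀ i, f.coeff i = g.coeff i + c * h.coeff i := fun i => by
    rw [hf, coeff_add, coeff_C_mul]
  have hchd : (C c * h).natDegree ≤ 1 := (natDegree_C_mul_le c h).trans hh
  have hfd : f.natDegree = d := by
    rw [hf, natDegree_add_eq_left_of_natDegree_lt (by omega)]
  have hflc : f.leadingCoeff = g.coeff d := by
    rw [leadingCoeff, hfd, hfc, hh2 d hd, mul_zero, add_zero]
  have hvlc : v f.leadingCoeff = 1 := by rw [hflc, hlc]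
  have hcont : ∀ i, f.coeff i = (conjPoly f 1 0).coeff i := fun i => by rw [conjPoly_zero]
  rcases le_or_gt (v c) 1 with hc | hc
  · left
    refine ⟨0, 1, ⟨one_pos, ?_, fun i _ => ?_⟩, ?_⟩
    · rw [hvlc, one_pow, mul_one]
    · rw [← hcont, hvlc, one_pow, mul_one, hfc]
      refine (FinitePlace.add_le v _ _).trans (max_le (hgc i) ?_)
      rw [map_mul]
      calc v c * v (h.coeff i) ≤ 1 * 1 := mul_le_mul hc (hhc i) (apply_nonneg v _) zero_le_one
        _ = 1 := one_mul 1
    · rw [hvlc, one_pow, mul_one]
  · right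
    have hfi : ∀ i, v (f.coeff i) ≤ v c := by
      intro i
      rw [hfc]
      refine (FinitePlace.add_le v _ _).trans (max_le ((hgc i).trans hc.le) ?_)
      rw [map_mul]
      calc v c * v (h.coeff i) ≤ v c * 1 :=
            mul_le_mul_of_nonneg_left (hhc i) (by linarith)
        _ = v c := mul_one _
    have hder : ∀ x, (derivative f).eval x = (derivative g).eval x + c * β := by
      intro x
      rw [hf, hheq]
      simp
    have hev : ∀ x, f.eval x = g.eval x + c * (β * x + α) := by
      intro x
      rw [hf, hheq]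
      simp
    by_cases hβ0 : β = 0
    · have hα0 : α ≠ 0 := by
        intro h0
        apply hh0
        rw [hheq, hβ0, h0]
        simp
      have hvα := hα hα0
      obtain ⟨r, hr1, hrd⟩ := exists_root hc (n := d) (by omega)
      have hr0 : 0 < r := by linarith
      have hnd0 : h.natDegree = 0 := by
        rw [hheq, hβ0]
        simp
      refine ⟨0, r, ⟨hr0, ?_, fun i hi => ?_⟩, ?_, fun x hx hfx => ?_, fun z hz => ?_⟩
      · rw [hvlc, one_mul]
        exact one_le_pow₀ hr1.le
      · rw [← hcont, hvlc, one_mul]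
        rcases Nat.eq_zero_or_pos i with h0 | h0
        · rw [h0, hfd, Nat.sub_zero, hrd]
          exact hfi 0
        · have : h.coeff i = 0 := by
            rcases Nat.lt_or_ge i 2 with h2 | h2
            · have : i = 1 := by omega
              rw [this]
              exact hβ0
            · exact hh2 i h2
          rw [hfc, this, mul_zero, add_zero]
          exact (hgc i).trans (one_le_pow₀ hr1.le)
      · rw [hvlc, one_mul, hfd]
        exact one_lt_pow₀ hr1 (by omega)
      · rw [sub_zero] at hx hfx
        rw [hvlc, one_mul, hfd]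
        have hvcα : v (-(c * α)) = r ^ d := by rw [map_neg_eq_map, map_mul, hvα, mul_one, hrd]
        have hlt : r < r ^ d := by
          calc r = r ^ 1 := (pow_one r).symm
            _ < r ^ d := pow_lt_pow_right₀ hr1 (by omega)
        have hgx : v (g.eval x) = r ^ d := by
          have e : g.eval x = f.eval x + -(c * α) := by
            rw [hev, hβ0]
            ring
          rw [e, add_eq_of_lt v (by rw [hvcα]; exact hfx.trans_lt hlt), hvcα]
        have hxr : v x = r := by
          rcases hx.lt_or_eq with h1 | h1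
          · have := eval_lt v hgc hr1 h1 (n := d) (by omega) le_rfl
            rw [hgx] at this
            exact absurd this (lt_irrefl _)
          · exact h1
        have h3 : v ((aux g).eval x) ≤ r ^ (d - 1) :=
          eval_le v (aux_coeff_le v hgc) hr1.le hx (aux_natDegree g (by omega))
        have h4 : r ^ (d - 1) < r ^ d := pow_lt_pow_right₀ hr1 (by omega)
        have h5 : v (x * (derivative f).eval x) = r ^ d := by
          rw [hder, hβ0, mul_zero, add_zero, aux_eval,
            add_eq_of_lt v (by rw [map_mul, ← hddef, hdd, one_mul, hgx]; exact h3.trans_lt h4),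
            map_mul, ← hddef, hdd, one_mul, hgx]
        rw [map_mul, hxr] at h5
        have h6 : r * r ^ (d - 1) = r ^ d := by
          rw [← pow_succ']
          congr 1
          omega
        rw [← h6] at h5
        exact mul_left_cancel₀ hr0.ne' h5
      · rw [hvlc, one_mul, hfd]
        exact hpow r z hr1 hz (by rw [hnd0, Nat.sub_zero, hrd])
    · have hvβ := hβ hβ0
      obtain ⟨r, hr1, hrd⟩ := exists_root hc (n := d - 1) (by omega)
      have hr0 : 0 < r := by linarith
      have h4 : r ^ (d - 1) < r ^ d := pow_lt_pow_right₀ hr1 (by omega)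
      have h6 : r ^ (d - 1) * r = r ^ d := by
        rw [← pow_succ]
        congr 1
        omega
      have hnd1 : h.natDegree = 1 := by
        refine le_antisymm hh ?_
        exact le_natDegree_of_ne_zero hβ0
      refine ⟨0, r, ⟨hr0, ?_, fun i hi => ?_⟩, ?_, fun x hx hfx => ?_, fun z hz => ?_⟩
      rotate_left 4
      · rw [hvlc, one_mul, hfd]
        exact hpow r z hr1 hz (by rw [hnd1, hrd])
      · rw [hvlc, one_mul]
        exact one_le_pow₀ hr1.le
      · rw [← hcont, hvlc, one_mul]
        rcases Nat.lt_or_ge i 2 with h2 | h2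
        · calc v (f.coeff i) ≤ v c := hfi i
            _ = r ^ (d - 1) := hrd.symm
            _ ≤ r ^ (f.natDegree - i) := pow_le_pow_right₀ hr1.le (by omega)
        · rw [hfc, hh2 i h2, mul_zero, add_zero]
          exact (hgc i).trans (one_le_pow₀ hr1.le)
      · rw [hvlc, one_mul, hfd]
        exact one_lt_pow₀ hr1 (by omega)
      · rw [sub_zero] at hx hfx
        rw [hvlc, one_mul, hfd]
        have hvcβ : v (c * β) = r ^ (d - 1) := by rw [map_mul, hvβ, mul_one, hrd]
        rcases hx.lt_or_eq with h1 | h1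
        · have h2 := eval_lt v (derivative_coeff_le v hgc) hr1 h1 (n := d - 1) (by omega)
            (natDegree_derivative_le g)
          rw [hder, add_eq_of_lt v (by rw [hvcβ]; exact h2), hvcβ]
        · have h3 : v ((aux g).eval x) ≤ r ^ (d - 1) :=
            eval_le v (aux_coeff_le v hgc) hr1.le hx (aux_natDegree g (by omega))
          have h7 : v (-(((d - 1 : ℕ) : K) * (c * β) * x)) = r ^ d := by
            rw [map_neg_eq_map, map_mul, map_mul, hd1, one_mul, hvcβ, h1, h6]
          have h8 : v (d * f.eval x) < r ^ d := by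
            rw [map_mul, hdd, one_mul]
            refine hfx.trans_lt ?_
            calc r = r ^ 1 := (pow_one r).symm
              _ < r ^ d := pow_lt_pow_right₀ hr1 (by omega)
          have h9 : v (-(d * (c * α))) < r ^ d := by
            rw [map_neg_eq_map, map_mul, hdd, one_mul, map_mul]
            refine lt_of_le_of_lt ?_ h4
            rw [hrd]
            calc v c * v α ≤ v c * 1 := mul_le_mul_of_nonneg_left (hhc 0) (by linarith)
              _ = v c := mul_one _
          have e : x * (derivative f).eval x =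
              (aux g).eval x + (d * f.eval x + -(d * (c * α))) +
                -(((d - 1 : ℕ) : K) * (c * β) * x) := by
            rw [hder, hev, mul_add, aux_eval, ← hddef, Nat.cast_sub (by omega)]
            push_cast
            ring
          have h10 : v ((aux g).eval x + (d * f.eval x + -(d * (c * α)))) < r ^ d :=
            (FinitePlace.add_le v _ _).trans_lt (max_lt (h3.trans_lt h4)
              ((FinitePlace.add_le v _ _).trans_lt (max_lt h8 h9)))
          have h5 : v (x * (derivative f).eval x) = r ^ d := by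
            rw [e, add_eq_of_lt v (by rw [h7]; exact h10), h7]
          rw [map_mul, h1, ← h6, mul_comm (r ^ (d - 1)) r] at h5
          exact mul_left_cancel₀ hr0.ne' h5

end Pool.Agent.MP90787a.G
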