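import Pool.Agent.Lib.MP_90787a_nt.G.Cycles
import Pool.Agent.Lib.MP_90787a_nt.G.Sym
import Pool.Agent.Lib.MP_90787a_nt.G.Count
import Pool.Agent.Lib.MP_90787a_nt.G.Translates
import Pool.Agent.Lib.MP_90787a_nt.T.PackEven

set_option autoImplicit false

/-!
The final form of the results for polynomials with good or simple reduction.
-/

namespace Pool.Agent.MP90787a.G

open Polynomial NumberField Height Pool.Agent.UBC90787a

/-- The bounds for the polynomial `f`: every odd divisor of the length of a cycle is at most `B`,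
tails over cycles of length at least `3` have length at most `B`, and there are at most `B` points
whose orbit ends in a cycle of length `p`, where `P` holds or `p` is odd, and which are periodic
or satisfy `p ≥ 3`. -/
def Bdd {K : Type} [Field K] (B : ℕ) (P : Prop) (f : K[X]) : Prop :=
  (∀ x ∈ Function.periodicPts (fun z : K => f.eval z), ∀ k : ℕ, Odd k →
    k ∣ Function.minimalPeriod (fun z : K => f.eval z) x → k ≤ B) ∧
  (∀ (x : K) (i : ℕ), (fun z : K => f.eval z)^[i] x ∈ Function.periodicPts (fun z : K => f.eval z) →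
    3 ≤ Function.minimalPeriod (fun z : K => f.eval z) ((fun z : K => f.eval z)^[i] x) →
    (fun z : K => f.eval z)^[B] x ∈ Function.periodicPts (fun z : K => f.eval z)) ∧
  {x : K | ∃ i : ℕ, (fun z : K => f.eval z)^[i] x ∈ Function.periodicPts (fun z : K => f.eval z) ∧
    (P ∨ Odd (Function.minimalPeriod (fun z : K => f.eval z) ((fun z : K => f.eval z)^[i] x))) ∧
    (x ∈ Function.periodicPts (fun z : K => f.eval z) ∨
      3 ≤ Function.minimalPeriod (fun z : K => f.eval z)
        ((fun z : K => f.eval z)^[i] x))}.encard ≤ B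

namespace Aux

lemma minimalPeriod_eq {α : Type} {φ : α → α} {x : α} {i j : ℕ}
    (hi : φ^[i] x ∈ Function.periodicPts φ) (hj : φ^[j] x ∈ Function.periodicPts φ) :
    Function.minimalPeriod φ (φ^[i] x) = Function.minimalPeriod φ (φ^[j] x) := by
  wlog h : i ≤ j generalizing i j
  · exact (this hj hi (by omega)).symm
  obtain ⟨k, rfl⟩ := Nat.exists_eq_add_of_le h
  rw [add_comm i k, Function.iterate_add_apply, Function.minimalPeriod_apply_iterate hi]

lemma periodic_iterate {α : Type} {φ : α → α} {x : α} (hx : x ∈ Function.periodicPts φ) (n : ℕ) :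
    φ^[n] x ∈ Function.periodicPts φ := by
  obtain ⟨k, hk, h⟩ := hx
  exact ⟨k, hk, h.apply_iterate n⟩

lemma minimalPeriod_le_encard {α : Type} {φ : α → α} {x : α} (hx : x ∈ Function.periodicPts φ)
    {B : ℕ} (hB : (Function.periodicPts φ).encard ≤ B) : Function.minimalPeriod φ x ≤ B := by
  have h1 : (fun n : ℕ => φ^[n] x) '' (Set.Iio (Function.minimalPeriod φ x)) ⊆
      Function.periodicPts φ := by
    rintro _ ⟨n, _, rfl⟩
    exact periodic_iterate hx n
  have h2 := Set.encard_le_encard h1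
  have h3 : ((fun n : ℕ => φ^[n] x) '' (Set.Iio (Function.minimalPeriod φ x))).encard =
      (Set.Iio (Function.minimalPeriod φ x)).encard :=
    Function.iterate_injOn_Iio_minimalPeriod.encard_image
  have h4 : (Set.Iio (Function.minimalPeriod φ x)).encard = Function.minimalPeriod φ x := by
    rw [← Finset.coe_Iio, Set.encard_coe_eq_coe_finsetCard, Nat.card_Iio]
  rw [h3, h4] at h2
  exact_mod_cast h2.trans hB

end Aux

open Pool.Agent.MP90787a.G.Aux in
/-- The general theorem. -/
theorem main (K : Type) [Field K] [NumberField K] (d m q : ℕ) (b : ℝ) (hd : 2 ≤ d)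
    (hm : 3 ≤ m) (S : Finset (FinitePlace K)) : ∃ B : ℕ, ∀ f : K[X], f.natDegree = d →
      NiceG S m q b f → Bdd B (Even m ∨ ∃ (e : ℕ) (ζ : K), 3 ≤ e ∧ IsPrimitiveRoot ζ e ∧
        ∀ x, f.eval (ζ * x) = f.eval x) f := by
  obtain ⟨B₁, h₁⟩ := period_bound K d m q b hd hm S
  obtain ⟨B₂, h₂⟩ := tail_bound K d m q b hd hm S
  obtain ⟨B₃, h₃⟩ := sym_bound K d m q b hd hm S
  obtain ⟨C, hC⟩ := count K d (B₁ + B₃) B₂ hd
  refine ⟨B₁ + B₂ + C, fun f hfd hnice => ⟨?_, ?_, ?_⟩⟩
  · intro x hx k hk hkp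
    have := (h₁ f hfd hnice x hx).1 k hk hkp
    omega
  · intro x i hx h3
    have := h₂ f hfd hnice x i hx h3
    rw [show B₁ + B₂ + C = (B₁ + C) + B₂ by ring, Function.iterate_add_apply]
    exact periodic_iterate this _
  · have h4 : {x : K | ∃ i : ℕ, (fun z : K => f.eval z)^[i] x ∈
        Function.periodicPts (fun z : K => f.eval z) ∧
        ((Even m ∨ ∃ (e : ℕ) (ζ : K), 3 ≤ e ∧ IsPrimitiveRoot ζ e ∧
          ∀ x, f.eval (ζ * x) = f.eval x) ∨
          Odd (Function.minimalPeriod (fun z : K => f.eval z) ((fun z : K => f.eval z)^[i] x))) ∧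
        (x ∈ Function.periodicPts (fun z : K => f.eval z) ∨
          3 ≤ Function.minimalPeriod (fun z : K => f.eval z)
            ((fun z : K => f.eval z)^[i] x))} ⊆
        {x : K | (fun z : K => f.eval z)^[B₂] x ∈
          Function.periodicPts (fun z : K => f.eval z) ∧
          Function.minimalPeriod (fun z : K => f.eval z) ((fun z : K => f.eval z)^[B₂] x) ≤
            B₁ + B₃} := by
      rintro x ⟨i, hi, hp, hx⟩
      have h5 : (fun z : K => f.eval z)^[B₂] x ∈ Function.periodicPts (fun z : K => f.eval z) := by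
        rcases hx with hx | hx
        · exact periodic_iterate hx _
        · exact h₂ f hfd hnice x i hi hx
      refine ⟨h5, ?_⟩
      rw [← minimalPeriod_eq hi h5]
      rcases hp with (hp | ⟨e, ζ, he, hζ, hsym⟩) | hp
      · have := (h₁ f hfd hnice _ hi).2 hp
        omega
      · have := minimalPeriod_le_encard hi (h₃ f hfd hnice e ζ he hζ hsym)
        omega
      · have := (h₁ f hfd hnice _ hi).1 _ hp dvd_rfl
        omega
    refine (Set.encard_le_encard h4).trans ((hC f hfd).trans ?_)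
    exact_mod_cast (by omega : C ≤ B₁ + B₂ + C)

section transfer

variable {K L : Type} [Field K] [Field L] (φ : K →+* L) {f : K[X]}

lemma isPeriodicPt_map {x : K} {n : ℕ} :
    Function.IsPeriodicPt (fun z : L => (f.map φ).eval z) n (φ x) ↔
      Function.IsPeriodicPt (fun z : K => f.eval z) n x := by
  unfold Function.IsPeriodicPt Function.IsFixedPt
  rw [Core.iterate_map, φ.injective.eq_iff]

lemma mem_periodicPts_map {x : K} : φ x ∈ Function.periodicPts (fun z : L => (f.map φ).eval z) ↔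
    x ∈ Function.periodicPts (fun z : K => f.eval z) := by
  unfold Function.periodicPts
  simp only [Set.mem_ofPred_eq, isPeriodicPt_map]

lemma minimalPeriod_map {x : K} : Function.minimalPeriod (fun z : L => (f.map φ).eval z) (φ x) =
    Function.minimalPeriod (fun z : K => f.eval z) x :=
  Function.minimalPeriod_eq_minimalPeriod_iff.mpr fun _ => isPeriodicPt_map φ

lemma bdd_of_map {B : ℕ} {P : Prop} (h : Bdd B P (f.map φ)) : Bdd B P f := by
  obtain ⟨h1, h2, h3⟩ := h
  refine ⟨?_, ?_, ?_⟩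
  · intro x hx k hk hkp
    refine h1 (φ x) ((mem_periodicPts_map φ).mpr hx) k hk ?_
    rwa [minimalPeriod_map]
  · intro x i hx h4
    have h5 := h2 (φ x) i (by rw [Core.iterate_map]; exact (mem_periodicPts_map φ).mpr hx)
      (by rw [Core.iterate_map, minimalPeriod_map]; exact h4)
    rw [Core.iterate_map] at h5
    exact (mem_periodicPts_map φ).mp h5
  · refine le_trans ?_ h3
    rw [← φ.injective.encard_image]
    apply Set.encard_le_encard
    rintro _ ⟨x, ⟨i, hi, hp, hx⟩, rfl⟩
    refine ⟨i, ?_, ?_, ?_⟩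
    · rw [Core.iterate_map]
      exact (mem_periodicPts_map φ).mpr hi
    · rw [Core.iterate_map, minimalPeriod_map]
      exact hp
    · rw [Core.iterate_map, minimalPeriod_map, mem_periodicPts_map]
      exact hx

lemma bdd_mono {B : ℕ} {P Q : Prop} (hPQ : P → Q) (h : Bdd B Q f) : Bdd B P f := by
  refine ⟨h.1, h.2.1, (Set.encard_le_encard ?_).trans h.2.2⟩
  rintro x ⟨i, hi, hp, hx⟩
  exact ⟨i, hi, hp.imp hPQ id, hx⟩

end transfer

lemma niceG_of_nice {K : Type} [Field K] [NumberField K] {S : Finset (FinitePlace K)} {m : ℕ}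
    (hm : m ≠ 0) {f : K[X]} (hd : 2 ≤ f.natDegree) (h : Nice S m f) :
    NiceG S m f.natDegree 1 f := by
  intro v hv
  refine (h v hv).imp id fun hs => ?_
  obtain ⟨t, r, ρ, he, hρ, htree, hpow⟩ := simple_tree v hd hm hs
  refine ⟨r, ρ, htree, ?_, fun hxy z w i j hz hw => ?_⟩
  · rw [one_mul, hρ]
    exact localWeight_le he
  · obtain ⟨e, he0, he1⟩ := hpow hxy
    have hρ0 : ρ ≠ 0 := by linarith [htree.2.1]
    refine ⟨e ^ (i - j), ?_⟩
    rw [hz, hw, mul_assoc]
    congr 1
    rw [map_zpow₀, ← zpow_natCast, ← zpow_mul, mul_comm (i - j), zpow_mul, zpow_natCast, ← he1,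
      ← zpow_add₀ hρ0]
    congr 1
    ring

/-- The general theorem for potentially good and simple bad reduction. -/
theorem main_nice (K : Type) [Field K] [NumberField K] (d m : ℕ) (hd : 2 ≤ d) (hm : 3 ≤ m)
    (S : Finset (FinitePlace K)) : ∃ B : ℕ, ∀ f : K[X], f.natDegree = d →
      Nice S m f → Bdd B (Even m ∨ ∃ (e : ℕ) (ζ : K), 3 ≤ e ∧ IsPrimitiveRoot ζ e ∧
        ∀ x, f.eval (ζ * x) = f.eval x) f := by
  obtain ⟨B, hB⟩ := main K d m d 1 hd hm S
  refine ⟨B, fun f hfd hf => hB f hfd ?_⟩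
  have := niceG_of_nice (by omega) (by omega) hf
  rwa [hfd] at this

/-- Pencils. -/
theorem main_pencil (K : Type) [Field K] [NumberField K] (g h : K[X]) (hg : 2 ≤ g.natDegree)
    (hh : h.natDegree ≤ 1) (hh0 : h ≠ 0) (k : ℕ)
    (hm : 3 ≤ (g.natDegree - 1) * (k / Nat.gcd (g.natDegree - h.natDegree) k)) :
    ∃ B : ℕ, ∀ c : K,
      Bdd B (Even ((g.natDegree - 1) * (k / Nat.gcd (g.natDegree - h.natDegree) k)))
        (g + C (c ^ k) * h) := by
  obtain ⟨S, hS⟩ := pencil_nice K g h hg hh hh0 k _ dvd_rfl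
  obtain ⟨B, hB⟩ := main_nice K g.natDegree _ hg hm S
  refine ⟨B, fun c => bdd_mono Or.inl (hB _ ?_ (hS c))⟩
  refine natDegree_add_eq_left_of_natDegree_lt ?_
  have := natDegree_C_mul_le (c ^ k) h
  omega

/-- Translates of polynomials in `z ^ e`. -/
theorem main_sym (K : Type) [Field K] [NumberField K] (g : K[X]) (e : ℕ) (he : 3 ≤ e) (k : ℕ)
    (hm : 3 ≤ (e * g.natDegree - 1) * (k / Nat.gcd (e * g.natDegree) k)) :
    ∃ B : ℕ, ∀ c : K, Bdd B True (g.comp (X ^ e) + C (c ^ k)) := by
  have hg : 2 ≤ e * g.natDegree := by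
    by_contra hlt
    have : e * g.natDegree - 1 = 0 := by omega
    rw [this, zero_mul] at hm
    omega
  obtain ⟨L, _, _, φ, hr⟩ := Pool.Agent.MP90787a.T.exists_ext K {Polynomial.cyclotomic e K} (by
    intro p hp
    rw [Finset.mem_singleton] at hp
    subst hp
    exact ⟨(Polynomial.degree_cyclotomic_pos e K (by omega)).ne',
      Polynomial.cyclotomic_ne_zero e K⟩)
  obtain ⟨ζ, hζ⟩ : ∃ ζ : L, IsPrimitiveRoot ζ e := by
    obtain ⟨x, hx⟩ := hr (Polynomial.cyclotomic e K) (by simp)
    refine ⟨x, ?_⟩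
    have : NeZero (e : L) := ⟨Nat.cast_ne_zero.mpr (by omega)⟩
    rw [← Polynomial.isRoot_cyclotomic_iff, ← Polynomial.map_cyclotomic e φ,
      Polynomial.IsRoot.def, Polynomial.eval_map]
    exact hx
  have hnd : ((g.map φ).comp (X ^ e)).natDegree = e * g.natDegree := by
    rw [natDegree_comp, natDegree_X_pow, natDegree_map, mul_comm]
  obtain ⟨S, hS⟩ := pencil_nice L ((g.map φ).comp (X ^ e)) 1 (by omega) (by simp) one_ne_zero k
    ((e * g.natDegree - 1) * (k / Nat.gcd (e * g.natDegree) k)) (by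
      rw [hnd, natDegree_one, Nat.sub_zero])
  obtain ⟨B, hB⟩ := main_nice L (e * g.natDegree) _ hg hm S
  refine ⟨B, fun c => bdd_of_map φ ?_⟩
  have h1 : (g.comp (X ^ e) + C (c ^ k)).map φ = (g.map φ).comp (X ^ e) + C (φ c ^ k) * 1 := by
    rw [Polynomial.map_add, map_comp, Polynomial.map_pow, map_X, map_C, mul_one, map_pow φ]
  rw [h1]
  refine bdd_mono (fun _ => Or.inr ⟨e, ζ, he, hζ, fun x => ?_⟩) (hB _ ?_ (hS (φ c)))
  rotate_left
  · simp only [eval_add, eval_comp, eval_pow, eval_X, mul_one, eval_C, mul_pow,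
      hζ.pow_eq_one, one_mul]
  · rw [mul_one, natDegree_add_C, hnd]

end Pool.Agent.MP90787a.G
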