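import Pool.Agent.Lib.MP_90787a_nt.T.PackEven
import Pool.Agent.Lib.MP_90787a_nt.G.Defs

set_option autoImplicit false

/-!
From the valuations of `T` and `1 - T` to one number field, given the kissing theorems.
-/

namespace Pool.Agent.MP90787a.G

open Polynomial NumberField Height Pool.Agent.UBC90787a

namespace Pack

open Pool.Agent.MP90787a.T

/-- Outside a finite set of places the product of four of the factors of `A ^ n - 1 = - B ^ 2` has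
square valuation. -/
theorem even_sel {L : Type} [Field L] [NumberField L] (n : ℕ) (hn : 4 ≤ n) (ω : L)
    (hω : IsPrimitiveRoot ω n) :
    ∃ S : Finset (FinitePlace L), ∀ A B : L, B ≠ 0 → A ^ n + B ^ 2 = 1 →
      (A - 1) * (A - ω) * (A - ω ^ 2) * (A - ω ^ 3) ≠ 0 ∧
      ∀ v : FinitePlace L, v ∉ S →
        ∃ z : L, z ≠ 0 ∧ v ((A - 1) * (A - ω) * (A - ω ^ 2) * (A - ω ^ 3)) = v z ^ 2 := by
  classical
  have hn0 : n ≠ 0 := by omega
  have hne : NeZero n := ⟨hn0⟩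
  set Z : Finset L := (Finset.univ : Finset (Fin n × Fin n)).image
    (fun p => ω ^ (p.1 : ℕ) - ω ^ (p.2 : ℕ)) with hZ
  obtain ⟨S, hS⟩ := UBC90787a.exists_finset_places Z
  refine ⟨S, fun A B hB hAB => ?_⟩
  have hprod := pow_sub_pow_prod (by omega : 0 < n) hω A 1
  rw [one_pow] at hprod
  simp only [mul_one] at hprod
  have hAB' : A ^ n - 1 = - B ^ 2 := by linear_combination hAB
  have hfac : ∀ j : Fin n, A - ω ^ (j : ℕ) ≠ 0 := by
    intro j hj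
    apply hB
    have h1 : A ^ n - 1 = 0 := by
      rw [hprod]
      exact Finset.prod_eq_zero (Finset.mem_univ j) hj
    rw [h1] at hAB'
    have h2 : B ^ 2 = 0 := by linear_combination hAB'
    exact pow_eq_zero_iff two_ne_zero |>.mp h2
  have f0 := hfac ⟨0, by omega⟩
  have f1 := hfac ⟨1, by omega⟩
  have f2 := hfac ⟨2, by omega⟩
  have f3 := hfac ⟨3, by omega⟩
  simp only [pow_zero, pow_one] at f0 f1 f2 f3
  refine ⟨mul_ne_zero (mul_ne_zero (mul_ne_zero f0 f1) f2) f3, fun v hv => ?_⟩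
  have hg := hS v hv
  have hωv : v ω = 1 := v_root_one v hn0 hω.pow_eq_one
  have hωj : ∀ j : ℕ, v (ω ^ j) = 1 := by
    intro j
    rw [map_pow, hωv, one_pow]
  have hvB : ∏ j : Fin n, v (A - ω ^ (j : ℕ)) = v B ^ 2 := by
    have h1 := congrArg v hAB'
    rw [T.v_neg, map_pow, hprod, map_prod] at h1
    exact h1
  rcases lt_or_ge 1 (v A) with hV | hV
  · have h1 : ∀ j : ℕ, v (A - ω ^ j) = v A := fun j =>
      v_sub_eq v (by rw [hωj]; exact hV)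
    have hA0 : A ≠ 0 := by
      rintro rfl
      rw [map_zero] at hV
      exact absurd hV (by norm_num)
    refine ⟨A ^ 2, pow_ne_zero _ hA0, ?_⟩
    have e0 := h1 0
    have e1 := h1 1
    have e2 := h1 2
    have e3 := h1 3
    simp only [pow_zero, pow_one] at e0 e1 e2 e3
    rw [map_mul, map_mul, map_mul, e0, e1, e2, e3, map_pow]
    ring
  · have hle : ∀ j : Fin n, v (A - ω ^ (j : ℕ)) ≤ 1 := fun j =>
      le1_sub v hV (hωj _).le
    -- at most one factor is not a unit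
    have hone : ∀ i j : Fin n, i ≠ j → v (A - ω ^ (i : ℕ)) < 1 →
        v (A - ω ^ (j : ℕ)) = 1 := by
      intro i j hij hi
      have hd : ω ^ (i : ℕ) - ω ^ (j : ℕ) ≠ 0 := by
        intro h
        exact hij (Fin.ext (hω.pow_inj i.2 j.2 (sub_eq_zero.mp h)))
      have hu : v (ω ^ (i : ℕ) - ω ^ (j : ℕ)) = 1 := by
        refine hg _ ?_ hd
        rw [hZ, Finset.mem_image]
        exact ⟨(i, j), Finset.mem_univ _, rfl⟩
      have h1 : A - ω ^ (j : ℕ) = (ω ^ (i : ℕ) - ω ^ (j : ℕ)) + (A - ω ^ (i : ℕ)) := by ring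
      rw [h1, v_add_eq v (by rw [hu]; exact hi), hu]
    have hsq : ∀ j : Fin n, v (A - ω ^ (j : ℕ)) < 1 →
        v (A - ω ^ (j : ℕ)) = v B ^ 2 := by
      intro j hj
      rw [← hvB, ← Finset.mul_prod_erase _ _ (Finset.mem_univ j), Finset.prod_eq_one, mul_one]
      intro i hi
      exact hone j i (Finset.ne_of_mem_erase hi).symm hj
    have hdich : ∀ j : Fin n, v (A - ω ^ (j : ℕ)) = 1 ∨ v (A - ω ^ (j : ℕ)) < 1 :=
      fun j => (lt_or_eq_of_le (hle j)).symm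
    have d0 := hdich ⟨0, by omega⟩
    have d1 := hdich ⟨1, by omega⟩
    have d2 := hdich ⟨2, by omega⟩
    have d3 := hdich ⟨3, by omega⟩
    have q0 := hsq ⟨0, by omega⟩
    have q1 := hsq ⟨1, by omega⟩
    have q2 := hsq ⟨2, by omega⟩
    have q3 := hsq ⟨3, by omega⟩
    have o01 := hone ⟨0, by omega⟩ ⟨1, by omega⟩ (by simp [Fin.ext_iff])
    have o02 := hone ⟨0, by omega⟩ ⟨2, by omega⟩ (by simp [Fin.ext_iff])
    have o03 := hone ⟨0, by omega⟩ ⟨3, by omega⟩ (by simp [Fin.ext_iff])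
    have o12 := hone ⟨1, by omega⟩ ⟨2, by omega⟩ (by simp [Fin.ext_iff])
    have o13 := hone ⟨1, by omega⟩ ⟨3, by omega⟩ (by simp [Fin.ext_iff])
    have o23 := hone ⟨2, by omega⟩ ⟨3, by omega⟩ (by simp [Fin.ext_iff])
    simp only [pow_zero, pow_one] at d0 d1 d2 d3 q0 q1 q2 q3 o01 o02 o03 o12 o13 o23
    rw [map_mul, map_mul, map_mul]
    rcases d0 with h0 | h0
    · rcases d1 with h1 | h1
      · rcases d2 with h2 | h2
        · rcases d3 with h3 | h3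
          · exact ⟨1, one_ne_zero, by rw [h0, h1, h2, h3]; simp⟩
          · exact ⟨B, hB, by rw [h0, h1, h2, q3 h3]; simp⟩
        · exact ⟨B, hB, by rw [h0, h1, q2 h2, o23 h2]; simp⟩
      · exact ⟨B, hB, by rw [h0, q1 h1, o12 h1, o13 h1]; simp⟩
    · exact ⟨B, hB, by rw [q0 h0, o01 h0, o02 h0, o03 h0]; simp⟩

theorem packT_even_of (K : Type) [Field K] [NumberField K] (n : ℕ) (hn : 4 ≤ n)
    (hk : ∀ (L : Type) [Field L] [NumberField L] (ω : L), IsPrimitiveRoot ω n →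
      KissT L {T | T ≠ 0 ∧ T ≠ 1 ∧ ∃ A w : L, w ≠ 0 ∧ T = A ^ n ∧
        (A - 1) * (A - ω) * (A - ω ^ 2) * (A - ω ^ 3) = w ^ 2})
    (S₀ : Finset (FinitePlace K)) :
    ∃ (L : Type) (_ : Field L) (_ : NumberField L) (f : K →+* L) (D : Set L) (E : Finset K),
      KissT L D ∧ ∀ T : K, T ≠ 0 → T ≠ 1 → T ∉ E →
        (∀ v : FinitePlace K, v ∉ S₀ → ∃ b : K, b ≠ 0 ∧ v T = v b ^ n) →
        (∀ v : FinitePlace K, v ∉ S₀ → ∃ b : K, b ≠ 0 ∧ v (1 - T) = v b ^ 2) →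
        f T ∈ D := by
  classical
  have hn0 : n ≠ 0 := by omega
  obtain ⟨T₁, hT₁, hsel₁⟩ := T.selmer K n (by omega) S₀
  obtain ⟨T₁', hT₁', hsel₁'⟩ := T.selmer K 2 (by omega) S₀
  obtain ⟨L₁, _, _, f₁, hr₁⟩ := T.exists_ext K
    (T₁.image (fun τ => Polynomial.X ^ n - Polynomial.C τ) ∪
      (T₁'.image (fun τ => Polynomial.X ^ 2 - Polynomial.C τ) ∪
      {Polynomial.cyclotomic n K})) (by
    intro p hp
    rw [Finset.mem_union, Finset.mem_union, Finset.mem_image, Finset.mem_image,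
      Finset.mem_singleton] at hp
    rcases hp with ⟨τ, _, rfl⟩ | ⟨τ, _, rfl⟩ | rfl
    · rw [Polynomial.degree_X_pow_sub_C (by omega)]
      exact ⟨by exact_mod_cast hn0, Polynomial.X_pow_sub_C_ne_zero (by omega) _⟩
    · rw [Polynomial.degree_X_pow_sub_C (by omega)]
      exact ⟨by norm_num, Polynomial.X_pow_sub_C_ne_zero (by omega) _⟩
    · exact ⟨(Polynomial.degree_cyclotomic_pos n K (by omega)).ne',
        Polynomial.cyclotomic_ne_zero n K⟩)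
  have hσ : ∀ τ ∈ T₁, ∃ σ : L₁, σ ^ n = f₁ τ := by
    intro τ hτ
    obtain ⟨x, hx⟩ := hr₁ (Polynomial.X ^ n - Polynomial.C τ) (by
      rw [Finset.mem_union, Finset.mem_image]
      exact Or.inl ⟨τ, hτ, rfl⟩)
    refine ⟨x, ?_⟩
    simp only [Polynomial.eval₂_sub, Polynomial.eval₂_pow, Polynomial.eval₂_X,
      Polynomial.eval₂_C] at hx
    exact sub_eq_zero.mp hx
  have hσ' : ∀ τ ∈ T₁', ∃ σ : L₁, σ ^ 2 = f₁ τ := by
    intro τ hτ
    obtain ⟨x, hx⟩ := hr₁ (Polynomial.X ^ 2 - Polynomial.C τ) (by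
      rw [Finset.mem_union, Finset.mem_union, Finset.mem_image, Finset.mem_image]
      exact Or.inr (Or.inl ⟨τ, hτ, rfl⟩))
    refine ⟨x, ?_⟩
    simp only [Polynomial.eval₂_sub, Polynomial.eval₂_pow, Polynomial.eval₂_X,
      Polynomial.eval₂_C] at hx
    exact sub_eq_zero.mp hx
  obtain ⟨ω, hω⟩ : ∃ ω : L₁, IsPrimitiveRoot ω n := by
    obtain ⟨x, hx⟩ := hr₁ (Polynomial.cyclotomic n K) (by simp)
    refine ⟨x, ?_⟩
    have : NeZero (n : L₁) := ⟨Nat.cast_ne_zero.mpr hn0⟩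
    rw [← Polynomial.isRoot_cyclotomic_iff, ← Polynomial.map_cyclotomic n f₁,
      Polynomial.IsRoot.def, Polynomial.eval_map]
    exact hx
  obtain ⟨S₂, hS₂⟩ := even_sel n hn ω hω
  obtain ⟨T₂, hT₂, hsel₂⟩ := T.selmer L₁ 2 (by norm_num) S₂
  obtain ⟨L₂, _, _, f₂, hr₂⟩ := T.exists_ext L₁
    (T₂.image (fun τ => Polynomial.X ^ 2 - Polynomial.C τ)) (by
    intro p hp
    obtain ⟨τ, _, rfl⟩ := Finset.mem_image.mp hp
    rw [Polynomial.degree_X_pow_sub_C (by norm_num)]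
    exact ⟨by norm_num, Polynomial.X_pow_sub_C_ne_zero (by norm_num) _⟩)
  have hσ₂ : ∀ τ ∈ T₂, ∃ σ : L₂, σ ^ 2 = f₂ τ := by
    intro τ hτ
    obtain ⟨x, hx⟩ := hr₂ (Polynomial.X ^ 2 - Polynomial.C τ) (Finset.mem_image_of_mem _ hτ)
    refine ⟨x, ?_⟩
    simp only [Polynomial.eval₂_sub, Polynomial.eval₂_pow, Polynomial.eval₂_X,
      Polynomial.eval₂_C] at hx
    exact sub_eq_zero.mp hx
  refine ⟨L₂, inferInstance, inferInstance, f₂.comp f₁, _, ∅,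
    hk L₂ (f₂ ω) (hω.map_of_injective f₂.injective), ?_⟩
  intro t ht0 ht1 _ h1 h2
  have h1t : (1 - t : K) ≠ 0 := sub_ne_zero.mpr (Ne.symm ht1)
  obtain ⟨τ, hτ, w, hw, hq⟩ := hsel₁ t ht0 h1
  obtain ⟨σ, hσt⟩ := hσ τ hτ
  obtain ⟨τ', hτ', w', hw', hq'⟩ := hsel₁' (1 - t) h1t h2
  obtain ⟨σ', hσt'⟩ := hσ' τ' hτ'
  set A : L₁ := σ * f₁ w with hA
  set B : L₁ := σ' * f₁ w' with hB
  have hAn : f₁ t = A ^ n := by
    rw [hA, mul_pow, hσt, ← map_pow, ← map_mul, ← hq]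
  have hBn : f₁ (1 - t) = B ^ 2 := by
    rw [hB, mul_pow, hσt', ← map_pow, ← map_mul, ← hq']
  have hB0 : B ≠ 0 := by
    intro h0
    rw [h0, zero_pow two_ne_zero] at hBn
    exact h1t ((map_eq_zero f₁).mp hBn)
  obtain ⟨hne, hval⟩ := hS₂ A B hB0 (by
    rw [← hAn, ← hBn, map_sub, map_one]
    ring)
  obtain ⟨τ₂, hτ₂, w₂, hw₂, hprod⟩ := hsel₂ _ hne hval
  obtain ⟨σ₂, hσ₂'⟩ := hσ₂ τ₂ hτ₂
  refine ⟨(_root_.map_ne_zero (f₂.comp f₁)).mpr ht0, fun h => ht1 ((f₂.comp f₁).injective (by rw [h, map_one])),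
    f₂ A, σ₂ * f₂ w₂, ?_, ?_, ?_⟩
  · refine mul_ne_zero ?_ ((_root_.map_ne_zero f₂).mpr hw₂)
    rintro rfl
    rw [zero_pow two_ne_zero] at hσ₂'
    exact hT₂ τ₂ hτ₂ ((map_eq_zero f₂).mp hσ₂'.symm)
  · rw [RingHom.comp_apply, hAn, map_pow]
  · have h3 := congrArg f₂ hprod
    rw [mul_pow, hσ₂']
    simp only [map_mul, map_pow, map_sub, map_one] at h3 ⊢
    exact h3

theorem packT_odd_of (K : Type) [Field K] [NumberField K] (n : ℕ) (hn : 3 ≤ n) (hodd : Odd n)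
    (hk : ∀ (L : Type) [Field L] [NumberField L] (ω : L), IsPrimitiveRoot ω n →
      ∀ ρ : L, 4 * ρ ^ n = 1 →
      KissT L {T | T ≠ 0 ∧ T ≠ 1 ∧ ∃ V w : L, w ≠ 0 ∧ T * (1 - T) = V ^ n ∧
        (V - ρ) * (V - ω * ρ) * (V - ω ^ 2 * ρ) = w ^ 2})
    (S₀ : Finset (FinitePlace K)) :
    ∃ (L : Type) (_ : Field L) (_ : NumberField L) (f : K →+* L) (D : Set L) (E : Finset K),
      KissT L D ∧ ∀ T : K, T ≠ 0 → T ≠ 1 → T ∉ E →
        (∀ v : FinitePlace K, v ∉ S₀ → ∃ b : K, b ≠ 0 ∧ v T = v b ^ n) →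
        (∀ v : FinitePlace K, v ∉ S₀ → ∃ b : K, b ≠ 0 ∧ v (1 - T) = v b ^ n) →
        f T ∈ D := by
  classical
  have hn0 : n ≠ 0 := by omega
  obtain ⟨T₁, hT₁, hsel₁⟩ := T.selmer K n (by omega) S₀
  have h40 : (4 : K) ≠ 0 := by norm_num
  obtain ⟨L₁, _, _, f₁, hr₁⟩ := T.exists_ext K
    (T₁.image (fun τ => Polynomial.X ^ n - Polynomial.C τ) ∪
      {Polynomial.cyclotomic n K, Polynomial.X ^ n - Polynomial.C (4 : K)⁻¹}) (by
    intro p hp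
    rw [Finset.mem_union, Finset.mem_image, Finset.mem_insert, Finset.mem_singleton] at hp
    rcases hp with ⟨τ, _, rfl⟩ | rfl | rfl
    · rw [Polynomial.degree_X_pow_sub_C (by omega)]
      exact ⟨by exact_mod_cast hn0, Polynomial.X_pow_sub_C_ne_zero (by omega) _⟩
    · exact ⟨(Polynomial.degree_cyclotomic_pos n K (by omega)).ne',
        Polynomial.cyclotomic_ne_zero n K⟩
    · rw [Polynomial.degree_X_pow_sub_C (by omega)]
      exact ⟨by exact_mod_cast hn0, Polynomial.X_pow_sub_C_ne_zero (by omega) _⟩)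
  have hσ : ∀ τ ∈ T₁, ∃ σ : L₁, σ ^ n = f₁ τ := by
    intro τ hτ
    obtain ⟨x, hx⟩ := hr₁ (Polynomial.X ^ n - Polynomial.C τ) (by
      rw [Finset.mem_union, Finset.mem_image]
      exact Or.inl ⟨τ, hτ, rfl⟩)
    refine ⟨x, ?_⟩
    simp only [Polynomial.eval₂_sub, Polynomial.eval₂_pow, Polynomial.eval₂_X,
      Polynomial.eval₂_C] at hx
    exact sub_eq_zero.mp hx
  obtain ⟨ω, hω⟩ : ∃ ω : L₁, IsPrimitiveRoot ω n := by
    obtain ⟨x, hx⟩ := hr₁ (Polynomial.cyclotomic n K) (by simp)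
    refine ⟨x, ?_⟩
    have : NeZero (n : L₁) := ⟨Nat.cast_ne_zero.mpr hn0⟩
    rw [← Polynomial.isRoot_cyclotomic_iff, ← Polynomial.map_cyclotomic n f₁,
      Polynomial.IsRoot.def, Polynomial.eval_map]
    exact hx
  obtain ⟨ρ, hρ⟩ : ∃ ρ : L₁, 4 * ρ ^ n = 1 := by
    obtain ⟨x, hx⟩ := hr₁ (Polynomial.X ^ n - Polynomial.C (4 : K)⁻¹) (by simp)
    refine ⟨x, ?_⟩
    simp only [Polynomial.eval₂_sub, Polynomial.eval₂_pow,
      Polynomial.eval₂_X, Polynomial.eval₂_C] at hx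
    rw [sub_eq_zero.mp hx, map_inv₀, map_ofNat]
    exact mul_inv_cancel₀ (by norm_num)
  have hρ0 : ρ ≠ 0 := by
    rintro rfl
    rw [zero_pow hn0, mul_zero] at hρ
    exact zero_ne_one hρ
  obtain ⟨S₂, hS₂⟩ := T.odd_sel n hn hodd ω hω (-4 : L₁) ρ (by norm_num) hρ0
  obtain ⟨T₂, hT₂, hsel₂⟩ := T.selmer L₁ 2 (by norm_num) S₂
  obtain ⟨L₂, _, _, f₂, hr₂⟩ := T.exists_ext L₁
    (T₂.image (fun τ => Polynomial.X ^ 2 - Polynomial.C τ)) (by
    intro p hp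
    obtain ⟨τ, _, rfl⟩ := Finset.mem_image.mp hp
    rw [Polynomial.degree_X_pow_sub_C (by norm_num)]
    exact ⟨by norm_num, Polynomial.X_pow_sub_C_ne_zero (by norm_num) _⟩)
  have hσ₂ : ∀ τ ∈ T₂, ∃ σ : L₂, σ ^ 2 = f₂ τ := by
    intro τ hτ
    obtain ⟨x, hx⟩ := hr₂ (Polynomial.X ^ 2 - Polynomial.C τ) (Finset.mem_image_of_mem _ hτ)
    refine ⟨x, ?_⟩
    simp only [Polynomial.eval₂_sub, Polynomial.eval₂_pow, Polynomial.eval₂_X,
      Polynomial.eval₂_C] at hx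
    exact sub_eq_zero.mp hx
  have hρ₂ : 4 * (f₂ ρ) ^ n = 1 := by
    have h1 := congrArg f₂ hρ
    rwa [map_mul, map_pow, map_ofNat, map_one] at h1
  refine ⟨L₂, inferInstance, inferInstance, f₂.comp f₁, _, {(2 : K)⁻¹},
    hk L₂ (f₂ ω) (hω.map_of_injective f₂.injective) (f₂ ρ) hρ₂, ?_⟩
  intro t ht0 ht1 htE h1 h2
  rw [Finset.mem_singleton] at htE
  have h1t : (1 - t : K) ≠ 0 := sub_ne_zero.mpr (Ne.symm ht1)
  obtain ⟨τ, hτ, w, hw, hq⟩ := hsel₁ t ht0 h1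
  obtain ⟨σ, hσt⟩ := hσ τ hτ
  obtain ⟨τ', hτ', w', hw', hq'⟩ := hsel₁ (1 - t) h1t h2
  obtain ⟨σ', hσt'⟩ := hσ τ' hτ'
  have hAn : f₁ t = (σ * f₁ w) ^ n := by
    rw [mul_pow, hσt, ← map_pow, ← map_mul, ← hq]
  have hBn : f₁ (1 - t) = (σ' * f₁ w') ^ n := by
    rw [mul_pow, hσt', ← map_pow, ← map_mul, ← hq']
  set V : L₁ := (σ * f₁ w) * (σ' * f₁ w') with hV
  have hVn : f₁ t * f₁ (1 - t) = V ^ n := by
    rw [hV, mul_pow, ← hAn, ← hBn]
  have hW0 : f₁ (1 - 2 * t) ≠ 0 := by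
    rw [Ne, map_eq_zero, sub_eq_zero]
    intro h
    apply htE
    rw [eq_comm, inv_eq_iff_eq_inv, ← one_div, eq_div_iff ht0]
    exact h.symm
  obtain ⟨hne, hval⟩ := hS₂ V (f₁ (1 - 2 * t)) hW0 (by
    have h3 : f₁ (1 - 2 * t) = 1 - 2 * f₁ t := by
      rw [map_sub, map_mul, map_one, map_ofNat]
    have h4 : f₁ (1 - t) = 1 - f₁ t := by rw [map_sub, map_one]
    rw [h3, ← hVn, h4]
    linear_combination hρ)
  obtain ⟨τ₂, hτ₂, w₂, hw₂, hprod⟩ := hsel₂ _ hne hval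
  obtain ⟨σ₂, hσ₂'⟩ := hσ₂ τ₂ hτ₂
  refine ⟨(_root_.map_ne_zero (f₂.comp f₁)).mpr ht0, fun h => ht1 ((f₂.comp f₁).injective (by rw [h, map_one])),
    f₂ V, σ₂ * f₂ w₂, ?_, ?_, ?_⟩
  · refine mul_ne_zero ?_ ((_root_.map_ne_zero f₂).mpr hw₂)
    rintro rfl
    rw [zero_pow two_ne_zero] at hσ₂'
    exact hT₂ τ₂ hτ₂ ((map_eq_zero f₂).mp hσ₂'.symm)
  · have h3 := congrArg f₂ hVn
    rw [map_mul, map_pow] at h3
    rw [RingHom.comp_apply, ← h3, map_sub f₁, map_sub f₂, map_one f₁, map_one f₂]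
  · have h3 := congrArg f₂ hprod
    rw [mul_pow, hσ₂']
    simp only [map_mul, map_pow, map_sub] at h3 ⊢
    exact h3

end Pack

end Pool.Agent.MP90787a.G
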