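import Pool.Agent.Lib.MP_90787a_nt.G.LocSimple
import Pool.Agent.Lib.MP_90787a_nt.G.Translates
import Pool.Agent.Lib.MP_90787a_nt.G.TwoScale

set_option autoImplicit false

/-!
MP_90787a_nt, Theorem G: the pencils `g + c ^ k h` with `deg h ≤ deg g - 2` and `h` separable.
-/

namespace Pool.Agent.MP90787a.G

open Polynomial NumberField Height Pool.Agent.UBC90787a

namespace Pencil2

open Translates LocSimple

lemma zpow_aux {ρ a : ℝ} {m : ℕ} (hρ0 : 0 < ρ) (h : ρ = a ^ m) (i j : ℤ) :
    ρ ^ i = ρ ^ j * (a ^ (i - j)) ^ m := by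
  have h1 : (a ^ (i - j)) ^ m = ρ ^ (i - j) := by
    rw [h, ← zpow_natCast, ← zpow_natCast, ← zpow_mul, ← zpow_mul, mul_comm]
  rw [h1, ← zpow_add₀ hρ0.ne']
  congr 1
  ring

section place

variable {K : Type} [Field K] [NumberField K] (v : FinitePlace K)

lemma coeff_le_of_unit {p : K[X]} (hp : ∀ i, p.coeff i ≠ 0 → v (p.coeff i) = 1) (i : ℕ) :
    v (p.coeff i) ≤ 1 := by
  rcases eq_or_ne (p.coeff i) 0 with h0 | h0
  · rw [h0, map_zero]; exact zero_le_one
  · exact (hp i h0).le

/-- Value at a point of absolute value greater than one. -/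
lemma eval_eq_pow {p : K[X]} (hp : ∀ i, v (p.coeff i) ≤ 1) (hl : v p.leadingCoeff = 1) {x : K}
    (hx : 1 < v x) : v (p.eval x) = v x ^ p.natDegree := by
  have h1 : p.eval x = p.eraseLead.eval x + p.leadingCoeff * x ^ p.natDegree := by
    have := congrArg (fun q : K[X] => q.eval x) p.eraseLead_add_C_mul_X_pow
    simp only [eval_add, eval_mul, eval_C, eval_pow, eval_X] at this
    exact this.symm
  have h2 : v (p.leadingCoeff * x ^ p.natDegree) = v x ^ p.natDegree := by
    rw [map_mul, map_pow, hl, one_mul]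
  rcases Nat.eq_zero_or_pos p.natDegree with h0 | h0
  · have h3 : p.eraseLead = 0 := by
      rw [eq_C_of_natDegree_eq_zero h0]
      simp
    rw [h1, h3, eval_zero, zero_add, h2]
  · have h3 : v (p.eraseLead.eval x) ≤ v x ^ (p.natDegree - 1) := by
      apply eval_le v _ hx.le le_rfl p.eraseLead_natDegree_le
      intro i
      rcases eq_or_ne i p.natDegree with h | h
      · rw [h, eraseLead_coeff_natDegree, map_zero]; exact zero_le_one
      · rw [eraseLead_coeff_of_ne _ h]; exact hp i
    have h4 : v x ^ (p.natDegree - 1) < v x ^ p.natDegree :=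
      pow_lt_pow_right₀ hx (by omega)
    rw [h1, add_eq_of_lt v (by rw [h2]; exact h3.trans_lt h4), h2]

lemma eval_le_one {p : K[X]} (hp : ∀ i, v (p.coeff i) ≤ 1) {x : K} (hx : v x ≤ 1) :
    v (p.eval x) ≤ 1 := by
  have := eval_le v hp le_rfl hx (n := p.natDegree) le_rfl
  rwa [one_pow] at this

lemma taylor_coeff_le_one {p : K[X]} (hp : ∀ i, v (p.coeff i) ≤ 1) {y : K} (hy : v y ≤ 1)
    (i : ℕ) : v ((taylor y p).coeff i) ≤ 1 := by
  rw [taylor_coeff]
  apply eval_le_one v _ hy
  intro j
  rw [hasseDeriv_coeff, map_mul]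
  exact mul_le_one₀ (natCast_le v _) (apply_nonneg v _) (hp _)

/-- Expansion at the small points. -/
lemma expand_small {f : K[X]} {R : ℝ} (hR : 0 < R) {x y : K} (hy : v y ≤ 1)
    (hco : ∀ i, v ((taylor y f).coeff i) ≤ R) (hder : v (f.derivative.eval y) = R)
    (hxy : v (x - y) < 1) : v (f.eval x - f.eval y) = R * v (x - y) := by
  rcases eq_or_ne x y with rfl | hne
  · simp
  have hz : 0 < v (x - y) := FinitePlace.pos_iff.mpr (sub_ne_zero.mpr hne)
  have hnat : (taylor y f).natDegree = f.natDegree := by rw [natDegree_taylor]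
  have hev : f.eval x = ∑ i ∈ Finset.range (f.natDegree + 1 + 1),
      (taylor y f).coeff i * (x - y) ^ i := by
    have h2 : (taylor y f).eval (x - y) = f.eval x := by
      rw [taylor_eval, sub_add_cancel]
    rw [← h2, eval_eq_sum_range' (n := f.natDegree + 1 + 1) (by omega)]
  have hsplit : f.eval x - f.eval y = f.derivative.eval y * (x - y) +
      ∑ i ∈ Finset.range f.natDegree, (taylor y f).coeff (i + 1 + 1) * (x - y) ^ (i + 1 + 1) := by
    rw [hev, Finset.sum_range_succ', Finset.sum_range_succ', taylor_coeff_zero, zero_add,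
      taylor_coeff_one]
    ring
  have hmain : v (f.derivative.eval y * (x - y)) = R * v (x - y) := by
    rw [map_mul, hder]
  have hrest : v (∑ i ∈ Finset.range f.natDegree,
      (taylor y f).coeff (i + 1 + 1) * (x - y) ^ (i + 1 + 1)) <
      v (f.derivative.eval y * (x - y)) := by
    rw [hmain]
    apply pl_sum_lt _ _ (by positivity)
    intro i _
    rw [map_mul, map_pow]
    have h3 : v (x - y) ^ (i + 1 + 1) < v (x - y) := by
      calc v (x - y) ^ (i + 1 + 1) = v (x - y) ^ (i + 1) * v (x - y) := pow_succ _ _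
        _ < 1 * v (x - y) :=
          mul_lt_mul_of_pos_right (pow_lt_one₀ hz.le hxy (by omega)) hz
        _ = v (x - y) := one_mul _
    calc v ((taylor y f).coeff (i + 1 + 1)) * v (x - y) ^ (i + 1 + 1)
        ≤ R * v (x - y) ^ (i + 1 + 1) := mul_le_mul_of_nonneg_right (hco _) (by positivity)
      _ < R * v (x - y) := mul_lt_mul_of_pos_left h3 hR
  rw [hsplit, pl_add_eq hrest, hmain]

/-- Few classes of small points. -/
lemma lagrange_small {h : K[X]} (h0 : h ≠ 0) (hl : v h.leadingCoeff = 1) (Y : Finset K)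
    (hcard : Y.card = h.natDegree + 1) (hY : ∀ x ∈ Y, ∀ y ∈ Y, x ≠ y → 1 ≤ v (x - y))
    (hh : ∀ x ∈ Y, v (h.eval x) < 1) : False := by
  classical
  have hdeg : (Y.card : WithBot ℕ) = h.degree + 1 := by
    rw [degree_eq_natDegree h0, hcard]
    push_cast
    rfl
  have hL := Lagrange.leadingCoeff_eq_sum (s := Y) (v := fun x : K => x)
    (Set.injOn_id _) hdeg
  have hbound : v h.leadingCoeff < 1 := by
    rw [hL]
    apply pl_sum_lt _ _ one_pos
    intro i hi
    rw [map_div₀, map_prod]
    have h2 : 1 ≤ ∏ j ∈ Y.erase i, v (i - j) := by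
      rw [← Finset.prod_const_one (s := Y.erase i)]
      apply Finset.prod_le_prod
      · intro j _
        exact zero_le_one
      · intro j hj
        rw [Finset.mem_erase] at hj
        exact hY i hi j hj.2 (Ne.symm hj.1)
    rw [div_lt_one (by linarith)]
    exact (hh i hi).trans_le h2
  rw [hl] at hbound
  exact lt_irrefl _ hbound

end place

end Pencil2

open Pencil2 Translates LocSimple in
theorem pencil2_niceG (K : Type) [Field K] [NumberField K] (g h : K[X])
    (hd : h.natDegree + 2 ≤ g.natDegree) (hh : h.Separable) (k m : ℕ) (hm0 : m ≠ 0)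
    (hm : m ∣ k / Nat.gcd (g.natDegree - h.natDegree) k) :
    ∃ S : Finset (FinitePlace K), ∀ c : K,
      NiceG S m g.natDegree ((g.natDegree - 1 : ℕ) : ℝ) (g + C (c ^ k) * h) := by
  classical
  obtain ⟨A₀, B₀, hAB₀⟩ := hh
  have hh0 : h ≠ 0 := by
    rintro rfl
    simp at hAB₀
  obtain ⟨S, hS⟩ := exists_finset_places
    ((Finset.range (g.natDegree + 1)).image g.coeff ∪
      ((Finset.range (h.natDegree + 1)).image h.coeff ∪
      ((Finset.range (A₀.natDegree + 1)).image A₀.coeff ∪
      ((Finset.range (B₀.natDegree + 1)).image B₀.coeff ∪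
      {(g.natDegree : K), ((g.natDegree - h.natDegree : ℕ) : K)}))))
  refine ⟨S, fun c₀ v hv => ?_⟩
  have hv' := hS v hv
  have hcoef : ∀ (p : K[X]), (∀ x ∈ (Finset.range (p.natDegree + 1)).image p.coeff,
      x ≠ 0 → v x = 1) → ∀ i, v (p.coeff i) ≤ 1 := by
    intro p hp
    apply coeff_le_of_unit v
    intro i hi
    refine hp _ (Finset.mem_image_of_mem _ (Finset.mem_range.2 ?_)) hi
    by_contra hlt
    exact hi (coeff_eq_zero_of_natDegree_lt (by omega))
  have hgc : ∀ i, v (g.coeff i) ≤ 1 := hcoef g fun x hx => hv' x (by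
    apply Finset.mem_union_left; exact hx)
  have hhc : ∀ i, v (h.coeff i) ≤ 1 := hcoef h fun x hx => hv' x (by
    apply Finset.mem_union_right; apply Finset.mem_union_left; exact hx)
  have hAc : ∀ i, v (A₀.coeff i) ≤ 1 := hcoef A₀ fun x hx => hv' x (by
    apply Finset.mem_union_right; apply Finset.mem_union_right
    apply Finset.mem_union_left; exact hx)
  have hBc : ∀ i, v (B₀.coeff i) ≤ 1 := hcoef B₀ fun x hx => hv' x (by
    apply Finset.mem_union_right; apply Finset.mem_union_right
    apply Finset.mem_union_right; apply Finset.mem_union_left; exact hx)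
  have hg0 : g ≠ 0 := by
    rintro rfl
    simp at hd
  have hlc : v g.leadingCoeff = 1 := by
    refine hv' _ ?_ (leadingCoeff_ne_zero.2 hg0)
    apply Finset.mem_union_left
    exact Finset.mem_image_of_mem _ (Finset.mem_range.2 (by omega))
  have hhl : v h.leadingCoeff = 1 := by
    refine hv' _ ?_ (leadingCoeff_ne_zero.2 hh0)
    apply Finset.mem_union_right; apply Finset.mem_union_left
    exact Finset.mem_image_of_mem _ (Finset.mem_range.2 (by omega))
  have hde1 : v ((g.natDegree - h.natDegree : ℕ) : K) = 1 := by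
    refine hv' _ ?_ ?_
    · apply Finset.mem_union_right; apply Finset.mem_union_right
      apply Finset.mem_union_right; apply Finset.mem_union_right
      simp
    · have : g.natDegree - h.natDegree ≠ 0 := by omega
      exact_mod_cast this
  obtain ⟨d, hdd⟩ : ∃ d, d = g.natDegree := ⟨_, rfl⟩
  obtain ⟨e, hee⟩ : ∃ e, e = h.natDegree := ⟨_, rfl⟩
  obtain ⟨c, hcdef⟩ : ∃ c : K, c = c₀ ^ k := ⟨_, rfl⟩
  rw [← hcdef]
  rw [← hdd, ← hee] at hd hm hde1
  rw [← hdd]
  have hfd : (g + C c * h).natDegree = d := by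
    rw [natDegree_add_eq_left_of_natDegree_lt, ← hdd]
    exact lt_of_le_of_lt (natDegree_C_mul_le c h) (by omega)
  have hfc : ∀ i, (g + C c * h).coeff i = g.coeff i + c * h.coeff i := fun i => by
    rw [coeff_add, coeff_C_mul]
  have hflc : (g + C c * h).leadingCoeff = g.leadingCoeff := by
    rw [leadingCoeff, hfd, hfc, coeff_eq_zero_of_natDegree_lt (show h.natDegree < d by omega),
      mul_zero, add_zero, leadingCoeff, ← hdd]
  have hvlc : v (g + C c * h).leadingCoeff = 1 := by rw [hflc, hlc]
  have hcont : ∀ i, (g + C c * h).coeff i = (conjPoly (g + C c * h) 1 0).coeff i := fun i => by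
    rw [conjPoly_zero]
  rcases le_or_gt (v c) 1 with hc | hc
  · left
    refine ⟨0, 1, ⟨one_pos, ?_, fun i _ => ?_⟩, ?_⟩
    · rw [hvlc, one_pow, mul_one]
    · rw [← hcont, hvlc, one_pow, mul_one, hfc]
      refine (FinitePlace.add_le v _ _).trans (max_le (hgc i) ?_)
      rw [map_mul]
      exact mul_le_one₀ hc (apply_nonneg v _) (hhc i)
    · rw [hvlc, one_pow, mul_one]
  right
  obtain ⟨r, hr1, hrd⟩ := exists_root hc (n := d - e) (by omega)
  have hr0 : 0 < r := by linarith
  have hrle : ∀ {i j : ℕ}, i ≤ j → r ^ i ≤ r ^ j := fun hij => pow_le_pow_right₀ hr1.le hij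
  have hrlt : ∀ {i j : ℕ}, i < j → r ^ i < r ^ j := fun hij => pow_lt_pow_right₀ hr1 hij
  have hrde : r < r ^ (d - e) := by
    calc r = r ^ 1 := (pow_one r).symm
      _ < r ^ (d - e) := hrlt (by omega)
  obtain ⟨f, hf⟩ : ∃ f, f = g + C c * h := ⟨_, rfl⟩
  have hfev : ∀ x, f.eval x = g.eval x + c * h.eval x := fun x => by
    rw [hf, eval_add, eval_mul, eval_C]
  have hfdev : ∀ x, (derivative f).eval x = (derivative g).eval x + c * (derivative h).eval x :=
    fun x => by
    rw [hf, derivative_add, derivative_C_mul, eval_add, eval_mul, eval_C]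
  rw [← hf] at hfd hvlc hcont hfc hflc ⊢
  have hd2 : 2 ≤ f.natDegree := by omega
  have hE : EscapeDisc v f 0 r := by
    refine ⟨hr0, ?_, fun i hi => ?_⟩
    · rw [hvlc, one_mul]
      exact one_le_pow₀ hr1.le
    · rw [← hcont, hvlc, one_mul, hfd, hfc]
      refine (FinitePlace.add_le v _ _).trans (max_le ((hgc i).trans (one_le_pow₀ hr1.le)) ?_)
      rcases Nat.lt_or_ge e i with h2 | h2
      · rw [coeff_eq_zero_of_natDegree_lt (show h.natDegree < i by omega), mul_zero, map_zero]
        positivity
      · rw [map_mul, ← hrd]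
        calc r ^ (d - e) * v (h.coeff i) ≤ r ^ (d - e) * 1 :=
              mul_le_mul_of_nonneg_left (hhc i) (by positivity)
          _ = r ^ (d - e) := mul_one _
          _ ≤ r ^ (d - i) := hrle (by omega)
  have hρ1 : 1 < v f.leadingCoeff * r ^ (f.natDegree - 1) := by
    rw [hvlc, one_mul]
    exact one_lt_pow₀ hr1 (by omega)
  have hlw : localWeight v f ≤ ((d - 1 : ℕ) : ℝ) * Real.log r := by
    have := localWeight_le hE
    rwa [hvlc, one_mul, hfd, Real.log_pow] at this
  obtain ⟨φ, hφ⟩ : ∃ φ : K → K, φ = fun z => f.eval z := ⟨_, rfl⟩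
  have hφx : ∀ x, φ x = f.eval x := fun x => by rw [hφ]
  -- the preperiodic points lie in the disc
  obtain ⟨L, _, _, _, ι, hι⟩ := exists_ultra_field v
  have hrad : IsRadius ((conjPoly f 1 0).map ι) r := (escapeDisc_iff hι (by omega) 0 r).mp hE
  have hnd : ((conjPoly f 1 0).map ι).natDegree = f.natDegree := map_natDegree one_ne_zero 0
  have hin : ∀ x : K, Preper φ x → v x ≤ r := by
    intro x hx
    rw [hφ] at hx
    have h1 := hrad.preper_le (by omega) (hx.transport (ι := ι) one_ne_zero 0)
    rw [one_mul, hι, sub_zero] at h1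
    exact h1
  have hdist : ∀ x y : K, Preper φ x → Preper φ y → v (x - y) ≤ r := by
    intro x y hx hy
    exact (pl_sub_le_max x y).trans (max_le (hin x hx) (hin y hy))
  -- the two types
  have htype : ∀ x : K, Preper φ x → v x = r ∨ (v x ≤ 1 ∧ v (h.eval x) < 1) := by
    intro x hx
    have hfx : v (f.eval x) ≤ r := by rw [← hφx]; exact hin _ hx.apply
    rcases (hin x hx).lt_or_eq with h1 | h1
    · right
      rcases le_or_gt (v x) 1 with h2 | h2
      · refine ⟨h2, ?_⟩
        have h3 : v (c * h.eval x) ≤ r := by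
          have e1 : c * h.eval x = f.eval x - g.eval x := by rw [hfev]; ring
          rw [e1]
          exact (pl_sub_le_max _ _).trans
            (max_le hfx ((eval_le_one v hgc h2).trans hr1.le))
        rw [map_mul, ← hrd] at h3
        by_contra hcon
        push Not at hcon
        have h4 : r ^ (d - e) * 1 ≤ r ^ (d - e) * v (h.eval x) :=
          mul_le_mul_of_nonneg_left hcon (by positivity)
        linarith
      · exfalso
        have h3 : v (h.eval x) = v x ^ e := by
          rw [eval_eq_pow v hhc hhl h2, hee]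
        have h4 : v (g.eval x) ≤ v x ^ d := eval_le v hgc h2.le le_rfl (by omega)
        have h5 : v x ^ d < v (c * h.eval x) := by
          rw [map_mul, ← hrd, h3]
          have h6 : v x ^ (d - e) < r ^ (d - e) := pow_lt_pow_left₀ h1 (by linarith) (by omega)
          calc v x ^ d = v x ^ (d - e) * v x ^ e := by rw [← pow_add]; congr 1; omega
            _ < r ^ (d - e) * v x ^ e := mul_lt_mul_of_pos_right h6 (by positivity)
        have h6 : v (f.eval x) = v (c * h.eval x) := by
          rw [hfev, add_eq_of_lt v (h4.trans_lt h5)]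
        rw [h6, map_mul, ← hrd, h3] at hfx
        have h7 : 1 ≤ v x ^ e := one_le_pow₀ h2.le
        have h8 : r ^ (d - e) * 1 ≤ r ^ (d - e) * v x ^ e :=
          mul_le_mul_of_nonneg_left h7 (by positivity)
        linarith
    · left; exact h1
  -- derivatives
  have hderA : ∀ x : K, Preper φ x → v x = r → v (f.derivative.eval x) = r ^ (d - 1) := by
    intro x hx hxr
    have hfx : v (f.eval x) ≤ r := by rw [← hφx]; exact hin _ hx.apply
    have e1 : x * (derivative f).eval x = ((aux g).eval x + c * (aux h).eval x +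
        (d : K) * f.eval x) + -(((d - e : ℕ) : K) * (c * h.eval x)) := by
      rw [hfdev, mul_add, aux_eval, hfev, Nat.cast_sub (by omega), mul_left_comm x c, aux_eval,
        ← hdd, ← hee]
      ring
    have h6 : r * r ^ (d - 1) = r ^ d := by
      rw [← pow_succ']; congr 1; omega
    have h7 : v (-(((d - e : ℕ) : K) * (c * h.eval x))) = r ^ d := by
      rw [map_neg_eq_map, map_mul, hde1, one_mul, map_mul, ← hrd,
        eval_eq_pow v hhc hhl (by rw [hxr]; exact hr1), ← hee, hxr, ← pow_add]
      congr 1; omega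
    have h8 : v ((aux g).eval x) ≤ r ^ (d - 1) :=
      eval_le v (aux_coeff_le v hgc) hr1.le hxr.le (by
        have := aux_natDegree g (by omega)
        omega)
    have h9 : v (c * (aux h).eval x) ≤ r ^ (d - 1) := by
      rcases Nat.eq_zero_or_pos e with h0 | h0
      · have : aux h = 0 := by
          have h1 : h = C (h.coeff 0) := eq_C_of_natDegree_eq_zero (by omega)
          unfold aux
          rw [← hee, h0, h1]
          simp
        rw [this, eval_zero, mul_zero, map_zero]
        positivity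
      · rw [map_mul, ← hrd]
        have h1 : v ((aux h).eval x) ≤ r ^ (e - 1) :=
          eval_le v (aux_coeff_le v hhc) hr1.le hxr.le (by
            have := aux_natDegree h (by omega)
            omega)
        calc r ^ (d - e) * v ((aux h).eval x) ≤ r ^ (d - e) * r ^ (e - 1) :=
              mul_le_mul_of_nonneg_left h1 (by positivity)
          _ = r ^ (d - 1) := by rw [← pow_add]; congr 1; omega
    have h10 : v ((d : K) * f.eval x) ≤ r ^ (d - 1) := by
      rw [map_mul]
      calc v (d : K) * v (f.eval x) ≤ 1 * r :=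
            mul_le_mul (natCast_le v d) hfx (apply_nonneg v _) zero_le_one
        _ = r ^ 1 := by rw [one_mul, pow_one]
        _ ≤ r ^ (d - 1) := hrle (by omega)
    have h11 : v ((aux g).eval x + c * (aux h).eval x + (d : K) * f.eval x) ≤ r ^ (d - 1) :=
      (FinitePlace.add_le v _ _).trans (max_le ((FinitePlace.add_le v _ _).trans
        (max_le h8 h9)) h10)
    have h5 : v (x * (derivative f).eval x) = r ^ d := by
      rw [e1, add_eq_of_lt v (by rw [h7]; exact h11.trans_lt (hrlt (by omega))), h7]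
    rw [map_mul, hxr, ← h6] at h5
    exact mul_left_cancel₀ hr0.ne' h5
  have hderB : ∀ x : K, v x ≤ 1 → v (h.eval x) < 1 → v (f.derivative.eval x) = r ^ (d - e) := by
    intro x hx1 hxh
    have h1 : v ((derivative g).eval x) ≤ 1 := eval_le_one v (derivative_coeff_le v hgc) hx1
    have h2 : v ((derivative h).eval x) ≤ 1 := eval_le_one v (derivative_coeff_le v hhc) hx1
    have h3 : v (A₀.eval x) ≤ 1 := eval_le_one v hAc hx1
    have h4 : v (B₀.eval x) ≤ 1 := eval_le_one v hBc hx1
    have h5 : A₀.eval x * h.eval x + B₀.eval x * (derivative h).eval x = 1 := by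
      have := congrArg (fun p : K[X] => p.eval x) hAB₀
      simpa using this
    have h6 : v (A₀.eval x * h.eval x) < 1 := by
      rw [map_mul]
      calc v (A₀.eval x) * v (h.eval x) ≤ 1 * v (h.eval x) :=
            mul_le_mul_of_nonneg_right h3 (apply_nonneg v _)
        _ < 1 := by rw [one_mul]; exact hxh
    have h7 : v (B₀.eval x * (derivative h).eval x) = 1 := by
      have e1 : B₀.eval x * (derivative h).eval x = -(A₀.eval x * h.eval x) + 1 := by
        rw [← h5]; ring
      rw [e1, add_eq_of_lt v (by rw [map_neg_eq_map, map_one]; exact h6), map_one]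
    have h8 : v ((derivative h).eval x) = 1 := by
      apply le_antisymm h2
      rw [map_mul] at h7
      rw [← h7]
      calc v (B₀.eval x) * v ((derivative h).eval x) ≤ 1 * v ((derivative h).eval x) :=
            mul_le_mul_of_nonneg_right h4 (apply_nonneg v _)
        _ = v ((derivative h).eval x) := one_mul _
    have h9 : v (c * (derivative h).eval x) = r ^ (d - e) := by
      rw [map_mul, h8, mul_one, hrd]
    rw [hfdev, add_eq_of_lt v (by rw [h9, hrd]; exact h1.trans_lt hc), h9]
  -- the two sets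
  obtain ⟨P, hP⟩ : ∃ P : Set K, P = {x : K | Preper φ x} := ⟨_, rfl⟩
  obtain ⟨A, hA⟩ : ∃ A : Set K, A = {x : K | Preper φ x ∧ v x = r} := ⟨_, rfl⟩
  obtain ⟨B, hB⟩ : ∃ B : Set K, B = {x : K | Preper φ x ∧ v x ≤ 1 ∧ v (h.eval x) < 1} := ⟨_, rfl⟩
  have memP : ∀ x, x ∈ P ↔ Preper φ x := fun x => by rw [hP]; rfl
  have memA : ∀ x, x ∈ A ↔ Preper φ x ∧ v x = r := fun x => by rw [hA]; rfl
  have memB : ∀ x, x ∈ B ↔ Preper φ x ∧ v x ≤ 1 ∧ v (h.eval x) < 1 := fun x => by rw [hB]; rfl
  have hPAB : P = A ∪ B := by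
    ext x
    rw [Set.mem_union, memP, memA, memB]
    constructor
    · intro hx
      rcases htype x hx with h1 | h1
      · exact Or.inl ⟨hx, h1⟩
      · exact Or.inr ⟨hx, h1⟩
    · rintro (h1 | h1)
      · exact h1.1
      · exact h1.1
  obtain ⟨cA, hcA⟩ := exists_class P (fun x y => v (x - y)) (r := r)
    (d := d) (by omega) (fun x y => pl_sub_comm x y) (fun x y z => pl_tri x y z)
    (fun x => by simpa using hr0) (by
      intro Y hYP hYs
      by_contra hcon
      push Not at hcon
      obtain ⟨Z, hZY, hZc⟩ := Finset.exists_subset_card_eq (s := Y) (n := f.natDegree + 1)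
        (by omega)
      refine lagrange hd2 hr0 hρ1 Z hZc (fun x hx y hy hxy => hYs x (hZY hx) y (hZY hy) hxy) ?_
      intro x hx y hy
      have h1 := hdist _ _ (((memP x).1 (hYP x (hZY hx))).apply)
        (((memP y).1 (hYP y (hZY hy))).apply)
      rwa [hφx, hφx] at h1)
  obtain ⟨cB, hcB⟩ := exists_class B (fun x y => v (x - y)) (r := 1)
    (d := d) (by omega) (fun x y => pl_sub_comm x y) (fun x y z => pl_tri x y z)
    (fun x => by simp) (by
      intro Y hYB hYs
      by_contra hcon
      push Not at hcon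
      obtain ⟨Z, hZY, hZc⟩ := Finset.exists_subset_card_eq (s := Y) (n := h.natDegree + 1)
        (by omega)
      exact lagrange_small v hh0 hhl Z hZc
        (fun x hx y hy hxy => hYs x (hZY hx) y (hZY hy) hxy)
        (fun x hx => ((memB x).1 (hYB x (hZY hx))).2.2))
  have hTS := two_scale v (P := P) (A := A) (B := B) (φ := φ) (r := r) (d := d) (e := e) hd hr1
    hPAB (fun x hx => (memP _).2 ((memP x).1 hx).apply)
    (fun x hx y hy => hdist x y ((memP x).1 hx) ((memP y).1 hy))
    (fun x hx y hy => by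
      have h1 := ((memA x).1 hx).2
      have h2 := ((memB y).1 hy).2.1
      rw [sub_eq_add_neg, pl_add_eq (by rw [pl_neg, h1]; linarith), h1])
    (fun x hx y hy => (pl_sub_le_max x y).trans
      (max_le ((memB x).1 hx).2.1 ((memB y).1 hy).2.1))
    (fun x hx y hy hxy => by
      have hy' := (memA y).1 hy
      have hyP : Preper (fun z => f.eval z) y := by rw [← hφ]; exact hy'.1
      have h1 := expand hd2 (x := x) (hE.recentre hd2 hyP)
        (by rw [hvlc, one_mul, hfd]; exact hderA y hy'.1 hy'.2) hxy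
      rw [hvlc, one_mul, hfd] at h1
      rw [hφx, hφx, h1])
    (fun x hx y hy hxy => by
      have hy' := (memB y).1 hy
      rw [hφx, hφx]
      refine expand_small v (by positivity) hy'.2.1 (fun i => ?_)
        (hderB y hy'.2.1 hy'.2.2) hxy
      rw [hf, map_add, coeff_add]
      refine (FinitePlace.add_le v _ _).trans (max_le
        ((taylor_coeff_le_one v hgc hy'.2.1 i).trans (one_le_pow₀ hr1.le)) ?_)
      have e1 : (taylor y (C c * h)).coeff i = c * (taylor y h).coeff i := by
        rw [taylor_mul, taylor_C, coeff_C_mul]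
      rw [e1, map_mul, hrd]
      calc v c * v ((taylor y h).coeff i) ≤ v c * 1 :=
            mul_le_mul_of_nonneg_left (taylor_coeff_le_one v hhc hy'.2.1 i) (by linarith)
        _ = v c := mul_one _)
    cA hcA cB hcB
  have hPset : P = {x : K | Preper (fun z => f.eval z) x} := by rw [hP, hφ]
  rw [hPset] at hTS
  have hc0 : c ≠ 0 := by
    rintro rfl
    rw [map_zero] at hc
    linarith
  have hc₀ : c₀ ≠ 0 := by
    rintro rfl
    rcases Nat.eq_zero_or_pos k with hk | hk
    · rw [hcdef, hk, pow_zero, map_one] at hc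
      exact lt_irrefl _ hc
    · exact hc0 (by rw [hcdef, zero_pow hk.ne'])
  by_cases hAe : A = ∅
  · refine ⟨1, r ^ (d - e), hTS.2 hAe, ?_, ?_⟩
    · refine hlw.trans (mul_le_mul_of_nonneg_left ?_ (Nat.cast_nonneg _))
      exact Real.log_le_log hr0 hrde.le
    · rintro - z w i j hz hw
      have hmk : m ∣ k := hm.trans (Nat.div_dvd_of_dvd (Nat.gcd_dvd_right _ _))
      obtain ⟨s, hs⟩ := hmk
      refine ⟨(c₀ ^ s) ^ (i - j), ?_⟩
      have hρ : r ^ (d - e) = v (c₀ ^ s) ^ m := by
        rw [hrd, hcdef, hs, ← map_pow, ← pow_mul, mul_comm s m]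
      rw [hz, hw, one_mul, one_mul, map_zpow₀]
      exact zpow_aux (by positivity) hρ i j
  · obtain ⟨x₀, hx₀⟩ := Set.nonempty_iff_ne_empty.2 hAe
    have hx₀' := (memA x₀).1 hx₀
    refine ⟨r, r, hTS.1, hlw, ?_⟩
    rintro - z w i j hz hw
    have hx0 : x₀ ≠ 0 := by
      rintro rfl
      rw [map_zero] at hx₀'
      linarith [hx₀'.2]
    obtain ⟨y, hy⟩ := root_val v hx0 hc₀ (n := d - e) (k := k) (by omega) (by
      rw [hx₀'.2, hrd, hcdef, map_pow])
    obtain ⟨s, hs⟩ := hm
    refine ⟨(y ^ s) ^ (i - j), ?_⟩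
    have hρ : r = v (y ^ s) ^ m := by
      rw [← hx₀'.2, hy, hs, map_pow, ← pow_mul, mul_comm s m]
    rw [hz, hw, map_zpow₀, mul_assoc, ← zpow_aux hr0 hρ i j]

end Pool.Agent.MP90787a.G
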